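import Mathlib
import Pool.Agent.H.MP_6c077c_gt.Ix.Class

/-! Sums of functions of two variables: the three arguments of the core. -/

set_option autoImplicit false

namespace Pool.Schoen

open Filter Set
open scoped Topology

variable {X Y : Type*} [TopologicalSpace X] [TopologicalSpace Y]

/-- The set `D` is relatively closed and relatively open in the closed set `{p ≤ c}`. -/
structure ClopLe (p : X → ℝ) (c : ℝ) (D : Set X) : Prop where
  sub : ∀ x ∈ D, p x ≤ c
  cl : IsClosed D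
  cl' : IsClosed {x | p x ≤ c ∧ x ∉ D}

/-- The set `E` is relatively closed and relatively open in the closed set `{c ≤ q}`. -/
structure ClopGe (q : Y → ℝ) (c : ℝ) (E : Set Y) : Prop where
  sub : ∀ y ∈ E, c ≤ q y
  cl : IsClosed E
  cl' : IsClosed {y | c ≤ q y ∧ y ∉ E}

/-- First argument: the body `{p x ≤ q y}` is disconnected. -/
theorem ts_core_top {p : X → ℝ} {q : Y → ℝ} (hq : Continuous q)
    (hW : IsPreconnected {z : X × Y | p z.1 ≤ q z.2}) {a b c : ℝ} (hbc : b ≤ c) {D : Set X}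
    {E : Set Y} (hD : ClopLe p c D) (hDa : ∀ x ∈ D, a < p x) (hE : ClopGe q a E)
    (hEb : ∀ y ∈ E, q y < b) {u u' : X} {y : Y} (hu : u ∈ D) (hu' : u' ∉ D) (hy : y ∈ E)
    (huy : p u ≤ q y) (huy' : p u' ≤ q y) : False := by
  have h1 : IsClosed (D ×ˢ E) := hD.cl.prod hE.cl
  have h2 : IsClosed (({x | p x ≤ c ∧ x ∉ D} ×ˢ (univ : Set Y)) ∪
      ((univ : Set X) ×ˢ {y | b ≤ q y}) ∪ ((univ : Set X) ×ˢ {y | a ≤ q y ∧ y ∉ E})) :=
    ((hD.cl'.prod isClosed_univ).union
      (isClosed_univ.prod (isClosed_le continuous_const hq))).union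
      (isClosed_univ.prod hE.cl')
  have h3 := (isPreconnected_iff_subset_of_disjoint_closed.1 hW) _ _ h1 h2 ?_ ?_
  · rcases h3 with h3 | h3
    · exact hu' (h3 (show (u', y) ∈ {z : X × Y | p z.1 ≤ q z.2} from huy')).1
    · rcases h3 (show (u, y) ∈ {z : X × Y | p z.1 ≤ q z.2} from huy) with (h4 | h4) | h4
      · exact h4.1.2 hu
      · exact absurd (hEb y hy) (not_lt.2 h4.2)
      · exact h4.2.2 hy
  · rintro ⟨x, y⟩ hz
    have hz' : p x ≤ q y := hz
    by_cases hx : x ∈ D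
    · by_cases hy : y ∈ E
      · exact Or.inl ⟨hx, hy⟩
      · exact Or.inr (Or.inr ⟨mem_univ _, (hDa x hx).le.trans hz', hy⟩)
    · rcases le_or_gt (p x) c with h | h
      · exact Or.inr (Or.inl (Or.inl ⟨⟨h, hx⟩, mem_univ _⟩))
      · exact Or.inr (Or.inl (Or.inr ⟨mem_univ _, hbc.trans (h.le.trans hz')⟩))
  · rw [Set.eq_empty_iff_forall_notMem]
    rintro ⟨x, y⟩ ⟨_, ⟨hx, hy⟩, (h4 | h4) | h4⟩
    · exact h4.1.2 hx
    · exact absurd (hEb y hy) (not_lt.2 h4.2)
    · exact h4.2.2 hy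

/-- A lift of the constant `1` along a preconnected set is constant. -/
theorem Core_const {Z : Type*} [TopologicalSpace Z] {K : Set Z} (hK : IsPreconnected K)
    {v : Z → ℝ} (hv : ContinuousOn v K) (h : ∀ z ∈ K, Complex.exp (v z * Complex.I) = 1) {z z' : Z}
    (hz : z ∈ K) (hz' : z' ∈ K) : v z = v z' := by
  have h1 : IsPreconnected (v '' K) := hK.image v hv
  have h2 : ∀ r ∈ v '' K, ∃ n : ℤ, r = n * (2 * Real.pi) := by
    rintro r ⟨w, hw, rfl⟩
    obtain ⟨n, hn⟩ := Complex.exp_eq_one_iff.1 (h w hw)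
    refine ⟨n, ?_⟩
    have h3 : ((v w : ℝ) : ℂ) * Complex.I = ((n * (2 * Real.pi) : ℝ) : ℂ) * Complex.I := by
      rw [hn]
      push_cast
      ring
    exact_mod_cast mul_right_cancel₀ Complex.I_ne_zero h3
  -- a preconnected set of multiples of `2 π`
  by_contra hne
  have hord := h1.ordConnected
  wlog hlt : v z < v z' generalizing z z'
  · exact this hz' hz (Ne.symm hne) (lt_of_le_of_ne (not_lt.1 hlt) (Ne.symm hne))
  obtain ⟨n, hn⟩ := h2 (v z) ⟨z, hz, rfl⟩
  have hpi := Real.pi_pos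
  obtain ⟨r, hr1, hr2⟩ : ∃ r : ℝ, v z < r ∧ (r < v z + 2 * Real.pi ∧ r ≤ v z') := by
    refine ⟨min (v z + Real.pi) (v z'), lt_min (by linarith) hlt, ?_, min_le_right _ _⟩
    exact (min_le_left _ _).trans_lt (by linarith)
  have hr : r ∈ v '' K := hord.out ⟨z, hz, rfl⟩ ⟨z', hz', rfl⟩ ⟨hr1.le, hr2.2⟩
  obtain ⟨m, hm⟩ := h2 r hr
  rw [hn, hm] at hr1
  rw [hn, hm] at hr2
  have h4 : (n : ℝ) < m := lt_of_mul_lt_mul_right hr1 (by positivity)
  have h5 : (m : ℝ) < n + 1 := by
    have : (m : ℝ) * (2 * Real.pi) < (n + 1) * (2 * Real.pi) := by linarith [hr2.1]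
    exact lt_of_mul_lt_mul_right this (by positivity)
  have h6 : n < m := by exact_mod_cast h4
  have h7 : m < n + 1 := by exact_mod_cast h5
  omega

open scoped Classical in
/-- A map of the body which is trivial off `D`. -/
noncomputable def coreMap (D : Set X) (g : X × Y → ℂ) (z : X × Y) : ℂ := if z.1 ∈ D then g z else 1

theorem coreMap_pos {D : Set X} (g : X × Y → ℂ) {z : X × Y} (h : z.1 ∈ D) : coreMap D g z = g z :=
  if_pos h

theorem coreMap_neg {D : Set X} (g : X × Y → ℂ) {z : X × Y} (h : z.1 ∉ D) : coreMap D g z = 1 :=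
  if_neg h

theorem coreMap_cont {p : X → ℝ} {q : Y → ℝ} (hp : Continuous p) (hq : Continuous q) {c : ℝ}
    {D : Set X} (hD : ClopLe p c D) {g : X × Y → ℂ}
    (hg : ContinuousOn g ({z : X × Y | p z.1 ≤ q z.2} ∩ {z | z.1 ∈ D}))
    (h1 : ∀ z : X × Y, z.1 ∈ D → c ≤ q z.2 → g z = 1) :
    ContinuousOn (coreMap D g) {z : X × Y | p z.1 ≤ q z.2} := by
  have hW : IsClosed {z : X × Y | p z.1 ≤ q z.2} :=
    isClosed_le (hp.comp continuous_fst) (hq.comp continuous_snd)
  have hclA : IsClosed {z : X × Y | z.1 ∈ D} := hD.cl.preimage continuous_fst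
  have hclB : IsClosed ({z : X × Y | p z.1 ≤ c ∧ z.1 ∉ D} ∪ {z | c ≤ q z.2}) :=
    (hD.cl'.preimage continuous_fst).union
      ((isClosed_le continuous_const hq).preimage continuous_snd)
  have hA : ContinuousOn (coreMap D g) ({z : X × Y | p z.1 ≤ q z.2} ∩ {z | z.1 ∈ D}) :=
    hg.congr fun z hz => coreMap_pos g hz.2
  have hB : ContinuousOn (coreMap D g) ({z : X × Y | p z.1 ≤ q z.2} ∩
      ({z | p z.1 ≤ c ∧ z.1 ∉ D} ∪ {z | c ≤ q z.2})) := by
    refine (continuousOn_const (c := (1 : ℂ))).congr ?_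
    rintro z ⟨_, h | h⟩
    · exact coreMap_neg g h.2
    · by_cases hz : z.1 ∈ D
      · rw [coreMap_pos g hz, h1 z hz h]
      · exact coreMap_neg g hz
  refine (hA.union_of_isClosed hB (hW.inter hclA) (hW.inter hclB)).mono ?_
  intro z hz
  have hz' : p z.1 ≤ q z.2 := hz
  by_cases hx : z.1 ∈ D
  · exact Or.inl ⟨hz, hx⟩
  · right
    refine ⟨hz, ?_⟩
    rcases le_or_gt (p z.1) c with h | h
    · exact Or.inl ⟨h, hx⟩
    · exact Or.inr (h.le.trans hz')

/-- Second argument: a map of the body to the circle with a nontrivial rectangle. -/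
theorem ts_core_ring [NormalSpace Y] {p : X → ℝ} {q : Y → ℝ} (hp : Continuous p) (hq : Continuous q)
    (hL : LiftS {z : X × Y | p z.1 ≤ q z.2}) {a b c d : ℝ} (hbc : b ≤ c) (hcd : c ≤ d)
    {D : Set X} {E : Set Y} (hD : ClopLe p c D) (hE : ClopGe q b E) {u u' : X} {e e' : Y}
    (hu : u ∈ D) (hu' : u' ∉ D) (he : e ∈ E) (he' : e' ∉ E) (hed : d ≤ q e) (hed' : d ≤ q e')
    (hua : p u ≤ a) (hua' : p u' ≤ a) {K : Set X} {K' : Set Y} (hK : IsPreconnected K)
    (hK' : IsPreconnected K') (huK : u ∈ K) (huK' : u' ∈ K) (heK : e ∈ K') (heK' : e' ∈ K')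
    (hKd : ∀ x ∈ K, p x ≤ d) (hKa : ∀ y ∈ K', a ≤ q y) : False := by
  -- the function `ψ`
  obtain ⟨ψ, hψ0, hψ1, -⟩ := exists_continuous_zero_one_of_isClosed
    (s := {y | y ∈ E ∧ c ≤ q y}) (t := {y | c ≤ q y ∧ (b ≤ q y ∧ y ∉ E)})
    (hE.cl.inter (isClosed_le continuous_const hq))
    ((isClosed_le continuous_const hq).inter hE.cl') (by
      rw [Set.disjoint_left]
      rintro y ⟨h1, _⟩ ⟨_, _, h2⟩
      exact h2 h1)
  have hψe : ψ e = 0 := hψ0 ⟨he, hcd.trans hed⟩
  have hψe' : ψ e' = 1 := hψ1 ⟨hcd.trans hed', hbc.trans (hcd.trans hed'), he'⟩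
  have hone : ∀ y, c ≤ q y → Complex.exp ((2 * Real.pi * ψ y : ℝ) * Complex.I) = 1 := by
    intro y hy
    by_cases h : y ∈ E
    · have h1 : ψ y = 0 := hψ0 ⟨h, hy⟩
      rw [h1]
      simp
    · have h1 : ψ y = 1 := hψ1 ⟨hy, hbc.trans hy, h⟩
      rw [h1, mul_one]
      push_cast
      exact Complex.exp_two_pi_mul_I
  obtain ⟨g, hg⟩ : ∃ g : X × Y → ℂ,
      g = fun z => Complex.exp ((2 * Real.pi * ψ z.2 : ℝ) * Complex.I) := ⟨_, rfl⟩
  have hgc : Continuous g := by
    rw [hg]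
    fun_prop
  have hcont := coreMap_cont hp hq hD (g := g) hgc.continuousOn (fun z _ hz => by
    rw [hg]
    exact hone z.2 hz)
  have hnorm : ∀ z ∈ {z : X × Y | p z.1 ≤ q z.2}, ‖coreMap D g z‖ = 1 := by
    intro z _
    by_cases h : z.1 ∈ D
    · rw [coreMap_pos g h, hg]
      exact Complex.norm_exp_ofReal_mul_I _
    · rw [coreMap_neg g h, norm_one]
  obtain ⟨v, hv, hvl⟩ := hL _ hcont hnorm
  have hWd : ∀ x y, p x ≤ d → d ≤ q y → (x, y) ∈ {z : X × Y | p z.1 ≤ q z.2} :=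
    fun x y h h' => h.trans h'
  have hWa : ∀ x y, p x ≤ a → a ≤ q y → (x, y) ∈ {z : X × Y | p z.1 ≤ q z.2} :=
    fun x y h h' => h.trans h'
  -- the horizontal sides
  have hor : ∀ y, d ≤ q y → v (u, y) = v (u', y) := by
    intro y hy
    refine Core_const hK (v := fun x => v (x, y)) ?_ ?_ huK huK'
    · exact hv.comp (by fun_prop : Continuous fun x : X => (x, y)).continuousOn
        fun x hx => hWd x y (hKd x hx) hy
    · intro x hx
      show Complex.exp (v (x, y) * Complex.I) = 1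
      rw [← hvl (x, y) (hWd x y (hKd x hx) hy)]
      by_cases h : x ∈ D
      · rw [coreMap_pos g (z := (x, y)) h, hg]
        exact hone y (hcd.trans hy)
      · exact coreMap_neg g (z := (x, y)) h
  -- the trivial vertical side
  have ver : v (u', e) = v (u', e') := by
    refine Core_const hK' (v := fun y => v (u', y)) ?_ ?_ heK heK'
    · exact hv.comp (by fun_prop : Continuous fun y : Y => (u', y)).continuousOn
        fun y hy => hWa u' y hua' (hKa y hy)
    · intro y hy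
      show Complex.exp (v (u', y) * Complex.I) = 1
      rw [← hvl (u', y) (hWa u' y hua' (hKa y hy))]
      exact coreMap_neg g (z := (u', y)) hu'
  -- the nontrivial vertical side
  have ver' : v (u, e) - 2 * Real.pi * ψ e = v (u, e') - 2 * Real.pi * ψ e' := by
    refine Core_const hK' (v := fun y => v (u, y) - 2 * Real.pi * ψ y) ?_ ?_ heK heK'
    · have h1 : ContinuousOn (fun y => v (u, y)) K' :=
        hv.comp (by fun_prop : Continuous fun y : Y => (u, y)).continuousOn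
          fun y hy => hWa u y hua (hKa y hy)
      have h2 : Continuous fun y : Y => 2 * Real.pi * ψ y := by fun_prop
      exact h1.sub h2.continuousOn
    · intro y hy
      have h1 := hvl (u, y) (hWa u y hua (hKa y hy))
      rw [coreMap_pos g (z := (u, y)) hu, hg] at h1
      have h2 : ((v (u, y) - 2 * Real.pi * ψ y : ℝ) : ℂ) * Complex.I =
          v (u, y) * Complex.I - ((2 * Real.pi * ψ y : ℝ) : ℂ) * Complex.I := by
        push_cast
        ring
      show Complex.exp (((v (u, y) - 2 * Real.pi * ψ y : ℝ) : ℂ) * Complex.I) = 1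
      rw [h2, Complex.exp_sub, ← h1, div_self (Complex.exp_ne_zero _)]
  have e1 := hor e hed
  have e2 := hor e' hed'
  rw [hψe, hψe'] at ver'
  have := Real.pi_pos
  linarith

/-- Third argument: a map `w` to the circle, defined where `a < q`, which has the logarithm `v` on
`{c ≤ q}` and no logarithm on `{p u ≤ q}`. -/
theorem ts_core_lift {p : X → ℝ} {q : Y → ℝ} (hp : Continuous p) (hq : Continuous q)
    (hL : LiftS {z : X × Y | p z.1 ≤ q z.2}) {a c : ℝ} {D : Set X} (hD : ClopLe p c D)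
    (hDa : ∀ x ∈ D, a < p x) {u : X} (hu : u ∈ D) {w : Y → ℂ}
    (hw : ContinuousOn w {y | a < q y}) (hw1 : ∀ y, a < q y → ‖w y‖ = 1) {v : Y → ℝ}
    (hv : Continuous v) (hwv : ∀ y, c ≤ q y → w y = Complex.exp (v y * Complex.I)) :
    ∃ v' : Y → ℝ, ContinuousOn v' {y | p u ≤ q y} ∧
      ∀ y, p u ≤ q y → w y = Complex.exp (v' y * Complex.I) := by
  obtain ⟨g, hg⟩ : ∃ g : X × Y → ℂ, g = fun z => w z.2 * Complex.exp (-(v z.2 * Complex.I)) :=
    ⟨_, rfl⟩
  have hmaps : ∀ z ∈ ({z : X × Y | p z.1 ≤ q z.2} ∩ {z | z.1 ∈ D}), z.2 ∈ {y | a < q y} := by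
    rintro z ⟨h1, h2⟩
    exact (hDa z.1 h2).trans_le h1
  have hgc : ContinuousOn g ({z : X × Y | p z.1 ≤ q z.2} ∩ {z | z.1 ∈ D}) := by
    rw [hg]
    refine (hw.comp continuous_snd.continuousOn hmaps).mul ?_
    have : Continuous fun z : X × Y => Complex.exp (-(v z.2 * Complex.I)) := by fun_prop
    exact this.continuousOn
  have hcont := coreMap_cont hp hq hD hgc (fun z _ hz => by
    rw [hg]
    show w z.2 * Complex.exp (-(v z.2 * Complex.I)) = 1
    rw [hwv z.2 hz, ← Complex.exp_add, add_neg_cancel, Complex.exp_zero])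
  have hnorm : ∀ z ∈ {z : X × Y | p z.1 ≤ q z.2}, ‖coreMap D g z‖ = 1 := by
    intro z hz
    by_cases h : z.1 ∈ D
    · rw [coreMap_pos g h, hg]
      show ‖w z.2 * Complex.exp (-(v z.2 * Complex.I))‖ = 1
      have h1 : -((v z.2 : ℂ) * Complex.I) = ((-v z.2 : ℝ) : ℂ) * Complex.I := by
        push_cast
        ring
      rw [norm_mul, hw1 z.2 (hmaps z ⟨hz, h⟩), h1, Complex.norm_exp_ofReal_mul_I, one_mul]
    · rw [coreMap_neg g h, norm_one]
  obtain ⟨L, hLc, hLl⟩ := hL _ hcont hnorm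
  have hmem : ∀ y, p u ≤ q y → (u, y) ∈ {z : X × Y | p z.1 ≤ q z.2} := fun y hy => hy
  refine ⟨fun y => L (u, y) + v y, ?_, fun y hy => ?_⟩
  · exact (hLc.comp (by fun_prop : Continuous fun y : Y => (u, y)).continuousOn
      fun y hy => hmem y hy).add hv.continuousOn
  · have h1 := hLl (u, y) (hmem y hy)
    rw [coreMap_pos g (z := (u, y)) hu, hg] at h1
    have h1' : w y * Complex.exp (-(v y * Complex.I)) = Complex.exp (L (u, y) * Complex.I) := h1
    have h2 : ((L (u, y) + v y : ℝ) : ℂ) * Complex.I = L (u, y) * Complex.I + v y * Complex.I := by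
      push_cast
      ring
    show w y = Complex.exp (((L (u, y) + v y : ℝ) : ℂ) * Complex.I)
    rw [h2, Complex.exp_add, ← h1', mul_assoc, ← Complex.exp_add, neg_add_cancel, Complex.exp_zero,
      mul_one]

end Pool.Schoen
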