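import Mathlib
import Pool.Agent.H.MP_6c077c_gt.Ts.CoreA
import Pool.Agent.H.MP_6c077c_gt.Ix.DescB

/-! Sums of functions of two variables: components of the sublevel sets at regular levels. -/

set_option autoImplicit false

namespace Pool.Schoen

open Filter Set
open scoped Topology RealInnerProductSpace

/-- `x` and `y` lie in a preconnected subset of `A`. -/
def Jn {Z : Type*} [TopologicalSpace Z] (A : Set Z) (x y : Z) : Prop :=
  ∃ K : Set Z, K ⊆ A ∧ IsPreconnected K ∧ x ∈ K ∧ y ∈ K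

section top

variable {Z : Type*} [TopologicalSpace Z] {A B : Set Z} {x y z : Z}

theorem Jn.symm (h : Jn A x y) : Jn A y x := by
  obtain ⟨K, h1, h2, h3, h4⟩ := h
  exact ⟨K, h1, h2, h4, h3⟩

theorem Jn.refl (h : x ∈ A) : Jn A x x :=
  ⟨{x}, singleton_subset_iff.2 h, isPreconnected_singleton, rfl, rfl⟩

theorem Jn.trans (h : Jn A x y) (h' : Jn A y z) : Jn A x z := by
  obtain ⟨K, h1, h2, h3, h4⟩ := h
  obtain ⟨K', h1', h2', h3', h4'⟩ := h'
  exact ⟨K ∪ K', union_subset h1 h1', h2.union y h4 h3' h2', Or.inl h3, Or.inr h4'⟩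

theorem Jn.mono (h : Jn A x y) (hAB : A ⊆ B) : Jn B x y := by
  obtain ⟨K, h1, h2, h3, h4⟩ := h
  exact ⟨K, h1.trans hAB, h2, h3, h4⟩

theorem Jn.left (h : Jn A x y) : x ∈ A := by
  obtain ⟨K, h1, h2, h3, h4⟩ := h
  exact h1 h3

theorem Jn.right (h : Jn A x y) : y ∈ A := h.symm.left

/-- A relatively clopen set contains with a point all points joined to it. -/
theorem ClopLe.jn {p : Z → ℝ} {c : ℝ} {D : Set Z} (hD : ClopLe p c D) (hx : x ∈ D)
    (h : Jn {z | p z ≤ c} x y) : y ∈ D := by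
  obtain ⟨K, h1, h2, h3, h4⟩ := h
  rcases (isPreconnected_iff_subset_of_disjoint_closed.1 h2) _ _ hD.cl hD.cl' (fun z hz => by
    by_cases h : z ∈ D
    · exact Or.inl h
    · exact Or.inr ⟨h1 hz, h⟩) (by
    rw [Set.eq_empty_iff_forall_notMem]
    rintro z ⟨_, hz1, hz2⟩
    exact hz2.2 hz1) with h5 | h5
  · exact h5 h4
  · exact absurd hx (h5 h3).2

/-- The complementary part. -/
theorem ClopLe.compl {p : Z → ℝ} {c : ℝ} {D : Set Z} (hD : ClopLe p c D) :
    ClopLe p c {z | p z ≤ c ∧ z ∉ D} := by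
  refine ⟨fun z hz => hz.1, hD.cl', ?_⟩
  have : {z | p z ≤ c ∧ z ∉ {z | p z ≤ c ∧ z ∉ D}} = D := by
    ext z
    constructor
    · rintro ⟨h1, h2⟩
      by_contra h
      exact h2 ⟨h1, h⟩
    · intro h
      exact ⟨hD.sub z h, fun h2 => h2.2 h⟩
  rw [this]
  exact hD.cl

theorem clopLe_neg {q : Z → ℝ} {c : ℝ} {E : Set Z} :
    ClopLe (fun z => -q z) (-c) E ↔ ClopGe q c E := by
  constructor
  · intro h
    refine ⟨fun z hz => neg_le_neg_iff.1 (h.sub z hz), h.cl, ?_⟩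
    have h1 := h.cl'
    simp only [neg_le_neg_iff] at h1
    exact h1
  · intro h
    refine ⟨fun z hz => neg_le_neg_iff.2 (h.sub z hz), h.cl, ?_⟩
    have h1 := h.cl'
    simp only [neg_le_neg_iff]
    exact h1

end top

variable {V : Type*} [NormedAddCommGroup V] [InnerProductSpace ℝ V]

/-- `t` is a regular value. -/
def Reg (h : V → ℝ) (t : ℝ) : Prop := ∀ x, h x = t → ∃ v, Desc1 h x v

theorem Reg.neg {h : V → ℝ} {t : ℝ} (hr : Reg h t) : Reg (fun x => -h x) (-t) := by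
  intro x hx
  obtain ⟨v, hv⟩ := hr x (neg_inj.1 hx)
  exact ⟨-v, Desc.neg hv⟩

variable {h : V → ℝ} {t : ℝ}

/-- Near a point of the level `t` all points of `{h ≤ t}` can be pushed down into one ball. -/
theorem reg_local (hc : Continuous h) {x : V} (hx : h x ≤ t) (hr : Reg h t) :
    ∃ U ∈ 𝓝 x, ∃ B : Set V, IsPreconnected B ∧ (∀ y ∈ B, h y < t) ∧ ∀ y ∈ U, h y ≤ t →
      ∃ K : Set V, IsPreconnected K ∧ y ∈ K ∧ (K ∩ B).Nonempty ∧ (∀ z ∈ K, h z ≤ h y) := by
  rcases hx.lt_or_eq with hx | hx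
  · have h1 : ∀ᶠ y in 𝓝 x, h y < t := hc.continuousAt.eventually_lt_const hx
    obtain ⟨δ, hδ, hb⟩ := Metric.eventually_nhds_iff_ball.1 h1
    exact ⟨Metric.ball x δ, Metric.ball_mem_nhds x hδ, Metric.ball x δ,
      (convex_ball x δ).isPreconnected, hb, fun y hy _ => ⟨{y}, isPreconnected_singleton, rfl,
        ⟨y, rfl, hy⟩, fun z hz => (by rw [mem_singleton_iff.1 hz])⟩⟩
  · obtain ⟨v, hv⟩ := hr x hx
    obtain ⟨c, hc0, d, hd, hu⟩ := hv.unif
    obtain ⟨s0, hs0⟩ : ∃ s0 : ℝ, s0 = d / 2 := ⟨_, rfl⟩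
    have hs00 : 0 < s0 := by rw [hs0]; positivity
    have hs0d : s0 < d := by rw [hs0]; linarith
    have hlow : h (x + s0 • v) < t := by
      have := hu x (by simpa using hd) v (by simpa using hd) s0 hs00 hs0d
      have := mul_pos hc0 hs00
      linarith
    have h1 : ∀ᶠ y in 𝓝 (x + s0 • v), h y < t := hc.continuousAt.eventually_lt_const hlow
    obtain ⟨δ, hδ, hb⟩ := Metric.eventually_nhds_iff_ball.1 h1
    refine ⟨Metric.ball x (min δ d), Metric.ball_mem_nhds x (lt_min hδ hd),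
      Metric.ball (x + s0 • v) δ, (convex_ball _ _).isPreconnected, hb, ?_⟩
    intro y hy hyt
    rw [Metric.mem_ball, dist_eq_norm] at hy
    refine ⟨(fun s : ℝ => y + s • v) '' Icc (0 : ℝ) s0, ?_, ⟨0, ⟨le_rfl, hs00.le⟩, by simp⟩,
      ⟨y + s0 • v, ⟨s0, ⟨hs00.le, le_rfl⟩, rfl⟩, ?_⟩, ?_⟩
    · have hcs : Continuous fun s : ℝ => y + s • v := by fun_prop
      exact isPreconnected_Icc.image _ hcs.continuousOn
    · rw [Metric.mem_ball, dist_eq_norm]
      have e1 : y + s0 • v - (x + s0 • v) = y - x := by abel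
      rw [e1]
      exact hy.trans_le (min_le_left _ _)
    · rintro z ⟨s, hs, rfl⟩
      show h (y + s • v) ≤ h y
      rcases hs.1.eq_or_lt with h2 | h2
      · rw [← h2, zero_smul, add_zero]
      · have h3 := hu y (hy.trans_le (min_le_right _ _)) v (by simpa using hd) s h2
          (hs.2.trans_lt hs0d)
        have := mul_pos hc0 h2
        linarith

/-- Near a point of `{h ≤ t}` all points of `{h ≤ t}` are joined in `{h ≤ t}`. -/
theorem sep_local (hc : Continuous h) (hr : Reg h t) {x : V} (hx : h x ≤ t) :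
    ∃ U ∈ 𝓝 x, ∀ y ∈ U, h y ≤ t → Jn {z | h z ≤ t} x y := by
  obtain ⟨U, hU, B, hB, hBt, hK⟩ := reg_local hc hx hr
  refine ⟨U, hU, fun y hy hyt => ?_⟩
  have key : ∀ y ∈ U, h y ≤ t → ∃ b ∈ B, Jn {z | h z ≤ t} y b := by
    intro y hy hyt
    obtain ⟨K, h1, h2, ⟨b, hb, hbB⟩, h4⟩ := hK y hy hyt
    exact ⟨b, hbB, K, fun z hz => (h4 z hz).trans hyt, h1, h2, hb⟩
  obtain ⟨b, hb, h1⟩ := key x (mem_of_mem_nhds hU) hx
  obtain ⟨b', hb', h2⟩ := key y hy hyt
  exact h1.trans (Jn.trans ⟨B, fun z hz => (hBt z hz).le, hB, hb, hb'⟩ h2.symm)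

/-- Near a point of `{h ≤ t}` all points of `{h < t}` are joined in `{h < t}`. -/
theorem sep_local_lt (hc : Continuous h) (hr : Reg h t) {x : V} (hx : h x ≤ t) :
    ∃ U ∈ 𝓝 x, ∀ y ∈ U, ∀ y' ∈ U, h y < t → h y' < t → Jn {z | h z < t} y y' := by
  obtain ⟨U, hU, B, hB, hBt, hK⟩ := reg_local hc hx hr
  refine ⟨U, hU, fun y hy y' hy' hyt hyt' => ?_⟩
  have key : ∀ y ∈ U, h y < t → ∃ b ∈ B, Jn {z | h z < t} y b := by
    intro y hy hyt
    obtain ⟨K, h1, h2, ⟨b, hb, hbB⟩, h4⟩ := hK y hy hyt.le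
    exact ⟨b, hbB, K, fun z hz => (h4 z hz).trans_lt hyt, h1, h2, hb⟩
  obtain ⟨b, hb, h1⟩ := key y hy hyt
  obtain ⟨b', hb', h2⟩ := key y' hy' hyt'
  exact h1.trans (Jn.trans ⟨B, fun z hz => hBt z hz, hB, hb, hb'⟩ h2.symm)

/-- The points of a regular level are limits of lower points. -/
theorem reg_closure (hr : Reg h t) {x : V} (hx : h x = t) :
    x ∈ closure {z | h z < t} := by
  obtain ⟨v, hv⟩ := hr x hx
  obtain ⟨c, hc0, d, hd, hu⟩ := hv.unif
  rw [mem_closure_iff_nhds]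
  intro U hU
  have hc : Continuous fun s : ℝ => x + s • v := by fun_prop
  have h4 : ∀ᶠ s in 𝓝[>] (0 : ℝ), x + s • v ∈ U := by
    have h5 := hc.tendsto 0
    rw [zero_smul, add_zero] at h5
    exact (h5.mono_left nhdsWithin_le_nhds).eventually hU
  obtain ⟨s, hs1, hs2⟩ := (h4.and (Ioo_mem_nhdsGT hd)).exists
  refine ⟨_, hs1, ?_⟩
  have h1 := hu x (by simpa using hd) v (by simpa using hd) s hs2.1 hs2.2
  have h2 := mul_pos hc0 hs2.1
  show h (x + s • v) < t
  linarith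

/-- The component of a point in `{h ≤ t}` is relatively clopen. -/
theorem sep_clop (hc : Continuous h) (hr : Reg h t) {x : V} :
    ClopLe h t {y | Jn {z | h z ≤ t} x y} := by
  have hcl : IsClosed {z | h z ≤ t} := isClosed_le hc continuous_const
  refine ⟨fun y hy => hy.right, ?_, ?_⟩
  · refine isClosed_of_closure_subset fun z hz => ?_
    have hzt : h z ≤ t := closure_minimal (fun y (hy : Jn {z | h z ≤ t} x y) => hy.right) hcl hz
    obtain ⟨U, hU, hj⟩ := sep_local hc hr hzt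
    obtain ⟨y, hyU, hy⟩ := mem_closure_iff_nhds.1 hz U hU
    exact hy.trans (hj y hyU hy.right).symm
  · refine isClosed_of_closure_subset fun z hz => ?_
    have hzt : h z ≤ t := closure_minimal (fun y hy => hy.1) hcl hz
    refine ⟨hzt, fun hxz => ?_⟩
    obtain ⟨U, hU, hj⟩ := sep_local hc hr hzt
    obtain ⟨y, hyU, hy⟩ := mem_closure_iff_nhds.1 hz U hU
    exact hy.2 (hxz.trans (hj y hyU hy.1))

/-- At a regular level: points below it which are joined in `{h ≤ t}` are joined in `{h < t}`. -/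
theorem jn_lt_of_le (hc : Continuous h) (hr : Reg h t) {x y : V} (hx : h x < t) (hy : h y < t)
    (hj : Jn {z | h z ≤ t} x y) : Jn {z | h z < t} x y := by
  obtain ⟨K, hK, hKp, hxK, hyK⟩ := hj
  obtain ⟨C, hC⟩ : ∃ C : Set V, C = {z | Jn {z | h z < t} x z} := ⟨_, rfl⟩
  obtain ⟨C', hC'⟩ : ∃ C' : Set V, C' = {z | h z < t ∧ z ∉ C} := ⟨_, rfl⟩
  have hxC : x ∈ C := by
    rw [hC]
    exact Jn.refl hx
  have hdis : ∀ z, h z ≤ t → z ∈ closure C → z ∈ closure C' → False := by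
    intro z hz h1 h2
    obtain ⟨U, hU, hj⟩ := sep_local_lt hc hr hz
    obtain ⟨y1, hy1U, hy1⟩ := mem_closure_iff_nhds.1 h1 U hU
    obtain ⟨y2, hy2U, hy2⟩ := mem_closure_iff_nhds.1 h2 U hU
    rw [hC] at hy1
    rw [hC'] at hy2
    apply hy2.2
    rw [hC]
    have hy1' : Jn {z | h z < t} x y1 := hy1
    exact hy1'.trans (hj y1 hy1U y2 hy2U hy1'.right hy2.1)
  have hcov : K ⊆ closure C ∪ closure C' := by
    intro z hz
    rw [← closure_union]
    have hzt : h z ≤ t := hK hz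
    have hsub : {z | h z < t} ⊆ C ∪ C' := by
      intro w hw
      by_cases h1 : w ∈ C
      · exact Or.inl h1
      · right
        rw [hC']
        exact ⟨hw, h1⟩
    rcases hzt.lt_or_eq with h1 | h1
    · exact subset_closure (hsub h1)
    · exact closure_mono hsub (reg_closure hr h1)
  rcases (isPreconnected_iff_subset_of_disjoint_closed.1 hKp) _ _ isClosed_closure isClosed_closure
    hcov (by
    rw [Set.eq_empty_iff_forall_notMem]
    rintro z ⟨hz, hz1, hz2⟩
    exact hdis z (hK hz) hz1 hz2) with h1 | h1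
  · have h2 := h1 hyK
    have h3 : IsOpen {z | h z < t} := isOpen_lt hc continuous_const
    obtain ⟨U, hU, hj⟩ := sep_local_lt hc hr hy.le
    obtain ⟨y1, hy1U, hy1⟩ := mem_closure_iff_nhds.1 h2 U hU
    rw [hC] at hy1
    have hy1' : Jn {z | h z < t} x y1 := hy1
    exact hy1'.trans (hj y1 hy1U y (mem_of_mem_nhds hU) hy1'.right hy)
  · exact absurd (h1 hxK) fun h2 => hdis x hx.le (subset_closure hxC) h2

/-- Points joined in the open set `{h < t}` are joined in a lower sublevel set. -/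
theorem jn_lower (hc : Continuous h) {x y : V} (hj : Jn {z | h z < t} x y) :
    ∃ s < t, Jn {z | h z ≤ s} x y := by
  obtain ⟨K, hK, hKp, hxK, hyK⟩ := hj
  have hopen : IsOpen {z | h z < t} := isOpen_lt hc continuous_const
  have h1 : IsOpen (connectedComponentIn {z | h z < t} x) := hopen.connectedComponentIn
  have h2 : IsConnected (connectedComponentIn {z | h z < t} x) :=
    isConnected_connectedComponentIn_iff.2 (hK hxK)
  have h3 : IsPathConnected (connectedComponentIn {z | h z < t} x) :=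
    (h1.isConnected_iff_isPathConnected).1 h2
  have hsub := hKp.subset_connectedComponentIn hxK hK
  obtain ⟨γ, hγ⟩ := h3.joinedIn x (hsub hxK) y (hsub hyK)
  have hcomp : IsCompact (range γ) := isCompact_range γ.continuous
  obtain ⟨z, hz, hmax⟩ := hcomp.exists_isMaxOn ⟨_, ⟨0, rfl⟩⟩ hc.continuousOn
  refine ⟨h z, ?_, range γ, fun w hw => hmax hw, isPreconnected_range γ.continuous,
    ⟨0, γ.source⟩, ⟨1, γ.target⟩⟩
  obtain ⟨s, rfl⟩ := hz
  have h4 : γ s ∈ {z | h z < t} := connectedComponentIn_subset _ _ (hγ s)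
  exact h4

/-- Points of `{h ≤ t}` which are not joined there are not joined in slightly higher sublevel
sets. -/
theorem not_jn_upper [FiniteDimensional ℝ V] (hc : Continuous h) (hr : Reg h t) {T : ℝ}
    (hT : t < T) (hb : Bornology.IsBounded {z | t ≤ h z ∧ h z ≤ T}) {x y : V} (hx : h x ≤ t)
    (hy : h y ≤ t) (hj : ¬ Jn {z | h z ≤ t} x y) :
    ∃ s, t < s ∧ s ≤ T ∧ ¬ Jn {z | h z ≤ s} x y := by
  have hD := sep_clop hc hr (x := x)
  obtain ⟨O, O', hO, hO', h1, h2, h3⟩ := normal_separation (s := {y | Jn {z | h z ≤ t} x y})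
    (t := {y | h y ≤ t ∧ y ∉ {y | Jn {z | h z ≤ t} x y}}) hD.cl hD.cl' (by
      rw [Set.disjoint_left]
      intro z hz hz'
      exact hz'.2 hz)
  have hcov : ∀ z, h z ≤ t → z ∈ O ∪ O' := by
    intro z hz
    by_cases h4 : Jn {z | h z ≤ t} x z
    · exact Or.inl (h1 h4)
    · exact Or.inr (h2 ⟨hz, h4⟩)
  have hcomp : IsCompact ({z | t ≤ h z ∧ h z ≤ T} \ (O ∪ O')) := by
    refine Metric.isCompact_of_isClosed_isBounded ?_ (hb.subset sdiff_subset)
    exact ((isClosed_le continuous_const hc).inter (isClosed_le hc continuous_const)).sdiff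
      (hO.union hO')
  obtain ⟨s, hts, hsT, hs⟩ : ∃ s, t < s ∧ s ≤ T ∧ ∀ z, h z ≤ s → z ∈ O ∪ O' := by
    rcases ({z | t ≤ h z ∧ h z ≤ T} \ (O ∪ O')).eq_empty_or_nonempty with he | hne
    · refine ⟨T, hT, le_rfl, fun z hz => ?_⟩
      rcases le_or_gt (h z) t with h4 | h4
      · exact hcov z h4
      · by_contra h5
        have : z ∈ ({z | t ≤ h z ∧ h z ≤ T} \ (O ∪ O')) := ⟨⟨h4.le, hz⟩, h5⟩
        rw [he] at this
        exact this
    · obtain ⟨m, hm, hmin⟩ := hcomp.exists_isMinOn hne hc.continuousOn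
      have hmt : t < h m := by
        rcases hm.1.1.lt_or_eq with h4 | h4
        · exact h4
        · exact absurd (hcov m h4.ge) hm.2
      refine ⟨(t + h m) / 2, by linarith, by linarith [hm.1.2], fun z hz => ?_⟩
      rcases le_or_gt (h z) t with h4 | h4
      · exact hcov z h4
      · by_contra h5
        have h6 : h m ≤ h z := hmin (show z ∈ ({z | t ≤ h z ∧ h z ≤ T} \ (O ∪ O')) from
          ⟨⟨h4.le, by linarith [hm.1.2]⟩, h5⟩)
        linarith
  refine ⟨s, hts, hsT, ?_⟩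
  rintro ⟨K, hK, hKp, hxK, hyK⟩
  have h4 := hKp.subset_left_of_subset_union hO hO' h3 (fun z hz => hs z (hK hz))
    ⟨x, hxK, h1 (Jn.refl hx)⟩
  have h5 : y ∈ O' := h2 ⟨hy, hj⟩
  exact Set.disjoint_left.1 h3 (h4 hyK) h5

/-- In a regular interval no components of the sublevel sets merge. -/
theorem push_jn [FiniteDimensional ℝ V] (hc : Continuous h) {a b : ℝ} (hab : a ≤ b)
    (hr : ∀ t ∈ Icc a b, Reg h t) (hb : Bornology.IsBounded {z | a ≤ h z ∧ h z ≤ b}) {x y : V}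
    (hx : h x ≤ a) (hy : h y ≤ a) (hj : Jn {z | h z ≤ b} x y) : Jn {z | h z ≤ a} x y := by
  obtain ⟨S, hS⟩ : ∃ S : Set ℝ, S = {t | t ∈ Icc a b ∧ Jn {z | h z ≤ t} x y} := ⟨_, rfl⟩
  have hbS : b ∈ S := by
    rw [hS]
    exact ⟨⟨hab, le_rfl⟩, hj⟩
  have hbdd : BddBelow S := ⟨a, fun t ht => by
    rw [hS] at ht
    exact ht.1.1⟩
  have hI : sInf S ∈ Icc a b := ⟨le_csInf ⟨b, hbS⟩ fun t ht => by
    rw [hS] at ht
    exact ht.1.1, csInf_le hbdd hbS⟩
  have hmem : Jn {z | h z ≤ sInf S} x y := by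
    by_contra hn
    have hlt : sInf S < b := by
      rcases hI.2.lt_or_eq with h1 | h1
      · exact h1
      · rw [h1] at hn
        exact absurd hj hn
    obtain ⟨s, hs1, hs2, hs3⟩ := not_jn_upper hc (hr _ hI) hlt
      (hb.subset fun z hz => ⟨hI.1.trans hz.1, hz.2⟩) (hx.trans hI.1) (hy.trans hI.1) hn
    obtain ⟨t, ht, hts⟩ := exists_lt_of_csInf_lt ⟨b, hbS⟩ hs1
    rw [hS] at ht
    exact hs3 (ht.2.mono fun z (hz : h z ≤ t) => hz.trans hts.le)
  rcases hI.1.lt_or_eq with h1 | h1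
  · exfalso
    obtain ⟨s, hs1, hs2⟩ := jn_lower hc (jn_lt_of_le hc (hr _ hI) (hx.trans_lt h1)
      (hy.trans_lt h1) hmem)
    have h2 : max s a ∈ S := by
      rw [hS]
      exact ⟨⟨le_max_right _ _, (max_lt hs1 h1).le.trans hI.2⟩,
        hs2.mono fun z (hz : h z ≤ s) => hz.trans (le_max_left _ _)⟩
    exact absurd (csInf_le hbdd h2) (not_le.2 (max_lt hs1 h1))
  · rw [h1]
    exact hmem

/-- In a regular interval no components of the sublevel sets are born. -/
theorem push_meet [FiniteDimensional ℝ V] (hc : Continuous h) {a b : ℝ}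
    (hr : ∀ t ∈ Icc a b, Reg h t) (hb : Bornology.IsBounded {z | a ≤ h z ∧ h z ≤ b}) {D : Set V}
    (hD : ClopLe h b D) (hne : D.Nonempty) : ∃ x ∈ D, h x ≤ a := by
  by_contra hcon
  push Not at hcon
  have hcomp : IsCompact D := Metric.isCompact_of_isClosed_isBounded hD.cl
    (hb.subset fun z hz => ⟨(hcon z hz).le, hD.sub z hz⟩)
  obtain ⟨m, hm, hmin⟩ := hcomp.exists_isMinOn hne hc.continuousOn
  have hmI : h m ∈ Icc a b := ⟨(hcon m hm).le, hD.sub m hm⟩
  obtain ⟨v, hv⟩ := hr _ hmI m rfl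
  obtain ⟨c, hc0, d, hd, hu⟩ := hv.unif
  have hs : ∀ s : ℝ, 0 < s → s < d → h (m + s • v) < h m := by
    intro s h1 h2
    have h3 := hu m (by simpa using hd) v (by simpa using hd) s h1 h2
    have := mul_pos hc0 h1
    linarith
  have hj : Jn {z | h z ≤ b} m (m + (d / 2) • v) := by
    refine ⟨(fun s : ℝ => m + s • v) '' Icc (0 : ℝ) (d / 2), ?_, ?_,
      ⟨0, ⟨le_rfl, by positivity⟩, by simp⟩, ⟨d / 2, ⟨by positivity, le_rfl⟩, rfl⟩⟩
    · rintro z ⟨s, hs1, rfl⟩
      rcases hs1.1.eq_or_lt with h2 | h2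
      · show h (m + s • v) ≤ b
        rw [← h2, zero_smul, add_zero]
        exact hmI.2
      · exact (hs s h2 (by linarith [hs1.2])).le.trans hmI.2
    · have hcs : Continuous fun s : ℝ => m + s • v := by fun_prop
      exact isPreconnected_Icc.image _ hcs.continuousOn
  have h1 := hmin (hD.jn hm hj)
  have h2 := hs (d / 2) (by positivity) (by linarith)
  have h3 : h m ≤ h (m + (d / 2) • v) := h1
  linarith

end Pool.Schoen
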