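import Pool.Agent.H.MP_6c077c_gt.Ts.Defs

/-! Theorem TS: components of the complement of a closed connected set. -/

set_option autoImplicit false

namespace Pool.Schoen

open Filter Set
open scoped Topology

variable {X : Type*} [TopologicalSpace X] [LocallyConnectedSpace X]

theorem compK_open {K : Set X} (hK : IsClosed K) (z : X) :
    IsOpen (connectedComponentIn Kᶜ z) :=
  hK.isOpen_compl.connectedComponentIn

omit [LocallyConnectedSpace X] in
theorem compK_disj {F : Set X} {y z : X} (hy : y ∈ F) (h : y ∉ connectedComponentIn F z) :
    Disjoint (connectedComponentIn F y) (connectedComponentIn F z) := by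
  rw [disjoint_left]
  intro w h1 h2
  apply h
  rw [connectedComponentIn_eq h2, ← connectedComponentIn_eq h1]
  exact mem_connectedComponentIn hy

/-- A boundary point of a component of the complement of `K` is in `K` (otherwise its component in `Kᶜ` is
open and meets the given one). -/
theorem compK_frontier {K : Set X} (hK : IsClosed K) {y z : X}
    (h : y ∈ closure (connectedComponentIn Kᶜ z)) (h' : y ∉ connectedComponentIn Kᶜ z) : y ∈ K := by
  by_contra hy
  obtain ⟨w, h1, h2⟩ := mem_closure_iff.1 h _ (compK_open hK y) (mem_connectedComponentIn hy)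
  exact (compK_disj hy h').le_bot ⟨h1, h2⟩

/-- A component of the complement together with `K` is connected. PROOF. If `z ∈ K` the component is
empty. Otherwise it is open, nonempty, not everything, so it is not closed; a boundary point is in `K`
(`compK_frontier`). -/
theorem compK_union [PreconnectedSpace X] {K : Set X} (hK : IsClosed K) (cK : IsPreconnected K)
    (nK : K.Nonempty) (z : X) : IsPreconnected (connectedComponentIn Kᶜ z ∪ K) := by
  by_cases hz : z ∈ K
  · rw [connectedComponentIn_eq_empty (notMem_compl_iff.2 hz), empty_union]
    exact cK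
  · have hzC : z ∈ connectedComponentIn Kᶜ z := mem_connectedComponentIn hz
    obtain ⟨y, hy1, hy2⟩ : ∃ y, y ∈ closure (connectedComponentIn Kᶜ z) ∧ y ∈ K := by
      by_contra hno
      push Not at hno
      have hcl : IsClosed (connectedComponentIn Kᶜ z) := by
        refine isClosed_of_closure_subset fun y hy => ?_
        by_contra h'
        exact hno y hy (compK_frontier hK hy h')
      have huniv : connectedComponentIn Kᶜ z = univ :=
        IsClopen.eq_univ ⟨hcl, compK_open hK z⟩ ⟨z, hzC⟩
      obtain ⟨k, hk⟩ := nK
      have hk' : k ∈ connectedComponentIn Kᶜ z := huniv ▸ mem_univ k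
      exact connectedComponentIn_subset _ _ hk' hk
    have h1 : IsPreconnected (insert y (connectedComponentIn Kᶜ z)) :=
      isPreconnected_connectedComponentIn.subset_closure (subset_insert _ _)
        (insert_subset hy1 subset_closure)
    have h2 := h1.union y (mem_insert _ _) hy2 cK
    have h3 : insert y (connectedComponentIn Kᶜ z) ∪ K = connectedComponentIn Kᶜ z ∪ K := by
      rw [insert_union]
      exact insert_eq_of_mem (mem_union_right _ hy2)
    rwa [h3] at h2

/-- The complement of a component of the complement of `K` is connected. PROOF. It is the union of `K`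
and of the other components; `compK_union`, `isPreconnected_of_forall` with a point of `K`. -/
theorem compK_compl [PreconnectedSpace X] {K : Set X} (hK : IsClosed K) (cK : IsPreconnected K)
    (nK : K.Nonempty) (z : X) : IsPreconnected (connectedComponentIn Kᶜ z)ᶜ := by
  obtain ⟨k, hk⟩ := nK
  have hKC : K ⊆ (connectedComponentIn Kᶜ z)ᶜ := fun x hx h =>
    connectedComponentIn_subset _ _ h hx
  refine isPreconnected_of_forall k fun y hy => ?_
  by_cases hyK : y ∈ K
  · exact ⟨K, hKC, hk, hyK, cK⟩
  · refine ⟨connectedComponentIn Kᶜ y ∪ K, union_subset ?_ hKC, Or.inr hk,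
      Or.inl (mem_connectedComponentIn hyK), compK_union hK cK ⟨k, hk⟩ y⟩
    exact fun x hx h => (compK_disj hyK hy).le_bot ⟨hx, h⟩

/-- PROOF. `K` is connected and disjoint from `L`, so it is in the second set. A point `z ∉ K` not in the
first set: its component `C` in `Kᶜ` is disjoint from the component of `l`, which contains `L` (`L` is
connected in `Kᶜ`), so `C ∪ K` (`compK_union`) is a connected set in `Lᶜ` which contains `k`. -/
theorem compK_cover [PreconnectedSpace X] {K L : Set X} (hK : IsClosed K) (hL : IsClosed L)
    (cK : IsPreconnected K) (cL : IsPreconnected L) (hd : Disjoint K L) {k l : X} (hk : k ∈ K)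
    (hl : l ∈ L) : connectedComponentIn Kᶜ l ∪ connectedComponentIn Lᶜ k = univ := by
  have hKL : K ⊆ Lᶜ := hd.subset_compl_right
  have hLK : L ⊆ Kᶜ := hd.symm.subset_compl_right
  have hLc : L ⊆ connectedComponentIn Kᶜ l := cL.subset_connectedComponentIn hl hLK
  rw [eq_univ_iff_forall]
  intro x
  by_cases hx : x ∈ K
  · exact Or.inr (cK.subset_connectedComponentIn hk hKL hx)
  · by_cases hxl : x ∈ connectedComponentIn Kᶜ l
    · exact Or.inl hxl
    · right
      have h1 : connectedComponentIn Kᶜ x ∪ K ⊆ Lᶜ :=
        union_subset (fun y hy hyL => (compK_disj hx hxl).le_bot ⟨hy, hLc hyL⟩) hKL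
      exact (compK_union hK cK ⟨k, hk⟩ x).subset_connectedComponentIn (Or.inr hk) h1
        (Or.inl (mem_connectedComponentIn hx))

end Pool.Schoen
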