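import Pool.Agent.H.MP_6c077c_gt.Ts.Comp
import Pool.Agent.H.MP_6c077c_gt.Ts.Sep
import Pool.Agent.H.MP_6c077c_gt.Ix.TopC
import Pool.Agent.H.MP_6c077c_gt.Ix.Trunc

/-! Theorem TS: regular intervals do not change the components. -/

set_option autoImplicit false

namespace Pool.Schoen

open Filter Set Metric
open scoped Topology RealInnerProductSpace ContDiff

/-- All values of a regular interval are regular. -/
theorem TReg.reg {h : ℂ → ℝ} {a b : ℝ} (hr : TReg h a b) : ∀ t ∈ Icc a b, Reg h t := by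
  intro t ht x hx
  exact hr x (hx ▸ ht.1) (hx ▸ ht.2)

theorem Con.jn {X : Type*} [TopologicalSpace X] {A : Set X} {x y : X} (h : Con A x y) :
    Jn A x y := by
  obtain ⟨T, h1, h2, h3, h4⟩ := h
  exact ⟨T, h1, h2, h3, h4⟩

theorem Jn.con {X : Type*} [TopologicalSpace X] {A : Set X} {x y : X} (h : Jn A x y) :
    Con A x y := by
  obtain ⟨T, h1, h2, h3, h4⟩ := h
  exact ⟨T, h1, h2, h3, h4⟩

theorem Clp.clopLe {h : ℂ → ℝ} {b : ℝ} {E : Set ℂ} (hE : Clp E {y | h y ≤ b}) :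
    ClopLe h b E :=
  ⟨fun _ hx => hE.1 hx, hE.2.1, hE.2.2⟩

/-- The slab between the levels is bounded. -/
theorem push_slab {h : ℂ → ℝ} {R lo hi a b : ℝ} (ht : Tame R lo hi h) (h1 : lo ≤ a)
    (h2 : b ≤ hi) : Bornology.IsBounded {z | a ≤ h z ∧ h z ≤ b} := by
  refine (isBounded_ball (x := (0 : ℂ)) (r := R)).subset fun z hz => ?_
  rw [mem_ball_zero_iff]
  exact ht.slab_bdd (h1.trans hz.1) (hz.2.trans h2)

/-- No births in a regular interval: `E` is compact (`E` is in the slab, which is bounded by `Tame`); at a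
minimum of `h` on `E` there is no descent direction (`E` is relatively open in `{h ≤ b}`). -/
theorem no_birth {h : ℂ → ℝ} (hc : Continuous h) {R lo hi a b : ℝ} (ht : Tame R lo hi h)
    (h1 : lo ≤ a) (h2 : b ≤ hi) (hr : TReg h a b) {E : Set ℂ} (hE : Clp E {y | h y ≤ b})
    (hEa : ∀ x ∈ E, a < h x) : E = ∅ := by
  by_contra hne
  obtain ⟨x, hx, hxa⟩ := push_meet hc hr.reg (push_slab ht h1 h2) hE.clopLe
    (Set.nonempty_iff_ne_empty.2 hne)
  exact absurd (hEa x hx) (not_lt.2 hxa)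

/-- The bounded case. -/
theorem con_push_bdd {h : ℂ → ℝ} (hc : Continuous h) {a b : ℝ} (hab : a ≤ b)
    (hb : Bornology.IsBounded {y | h y ≤ b}) (hr : TReg h a b) {x x' : ℂ} (hx : h x ≤ a)
    (hx' : h x' ≤ a) (h1 : Con {y | h y ≤ b} x x') : Con {y | h y ≤ a} x x' :=
  (push_jn hc hab hr.reg (hb.subset fun _ hz => hz.2) hx hx' h1.jn).con

theorem con_push {h : ℂ → ℝ} (hc : Continuous h) {R lo hi a b : ℝ} (ht : Tame R lo hi h)
    (hab : a ≤ b) (h1 : lo ≤ a) (h2 : b ≤ hi) (hr : TReg h a b) {x x' : ℂ} (hx : h x ≤ a)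
    (hx' : h x' ≤ a) (h3 : Con {y | h y ≤ b} x x') : Con {y | h y ≤ a} x x' :=
  (push_jn hc hab hr.reg (push_slab ht h1 h2) hx hx' h3.jn).con

theorem con_open {h : ℂ → ℝ} (hc : Continuous h) {R lo hi b : ℝ} (ht : Tame R lo hi h)
    (h1 : lo < b) (h2 : b ≤ hi) (hr : TReg h b b) {x x' : ℂ} (hx : h x < b) (hx' : h x' < b)
    (h3 : Con {y | h y ≤ b} x x') : Con {y | h y < b} x x' :=
  (jn_lt_of_le hc (hr.reg b ⟨le_rfl, le_rfl⟩) hx hx' h3.jn).con

theorem rt_of_le {R : ℝ} {x : ℂ} (h : ‖x‖ ≤ R) : rt R x = x := if_pos h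

theorem rt_norm_of_ge {R : ℝ} (hR : 0 < R) {x : ℂ} (h : R ≤ ‖x‖) : ‖rt R x‖ = R := by
  by_cases h1 : ‖x‖ ≤ R
  · rw [rt_of_le h1]
    exact le_antisymm h1 h
  · have h2 : 0 < ‖x‖ := hR.trans_le h
    rw [rt, if_neg h1, norm_smul, norm_div, Real.norm_of_nonneg hR.le, norm_norm]
    field_simp

theorem norm_rt_le {R : ℝ} (hR : 0 < R) (x : ℂ) : ‖rt R x‖ ≤ R := by
  rcases le_total ‖x‖ R with h | h
  · rw [rt_of_le h]
    exact h
  · exact (rt_norm_of_ge hR h).le

theorem continuous_rt {R : ℝ} (hR : 0 < R) : Continuous (rt R) := by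
  have h1 : rt R = fun x : ℂ => (R / max R ‖x‖) • x := by
    ext1 x
    rcases le_or_gt ‖x‖ R with h | h
    · rw [rt_of_le h, max_eq_left h, div_self hR.ne', one_smul]
    · rw [rt, if_neg (not_le.2 h), max_eq_right h.le]
  rw [h1]
  have h2 : Continuous fun x : ℂ => R / max R ‖x‖ :=
    continuous_const.div (continuous_const.max continuous_norm)
      fun x => (hR.trans_le (le_max_left R ‖x‖)).ne'
  exact h2.smul continuous_id

/-- Joined inside of a large ball. PROOF. Up-tame: `{h ≤ b}` is in the ball. Down-tame: the retraction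
`rt R` maps `{h ≤ b}` into itself (`h < lo ≤ b` on the sphere). -/
theorem con_ball {h : ℂ → ℝ} {R lo hi b : ℝ} (ht : Tame R lo hi h)
    (h1 : lo ≤ b) (h2 : b ≤ hi) (hR : 0 < R) {x x' : ℂ}
    (h3 : Con {y | h y ≤ b} x x') : Con {y | h y ≤ b ∧ ‖y‖ ≤ R} (rt R x) (rt R x') := by
  obtain ⟨T, hT, hTp, hx, hx'⟩ := h3
  refine ⟨rt R '' T, ?_, hTp.image _ (continuous_rt hR).continuousOn, ⟨x, hx, rfl⟩,
    ⟨x', hx', rfl⟩⟩
  rintro _ ⟨y, hy, rfl⟩
  refine ⟨?_, norm_rt_le hR y⟩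
  have hyb : h y ≤ b := hT hy
  rcases le_or_gt ‖y‖ R with h4 | h4
  · rw [rt_of_le h4]
    exact hyb
  · rcases ht with ⟨c, hc⟩ | ⟨c, hc⟩
    · exfalso
      have := (hc y h4.le).2
      linarith
    · have := (hc (rt R y) (rt_norm_of_ge hR h4.le).ge).2
      linarith

/-- The complement of an open ball in the plane is connected. -/
theorem preconnected_outer (R : ℝ) (hR : 0 < R) : IsPreconnected {x : ℂ | R ≤ ‖x‖} := by
  have h1 : {x : ℂ | R ≤ ‖x‖} = (fun z : ℝ × ℝ => (z.1 : ℂ) * Complex.exp (z.2 * Complex.I)) ''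
      (Ici R ×ˢ (univ : Set ℝ)) := by
    ext x
    constructor
    · intro hx
      exact ⟨(‖x‖, x.arg), ⟨hx, mem_univ _⟩, Complex.norm_mul_exp_arg_mul_I x⟩
    · rintro ⟨⟨r, θ⟩, ⟨hr, -⟩, rfl⟩
      have hr' : R ≤ r := hr
      show R ≤ ‖(r : ℂ) * Complex.exp (θ * Complex.I)‖
      rw [norm_mul, Complex.norm_exp_ofReal_mul_I, mul_one, Complex.norm_real,
        Real.norm_of_nonneg (hR.le.trans hr')]
      exact hr'
  rw [h1]
  refine (isPreconnected_Ici.prod isPreconnected_univ).image _ ?_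
  refine Continuous.continuousOn ?_
  fun_prop

/-- PROOF. Up-tame: `{h ≤ b}` is in the ball. Down-tame: `{‖x‖ ≥ R}` is preconnected and contained in
`{h ≤ b}`, so it is in `E` or in the complement. -/
theorem clp_ball {h : ℂ → ℝ} {R lo hi b : ℝ} (ht : Tame R lo hi h)
    (h1 : lo ≤ b) (h2 : b ≤ hi) (hR : 0 < R) {E : Set ℂ} (hE : Clp E {y | h y ≤ b}) :
    E ⊆ ball 0 R ∨ {y | h y ≤ b} \ E ⊆ ball 0 R := by
  obtain ⟨hE1, hE2, hE3⟩ := hE
  rcases ht with ⟨c, hc⟩ | ⟨c, hc⟩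
  · left
    intro y hy
    rw [mem_ball_zero_iff]
    by_contra h3
    have h4 := (hc y (not_lt.1 h3)).2
    have h5 : h y ≤ b := hE1 hy
    linarith
  · have hout : ∀ y, R ≤ ‖y‖ → h y ≤ b := fun y hy => by
      have := (hc y hy).2
      linarith
    rcases (isPreconnected_iff_subset_of_disjoint_closed.1 (preconnected_outer R hR)) _ _ hE2 hE3
      (fun z hz => by
        by_cases h3 : z ∈ E
        · exact Or.inl h3
        · exact Or.inr ⟨hout z hz, h3⟩) (by
        rw [Set.eq_empty_iff_forall_notMem]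
        rintro z ⟨_, hz1, hz2⟩
        exact hz2.2 hz1) with h3 | h3
    · right
      intro y hy
      rw [mem_ball_zero_iff]
      by_contra h4
      exact hy.2 (h3 (not_lt.1 h4))
    · left
      intro y hy
      rw [mem_ball_zero_iff]
      by_contra h4
      exact (h3 (not_lt.1 h4)).2 hy

end Pool.Schoen
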