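import Pool.Agent.H.MP_6c077c_gt.Ts.Borsuk

/-! Theorem TS: unicoherence for open sets. -/

set_option autoImplicit false

namespace Pool.Schoen

open Filter Set
open scoped Topology

private theorem Uno_exp_two_pi : Complex.exp (((2 * Real.pi : ℝ) : ℂ) * Complex.I) = 1 := by
  rw [show ((2 * Real.pi : ℝ) : ℂ) * Complex.I = 2 * Real.pi * Complex.I by push_cast; ring]
  exact Complex.exp_two_pi_mul_I

private theorem Uno_sub {a b : ℝ} (h : Complex.exp ((a : ℂ) * Complex.I) =
    Complex.exp ((b : ℂ) * Complex.I)) : Complex.exp (((a - b : ℝ) : ℂ) * Complex.I) = 1 := by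
  rw [Complex.ofReal_sub, sub_mul, Complex.exp_sub, h, div_self (Complex.exp_ne_zero _)]

/-- Unicoherence for open sets. PROOF. Let `O ∩ O' = U ∪ Z`, `U`, `Z` open, disjoint, nonempty. Let
`s : Y → [0, 1]` be continuous, `s = 0` on `Oᶜ`, `s = 1` on `O'ᶜ` (disjoint closed sets). Put
`θ = exp (2 π i s)` on `U` and `θ = 1` off `U`. It is continuous: a point of `frontier U` is not in
`O ∩ O'`, so it is in `Oᶜ` or `O'ᶜ`, where `s` is `0` or `1`. Let `θ = exp (i v)`. On `O` let
`w = s` on `U` and `w = 1` off `U`: continuous on `O` (a point of `O` in `frontier U` is in `O'ᶜ`), and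
`v - 2 π w` has values in `2 π ℤ` on `O`, so it is constant on `O` (`borsuk_const`). On `O'` let `w' = s` on `U`,
`w' = 0` off `U`: `v - 2 π w'` is constant on `O'`. The constants agree (`U` nonempty) but on `Z` they
differ by `2 π`. -/
theorem unicoherent_open {Y : Type*} [TopologicalSpace Y] [NormalSpace Y]
    (hY : LiftS (univ : Set Y)) {O O' : Set Y} (hO : IsOpen O) (hO' : IsOpen O')
    (cO : IsPreconnected O) (cO' : IsPreconnected O') (h : O ∪ O' = univ) :
    IsPreconnected (O ∩ O') := by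
  classical
  intro X Z hX hZ hXZ hx hz
  obtain ⟨x, hxO, hxX⟩ := hx
  obtain ⟨z, hzO, hzZ⟩ := hz
  by_contra hne
  rw [Set.not_nonempty_iff_eq_empty] at hne
  set U : Set Y := O ∩ O' ∩ X with hUdef
  have hU : IsOpen U := (hO.inter hO').inter hX
  have hW : IsOpen (O ∩ O' ∩ Z) := (hO.inter hO').inter hZ
  have hUZ : ∀ y ∈ O ∩ O' ∩ Z, y ∉ U := by
    rintro y ⟨hy, hyZ⟩ ⟨_, hyX⟩
    have : y ∈ O ∩ O' ∩ (X ∩ Z) := ⟨hy, hyX, hyZ⟩
    rw [hne] at this
    exact this
  have hfr : ∀ y ∈ frontier U, y ∉ U ∧ y ∉ O ∩ O' := by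
    intro y hy
    have hyU : y ∉ U := by
      rw [frontier, hU.interior_eq] at hy
      exact hy.2
    refine ⟨hyU, fun hyO => ?_⟩
    have hyZ : y ∈ O ∩ O' ∩ Z := by
      rcases hXZ hyO with h1 | h1
      · exact absurd ⟨hyO, h1⟩ hyU
      · exact ⟨hyO, h1⟩
    obtain ⟨t, ht1, ht2⟩ := mem_closure_iff.1 (frontier_subset_closure hy) _ hW hyZ
    exact hUZ t ht1 ht2
  have hdis : Disjoint Oᶜ O'ᶜ := by
    rw [Set.disjoint_left]
    intro y h1 h2
    have h3 : y ∈ O ∪ O' := by
      rw [h]
      exact mem_univ y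
    exact h3.elim h1 h2
  obtain ⟨s, hs0, hs1, -⟩ := exists_continuous_zero_one_of_isClosed hO.isClosed_compl
    hO'.isClosed_compl hdis
  have hsc : Continuous fun y => 2 * Real.pi * s y := continuous_const.mul s.continuous
  let θ : Y → ℂ := fun y => if y ∈ U then Complex.exp (((2 * Real.pi * s y : ℝ) : ℂ) * Complex.I)
    else 1
  have hθU : ∀ y ∈ U, θ y = Complex.exp (((2 * Real.pi * s y : ℝ) : ℂ) * Complex.I) :=
    fun y hy => if_pos hy
  have hθn : ∀ y, y ∉ U → θ y = 1 := fun y hy => if_neg hy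
  have hfval : ∀ y ∈ frontier U, (y ∉ O ∧ s y = 0) ∨ (y ∉ O' ∧ s y = 1) := by
    intro y hy
    by_cases h1 : y ∈ O
    · right
      have h2 : y ∉ O' := fun h2 => (hfr y hy).2 ⟨h1, h2⟩
      exact ⟨h2, hs1 h2⟩
    · exact Or.inl ⟨h1, hs0 h1⟩
  have hθc : Continuous θ := by
    refine Continuous.if (p := fun y => y ∈ U) ?_ ?_ continuous_const
    · intro y hy
      rcases hfval y hy with h1 | h1
      · rw [h1.2]
        simp
      · rw [h1.2, mul_one]
        exact Uno_exp_two_pi
    · exact Complex.continuous_exp.comp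
        ((Complex.continuous_ofReal.comp hsc).mul continuous_const)
  obtain ⟨v, hv, hv1⟩ := hY θ hθc.continuousOn (by
    intro y _
    by_cases hy : y ∈ U
    · rw [hθU y hy]
      exact Complex.norm_exp_ofReal_mul_I _
    · rw [hθn y hy, norm_one])
  have hvc : Continuous v := continuousOn_univ.1 hv
  have hxU : x ∈ U := ⟨hxO, hxX⟩
  have hzU : z ∉ U := hUZ z ⟨hzO, hzZ⟩
  have e1 : v x - (if x ∈ U then 2 * Real.pi * s x else 2 * Real.pi) =
      v z - (if z ∈ U then 2 * Real.pi * s z else 2 * Real.pi) := by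
    refine borsuk_const cO
      (f := fun y => v y - (if y ∈ U then 2 * Real.pi * s y else 2 * Real.pi)) ?_ ?_ hxO.1 hzO.1
    · refine hvc.continuousOn.sub ?_
      refine ContinuousOn.if (p := fun y => y ∈ U) ?_ hsc.continuousOn continuousOn_const
      rintro y ⟨hyO, hyf⟩
      rcases hfval y hyf with h1 | h1
      · exact absurd hyO h1.1
      · rw [h1.2, mul_one]
    · intro y hy
      have h3 := hv1 y (mem_univ y)
      by_cases hyU : y ∈ U
      · rw [hθU y hyU] at h3
        show Complex.exp (((v y - (if y ∈ U then 2 * Real.pi * s y else 2 * Real.pi) : ℝ) : ℂ) *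
          Complex.I) = 1
        rw [if_pos hyU]
        exact Uno_sub h3.symm
      · rw [hθn y hyU] at h3
        show Complex.exp (((v y - (if y ∈ U then 2 * Real.pi * s y else 2 * Real.pi) : ℝ) : ℂ) *
          Complex.I) = 1
        rw [if_neg hyU]
        exact Uno_sub (h3.symm.trans Uno_exp_two_pi.symm)
  have e2 : v x - (if x ∈ U then 2 * Real.pi * s x else 0) =
      v z - (if z ∈ U then 2 * Real.pi * s z else 0) := by
    refine borsuk_const cO'
      (f := fun y => v y - (if y ∈ U then 2 * Real.pi * s y else 0)) ?_ ?_ hxO.2 hzO.2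
    · refine hvc.continuousOn.sub ?_
      refine ContinuousOn.if (p := fun y => y ∈ U) ?_ hsc.continuousOn continuousOn_const
      rintro y ⟨hyO, hyf⟩
      rcases hfval y hyf with h1 | h1
      · rw [h1.2, mul_zero]
      · exact absurd hyO h1.1
    · intro y hy
      have h3 := hv1 y (mem_univ y)
      by_cases hyU : y ∈ U
      · rw [hθU y hyU] at h3
        show Complex.exp (((v y - (if y ∈ U then 2 * Real.pi * s y else 0) : ℝ) : ℂ) *
          Complex.I) = 1
        rw [if_pos hyU]
        exact Uno_sub h3.symm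
      · rw [hθn y hyU] at h3
        show Complex.exp (((v y - (if y ∈ U then 2 * Real.pi * s y else 0) : ℝ) : ℂ) *
          Complex.I) = 1
        rw [if_neg hyU, sub_zero]
        exact h3.symm
  rw [if_pos hxU, if_neg hzU] at e1 e2
  have := Real.pi_pos
  linarith

end Pool.Schoen
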