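import Pool.Agent.H.MP_6c077c_gt.Ts.Qd
import Pool.Agent.H.MP_6c077c_gt.Ts.CompK
import Pool.Agent.H.MP_6c077c_gt.Ts.Uno
import Pool.Agent.H.MP_6c077c_gt.Ts.Push
import Pool.Agent.H.MP_6c077c_gt.IxB.LiftBall

/-! Theorem TS: the annulus. -/

set_option autoImplicit false

namespace Pool.Schoen

open Filter Set Metric
open scoped Topology RealInnerProductSpace ContDiff

/-- `Δ` and `L` are disjoint closed sets, `Δ` is bounded, the complement of `L` is bounded, between them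
`a < h < b`; near the boundary of `Δ` it is `{h ≤ a}`, near the boundary of `L` it is `{b ≤ h}`. -/
structure Ann (h : ℂ → ℝ) (a b : ℝ) (Δ L : Set ℂ) : Prop where
  clD : IsClosed Δ
  clL : IsClosed L
  dis : Disjoint Δ L
  bdd : Bornology.IsBounded Lᶜ
  neD : Δ.Nonempty
  conD : IsPreconnected Δ
  conDc : IsPreconnected Δᶜ
  conL : IsPreconnected L
  conLc : IsPreconnected Lᶜ
  conM : IsPreconnected (Δᶜ ∩ Lᶜ)
  frD : ∀ x ∈ frontier Δ, h x = a ∧ ∀ᶠ y in 𝓝 x, (y ∈ Δ ↔ h y ≤ a)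
  frL : ∀ x ∈ frontier L, h x = b ∧ ∀ᶠ y in 𝓝 x, (y ∈ L ↔ b ≤ h y)
  mid : ∀ x, x ∉ Δ → x ∉ L → a < h x ∧ h x < b

/-- Near a point of a relatively clopen part of a closed set the closed set is the part. -/
theorem Clp.near {X : Type*} [TopologicalSpace X] {D A : Set X} (h : Clp D A) {x : X} (hx : x ∈ D) :
    ∀ᶠ y in 𝓝 x, y ∈ A → y ∈ D := by
  have h1 : x ∈ (A \ D)ᶜ := fun h2 => h2.2 hx
  filter_upwards [h.2.2.isOpen_compl.mem_nhds h1] with y hy hyA
  by_contra h3
  exact hy ⟨hyA, h3⟩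

theorem Qd.disj {h : ℂ → ℝ} {a b : ℝ} {Q K L : Set ℂ} (H : Qd h a b Q K L) : Disjoint K L := by
  rw [Set.disjoint_left]
  intro x h1 h2
  have h3 : h x ≤ a := H.clK.1 h1
  have h4 : b ≤ h x := H.clL.1 h2
  linarith [H.hab]

theorem Qd.cover {h : ℂ → ℝ} {a b : ℝ} {Q K L : Set ℂ} (H : Qd h a b Q K L) {k l : ℂ} (hk : k ∈ K)
    (hl : l ∈ L) : connectedComponentIn Kᶜ l ∪ connectedComponentIn Lᶜ k = univ :=
  compK_cover H.clK.2.1 H.clL.2.1 H.conK H.conL H.disj hk hl

/-- With `O = connectedComponentIn Kᶜ l`, `O' = connectedComponentIn Lᶜ k`: the middle part. PROOF. `O ∩ O'` is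
connected (`unicoherent_open`, `compK_cover`, LiftS of the plane: `liftS_univ`/helper58's `liftS_planar`).
`Q ∩ (O ∩ O')` is relatively open in it (`z ∈ Q \ (K ∪ L)` has `a < h z < b`, `clQ`), closed, nonempty (`Q` is
connected and meets `{h ≤ a}` and `{b ≤ h}`; a point with `h z = (a + b) / 2` is in `O ∩ O'` by `Qd.side` and
`Qd.neg`). So `O ∩ O' ⊆ Q`. -/
theorem Qd.mid {h : ℂ → ℝ} {a b : ℝ} {Q K L : Set ℂ} (H : Qd h a b Q K L) {k l : ℂ} (hk : k ∈ K)
    (hl : l ∈ L) :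
    IsPreconnected (connectedComponentIn Kᶜ l ∩ connectedComponentIn Lᶜ k) ∧
      ∀ x, x ∈ connectedComponentIn Kᶜ l ∩ connectedComponentIn Lᶜ k ↔
        x ∈ Q ∧ a < h x ∧ h x < b := by
  have hlift : LiftS (univ : Set ℂ) := liftS_univ ℂ
  have hT : IsPreconnected (connectedComponentIn Kᶜ l ∩ connectedComponentIn Lᶜ k) :=
    unicoherent_open hlift (compK_open H.clK.2.1 l) (compK_open H.clL.2.1 k)
      isPreconnected_connectedComponentIn isPreconnected_connectedComponentIn (H.cover hk hl)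
  have hback : ∀ x, x ∈ Q → a < h x → h x < b →
      x ∈ connectedComponentIn Kᶜ l ∩ connectedComponentIn Lᶜ k := by
    intro x hx h1 h2
    refine ⟨H.side hl hx fun h3 => ?_, H.neg.side hk hx fun h3 => ?_⟩
    · have h4 : h x ≤ a := H.clK.1 h3
      linarith
    · have h4 : b ≤ h x := H.clL.1 h3
      linarith
  have hval : ∀ x, x ∈ Q → x ∈ connectedComponentIn Kᶜ l ∩ connectedComponentIn Lᶜ k →
      a < h x ∧ h x < b := by
    intro x hx hxT
    constructor
    · by_contra h3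
      exact connectedComponentIn_subset _ _ hxT.1 (H.QK x hx (not_lt.1 h3))
    · by_contra h3
      exact connectedComponentIn_subset _ _ hxT.2 (H.QL x hx (not_lt.1 h3))
  refine ⟨hT, fun x => ⟨fun hx => ?_, fun hx => hback x hx.1 hx.2.1 hx.2.2⟩⟩
  have hsub : connectedComponentIn Kᶜ l ∩ connectedComponentIn Lᶜ k ⊆ Q := by
    have hU : IsOpen (interior Q) := isOpen_interior
    have hV : IsOpen Qᶜ := H.clQ.2.1.isOpen_compl
    have hcov : connectedComponentIn Kᶜ l ∩ connectedComponentIn Lᶜ k ⊆ interior Q ∪ Qᶜ := by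
      intro z hz
      by_cases hzQ : z ∈ Q
      · left
        obtain ⟨h1, h2⟩ := hval z hzQ hz
        rw [mem_interior_iff_mem_nhds]
        filter_upwards [H.clQ.near hzQ, continuousAt_const.eventually_lt H.hc.continuousAt h1,
          H.hc.continuousAt.eventually_lt continuousAt_const h2] with y hy h3 h4
        exact hy ⟨h3.le, h4.le⟩
      · right
        exact hzQ
    obtain ⟨q1, hq1, hq1'⟩ := H.neK
    obtain ⟨q2, hq2, hq2'⟩ := H.neL
    have e1 : h q1 ≤ a := H.clK.1 hq1'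
    have e2 : b ≤ h q2 := H.clL.1 hq2'
    obtain ⟨z, hz, hz'⟩ := H.conQ.intermediate_value hq1 hq2 H.hc.continuousOn
      (show (a + b) / 2 ∈ Icc (h q1) (h q2) from ⟨by linarith [H.hab], by linarith [H.hab]⟩)
    have hzT := hback z hz (by rw [hz']; linarith [H.hab]) (by rw [hz']; linarith [H.hab])
    have hzi : z ∈ interior Q := (hcov hzT).resolve_right fun h1 => h1 hz
    intro y hy
    by_contra hyQ
    obtain ⟨w, -, hw1, hw2⟩ := hT _ _ hU hV hcov ⟨z, hzT, hzi⟩ ⟨y, hy, hyQ⟩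
    exact hw2 (interior_subset hw1)
  exact ⟨hsub hx, hval x (hsub hx) hx⟩

/-- The boundary of `Δ = Oᶜ`. PROOF. `x ∈ closure O \ O` (`O` open), so `x ∈ K` (`compK_frontier`), `h x ≤ a`; if
`h x < a` then near `x` all points are in `K` (`clK`), contradiction. Near `x`: `h y ≤ a → y ∈ K → y ∉ O`; if
`a < h y` then `y` is joined in `{a < h} ⊆ Kᶜ` (`up_local`) with a point of `O` near `x`, so `y ∈ O`. Also
`x ∈ Q`: points of `O` near `x` are in `O'` (`O'` is a neighbourhood of `x ∈ K`), so in `Q` by `Qd.mid`. -/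
theorem Qd.bdry {h : ℂ → ℝ} {a b : ℝ} {Q K L : Set ℂ} (H : Qd h a b Q K L) {l : ℂ}
    (hl : l ∈ L) {x : ℂ} (hx : x ∈ frontier (connectedComponentIn Kᶜ l)ᶜ) :
    x ∈ Q ∧ x ∈ K ∧ h x = a ∧ ∀ᶠ y in 𝓝 x, (y ∈ (connectedComponentIn Kᶜ l)ᶜ ↔ h y ≤ a) := by
  have hO : IsOpen (connectedComponentIn Kᶜ l) := compK_open H.clK.2.1 l
  rw [frontier_compl, hO.frontier_eq] at hx
  obtain ⟨hxc, hxO⟩ := hx
  have hxK : x ∈ K := compK_frontier H.clK.2.1 hxc hxO
  have hOK : ∀ y ∈ connectedComponentIn Kᶜ l, y ∉ K := fun y hy =>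
    connectedComponentIn_subset _ _ hy
  have hle : h x ≤ a := H.clK.1 hxK
  have hnear : ∀ᶠ y in 𝓝 x, h y ≤ a → y ∈ K := H.clK.near hxK
  have heq : h x = a := by
    refine le_antisymm hle (not_lt.1 fun hlt => ?_)
    have h1 : ∀ᶠ y in 𝓝 x, y ∈ K := by
      filter_upwards [hnear, H.hc.continuousAt.eventually_lt continuousAt_const hlt] with y hy hy'
      exact hy hy'.le
    obtain ⟨y, hy1, hy2⟩ := mem_closure_iff_nhds.1 hxc _ h1
    exact hOK y hy2 hy1
  have hxL : x ∉ L := fun h1 => (Set.disjoint_left.1 H.disj) hxK h1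
  refine ⟨?_, hxK, heq, ?_⟩
  · have hO' : connectedComponentIn Lᶜ x ∈ 𝓝 x :=
      (compK_open H.clL.2.1 x).mem_nhds (mem_connectedComponentIn hxL)
    rw [← H.clQ.2.1.closure_eq, mem_closure_iff_nhds]
    intro W hW
    obtain ⟨y, hy1, hy2⟩ := mem_closure_iff_nhds.1 hxc _ (inter_mem hW hO')
    exact ⟨y, hy1.1, (((H.mid hxK hl).2 y).1 ⟨hy2, hy1.2⟩).1⟩
  · obtain ⟨U, hU, hU1, -⟩ := up_local H.hc H.ra heq
    filter_upwards [hU, hnear] with y hyU hyK
    constructor
    · intro hyO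
      by_contra hlt
      push Not at hlt
      obtain ⟨y', hy1, hy2⟩ := mem_closure_iff_nhds.1 hxc _ (inter_mem hU hnear)
      have h1 : a < h y' := by
        by_contra h2
        exact hOK y' hy2 (hy1.2 (not_lt.1 h2))
      obtain ⟨T, hT1, hT2, hT3, hT4⟩ := hU1 y hyU y' hy1.1 hlt h1
      have hTK : T ⊆ Kᶜ := by
        intro z hz hzK
        have h3 : a < h z := hT1 hz
        have h4 : h z ≤ a := H.clK.1 hzK
        linarith
      have h5 := hT2.subset_connectedComponentIn hT4 hTK hT3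
      rw [← connectedComponentIn_eq hy2] at h5
      exact hyO h5
    · intro h1 hyO
      exact hOK y hyO (hyK h1)

/-- PROOF. `x ∈ K`, `h x = a`; near `x` there are points `y` with `a < h y` (`Desc1.frequently`), in the slab, so
in `Q`, not in `K`; they are in `O` (`Qd.side`). So `x ∈ closure O`, and `x ∉ O`. -/
theorem Qd.bdry' {h : ℂ → ℝ} {a b : ℝ} {Q K L : Set ℂ} (H : Qd h a b Q K L) {l : ℂ}
    (hl : l ∈ L) {x : ℂ} (hx : x ∈ Q) (hxK : x ∈ K) :
    x ∈ frontier (connectedComponentIn Kᶜ l)ᶜ := by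
  have hO : IsOpen (connectedComponentIn Kᶜ l) := compK_open H.clK.2.1 l
  rw [frontier_compl, hO.frontier_eq]
  have h1 : h x ≤ a := H.clK.1 hxK
  have h2 : a ≤ h x := (H.clQ.1 hx).1
  have heq : h x = a := le_antisymm h1 h2
  refine ⟨?_, fun h3 => connectedComponentIn_subset _ _ h3 hxK⟩
  obtain ⟨U, hU, -, hU2⟩ := up_local H.hc H.ra heq
  have h3 := hU2 x (mem_of_mem_nhds hU) h2
  rw [mem_closure_iff_nhds]
  intro W hW
  have h4 : ∀ᶠ y in 𝓝 x, h y < b :=
    H.hc.continuousAt.eventually_lt continuousAt_const (by rw [heq]; exact H.hab)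
  obtain ⟨y, hy1, hy2⟩ := mem_closure_iff_nhds.1 h3 _ (inter_mem hW (inter_mem (H.clQ.near hx) h4))
  have h5 : a < h y := hy2.2
  have h6 : h y < b := hy1.2.2
  have hyQ : y ∈ Q := hy1.2.1 ⟨h5.le, h6.le⟩
  refine ⟨y, hy1.1, H.side hl hyQ fun h7 => ?_⟩
  have h8 : h y ≤ a := H.clK.1 h7
  linarith

/-- PROOF. `Qd` from `qd_exists`; `Δ = Oᶜ`, `L' = O'ᶜ` (`O`, `O'` as in `Qd.mid`); `compK_compl` for `conD`, `conL`;
`Qd.mid`, `Qd.bdry`, `Qd.bdry'` (and for `-h` by `Qd.neg`). The outside `{R ≤ ‖x‖}` is connected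
(`preconnected_outer`) and has no point of the slab (`Tame.slab_bdd`), so it is in `Δ` or in `L'`: in the
second case `Ann h a b Δ L'`, in the first `Ann (-h) (-b) (-a) L' Δ`. -/
theorem exists_ann {h : ℂ → ℝ} (hc : Continuous h) {R lo hi a b : ℝ} (ht : Tame R lo hi h)
    (hlo : lo ≤ a) (hab : a < b) (hhi : b ≤ hi) (ra : TReg h a a)
    (rb : TReg h b b) (hn : ¬ Chg h a b) {x0 : ℂ} (h1 : a ≤ h x0) (h2 : h x0 ≤ b) :
    ∃ Δ L, (Ann h a b Δ L ∨ Ann (fun x => -h x) (-b) (-a) L Δ) ∧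
      ∀ x, x ∈ connectedComponentIn {x | a ≤ h x ∧ h x ≤ b} x0 ↔
        (x ∉ Δ ∧ x ∉ L) ∨ x ∈ frontier Δ ∨ x ∈ frontier L := by
  have hR : 0 < R := (norm_nonneg x0).trans_lt (ht.slab_bdd (hlo.trans h1) (h2.trans hhi))
  obtain ⟨K, L1, H⟩ := qd_exists hc hab ra rb hn h1 h2
  set Q : Set ℂ := connectedComponentIn {x | a ≤ h x ∧ h x ≤ b} x0 with hQ
  obtain ⟨k, hkQ, hk⟩ := H.neK
  obtain ⟨l, hlQ, hl⟩ := H.neL
  set O : Set ℂ := connectedComponentIn Kᶜ l with hO
  set O' : Set ℂ := connectedComponentIn L1ᶜ k with hO'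
  have oO : IsOpen O := compK_open H.clK.2.1 l
  have oO' : IsOpen O' := compK_open H.clL.2.1 k
  have hcov : O ∪ O' = univ := H.cover hk hl
  have hdis : Disjoint Oᶜ O'ᶜ := by
    rw [Set.disjoint_left]
    intro x hx hx'
    have h3 : x ∈ O ∪ O' := hcov ▸ mem_univ x
    exact h3.elim hx hx'
  obtain ⟨hcon, hmid⟩ := H.mid hk hl
  have hkO : k ∉ O := fun h3 => connectedComponentIn_subset _ _ h3 hk
  have hlO' : l ∉ O' := fun h3 => connectedComponentIn_subset _ _ h3 hl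
  have cO : IsPreconnected O := isPreconnected_connectedComponentIn
  have cO' : IsPreconnected O' := isPreconnected_connectedComponentIn
  have cOc : IsPreconnected Oᶜ := compK_compl H.clK.2.1 H.conK ⟨k, hk⟩ l
  have cOc' : IsPreconnected O'ᶜ := compK_compl H.clL.2.1 H.conL ⟨l, hl⟩ k
  have hfrD : ∀ x ∈ frontier Oᶜ, h x = a ∧ ∀ᶠ y in 𝓝 x, (y ∈ Oᶜ ↔ h y ≤ a) := fun x hx =>
    (H.bdry hl hx).2.2
  have hfrL : ∀ x ∈ frontier O'ᶜ, h x = b ∧ ∀ᶠ y in 𝓝 x, (y ∈ O'ᶜ ↔ b ≤ h y) := by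
    intro x hx
    obtain ⟨-, -, h3, h4⟩ := H.neg.bdry hk hx
    refine ⟨by linarith, ?_⟩
    filter_upwards [h4] with y hy
    rw [hy]
    constructor <;> intro h5 <;> linarith
  have hmid' : ∀ x, x ∉ Oᶜ → x ∉ O'ᶜ → a < h x ∧ h x < b := by
    intro x hx hx'
    exact ((hmid x).1 ⟨not_not.1 hx, not_not.1 hx'⟩).2
  have hP : {x : ℂ | R ≤ ‖x‖} ⊆ Oᶜ ∨ {x : ℂ | R ≤ ‖x‖} ⊆ O'ᶜ := by
    refine isPreconnected_iff_subset_of_disjoint_closed.1 (preconnected_outer R hR) _ _
      oO.isClosed_compl oO'.isClosed_compl ?_ ?_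
    · intro x hx
      by_contra h3
      rw [mem_union, not_or] at h3
      obtain ⟨h4, h5⟩ := hmid' x h3.1 h3.2
      have h6 := ht.slab_bdd (hlo.trans h4.le) (h5.le.trans hhi)
      have h7 : R ≤ ‖x‖ := hx
      linarith
    · rw [Set.disjoint_iff_inter_eq_empty.1 hdis, inter_empty]
  refine ⟨Oᶜ, O'ᶜ, ?_, ?_⟩
  · rcases hP with hP | hP
    · right
      refine ⟨oO'.isClosed_compl, oO.isClosed_compl, hdis.symm, ?_, ⟨l, hlO'⟩, cOc', ?_, cOc, ?_,
        ?_, ?_, ?_, ?_⟩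
      · rw [compl_compl]
        refine (isBounded_ball (x := (0 : ℂ)) (r := R)).subset fun x hx => ?_
        rw [mem_ball, dist_zero_right]
        by_contra h3
        exact hP (show R ≤ ‖x‖ from not_lt.1 h3) hx
      · rwa [compl_compl]
      · rwa [compl_compl]
      · rw [compl_compl, compl_compl, inter_comm]
        exact hcon
      · intro x hx
        obtain ⟨h3, h4⟩ := hfrL x hx
        refine ⟨by linarith, ?_⟩
        filter_upwards [h4] with y hy
        rw [hy]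
        constructor <;> intro h5 <;> linarith
      · intro x hx
        obtain ⟨h3, h4⟩ := hfrD x hx
        refine ⟨by linarith, ?_⟩
        filter_upwards [h4] with y hy
        rw [hy]
        constructor <;> intro h5 <;> linarith
      · intro x hx hx'
        obtain ⟨h3, h4⟩ := hmid' x hx' hx
        constructor <;> linarith
    · left
      refine ⟨oO.isClosed_compl, oO'.isClosed_compl, hdis, ?_, ⟨k, hkO⟩, cOc, ?_, cOc', ?_,
        ?_, hfrD, hfrL, hmid'⟩
      · rw [compl_compl]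
        refine (isBounded_ball (x := (0 : ℂ)) (r := R)).subset fun x hx => ?_
        rw [mem_ball, dist_zero_right]
        by_contra h3
        exact hP (show R ≤ ‖x‖ from not_lt.1 h3) hx
      · rwa [compl_compl]
      · rwa [compl_compl]
      · rw [compl_compl, compl_compl]
        exact hcon
  · intro x
    constructor
    · intro hx
      by_cases hxK : x ∈ K
      · exact Or.inr (Or.inl (H.bdry' hl hx hxK))
      · by_cases hxL : x ∈ L1
        · exact Or.inr (Or.inr (H.neg.bdry' hk hx hxL))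
        · left
          have h3 : a < h x := by
            by_contra h4
            exact hxK (H.QK x hx (not_lt.1 h4))
          have h4 : h x < b := by
            by_contra h5
            exact hxL (H.QL x hx (not_lt.1 h5))
          obtain ⟨h5, h6⟩ := (hmid x).2 ⟨hx, h3, h4⟩
          exact ⟨not_not.2 h5, not_not.2 h6⟩
    · rintro (⟨h3, h4⟩ | h3 | h3)
      · exact ((hmid x).1 ⟨not_not.1 h3, not_not.1 h4⟩).1
      · exact (H.bdry hl h3).1
      · exact (H.neg.bdry hk h3).1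

end Pool.Schoen
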