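import Pool.Agent.H.MP_6c077c_gt.Ts.Comp
import Pool.Agent.H.MP_6c077c_gt.Ix.HomB

/-! Theorem TS: smooth defining functions. -/

set_option autoImplicit false

namespace Pool.Schoen

open Filter Set Metric
open scoped Topology RealInnerProductSpace ContDiff

/-- PROOF. Let `N` be the open set of all `x` with `∀ᶠ y in 𝓝 x, ContDiffAt ℝ ∞ k y ∧ (y ∈ A ↔ k y ≤ 0)`; it contains
the compact set `frontier A`. Let `χ` be smooth, `0 ≤ χ ≤ 1`, `χ = 1` near `frontier A`, support in `N`
(`exists_contDiff_tsupport_subset` or `exists_smooth_zero_one_of_isClosed`). Let `s = -1` on `A`, `1` off `A`: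
smooth off `frontier A`. `G = χ * k + (1 - χ) * s`. In `N` a point of the interior of `A` may have `k y = 0` only if
it is in the frontier after all (near frontier points `k` has descent directions in both directions, so shrink `N` to
points where either `k y ≠ 0` or `Desc1 k y v` for some `v`; by `Desc.near` this is still a neighbourhood of
the frontier). -/
theorem exists_def {A : Set ℂ} (hA : IsClosed A) (hb : Bornology.IsBounded (frontier A))
    {k : ℂ → ℝ} (hk : ∀ x ∈ frontier A, k x = 0 ∧ (∃ v, Desc1 k x v) ∧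
      ∀ᶠ y in 𝓝 x, ContDiffAt ℝ ∞ k y ∧ (y ∈ A ↔ k y ≤ 0)) :
    ∃ G : ℂ → ℝ, ContDiff ℝ ∞ G ∧ (∀ x, G x ≤ 0 ↔ x ∈ A) ∧ (∀ x, G x = 0 ↔ x ∈ frontier A) ∧
      ∀ x, G x = 0 → ∃ v, Desc1 G x v := by
  classical
  have _ := hb
  obtain ⟨S, hS⟩ : ∃ S : Set ℂ, S = {y | ContDiffAt ℝ ∞ k y ∧ (y ∈ A ↔ k y ≤ 0) ∧
    (k y = 0 → y ∈ frontier A)} := ⟨_, rfl⟩
  have hsub : frontier A ⊆ interior S := by
    intro x hx
    obtain ⟨-, ⟨v, hv⟩, hev⟩ := hk x hx
    rw [mem_interior_iff_mem_nhds, hS]
    filter_upwards [hev.eventually_nhds, Desc.near hv] with y h1 h2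
    have h3 := h1.self_of_nhds
    refine ⟨h3.1, h3.2, fun h0 => ?_⟩
    have h4 : y ∈ A := h3.2.2 h0.le
    rw [frontier_eq_closure_inter_closure, hA.closure_eq]
    refine ⟨h4, ?_⟩
    rw [mem_closure_iff_frequently]
    have h5 : ∃ᶠ z in 𝓝 y, k y < k z := (Desc1.frequently h2).1
    refine (h5.and_eventually h1).mono ?_
    rintro z ⟨h6, -, h7⟩ hz
    rw [h0] at h6
    exact absurd (h7.1 hz) (not_le.2 h6)
  obtain ⟨χ, h2, h1, h3⟩ :=
    exists_contMDiffMap_zero_one_nhds_of_isClosed (modelWithCornersSelf ℝ ℂ) (n := (⊤ : ℕ∞))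
      (isOpen_interior (s := S)).isClosed_compl (isClosed_frontier (s := A))
      (Set.disjoint_left.2 fun x hx hx' => hx (hsub hx'))
  have hχ : ContDiff ℝ ∞ χ := χ.contMDiff.contDiff
  have hnear : ∀ x ∈ frontier A, ∀ᶠ y in 𝓝 x, χ y = 1 := fun x hx =>
    h1.filter_mono (nhds_le_nhdsSet hx)
  have hfar : ∀ x, x ∉ interior S → ∀ᶠ y in 𝓝 x, χ y = 0 := fun x hx =>
    h2.filter_mono (nhds_le_nhdsSet (show x ∈ (interior S)ᶜ from hx))
  have hχS : ∀ x, χ x ≠ 0 → x ∈ S := by
    intro x hx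
    by_contra hne
    exact hx (hfar x fun h => hne (interior_subset h)).self_of_nhds
  obtain ⟨G, hG⟩ : ∃ G : ℂ → ℝ, G = fun x => χ x * k x + (1 - χ x) * (if x ∈ A then -1 else 1) :=
    ⟨_, rfl⟩
  have hGk : ∀ x ∈ frontier A, G =ᶠ[𝓝 x] k := by
    intro x hx
    filter_upwards [hnear x hx] with y hy
    rw [hG]
    simp [hy]
  -- smoothness
  have hprod : ∀ x, ContDiffAt ℝ ∞ (fun y => χ y * k y) x := by
    intro x
    by_cases hx : x ∈ interior S
    · have hxS := interior_subset hx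
      rw [hS] at hxS
      exact hχ.contDiffAt.mul hxS.1
    · have h4 : (fun y => χ y * k y) =ᶠ[𝓝 x] fun _ => 0 := by
        filter_upwards [hfar x hx] with y hy
        rw [hy, zero_mul]
      exact contDiffAt_const.congr_of_eventuallyEq h4
  have hS1 : ∀ c : ℝ, ContDiff ℝ ∞ fun y => (1 - χ y) * c := fun c =>
    (contDiff_const.sub hχ).mul contDiff_const
  have hGs : ContDiff ℝ ∞ G := by
    rw [contDiff_iff_contDiffAt]
    intro x
    by_cases hx : x ∈ frontier A
    · have h4 := (interior_subset (hsub hx))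
      rw [hS] at h4
      exact h4.1.congr_of_eventuallyEq (hGk x hx)
    · by_cases hxA : x ∈ A
      · have h4 : G =ᶠ[𝓝 x] fun y => χ y * k y + (1 - χ y) * (-1) := by
          have h5 : x ∈ interior A := by
            by_contra h6
            exact hx ⟨subset_closure hxA, h6⟩
          filter_upwards [mem_interior_iff_mem_nhds.1 h5] with y hy
          rw [hG]
          simp only [if_pos hy]
        exact ((hprod x).add (hS1 (-1)).contDiffAt).congr_of_eventuallyEq h4
      · have h4 : G =ᶠ[𝓝 x] fun y => χ y * k y + (1 - χ y) * 1 := by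
          filter_upwards [hA.isOpen_compl.mem_nhds hxA] with y hy
          have hy' : y ∉ A := hy
          rw [hG]
          simp only [if_neg hy']
        exact ((hprod x).add (hS1 1).contDiffAt).congr_of_eventuallyEq h4
  -- signs
  have hzero : ∀ x ∈ frontier A, G x = 0 := by
    intro x hx
    rw [(hGk x hx).eq_of_nhds, (hk x hx).1]
  have hneg : ∀ x ∈ A, x ∉ frontier A → G x < 0 := by
    intro x hx hx'
    rw [hG]
    simp only [if_pos hx]
    have h4 := (h3 x).1
    have h5 := (h3 x).2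
    rcases eq_or_ne (χ x) 0 with h6 | h6
    · rw [h6]
      norm_num
    · have h7 := hχS x h6
      rw [hS] at h7
      have h8 : 0 < χ x := lt_of_le_of_ne h4 (Ne.symm h6)
      have h9 : k x < 0 := lt_of_le_of_ne (h7.2.1.1 hx) fun h => hx' (h7.2.2 h)
      nlinarith [mul_neg_of_pos_of_neg h8 h9]
  have hpos : ∀ x, x ∉ A → 0 < G x := by
    intro x hx
    rw [hG]
    simp only [if_neg hx]
    have h4 := (h3 x).1
    have h5 := (h3 x).2
    rcases eq_or_ne (χ x) 0 with h6 | h6
    · rw [h6]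
      norm_num
    · have h7 := hχS x h6
      rw [hS] at h7
      have h8 : 0 < χ x := lt_of_le_of_ne h4 (Ne.symm h6)
      have h9 : 0 < k x := not_le.1 fun h => hx (h7.2.1.2 h)
      nlinarith [mul_pos h8 h9]
  have hfA : frontier A ⊆ A := hA.frontier_subset
  have hiff : ∀ x, G x = 0 ↔ x ∈ frontier A := by
    intro x
    refine ⟨fun h => ?_, hzero x⟩
    by_contra hx
    by_cases hxA : x ∈ A
    · exact (hneg x hxA hx).ne h
    · exact (hpos x hxA).ne' h
  refine ⟨G, hGs, fun x => ⟨fun h => ?_, fun h => ?_⟩, hiff, fun x hx => ?_⟩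
  · by_contra hx
    exact absurd (hpos x hx) (not_lt.2 h)
  · by_cases hx : x ∈ frontier A
    · exact (hzero x hx).le
    · exact (hneg x h hx).le
  · have hxf := (hiff x).1 hx
    obtain ⟨v, hv⟩ := (hk x hxf).2.1
    exact ⟨v, hv.congr (hGk x hxf).symm⟩

end Pool.Schoen
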