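import Pool.Agent.H.MP_6c077c_gt.Al.PlaneBall
import Pool.Agent.H.MP_6c077c_gt.Al.Compl
import Pool.Agent.H.MP_6c077c_gt.Al.Start
import Pool.Agent.H.MP_6c077c_gt.Al.Diffeo
import Pool.Agent.H.MP_6c077c_gt.Al.Planar
import Pool.Agent.H.MP_6c077c_gt.Ix.MollD
import Pool.Agent.H.MP_6c077c_gt.IxB.LiftBall
import Pool.Agent.H.MP_6c077c_gt.IxB.T1
import Pool.Agent.H.MP_6c077c_gt.Ix.HomB

/-! Theorem TS: the ball theorem in the plane for good functions. -/

set_option autoImplicit false

namespace Pool.Schoen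

open Filter Set Metric
open scoped Topology RealInnerProductSpace ContDiff

variable {V : Type*} [NormedAddCommGroup V] [InnerProductSpace ℝ V] [FiniteDimensional ℝ V]

/-- The good function of a regular smooth function. -/
private theorem PlaneG_good {F : V → ℝ} (hF : ContDiff ℝ ∞ F)
    (hreg : ∀ x, F x = 0 → gradient F x ≠ 0) (hb : Bornology.IsBounded {x | F x ≤ 0}) :
    Good F where
  cont := hF.continuous
  bdd := hb.subset fun x (hx : F x = 0) => hx.le
  desc x hx := by
    refine ⟨-gradient F x, desc1_smooth (hF.contDiffAt.of_le (by exact_mod_cast le_top)) ?_⟩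
    rw [fderiv_eq_inner_gradient, inner_neg_right, real_inner_self_eq_norm_sq]
    have h := norm_pos_iff.2 (hreg x hx)
    have : 0 < ‖gradient F x‖ ^ 2 := by positivity
    linarith

/-- Every good function is homotopic to a smooth regular one. -/
private theorem PlaneG_smooth (g : V → ℝ) (hg : Good g) :
    ∃ G : V → ℝ, ContDiff ℝ ∞ G ∧ Hom g G ∧ ∀ x, G x = 0 → gradient G x ≠ 0 := by
  obtain ⟨v, δ, R, ε, hδ, hε, hdesc, hfar, hmoll⟩ := hg.adapted 1 one_pos
  obtain ⟨G, hG⟩ := moll_exists g hg.cont ε hε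
  have hA := (hmoll G ε le_rfl hG).1
  have hsm : ContDiff ℝ ∞ G := hA.smooth
  have hzR : ∀ t ∈ Icc (0 : ℝ) 1, ∀ x, (1 - t) * g x + t * G x = 0 → ‖x‖ < R := by
    intro t ht x hx
    by_contra hcon
    have h1 := hA.sign x (not_lt.1 hcon)
    rcases mul_pos_iff.1 h1 with ⟨h2, h3⟩ | ⟨h2, h3⟩
    · have : 0 < (1 - t) * g x + t * G x := by
        rcases eq_or_lt_of_le ht.1 with h4 | h4
        · rw [← h4]
          linarith
        · have h5 : 0 < t * G x := mul_pos h4 h2
          have h6 : 0 ≤ (1 - t) * g x := mul_nonneg (by linarith [ht.2]) h3.le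
          linarith
      linarith
    · have : (1 - t) * g x + t * G x < 0 := by
        rcases eq_or_lt_of_le ht.1 with h4 | h4
        · rw [← h4]
          linarith
        · have h5 : t * G x < 0 := mul_neg_of_pos_of_neg h4 h2
          have h6 : (1 - t) * g x ≤ 0 := mul_nonpos_of_nonneg_of_nonpos (by linarith [ht.2]) h3.le
          linarith
      linarith
  have hzδ : ∀ t ∈ Icc (0 : ℝ) 1, ∀ x, (1 - t) * g x + t * G x = 0 → |g x| ≤ δ := by
    intro t ht x hx
    have h1 := hA.close x (hzR t ht x hx).le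
    have h2 : g x = -(t * (G x - g x)) := by linarith
    rw [h2, abs_neg, abs_mul, abs_of_nonneg ht.1]
    calc t * |G x - g x| ≤ 1 * |G x - g x| := mul_le_mul_of_nonneg_right ht.2 (abs_nonneg _)
      _ ≤ δ := by linarith
  refine ⟨G, hsm, ?_, ?_⟩
  · refine Hom.lerp hg.cont hsm.continuous ⟨R, fun t ht x hx => (hzR t ht x hx).le⟩ ?_
    intro t ht x hx
    have h1 := (hzR t ht x hx).le
    have h2 := hzδ t ht x hx
    exact ⟨v x, hdesc x h1 h2, desc1_smooth (hsm.contDiffAt.of_le (by exact_mod_cast le_top))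
      (hA.dir x h1 h2)⟩
  · intro x hx h0
    have hx1 : (1 - (1 : ℝ)) * g x + 1 * G x = 0 := by
      rw [hx]
      ring
    have h1 := hzR 1 ⟨zero_le_one, le_rfl⟩ x hx1
    have h2 := hzδ 1 ⟨zero_le_one, le_rfl⟩ x hx1
    have h3 := hA.dir x h1.le h2
    rw [fderiv_eq_inner_gradient, h0, inner_zero_left] at h3
    exact lt_irrefl _ h3

/-- The ball theorem in the plane, smooth functions. -/
theorem plane_smooth (hdim : Module.finrank ℝ V = 2) {F : V → ℝ} (hF : ContDiff ℝ ∞ F)
    (hreg : ∀ x, F x = 0 → gradient F x ≠ 0) (hb : Bornology.IsBounded {x | F x ≤ 0})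
    (hc : IsConnected {x | F x ≤ 0}) (hcc : IsPreconnected {x | 0 < F x}) : IsBall F := by
  classical
  obtain ⟨e, Φ, Ψ, he, hdif, hfin, hidx, hdist⟩ := al_start 1 (by omega) F hF hb hreg
  have hF' : ContDiff ℝ ∞ (fun y => F (Φ y)) := hF.comp hdif.smooth
  have hreg' : ∀ x, F (Φ x) = 0 → gradient (fun y => F (Φ y)) x ≠ 0 :=
    fun x hx => hdif.reg hF (hreg _ hx)
  have hb' : Bornology.IsBounded {x | F (Φ x) ≤ 0} := hdif.bounded hb
  have hin : {x | Inward (fun y => F (Φ y)) e x}.Finite :=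
    hfin.subset fun x hx => (crit_iff he hreg' x).2 (Or.inl hx)
  have hcl : Class (fun y => F (Φ y)) e hin.toFinset :=
    { bdd := hb'
      good := PlaneG_good hF' hreg' hb'
      inw := by
        intro p hp
        have hp' : Inward (fun y => F (Φ y)) e p := hin.mem_toFinset.1 hp
        obtain ⟨k, hk⟩ := hidx p ((crit_iff he hreg' p).2 (Or.inl hp'))
        have hk1 : k ≤ 1 := by
          obtain ⟨N, P, hs, hN⟩ := hk
          have h1 := hs.finrank he
          omega
        exact inw_of_idx _ hF' e p hp' k hk1 hk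
      free := by
        intro x hx hxP
        refine free_of_not_inward _ hF' e he x hx (hreg' x hx) fun h => hxP ?_
        exact hin.mem_toFinset.2 h }
  refine (isBall_comp_dif hdif).1 ?_
  exact plane_ball hdim e he _ _ hcl (hdif.isConnected hc) (hdif.isPreconnected hcc)

/-- The ball theorem in the plane, good functions. -/
theorem plane_good (hdim : Module.finrank ℝ V = 2) {f : V → ℝ} (hf : Good f)
    (hb : Bornology.IsBounded {x | f x ≤ 0}) (hc : IsConnected {x | f x ≤ 0})
    (hcc : IsPreconnected {x | 0 < f x}) : IsBall f := by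
  obtain ⟨F, hF, hfF, hreg⟩ := PlaneG_smooth f hf
  exact hfF.trans (plane_smooth hdim hF hreg (hfF.bdd hb) (hfF.isConnected hb hc)
    (hfF.compl (by omega) hb hcc))

/-- The ball theorem in the plane, with the diffeomorphism. -/
theorem plane_dif (hdim : Module.finrank ℝ V = 2) {F : V → ℝ} (hF : ContDiff ℝ ∞ F)
    (hreg : ∀ x, F x = 0 → gradient F x ≠ 0) (hb : Bornology.IsBounded {x | F x ≤ 0})
    (hc : IsConnected {x | F x ≤ 0}) (hcc : IsPreconnected {x | 0 < F x}) :
    ∃ φ ψ : V → V, Dif φ ψ ∧ (∃ R : ℝ, ∀ w, R ≤ ‖w‖ → φ w = w) ∧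
      (∀ w, F (φ w) ≤ 0 ↔ ‖w‖ ≤ 1) := by
  have hB : IsBall F := plane_smooth hdim hF hreg hb hc hcc
  have hset : {x : V | ‖x‖ ^ 2 - 1 ≤ 0} = Metric.closedBall (0 : V) 1 := by
    ext x
    rw [mem_closedBall_zero_iff]
    constructor
    · intro (h : ‖x‖ ^ 2 - 1 ≤ 0)
      nlinarith [norm_nonneg x]
    · intro h
      show ‖x‖ ^ 2 - 1 ≤ 0
      nlinarith [norm_nonneg x]
  have hlift0 : LiftS {x : V | ‖x‖ ^ 2 - 1 ≤ 0} := by
    rw [hset]
    exact liftS_convex _ (convex_closedBall _ _) isClosed_closedBall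
      ⟨0, ball_subset_interior_closedBall (mem_ball_self one_pos)⟩
  have hb0 : Bornology.IsBounded {x : V | ‖x‖ ^ 2 - 1 ≤ 0} := by
    rw [hset]
    exact isBounded_closedBall
  have hD : Dom F :=
    { smooth := hF
      bdd := hb
      reg := hreg
      conn := hc
      lift := (Hom.symm hB).liftS hb0 hlift0 }
  obtain ⟨φ, ψ, h1, h2, h3, -⟩ := planar_dif hdim F hD
  exact ⟨φ, ψ, h1, h2, h3⟩

end Pool.Schoen
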