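import Pool.Agent.H.MP_6c077c_gt.Ts.Ann
import Pool.Agent.H.MP_6c077c_gt.Ts.Defn
import Pool.Agent.H.MP_6c077c_gt.Ts.PlaneG

/-! Theorem TS: a diffeomorphism of the plane which makes the annulus round. -/

set_option autoImplicit false

namespace Pool.Schoen

open Filter Set Metric
open scoped Topology RealInnerProductSpace ContDiff

/-- `h` is smooth and regular near its level `t`. -/
def Smr (h : ℂ → ℝ) (t : ℝ) : Prop :=
  ∀ x, h x = t → (∀ᶠ y in 𝓝 x, ContDiffAt ℝ ∞ h y) ∧ ∃ v, Desc1 h x v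

theorem Smr.neg {h : ℂ → ℝ} {t : ℝ} (hs : Smr h t) : Smr (fun x => -h x) (-t) := by
  intro x hx
  obtain ⟨h1, v, hv⟩ := hs x (neg_inj.1 hx)
  refine ⟨?_, -v, Desc.neg hv⟩
  filter_upwards [h1] with y hy
  exact hy.neg

private theorem AnnDif_add {h : ℂ → ℝ} {x v : ℂ} (hd : Desc1 h x v) (c : ℝ) :
    Desc1 (fun y => h y + c) x v := desc_add_const hd fun _ => c

/-- The strict inequality from the weak one. -/
private theorem AnnDif_strict {F : ℂ → ℝ} (hF : Good F) {φ ψ : ℂ → ℂ} (hd : Dif φ ψ)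
    (hw : ∀ w, F (φ w) ≤ 0 ↔ ‖w‖ ≤ 1) (x : ℂ) : F x < 0 ↔ ‖ψ x‖ < 1 := by
  have hw' : ∀ x, F x ≤ 0 ↔ ‖ψ x‖ ≤ 1 := by
    intro x
    have h1 := hw (ψ x)
    rwa [hd.right] at h1
  constructor
  · intro hx
    have h1 : ‖ψ x‖ ≤ 1 := (hw' x).1 hx.le
    refine lt_of_le_of_ne h1 fun h2 => ?_
    have hc : Continuous fun s : ℝ => φ ((1 + s) • ψ x) :=
      hd.continuous.comp (by fun_prop)
    have h3 : Tendsto (fun s : ℝ => F (φ ((1 + s) • ψ x))) (𝓝[>] 0) (𝓝 (F x)) := by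
      have h4 := (hF.cont.comp hc).tendsto 0
      simp only [Function.comp_apply, add_zero, one_smul, hd.right] at h4
      exact h4.mono_left nhdsWithin_le_nhds
    obtain ⟨s, hs1, hs2⟩ := ((h3.eventually_lt_const hx).and self_mem_nhdsWithin).exists
    have h5 := (hw _).1 hs1.le
    have hs2' : 0 < s := hs2
    rw [norm_smul, h2, mul_one, Real.norm_of_nonneg (by linarith)] at h5
    linarith
  · intro hx
    have h1 : F x ≤ 0 := (hw' x).2 hx.le
    refine lt_of_le_of_ne h1 fun h2 => ?_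
    have h3 : x ∈ closure {y | 0 < F y} := hF.zero_closure h2
    have h4 : closure {y | 0 < F y} ⊆ {y | 1 ≤ ‖ψ y‖} := by
      refine closure_minimal (fun y hy => ?_)
        (isClosed_le continuous_const (continuous_norm.comp hd.symm.continuous))
      by_contra h5
      have h6 : F y ≤ 0 := (hw' y).2 (not_le.1 h5).le
      exact absurd hy (not_lt.2 h6)
    exact absurd hx (not_lt.2 (h4 h3))

private theorem AnnDif_grad {G : ℂ → ℝ} (hG : ContDiff ℝ ∞ G) {x v : ℂ} (h : Desc1 G x v) :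
    gradient G x ≠ 0 := by
  intro h0
  have h1 := fderiv_neg_of_desc1 ((hG.differentiable (by simp)) x) h
  rw [fderiv_eq_inner_gradient, h0, inner_zero_left] at h1
  exact lt_irrefl _ h1

/-- The outer curve. PROOF. `exists_def` for `A = L`, `k = b - h` gives `G`; `F = -G` has `{F < 0} = Lᶜ`,
`{F ≤ 0} = closure Lᶜ` (regular: `Good`-lemmas in Al/Compl.lean), connected, bounded, `{0 < F}` = interior of `L`,
connected (`Good.open_compl`). `plane_dif`. -/
theorem ts_ann_outer {h : ℂ → ℝ} {a b : ℝ} {Δ L : Set ℂ} (H : Ann h a b Δ L) (hb : Smr h b) :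
    ∃ σ τ : ℂ → ℂ, Dif σ τ ∧ ∀ x, x ∈ L ↔ 1 ≤ ‖σ x‖ := by
  have hfr : Bornology.IsBounded (frontier L) := by
    rw [← frontier_compl]
    exact H.bdd.closure.subset frontier_subset_closure
  obtain ⟨G, hG, hG1, hG2, hG3⟩ := exists_def (A := L) (k := fun x => b - h x) H.clL hfr (by
    intro x hx
    obtain ⟨h1, h2⟩ := H.frL x hx
    obtain ⟨h3, v, hv⟩ := hb x h1
    refine ⟨by rw [h1, sub_self], ⟨-v, ?_⟩, ?_⟩
    · have h4 := AnnDif_add (h := fun y => -h y) (Desc.neg hv) b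
      refine Desc1.congr h4 (Eventually.of_forall fun y => ?_)
      show -h y + b = b - h y
      ring
    · filter_upwards [h2, h3] with y hy hy'
      exact ⟨contDiffAt_const.sub hy', hy.trans sub_nonpos.symm⟩)
  have hGc : Continuous G := hG.continuous
  have hgood : Good (fun x => -G x) :=
    { cont := hGc.neg
      bdd := by
        refine hfr.subset fun x hx => (hG2 x).1 ?_
        exact neg_eq_zero.1 hx
      desc := by
        intro x hx
        obtain ⟨v, hv⟩ := hG3 x (neg_eq_zero.1 hx)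
        exact ⟨-v, Desc.neg hv⟩ }
  have hset : {x | -G x ≤ 0} = closure Lᶜ := by
    ext x
    constructor
    · intro hx
      have hx' : 0 ≤ G x := by
        have : -G x ≤ 0 := hx
        linarith
      rcases hx'.lt_or_eq with h1 | h1
      · exact subset_closure fun h2 => absurd ((hG1 x).2 h2) (not_le.2 h1)
      · have h2 := (hG2 x).1 h1.symm
        rw [← frontier_compl] at h2
        exact frontier_subset_closure h2
    · intro hx
      have h1 : closure Lᶜ ⊆ {x | 0 ≤ G x} := by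
        refine closure_minimal (fun y hy => ?_) (isClosed_le continuous_const hGc)
        by_contra h2
        exact hy ((hG1 y).1 (not_le.1 h2).le)
      have h2 : 0 ≤ G x := h1 hx
      show -G x ≤ 0
      linarith
  have hLne : (Lᶜ).Nonempty := by
    obtain ⟨x, hx⟩ := H.neD
    exact ⟨x, fun h1 => (Set.disjoint_left.1 H.dis) hx h1⟩
  obtain ⟨φ, ψ, hd, -, hw⟩ := plane_dif Complex.finrank_real_complex (F := fun x => -G x) hG.neg
    (by
      intro x hx
      obtain ⟨v, hv⟩ := hgood.desc x hx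
      exact AnnDif_grad hG.neg hv)
    (by
      rw [hset]
      exact H.bdd.closure)
    (by
      rw [hset]
      exact ⟨hLne.closure, H.conLc.closure⟩)
    (by
      refine hgood.open_compl ?_
      have e : {x | 0 ≤ -G x} = L := by
        ext x
        rw [← hG1 x]
        exact (neg_nonneg : 0 ≤ -G x ↔ G x ≤ 0)
      rw [e]
      exact H.conL)
  refine ⟨ψ, φ, hd.symm, fun x => ?_⟩
  have h1 := AnnDif_strict hgood hd hw x
  rw [← not_lt, ← h1, ← hG1 x]
  constructor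
  · intro h2 h3
    linarith
  · intro h2
    linarith [not_lt.1 h2]

/-- The inner points of the disc. -/
private noncomputable def AnnDif_eta (z : ℂ) : ℂ := OpenPartialHomeomorph.univUnitBall z

private noncomputable def AnnDif_zeta (w : ℂ) : ℂ := OpenPartialHomeomorph.univUnitBall.symm w

private theorem AnnDif_eta_smooth : ContDiff ℝ ∞ AnnDif_eta :=
  OpenPartialHomeomorph.contDiff_univUnitBall (n := ⊤)

private theorem AnnDif_zeta_smooth {w : ℂ} (hw : ‖w‖ < 1) : ContDiffAt ℝ ∞ AnnDif_zeta w :=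
  (OpenPartialHomeomorph.contDiffOn_univUnitBall_symm (n := ⊤)).contDiffAt
    (isOpen_ball.mem_nhds (mem_ball_zero_iff.2 hw))

private theorem AnnDif_eta_norm (z : ℂ) : ‖AnnDif_eta z‖ < 1 :=
  mem_ball_zero_iff.1 (OpenPartialHomeomorph.univUnitBall.map_source (mem_univ z))

private theorem AnnDif_zeta_eta (z : ℂ) : AnnDif_zeta (AnnDif_eta z) = z :=
  OpenPartialHomeomorph.univUnitBall.left_inv (mem_univ z)

private theorem AnnDif_eta_zeta {w : ℂ} (hw : ‖w‖ < 1) : AnnDif_eta (AnnDif_zeta w) = w :=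
  OpenPartialHomeomorph.univUnitBall.right_inv (mem_ball_zero_iff.2 hw)

private theorem AnnDif_sq (z : ℂ) : ‖AnnDif_eta z‖ ^ 2 * (1 + ‖z‖ ^ 2) = ‖z‖ ^ 2 := by
  have h0 : ‖AnnDif_eta z‖ = (√(1 + ‖z‖ ^ 2))⁻¹ * ‖z‖ := by
    show ‖(OpenPartialHomeomorph.univUnitBall z : ℂ)‖ = _
    rw [OpenPartialHomeomorph.univUnitBall_apply, norm_smul, norm_inv,
      Real.norm_of_nonneg (Real.sqrt_nonneg _)]
  have h1 : 0 < 1 + ‖z‖ ^ 2 := by positivity
  rw [h0, mul_pow, inv_pow, Real.sq_sqrt h1.le]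
  field_simp

private theorem AnnDif_zeta_sq {w : ℂ} (hw : ‖w‖ < 1) :
    ‖w‖ ^ 2 * (1 + ‖AnnDif_zeta w‖ ^ 2) = ‖AnnDif_zeta w‖ ^ 2 := by
  have h := AnnDif_sq (AnnDif_zeta w)
  rwa [AnnDif_eta_zeta hw] at h

/-- The transfer of a map of the plane to the disc. -/
private noncomputable def AnnDif_ext (φ : ℂ → ℂ) (x : ℂ) : ℂ := by
  classical
  exact if ‖x‖ < 1 then AnnDif_eta (φ (AnnDif_zeta x)) else x

private theorem AnnDif_ext_pos (φ : ℂ → ℂ) {x : ℂ} (hx : ‖x‖ < 1) :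
    AnnDif_ext φ x = AnnDif_eta (φ (AnnDif_zeta x)) := by
  rw [AnnDif_ext, if_pos hx]

private theorem AnnDif_ext_neg (φ : ℂ → ℂ) {x : ℂ} (hx : ¬ ‖x‖ < 1) : AnnDif_ext φ x = x := by
  rw [AnnDif_ext, if_neg hx]

private theorem AnnDif_ext_norm (φ : ℂ → ℂ) (x : ℂ) : ‖AnnDif_ext φ x‖ < 1 ↔ ‖x‖ < 1 := by
  by_cases hx : ‖x‖ < 1
  · rw [AnnDif_ext_pos φ hx]
    exact ⟨fun _ => hx, fun _ => AnnDif_eta_norm _⟩
  · rw [AnnDif_ext_neg φ hx]

private theorem AnnDif_ext_far (φ : ℂ → ℂ) {R : ℝ} (hR : 0 < R) (hf : ∀ w, R ≤ ‖w‖ → φ w = w)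
    {x : ℂ} (hx : R ^ 2 < ‖x‖ ^ 2 * (1 + R ^ 2)) : AnnDif_ext φ x = x := by
  by_cases h : ‖x‖ < 1
  · rw [AnnDif_ext_pos φ h, hf, AnnDif_eta_zeta h]
    by_contra hcon
    have hz := not_le.1 hcon
    have h1 := AnnDif_zeta_sq h
    have h2 : ‖AnnDif_zeta x‖ ^ 2 < R ^ 2 := by
      have := norm_nonneg (AnnDif_zeta x)
      nlinarith
    have h3 : ‖x‖ ^ 2 < 1 := by
      have := norm_nonneg x
      nlinarith
    nlinarith [mul_pos (sub_pos.2 h2) (sub_pos.2 h3)]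
  · exact AnnDif_ext_neg φ h

private theorem AnnDif_ext_smooth {φ : ℂ → ℂ} (hφ : ContDiff ℝ ∞ φ) {R : ℝ} (hR : 0 < R)
    (hf : ∀ w, R ≤ ‖w‖ → φ w = w) : ContDiff ℝ ∞ (AnnDif_ext φ) := by
  rw [contDiff_iff_contDiffAt]
  intro x
  by_cases hx : ‖x‖ < 1
  · have h1 : ContDiffAt ℝ ∞ (fun y => AnnDif_eta (φ (AnnDif_zeta y))) x :=
      AnnDif_eta_smooth.contDiffAt.comp x
        (hφ.contDiffAt.comp x (AnnDif_zeta_smooth hx))
    refine h1.congr_of_eventuallyEq ?_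
    filter_upwards [(isOpen_lt continuous_norm continuous_const).mem_nhds hx] with y hy
    exact AnnDif_ext_pos φ hy
  · refine contDiffAt_id.congr_of_eventuallyEq ?_
    have h1 : R ^ 2 < ‖x‖ ^ 2 * (1 + R ^ 2) := by
      have h2 := not_lt.1 hx
      nlinarith [mul_nonneg (sub_nonneg.2 h2) (by positivity : 0 ≤ (‖x‖ + 1) * (1 + R ^ 2))]
    have h3 : IsOpen {y : ℂ | R ^ 2 < ‖y‖ ^ 2 * (1 + R ^ 2)} :=
      isOpen_lt continuous_const (by fun_prop)
    filter_upwards [h3.mem_nhds h1] with y hy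
    exact AnnDif_ext_far φ hR hf hy

private theorem AnnDif_ext_left {φ ψ : ℂ → ℂ} (h : ∀ x, ψ (φ x) = x) (x : ℂ) :
    AnnDif_ext ψ (AnnDif_ext φ x) = x := by
  by_cases hx : ‖x‖ < 1
  · rw [AnnDif_ext_pos ψ ((AnnDif_ext_norm φ x).2 hx), AnnDif_ext_pos φ hx, AnnDif_zeta_eta, h,
      AnnDif_eta_zeta hx]
  · rw [AnnDif_ext_neg φ hx, AnnDif_ext_neg ψ hx]

private theorem AnnDif_ext_dif {φ ψ : ℂ → ℂ} (hd : Dif φ ψ) {R : ℝ} (hR : 0 < R)
    (hf : ∀ w, R ≤ ‖w‖ → φ w = w) : Dif (AnnDif_ext φ) (AnnDif_ext ψ) where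
  smooth := AnnDif_ext_smooth hd.smooth hR hf
  smooth' := AnnDif_ext_smooth hd.smooth' hR fun w hw => by
    have h1 := hd.left w
    rwa [hf w hw] at h1
  left := AnnDif_ext_left hd.left
  right := AnnDif_ext_left hd.right

private theorem AnnDif_eta_open : IsOpenMap AnnDif_eta :=
  (OpenPartialHomeomorph.univUnitBall.isOpenEmbedding rfl).isOpenMap

/-- The derivative of `AnnDif_eta` is onto. -/
private theorem AnnDif_onto (z v : ℂ) : ∃ v', fderiv ℝ AnnDif_eta z v' = v := by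
  have hn := AnnDif_eta_norm z
  have h1 : HasFDerivAt AnnDif_zeta (fderiv ℝ AnnDif_zeta (AnnDif_eta z)) (AnnDif_eta z) :=
    ((AnnDif_zeta_smooth hn).differentiableAt (by simp)).hasFDerivAt
  have h2 : HasFDerivAt AnnDif_eta (fderiv ℝ AnnDif_eta z) (AnnDif_zeta (AnnDif_eta z)) := by
    rw [AnnDif_zeta_eta]
    exact ((AnnDif_eta_smooth.differentiable (by simp)) z).hasFDerivAt
  have h3 := h2.comp (AnnDif_eta z) h1
  have h4 : HasFDerivAt (AnnDif_eta ∘ AnnDif_zeta) (ContinuousLinearMap.id ℝ ℂ)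
      (AnnDif_eta z) := by
    refine (hasFDerivAt_id _).congr_of_eventuallyEq ?_
    filter_upwards [(isOpen_lt continuous_norm continuous_const).mem_nhds hn] with y hy
    exact AnnDif_eta_zeta hy
  have h5 := h3.unique h4
  exact ⟨fderiv ℝ AnnDif_zeta (AnnDif_eta z) v, DFunLike.congr_fun h5 v⟩

/-- Inside of the disc. PROOF. `ζ : ball 0 1 → ℂ`, `ζ w = w / √(1 - ‖w‖ ^ 2)`, inverse `z / √(1 + ‖z‖ ^ 2)`
(`Homeomorph.unitBall`, `contDiff_homeomorphUnitBall`, `contDiffOn_homeomorphUnitBall_symm`). `D = ζ '' A` is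
compact; `exists_def` for `D` and `k ∘ ζ⁻¹`, then `plane_dif`: `φ` with compact support takes the closed unit disc
to `D`. `σ = ζ⁻¹ ∘ φ⁻¹ ∘ ζ` in the ball, the identity outside (near the unit circle it is the identity).
`{‖ζ w‖ ≤ 1} = {‖w‖ ≤ √(1/2)}`. -/
theorem ts_ann_inner {A : Set ℂ} (hA : IsClosed A) (hA1 : ∀ x ∈ A, ‖x‖ < 1) (hn : A.Nonempty)
    (hc : IsPreconnected A) (hcc : IsPreconnected (ball (0 : ℂ) 1 \ A)) {k : ℂ → ℝ}
    (hk : ∀ x ∈ frontier A, k x = 0 ∧ (∃ v, Desc1 k x v) ∧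
      ∀ᶠ y in 𝓝 x, ContDiffAt ℝ ∞ k y ∧ (y ∈ A ↔ k y ≤ 0)) :
    ∃ (σ τ : ℂ → ℂ) (r : ℝ), 0 < r ∧ r < 1 ∧ Dif σ τ ∧ (∀ x, 1 ≤ ‖σ x‖ ↔ 1 ≤ ‖x‖) ∧
      ∀ x, x ∈ A ↔ ‖σ x‖ ≤ r := by
  have hAb : Bornology.IsBounded A :=
    isBounded_ball.subset fun x hx => mem_ball_zero_iff.2 (hA1 x hx)
  obtain ⟨x0, hx0, hmax⟩ := (isCompact_of_isClosed_isBounded hA hAb).exists_isMaxOn hn
    continuous_norm.continuousOn
  have hρ : ‖x0‖ < 1 := hA1 x0 hx0
  have hη : Continuous AnnDif_eta := AnnDif_eta_smooth.continuous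
  obtain ⟨D, hD⟩ : ∃ D : Set ℂ, D = AnnDif_eta ⁻¹' A := ⟨_, rfl⟩
  have hDc : IsClosed D := by
    rw [hD]
    exact hA.preimage hη
  have hDb : Bornology.IsBounded D := by
    rw [isBounded_iff_forall_norm_le]
    have h1 : 0 < 1 - ‖x0‖ ^ 2 := by
      have := norm_nonneg x0
      nlinarith
    refine ⟨(1 - ‖x0‖ ^ 2)⁻¹ + 1, fun z hz => ?_⟩
    rw [hD] at hz
    have h2 : ‖AnnDif_eta z‖ ≤ ‖x0‖ := hmax hz
    have h3 := AnnDif_sq z
    have h4 : ‖AnnDif_eta z‖ ^ 2 ≤ ‖x0‖ ^ 2 := by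
      have := norm_nonneg (AnnDif_eta z)
      gcongr
    have h5 : ‖z‖ ^ 2 * (1 - ‖x0‖ ^ 2) ≤ 1 := by
      nlinarith [mul_le_mul_of_nonneg_right h4 (by positivity : 0 ≤ 1 + ‖z‖ ^ 2)]
    have h6 : ‖z‖ ^ 2 ≤ (1 - ‖x0‖ ^ 2)⁻¹ := by
      rw [inv_eq_one_div, le_div_iff₀ h1]
      exact h5
    have h7 := norm_nonneg z
    nlinarith [sq_nonneg (‖z‖ - 1), (by positivity : 0 < (1 - ‖x0‖ ^ 2)⁻¹)]
  have hfr : frontier D = AnnDif_eta ⁻¹' frontier A := by
    rw [hD]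
    exact (AnnDif_eta_open.preimage_frontier_eq_frontier_preimage hη A).symm
  obtain ⟨G, hG, hG1, hG2, hG3⟩ := exists_def (A := D) (k := fun z => k (AnnDif_eta z)) hDc
    (hDb.subset (hDc.frontier_subset)) (by
      intro z hz
      rw [hfr] at hz
      obtain ⟨h1, ⟨v, hv⟩, h2⟩ := hk _ hz
      have hks : ContDiffAt ℝ ∞ k (AnnDif_eta z) := h2.self_of_nhds.1
      have hkd := hks.differentiableAt (by simp)
      refine ⟨h1, ?_, ?_⟩
      · obtain ⟨v', hv'⟩ := AnnDif_onto z v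
        have h3 : ContDiffAt ℝ ∞ (fun z => k (AnnDif_eta z)) z :=
          hks.comp z AnnDif_eta_smooth.contDiffAt
        refine ⟨v', desc1_smooth (h3.of_le (by exact_mod_cast le_top)) ?_⟩
        have h4 : HasFDerivAt (fun z => k (AnnDif_eta z))
            ((fderiv ℝ k (AnnDif_eta z)).comp (fderiv ℝ AnnDif_eta z)) z :=
          hkd.hasFDerivAt.comp z ((AnnDif_eta_smooth.differentiable (by simp)) z).hasFDerivAt
        rw [h4.fderiv, ContinuousLinearMap.comp_apply, hv']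
        exact fderiv_neg_of_desc1 hkd hv
      · filter_upwards [hη.continuousAt.eventually h2] with y hy
        refine ⟨hy.1.comp y AnnDif_eta_smooth.contDiffAt, ?_⟩
        rw [hD]
        exact hy.2)
  have hζc : ∀ w, ‖w‖ < 1 → ContinuousAt AnnDif_zeta w := fun w hw =>
    (AnnDif_zeta_smooth hw).continuousAt
  have himg : ∀ B : Set ℂ, (∀ x ∈ B, ‖x‖ < 1) → IsPreconnected B →
      IsPreconnected {z | AnnDif_eta z ∈ B} := by
    intro B hB hBc
    have e : {z | AnnDif_eta z ∈ B} = AnnDif_zeta '' B := by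
      ext z
      constructor
      · intro hz
        exact ⟨AnnDif_eta z, hz, AnnDif_zeta_eta z⟩
      · rintro ⟨w, hw, rfl⟩
        show AnnDif_eta (AnnDif_zeta w) ∈ B
        rwa [AnnDif_eta_zeta (hB w hw)]
    rw [e]
    exact hBc.image _ fun w hw => (hζc w (hB w hw)).continuousWithinAt
  have hDset : {x | G x ≤ 0} = D := Set.ext hG1
  obtain ⟨φ, ψ, hd, ⟨R0, hR0⟩, hw⟩ := plane_dif Complex.finrank_real_complex hG
    (fun x hx => by
      obtain ⟨v, hv⟩ := hG3 x hx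
      exact AnnDif_grad hG hv)
    (by
      rw [hDset]
      exact hDb)
    (by
      rw [hDset]
      refine ⟨?_, ?_⟩
      · obtain ⟨x, hx⟩ := hn
        refine ⟨AnnDif_zeta x, ?_⟩
        rw [hD]
        show AnnDif_eta (AnnDif_zeta x) ∈ A
        rwa [AnnDif_eta_zeta (hA1 x hx)]
      · rw [hD]
        exact himg A hA1 hc)
    (by
      have e : {x | 0 < G x} = {z | AnnDif_eta z ∈ ball (0 : ℂ) 1 \ A} := by
        ext z
        constructor
        · intro hz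
          refine ⟨mem_ball_zero_iff.2 (AnnDif_eta_norm z), fun h1 => ?_⟩
          have h2 : z ∈ D := by
            rw [hD]
            exact h1
          exact absurd ((hG1 z).2 h2) (not_le.2 hz)
        · rintro ⟨-, h1⟩
          by_contra h2
          have h3 := (hG1 z).1 (not_lt.1 h2)
          rw [hD] at h3
          exact h1 h3
      rw [e]
      exact himg _ (fun x hx => mem_ball_zero_iff.1 hx.1) hcc)
  have hf : ∀ w, max R0 1 ≤ ‖w‖ → φ w = w := fun w hw => hR0 w ((le_max_left _ _).trans hw)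
  have hdif : Dif (AnnDif_ext ψ) (AnnDif_ext φ) :=
    (AnnDif_ext_dif hd (lt_max_of_lt_right one_pos) hf).symm
  have hr0 : 0 < √(1 / 2 : ℝ) := Real.sqrt_pos.2 (by norm_num)
  have hr2 : √(1 / 2 : ℝ) ^ 2 = 1 / 2 := Real.sq_sqrt (by norm_num)
  have hr1 : √(1 / 2 : ℝ) < 1 := by nlinarith
  refine ⟨AnnDif_ext ψ, AnnDif_ext φ, √(1 / 2), hr0, hr1, hdif, fun x => ?_, fun x => ?_⟩
  · rw [← not_lt, ← not_lt, AnnDif_ext_norm]
  · by_cases hx : ‖x‖ < 1
    · rw [AnnDif_ext_pos ψ hx]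
      have h1 : x ∈ A ↔ G (AnnDif_zeta x) ≤ 0 := by
        rw [hG1, hD]
        show x ∈ A ↔ AnnDif_eta (AnnDif_zeta x) ∈ A
        rw [AnnDif_eta_zeta hx]
      have h2 := hw (ψ (AnnDif_zeta x))
      rw [hd.right] at h2
      rw [h1, h2]
      have h3 := AnnDif_sq (ψ (AnnDif_zeta x))
      obtain ⟨u, hu⟩ : ∃ u, u = ‖ψ (AnnDif_zeta x)‖ := ⟨_, rfl⟩
      obtain ⟨y, hy⟩ : ∃ y, y = ‖AnnDif_eta (ψ (AnnDif_zeta x))‖ := ⟨_, rfl⟩
      have hu0 : 0 ≤ u := by
        rw [hu]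
        exact norm_nonneg _
      have hy0 : 0 ≤ y := by
        rw [hy]
        exact norm_nonneg _
      rw [← hu, ← hy] at h3
      rw [← hu, ← hy]
      constructor
      · intro h4
        have h5 : y ^ 2 ≤ √(1 / 2 : ℝ) ^ 2 := by
          rw [hr2]
          nlinarith
        exact abs_le_of_sq_le_sq' h5 hr0.le |>.2
      · intro h4
        have h5 : y ^ 2 ≤ √(1 / 2 : ℝ) ^ 2 := by gcongr
        rw [hr2] at h5
        have h6 : u ^ 2 ≤ 1 := by nlinarith [mul_le_mul_of_nonneg_right h5 (by positivity : 0 ≤ 1 + u ^ 2)]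
        nlinarith
    · rw [AnnDif_ext_neg ψ hx]
      constructor
      · intro h1
        exact absurd (hA1 x h1) hx
      · intro h1
        exact absurd (h1.trans_lt hr1) hx

/-- PROOF. `ts_ann_outer`, then `ts_ann_inner` for `A = σ '' Δ = {y | τ y ∈ Δ}`, `k y = h (τ y) - a`. -/
theorem ann_dif {h : ℂ → ℝ} {a b : ℝ} {Δ L : Set ℂ} (H : Ann h a b Δ L) (ha : Smr h a)
    (hb : Smr h b) : ∃ (σ τ : ℂ → ℂ) (r : ℝ), 0 < r ∧ r < 1 ∧ Dif σ τ ∧
      (∀ x, x ∈ Δ ↔ ‖σ x‖ ≤ r) ∧ ∀ x, x ∈ L ↔ 1 ≤ ‖σ x‖ := by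
  obtain ⟨σ, τ, hd, hL⟩ := ts_ann_outer H hb
  obtain ⟨A, hA⟩ : ∃ A : Set ℂ, A = {y | τ y ∈ Δ} := ⟨_, rfl⟩
  have hτc : Continuous τ := hd.symm.continuous
  have hAc : IsClosed A := by
    rw [hA]
    exact H.clD.preimage hτc
  have hA1 : ∀ x ∈ A, ‖x‖ < 1 := by
    intro x hx
    rw [hA] at hx
    have h1 : τ x ∉ L := Set.disjoint_left.1 H.dis hx
    rw [hL, hd.right, not_le] at h1
    exact h1
  have hfr : frontier A = {y | τ y ∈ frontier Δ} := by
    rw [hA]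
    have e : IsOpenMap τ := by
      intro U hU
      have h1 : τ '' U = {x | σ x ∈ U} := (hd.preimage_eq U).symm
      rw [h1]
      exact hU.preimage hd.continuous
    exact (e.preimage_frontier_eq_frontier_preimage hτc Δ).symm
  obtain ⟨σ1, τ1, r, h1, h2, hd1, h3, h4⟩ := ts_ann_inner (A := A) (k := fun y => h (τ y) + -a)
    hAc hA1
    (by
      obtain ⟨x, hx⟩ := H.neD
      refine ⟨σ x, ?_⟩
      rw [hA]
      show τ (σ x) ∈ Δ
      rwa [hd.left])
    (by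
      rw [hA]
      exact hd.symm.isPreconnected H.conD)
    (by
      have e : ball (0 : ℂ) 1 \ A = {y | τ y ∈ Δᶜ ∩ Lᶜ} := by
        ext y
        have h5 : y ∈ ball (0 : ℂ) 1 ↔ τ y ∉ L := by
          rw [hL, hd.right, not_le, mem_ball_zero_iff]
        rw [hA]
        constructor
        · rintro ⟨h6, h7⟩
          exact ⟨h7, h5.1 h6⟩
        · rintro ⟨h6, h7⟩
          exact ⟨h5.2 h7, h6⟩
      rw [e]
      exact hd.symm.isPreconnected H.conM)
    (by
      intro y hy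
      rw [hfr] at hy
      obtain ⟨h5, h6⟩ := H.frD _ hy
      obtain ⟨h7, v, hv⟩ := ha _ h5
      refine ⟨by rw [h5, add_neg_cancel], ⟨_, AnnDif_add (hd.symm.desc1 hv) (-a)⟩, ?_⟩
      filter_upwards [hτc.continuousAt.eventually h6, hτc.continuousAt.eventually h7] with z hz hz'
      refine ⟨(hz'.comp z hd.smooth'.contDiffAt).add contDiffAt_const, ?_⟩
      rw [hA]
      show τ z ∈ Δ ↔ h (τ z) + -a ≤ 0
      rw [hz]
      constructor
      · intro h8
        linarith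
      · intro h8
        linarith)
  refine ⟨fun x => σ1 (σ x), fun x => τ (τ1 x), r, h1, h2, ?_, fun x => ?_, fun x => ?_⟩
  · exact
      { smooth := hd1.smooth.comp hd.smooth
        smooth' := hd.smooth'.comp hd1.smooth'
        left := fun x => by
          show τ (τ1 (σ1 (σ x))) = x
          rw [hd1.left, hd.left]
        right := fun x => by
          show σ1 (σ (τ (τ1 x))) = x
          rw [hd.right, hd1.right] }
  · rw [← h4, hA]
    show x ∈ Δ ↔ τ (σ x) ∈ Δ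
    rw [hd.left]
  · rw [h3, hL]

end Pool.Schoen
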