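import Pool.Agent.H.MP_6c077c_gt.Ts.Defs
import Pool.Agent.H.MP_6c077c_gt.Ix.DescC

/-! Theorem TS: gluing two functions along a common level set. -/

set_option autoImplicit false

namespace Pool.Schoen

open Filter Set Metric
open scoped Topology RealInnerProductSpace ContDiff

private theorem DescG_le {h u : ℂ → ℝ} {x v : ℂ} {a : ℝ} (hu : DifferentiableAt ℝ u x)
    (h1 : Desc1 h x v) (hx : h x = a) (ux : u x = a) (he : ∀ᶠ y in 𝓝 x, (h y ≤ a → u y ≤ a)) :
    fderiv ℝ u x v ≤ 0 := by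
  obtain ⟨c, hc, hd⟩ := h1
  have ht : Tendsto (fun s : ℝ => (((), (x, (v, s))) : Unit × (ℂ × (ℂ × ℝ)))) (𝓝[>] 0)
      ((⊤ : Filter Unit) ×ˢ (𝓝 x ×ˢ (𝓝 v ×ˢ 𝓝[>] (0 : ℝ)))) :=
    tendsto_top.prodMk (tendsto_const_nhds.prodMk (tendsto_const_nhds.prodMk tendsto_id))
  have h1 := ht.eventually hd
  have hs : Tendsto (fun s : ℝ => s) (𝓝[>] (0 : ℝ)) (𝓝 0) := nhdsWithin_le_nhds
  have hp : Tendsto (fun s : ℝ => x + s • v) (𝓝[>] (0 : ℝ)) (𝓝 x) := by
    simpa using (hs.smul_const v).const_add x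
  have h2 : HasDerivAt (fun s : ℝ => u (x + s • v)) (fderiv ℝ u x v) 0 := by
    have := hu.hasFDerivAt.hasLineDerivAt v
    exact this
  have hle : 𝓝[>] (0 : ℝ) ≤ 𝓝[≠] (0 : ℝ) := by
    apply nhdsWithin_mono
    intro s hs
    exact ne_of_gt (mem_Ioi.1 hs)
  have h3 := (hasDerivAt_iff_tendsto_slope.1 h2).mono_left hle
  refine le_of_tendsto h3 ?_
  filter_upwards [h1, self_mem_nhdsWithin, hp.eventually he] with s hs hs0 hs1
  have hs0' : (0 : ℝ) < s := hs0
  have h5 : h (x + s • v) ≤ a := by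
    rw [hx] at hs
    have : 0 < c * s := mul_pos hc hs0'
    linarith
  have h6 := hs1 h5
  rw [slope_def_field]
  simp only [zero_smul, add_zero, sub_zero]
  rw [div_le_iff₀ hs0', ux]
  linarith

/-- Two regular functions with the same sublevel set have a common descent direction. PROOF. `v1 + v2`:
`fderiv h x v1 < 0` (`fderiv_neg_of_desc1`) and `fderiv u x v1 ≤ 0`: otherwise along `x + s v1` for small
`s > 0` one has `h < a` and `u > a`. The same for `v2`. Then `desc1_smooth`. -/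
theorem desc_common {h u : ℂ → ℝ} {x v1 v2 : ℂ} {a : ℝ} (hh : ContDiffAt ℝ 1 h x)
    (hu : ContDiffAt ℝ 1 u x) (h1 : Desc1 h x v1) (h2 : Desc1 u x v2) (hx : h x = a)
    (ux : u x = a) (he : ∀ᶠ y in 𝓝 x, (h y ≤ a ↔ u y ≤ a)) :
    Desc1 h x (v1 + v2) ∧ Desc1 u x (v1 + v2) := by
  have dh := hh.differentiableAt one_ne_zero
  have du := hu.differentiableAt one_ne_zero
  have e1 := fderiv_neg_of_desc1 dh h1
  have e2 := fderiv_neg_of_desc1 du h2
  have e3 := DescG_le du h1 hx ux (he.mono fun y hy => hy.1)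
  have e4 := DescG_le dh h2 ux hx (he.mono fun y hy => hy.2)
  constructor
  · apply desc1_smooth hh
    rw [map_add]
    linarith
  · apply desc1_smooth hu
    rw [map_add]
    linarith

/-- PROOF. Near `x` one has `k = min h a + max u a - a` if `{h ≤ a} = {u ≤ a}` near `x`. For `y` near `x`, `w` near
`v`, small `s`: if `k y ≤ a` then `h y ≤ a`, so `h (y + s w) ≤ h y - c s ≤ a` and `k (y + s w) = h (y + s w)`. If
`a < k y` let `s0` be the largest `s' ≤ s` with `a ≤ u (y + s' w)`; then `k (y + s0 w) = u (y + s0 w)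
≤ u y - c s0`, and on the rest `h` descends from `k (y + s0 w) = a` (`Desc1.unif` for both with a common
constant and radius). -/
theorem desc_glue {h u k : ℂ → ℝ} {x v : ℂ} {a : ℝ} (ch : Continuous h) (cu : Continuous u)
    (h1 : Desc1 h x v) (h2 : Desc1 u x v) (hx : h x = a) (ux : u x = a)
    (he : ∀ᶠ y in 𝓝 x, (h y ≤ a ↔ u y ≤ a))
    (hk : ∀ᶠ y in 𝓝 x, (h y ≤ a → k y = h y) ∧ (a < h y → k y = u y)) : Desc1 k x v := by
  have _ := ch
  have _ := hx
  have _ := ux
  obtain ⟨c1, hc1, d1, hd1, g1⟩ := h1.unif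
  obtain ⟨c2, hc2, d2, hd2, g2⟩ := h2.unif
  obtain ⟨r, hr, hek⟩ := Metric.eventually_nhds_iff.1 (he.and hk)
  obtain ⟨ρ, hρ⟩ : ∃ ρ, ρ = min r (min d1 d2) := ⟨_, rfl⟩
  have ρ0 : 0 < ρ := by rw [hρ]; positivity
  have ρr : ρ ≤ r := by rw [hρ]; exact min_le_left _ _
  have ρ1 : ρ ≤ d1 := by rw [hρ]; exact (min_le_right _ _).trans (min_le_left _ _)
  have ρ2 : ρ ≤ d2 := by rw [hρ]; exact (min_le_right _ _).trans (min_le_right _ _)
  have hpos : 0 < ‖v‖ + ρ + 1 := by positivity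
  obtain ⟨d, hd⟩ : ∃ d, d = min (ρ / 2) (ρ / (2 * (‖v‖ + ρ + 1))) := ⟨_, rfl⟩
  have d0 : 0 < d := by rw [hd]; positivity
  have dρ : d ≤ ρ / 2 := by rw [hd]; exact min_le_left _ _
  have dρ' : d * (‖v‖ + ρ + 1) ≤ ρ / 2 := by
    have : d ≤ ρ / (2 * (‖v‖ + ρ + 1)) := by rw [hd]; exact min_le_right _ _
    rw [le_div_iff₀ (by positivity)] at this
    linarith
  -- points of the segment stay close
  have near : ∀ y w s, ‖y - x‖ < d → ‖w - v‖ < d → 0 ≤ s → s < d → ‖y + s • w - x‖ < ρ := by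
    intro y w s hy hw hs0 hs1
    have e1 : ‖w‖ ≤ ‖v‖ + ρ + 1 := by
      have : ‖w‖ ≤ ‖w - v‖ + ‖v‖ := by
        have := norm_add_le (w - v) v
        rwa [sub_add_cancel] at this
      linarith
    have e2 : ‖s • w‖ ≤ ρ / 2 := by
      rw [norm_smul, Real.norm_eq_abs, abs_of_nonneg hs0]
      exact (mul_le_mul hs1.le e1 (norm_nonneg _) d0.le).trans dρ'
    have e3 : ‖y + s • w - x‖ ≤ ‖y - x‖ + ‖s • w‖ := by
      have : y + s • w - x = (y - x) + s • w := by abel
      rw [this]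
      exact norm_add_le _ _
    linarith
  refine ⟨min c1 c2, lt_min hc1 hc2, ?_⟩
  have ey : ∀ᶠ q : Unit × (ℂ × (ℂ × ℝ)) in ⊤ ×ˢ (𝓝 x ×ˢ (𝓝 v ×ˢ 𝓝[>] (0 : ℝ))),
      ‖q.2.1 - x‖ < d := by
    have t : Tendsto (fun q : Unit × (ℂ × (ℂ × ℝ)) => q.2.1)
        (⊤ ×ˢ (𝓝 x ×ˢ (𝓝 v ×ˢ 𝓝[>] (0 : ℝ)))) (𝓝 x) := tendsto_fst.comp tendsto_snd
    have hb : ∀ᶠ y in 𝓝 x, ‖y - x‖ < d := by
      have := Metric.ball_mem_nhds x d0
      filter_upwards [this] with y hy
      rwa [mem_ball, dist_eq_norm] at hy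
    exact t.eventually hb
  have ew : ∀ᶠ q : Unit × (ℂ × (ℂ × ℝ)) in ⊤ ×ˢ (𝓝 x ×ˢ (𝓝 v ×ˢ 𝓝[>] (0 : ℝ))),
      ‖q.2.2.1 - v‖ < d := by
    have hb : ∀ᶠ y in 𝓝 v, ‖y - v‖ < d := by
      have := Metric.ball_mem_nhds v d0
      filter_upwards [this] with y hy
      rwa [mem_ball, dist_eq_norm] at hy
    exact (DescC_dir (⊤ : Filter Unit) x v).eventually hb
  have es : ∀ᶠ q : Unit × (ℂ × (ℂ × ℝ)) in ⊤ ×ˢ (𝓝 x ×ˢ (𝓝 v ×ˢ 𝓝[>] (0 : ℝ))),
      q.2.2.2 < d :=
    (DescC_time (⊤ : Filter Unit) x v).eventually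
      (mem_nhdsWithin_of_mem_nhds (Iio_mem_nhds d0))
  filter_upwards [ey, ew, es, DescC_pos (⊤ : Filter Unit) x v] with q q1 q2 q3 q4
  obtain ⟨_, y, w, s⟩ := q
  simp only at q1 q2 q3 q4 ⊢
  have m1 : min c1 c2 * s ≤ c1 * s := mul_le_mul_of_nonneg_right (min_le_left _ _) q4.le
  have m2 : min c1 c2 * s ≤ c2 * s := mul_le_mul_of_nonneg_right (min_le_right _ _) q4.le
  have dd1 : d < d1 := by linarith
  have dd2 : d < d2 := by linarith
  have ny : dist y x < r := by
    rw [dist_eq_norm]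
    linarith
  have nys : dist (y + s • w) x < r := by
    rw [dist_eq_norm]
    exact (near y w s q1 q2 q4.le q3).trans_le ρr
  obtain ⟨ha1, hk1, hk2⟩ := hek ny
  obtain ⟨ha3, hk3, hk4⟩ := hek nys
  have D1 := g1 y (by linarith) w (by linarith) s q4 (by linarith)
  have D2 := g2 y (by linarith) w (by linarith) s q4 (by linarith)
  rcases le_or_gt (h y) a with hy | hy
  · have : h (y + s • w) ≤ a := by
      have : 0 < c1 * s := mul_pos hc1 q4
      linarith
    rw [hk1 hy, hk3 this]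
    linarith
  · rw [hk2 hy]
    rcases lt_or_ge a (h (y + s • w)) with hz | hz
    · rw [hk4 hz]
      linarith
    · rw [hk3 hz]
      have uy : a < u y := lt_of_not_ge fun hh => absurd (ha1.2 hh) (not_le.2 hy)
      have uz : u (y + s • w) ≤ a := ha3.1 hz
      have cont : ContinuousOn (fun t : ℝ => u (y + t • w)) (Icc 0 s) := by
        have : Continuous (fun t : ℝ => u (y + t • w)) := by fun_prop
        exact this.continuousOn
      have ivt := intermediate_value_Icc' q4.le cont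
      have hmem : a ∈ Icc (u (y + s • w)) (u (y + (0 : ℝ) • w)) := by
        refine ⟨uz, ?_⟩
        rw [zero_smul, add_zero]
        exact uy.le
      obtain ⟨t, ⟨ht0, ht1⟩, hta⟩ := ivt hmem
      simp only at hta
      have tpos : 0 < t := by
        rcases ht0.eq_or_lt with h0 | h0
        · rw [← h0, zero_smul, add_zero] at hta
          linarith
        · exact h0
      have D3 := g2 y (by linarith) w (by linarith) t tpos (by linarith)
      rw [hta] at D3
      have nt : ‖y + t • w - x‖ < ρ := near y w t q1 q2 ht0 (by linarith)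
      have hta' : h (y + t • w) ≤ a :=
        (hek (by rw [dist_eq_norm]; linarith)).1.2 hta.le
      have m3 : min c1 c2 * t ≤ c2 * t := mul_le_mul_of_nonneg_right (min_le_right _ _) ht0
      rcases ht1.eq_or_lt with h0 | h0
      · rw [h0] at hta' D3 m3
        linarith
      · have D4 := g1 (y + t • w) (by linarith) w (by linarith) (s - t) (by linarith)
          (by linarith)
        have e5 : y + t • w + (s - t) • w = y + s • w := by
          rw [sub_smul]
          abel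
        rw [e5] at D4
        have m4 : min c1 c2 * (s - t) ≤ c1 * (s - t) :=
          mul_le_mul_of_nonneg_right (min_le_left _ _) (by linarith)
        have e6 : min c1 c2 * s = min c1 c2 * t + min c1 c2 * (s - t) := by ring
        rw [e6]
        linarith

private theorem DescG_min (a : ℝ) : LipschitzWith 1 (fun t : ℝ => min t a) := by
  have := (LipschitzWith.id (α := ℝ)).min_const a
  simpa using this

private theorem DescG_max (a : ℝ) : LipschitzWith 1 (fun t : ℝ => max t a) := by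
  have := (LipschitzWith.id (α := ℝ)).max_const a
  simpa using this

/-- PROOF. `k = min h a + max u a - a` near `x` (if `h y = a` then `u y ≤ a`, fine). -/
theorem lip_glue {h u k : ℂ → ℝ} {x : ℂ} {a : ℝ} (lh : LocallyLipschitz h)
    (lu : LocallyLipschitz u) (he : ∀ᶠ y in 𝓝 x, (h y ≤ a ↔ u y ≤ a))
    (hk : ∀ᶠ y in 𝓝 x, (h y ≤ a → k y = h y) ∧ (a < h y → k y = u y)) :
    ∃ C, ∃ T ∈ 𝓝 x, LipschitzOnWith C k T := by
  obtain ⟨C1, T1, hT1, l1⟩ := lh x
  obtain ⟨C2, T2, hT2, l2⟩ := lu x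
  have m1 := (DescG_min a).comp_lipschitzOnWith l1
  have m2 := (DescG_max a).comp_lipschitzOnWith l2
  obtain ⟨T, hT⟩ : ∃ T, T = (T1 ∩ T2) ∩ {y | (h y ≤ a ↔ u y ≤ a) ∧
    ((h y ≤ a → k y = h y) ∧ (a < h y → k y = u y))} := ⟨_, rfl⟩
  have hTn : T ∈ 𝓝 x := by
    rw [hT]
    exact inter_mem (inter_mem hT1 hT2) (he.and hk)
  have m3 : LipschitzOnWith (1 * C1 + 1 * C2)
      (fun y => ((fun t : ℝ => min t a) ∘ h) y + ((fun t : ℝ => max t a) ∘ u) y) T := by
    apply (m1.mono _).add (m2.mono _)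
    · rw [hT]
      exact fun y hy => hy.1.1
    · rw [hT]
      exact fun y hy => hy.1.2
  refine ⟨1 * C1 + 1 * C2, T, hTn, ?_⟩
  have key : ∀ y ∈ T, k y = (min (h y) a + max (u y) a) - a := by
    intro y hy
    rw [hT] at hy
    obtain ⟨-, h1, h2, h3⟩ := hy
    rcases le_or_gt (h y) a with h4 | h4
    · rw [h2 h4, min_eq_left h4, max_eq_right (h1.1 h4)]
      ring
    · have h5 : a < u y := lt_of_not_ge fun hh => absurd (h1.2 hh) (not_le.2 h4)
      rw [h3 h4, min_eq_right h4.le, max_eq_left h5.le]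
      ring
  intro y hy z hz
  have := m3 hy hz
  rw [key y hy, key z hz]
  simp only [Function.comp] at this
  rw [edist_dist, edist_dist] at this ⊢
  rw [Real.dist_eq] at this ⊢
  have e : (min (h y) a + max (u y) a - a) - (min (h z) a + max (u z) a - a)
      = (min (h y) a + max (u y) a) - (min (h z) a + max (u z) a) := by ring
  rw [e]
  exact this

end Pool.Schoen
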