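import Pool.Agent.H.MP_6c077c_gt.Ts.AnnDif
import Pool.Agent.H.MP_6c077c_gt.Ts.DescG

/-! Theorem TS: on an annulus the function can be replaced by one without irregular values. -/

set_option autoImplicit false

namespace Pool.Schoen

open Filter Set Metric
open scoped Topology RealInnerProductSpace ContDiff

/-- The glued function is Lipschitz and regular near a point of the common level. -/
theorem AnnFix_point {h u k : ℂ → ℝ} {a : ℝ} {x : ℂ} (lh : LocallyLipschitz h)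
    (lu : LocallyLipschitz u) (hs : ContDiffAt ℝ 1 h x) (hv : ∃ v, Desc1 h x v)
    (us : ContDiffAt ℝ 1 u x) (uv : ∃ v, Desc1 u x v) (hx : h x = a) (ux : u x = a)
    (he : ∀ᶠ y in 𝓝 x, (h y ≤ a ↔ u y ≤ a))
    (hk : ∀ᶠ y in 𝓝 x, (h y ≤ a → k y = h y) ∧ (a < h y → k y = u y)) :
    (∃ C, ∃ T ∈ 𝓝 x, LipschitzOnWith C k T) ∧ ∃ v, Desc1 k x v := by
  obtain ⟨v1, h1⟩ := hv
  obtain ⟨v2, h2⟩ := uv
  obtain ⟨g1, g2⟩ := desc_common hs us h1 h2 hx ux he
  exact ⟨lip_glue lh lu he hk, v1 + v2, desc_glue lh.continuous lu.continuous g1 g2 hx ux he hk⟩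

/-- The round model. -/
theorem AnnFix_round {σ τ : ℂ → ℂ} (hd : Dif σ τ) {α β : ℝ} (hβ : 0 < β) :
    ContDiff ℝ ∞ (fun x => α + β * ‖σ x‖ ^ 2) ∧
      ∀ x, σ x ≠ 0 → ∃ v, Desc1 (fun x => α + β * ‖σ x‖ ^ 2) x v := by
  have hs : ContDiff ℝ ∞ (fun z : ℂ => α + β * ‖z‖ ^ 2) :=
    contDiff_const.add (contDiff_const.mul (contDiff_norm_sq ℝ))
  refine ⟨hs.comp hd.smooth, fun x hx => ?_⟩
  have h1 : Desc1 (fun z : ℂ => α + β * ‖z‖ ^ 2) (σ x) (-(σ x)) := by
    refine desc1_smooth (hs.contDiffAt.of_le (by exact_mod_cast le_top)) ?_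
    have h3 : HasFDerivAt (fun z : ℂ => ‖z‖ ^ 2) (2 • innerSL ℝ (σ x)) (σ x) :=
      (hasStrictFDerivAt_norm_sq (F := ℂ) (σ x)).hasFDerivAt
    have h2 : HasFDerivAt (fun z : ℂ => α + β * ‖z‖ ^ 2) (β • (2 • innerSL ℝ (σ x))) (σ x) :=
      (h3.const_mul β).const_add α
    rw [h2.fderiv]
    have h4 : (β • (2 • innerSL ℝ (σ x))) (-(σ x)) = -(β * (2 * ‖σ x‖ ^ 2)) := by
      have h7 : (2 • innerSL ℝ (σ x)) (-(σ x)) = 2 * (innerSL ℝ (σ x)) (-(σ x)) := by
        rw [two_nsmul, add_apply, two_mul]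
      rw [smul_apply, h7, innerSL_apply_apply, inner_neg_right, real_inner_self_eq_norm_sq,
        smul_eq_mul]
      ring
    rw [h4]
    have h5 : 0 < ‖σ x‖ := norm_pos_iff.2 hx
    have h6 : 0 < β * (2 * ‖σ x‖ ^ 2) := by positivity
    linarith
  exact ⟨_, hd.desc1 h1⟩

/-- PROOF. `ann_dif`; `u x = α + β * ‖σ x‖ ^ 2` with `α + β r ^ 2 = a`, `α + β = b`, so `β > 0`; `k = h` on `Δ ∪ L`,
`k = u` elsewhere. `Desc1 u x (fderiv ℝ τ (σ x) (-(σ x)))` if `σ x ≠ 0`. At a point of `frontier Δ` (`‖σ x‖ = r`, so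
`u x = a = h x`, and `{u ≤ a} = Δ = {h ≤ a}` near `x`): `desc_common`, `desc_glue`, `lip_glue`. At a point of
`frontier L` the same for `-h`, `-u`, `-k`, `-b` (or with the roles exchanged: `k = u` on `{u < b}`,
`k = h` on `{b ≤ h}`). At the other points `k` is locally `h` or `u`. -/
theorem ann_fix {h : ℂ → ℝ} {a b : ℝ} {Δ L : Set ℂ} (lh : LocallyLipschitz h) (hab : a < b)
    (H : Ann h a b Δ L) (ha : Smr h a) (hb : Smr h b) :
    ∃ k : ℂ → ℝ, LocallyLipschitz k ∧ (∀ x, x ∈ Δ ∨ x ∈ L → k x = h x) ∧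
      (∀ x, x ∉ Δ → x ∉ L → a < k x ∧ k x < b) ∧
      ∀ x, (x ∉ Δ ∧ x ∉ L) ∨ x ∈ frontier Δ ∨ x ∈ frontier L → ∃ v, Desc1 k x v := by
  classical
  obtain ⟨σ, τ, r, hr0, hr1, hd, hΔ, hL⟩ := ann_dif H ha hb
  have hr2 : 0 < 1 - r ^ 2 := by nlinarith
  set β : ℝ := (b - a) / (1 - r ^ 2) with hβ
  have hβ0 : 0 < β := div_pos (by linarith) hr2
  have hβr : β * (1 - r ^ 2) = b - a := by
    rw [hβ]
    field_simp
  obtain ⟨us, ud⟩ := AnnFix_round hd (α := b - β) hβ0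
  set u : ℂ → ℝ := fun x => b - β + β * ‖σ x‖ ^ 2 with hu
  have lu : LocallyLipschitz u := (us.of_le (by exact_mod_cast le_top)).locallyLipschitz
  have cu : Continuous u := lu.continuous
  have huΔ : ∀ x, u x ≤ a ↔ x ∈ Δ := by
    intro x
    rw [hΔ]
    have h0 := norm_nonneg (σ x)
    constructor
    · intro h1
      have h2 : b - β + β * ‖σ x‖ ^ 2 ≤ a := h1
      have h3 : β * (‖σ x‖ ^ 2 - r ^ 2) ≤ 0 := by linarith
      have h4 : ‖σ x‖ ^ 2 - r ^ 2 ≤ 0 := by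
        by_contra h5
        push Not at h5
        have := mul_pos hβ0 h5
        linarith
      exact abs_le_of_sq_le_sq' (by linarith) hr0.le |>.2
    · intro h1
      show b - β + β * ‖σ x‖ ^ 2 ≤ a
      have h2 : ‖σ x‖ ^ 2 ≤ r ^ 2 := by gcongr
      have h3 := mul_le_mul_of_nonneg_left h2 hβ0.le
      linarith
  have huL : ∀ x, b ≤ u x ↔ x ∈ L := by
    intro x
    rw [hL]
    have h0 := norm_nonneg (σ x)
    constructor
    · intro h1
      have h2 : b ≤ b - β + β * ‖σ x‖ ^ 2 := h1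
      have h3 : 0 ≤ β * (‖σ x‖ ^ 2 - 1) := by linarith
      by_contra h5
      push Not at h5
      have h6 : ‖σ x‖ ^ 2 - 1 < 0 := by nlinarith
      have := mul_pos hβ0 (neg_pos.2 h6)
      linarith
    · intro h1
      show b ≤ b - β + β * ‖σ x‖ ^ 2
      have h2 : 1 ≤ ‖σ x‖ ^ 2 := one_le_pow₀ h1
      have h3 := mul_le_mul_of_nonneg_left h2 hβ0.le
      linarith
  -- boundary values
  have frΔ : ∀ x ∈ frontier Δ, x ∈ Δ ∧ u x = a := by
    intro x hx
    have h1 : x ∈ Δ := H.clD.frontier_subset hx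
    refine ⟨h1, le_antisymm ((huΔ x).2 h1) ?_⟩
    have h2 : x ∈ closure Δᶜ := by
      rw [frontier_eq_closure_inter_closure] at hx
      exact hx.2
    have h3 : Δᶜ ⊆ {y | a ≤ u y} := fun y hy => (not_le.1 fun h4 => hy ((huΔ y).1 h4)).le
    exact closure_minimal h3 (isClosed_le continuous_const cu) h2
  have frL : ∀ x ∈ frontier L, x ∈ L ∧ u x = b := by
    intro x hx
    have h1 : x ∈ L := H.clL.frontier_subset hx
    refine ⟨h1, le_antisymm ?_ ((huL x).2 h1)⟩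
    have h2 : x ∈ closure Lᶜ := by
      rw [frontier_eq_closure_inter_closure] at hx
      exact hx.2
    have h3 : Lᶜ ⊆ {y | u y ≤ b} := fun y hy => (not_le.1 fun h4 => hy ((huL y).1 h4)).le
    exact closure_minimal h3 (isClosed_le cu continuous_const) h2
  have hσ : ∀ x, a ≤ u x → σ x ≠ 0 := by
    intro x hx h0
    have h1 : b - β + β * ‖σ x‖ ^ 2 = b - β := by rw [h0]; simp
    have h2 : a ≤ b - β + β * ‖σ x‖ ^ 2 := hx
    have h3 : 0 < β * r ^ 2 := by positivity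
    nlinarith
  set k : ℂ → ℝ := fun x => if x ∈ Δ ∨ x ∈ L then h x else u x with hkdef
  have k1 : ∀ x, x ∈ Δ ∨ x ∈ L → k x = h x := fun x hx => if_pos hx
  have k2 : ∀ x, x ∉ Δ → x ∉ L → k x = u x := fun x h1 h2 => if_neg (not_or.2 ⟨h1, h2⟩)
  -- the points of the two curves
  have ptΔ : ∀ x ∈ frontier Δ,
      (∃ C, ∃ T ∈ 𝓝 x, LipschitzOnWith C k T) ∧ ∃ v, Desc1 k x v := by
    intro x hx
    obtain ⟨h1, h2⟩ := frΔ x hx
    obtain ⟨h3, h4⟩ := H.frD x hx
    obtain ⟨h5, h6⟩ := ha x h3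
    have h7 : x ∉ L := fun h => (Set.disjoint_left.1 H.dis) h1 h
    refine AnnFix_point (a := a) lh lu (h5.self_of_nhds.of_le (by exact_mod_cast le_top)) h6
      (us.contDiffAt.of_le (by exact_mod_cast le_top)) (ud x (hσ x h2.ge)) h3 h2 ?_ ?_
    · filter_upwards [h4] with y hy
      rw [← hy, huΔ]
    · filter_upwards [h4, H.clL.isOpen_compl.mem_nhds h7] with y hy hyL
      refine ⟨fun h8 => k1 y (Or.inl (hy.2 h8)), fun h8 => k2 y (fun h9 => ?_) hyL⟩
      exact absurd (hy.1 h9) (not_le.2 h8)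
  have ptL : ∀ x ∈ frontier L,
      (∃ C, ∃ T ∈ 𝓝 x, LipschitzOnWith C k T) ∧ ∃ v, Desc1 k x v := by
    intro x hx
    obtain ⟨h1, h2⟩ := frL x hx
    obtain ⟨h3, h4⟩ := H.frL x hx
    obtain ⟨h5, v, h6⟩ := hb x h3
    have h7 : x ∉ Δ := fun h => (Set.disjoint_left.1 H.dis) h h1
    obtain ⟨w, hw⟩ := ud x (hσ x (by rw [h2]; exact hab.le))
    obtain ⟨⟨C, T, hT, hC⟩, v', hv'⟩ := AnnFix_point (h := fun y => -h y) (u := fun y => -u y)
      (k := fun y => -k y) (a := -b) (x := x) lh.neg lu.neg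
      (h5.self_of_nhds.of_le (by exact_mod_cast le_top)).neg ⟨-v, Desc.neg h6⟩
      (us.contDiffAt.of_le (by exact_mod_cast le_top)).neg ⟨-w, Desc.neg hw⟩
      (by rw [h3]) (by rw [h2])
      (by
        filter_upwards [h4] with y hy
        rw [neg_le_neg_iff, neg_le_neg_iff, ← hy, huL])
      (by
        filter_upwards [h4, H.clD.isOpen_compl.mem_nhds h7] with y hy hyD
        refine ⟨fun h8 => ?_, fun h8 => ?_⟩
        · rw [k1 y (Or.inr (hy.2 (neg_le_neg_iff.1 h8)))]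
        · rw [k2 y hyD (fun h9 => ?_)]
          exact absurd (hy.1 h9) (not_le.2 (neg_lt_neg_iff.1 h8)))
    refine ⟨⟨C, T, hT, ?_⟩, -v', ?_⟩
    · intro y hy z hz
      have h8 := hC hy hz
      rwa [edist_neg_neg] at h8
    · have h8 := Desc.neg hv'
      have h9 : (fun (_ : Unit) (y : ℂ) => -(-k y)) = fun _ => k := by
        funext _ y
        rw [neg_neg]
      unfold Desc1
      rwa [h9] at h8
  have opM : ∀ x, x ∉ Δ → x ∉ L → ∀ᶠ y in 𝓝 x, u y = k y := by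
    intro x h1 h2
    filter_upwards [H.clD.isOpen_compl.mem_nhds h1, H.clL.isOpen_compl.mem_nhds h2] with y h3 h4
    exact (k2 y h3 h4).symm
  have hcongr : ∀ {g : ℂ → ℝ} {x : ℂ}, LocallyLipschitz g → (∀ᶠ y in 𝓝 x, g y = k y) →
      ∃ C, ∃ T ∈ 𝓝 x, LipschitzOnWith C k T := by
    intro g x hg he
    obtain ⟨C, T, hT, hC⟩ := hg x
    refine ⟨C, T ∩ {y | g y = k y}, inter_mem hT he, ?_⟩
    intro y hy z hz
    rw [← (show g y = k y from hy.2), ← (show g z = k z from hz.2)]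
    exact hC hy.1 hz.1
  refine ⟨k, ?_, k1, ?_, ?_⟩
  · intro x
    by_cases hx : x ∈ Δ
    · by_cases hi : x ∈ interior Δ
      · refine hcongr lh ?_
        filter_upwards [isOpen_interior.mem_nhds hi] with y hy
        exact (k1 y (Or.inl (interior_subset hy))).symm
      · exact (ptΔ x ⟨subset_closure hx, hi⟩).1
    · by_cases hx' : x ∈ L
      · by_cases hi : x ∈ interior L
        · refine hcongr lh ?_
          filter_upwards [isOpen_interior.mem_nhds hi] with y hy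
          exact (k1 y (Or.inr (interior_subset hy))).symm
        · exact (ptL x ⟨subset_closure hx', hi⟩).1
      · exact hcongr lu (opM x hx hx')
  · intro x h1 h2
    rw [k2 x h1 h2]
    exact ⟨not_le.1 fun h3 => h1 ((huΔ x).1 h3), not_le.1 fun h3 => h2 ((huL x).1 h3)⟩
  · rintro x (⟨h1, h2⟩ | hx | hx)
    · obtain ⟨v, hv⟩ := ud x (hσ x (not_le.1 fun h3 => h1 ((huΔ x).1 h3)).le)
      exact ⟨v, Desc1.congr hv (opM x h1 h2)⟩
    · exact (ptΔ x hx).2
    · exact (ptL x hx).2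

/-- The same for both forms of the annulus (`-h`, `-k` in the second case). -/
theorem ann_fix' {h : ℂ → ℝ} {a b : ℝ} {Δ L : Set ℂ} (lh : LocallyLipschitz h) (hab : a < b)
    (H : Ann h a b Δ L ∨ Ann (fun x => -h x) (-b) (-a) L Δ) (ha : Smr h a) (hb : Smr h b) :
    ∃ k : ℂ → ℝ, LocallyLipschitz k ∧ (∀ x, x ∈ Δ ∨ x ∈ L → k x = h x) ∧
      (∀ x, x ∉ Δ → x ∉ L → a < k x ∧ k x < b) ∧
      ∀ x, (x ∉ Δ ∧ x ∉ L) ∨ x ∈ frontier Δ ∨ x ∈ frontier L → ∃ v, Desc1 k x v := by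
  rcases H with H | H
  · exact ann_fix lh hab H ha hb
  · obtain ⟨k, h1, h2, h3, h4⟩ := ann_fix lh.neg (neg_lt_neg hab) H hb.neg ha.neg
    refine ⟨fun x => -k x, h1.neg, ?_, ?_, ?_⟩
    · intro x hx
      show -k x = h x
      rw [h2 x hx.symm]
      exact neg_neg (h x)
    · intro x hx hx'
      obtain ⟨h5, h6⟩ := h3 x hx' hx
      constructor <;> linarith
    · intro x hx
      obtain ⟨v, hv⟩ := h4 x (by tauto)
      exact ⟨-v, Desc.neg hv⟩

/-- The global form. PROOF. `S` the slab `{a ≤ h ≤ b}`. For every component `Q` of `S` choose `kQ` (`exists_ann`,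
`ann_fix'`): `kQ = h` off `Q` and on the two frontiers `h = a`, `h = b`; `Desc1 kQ x v` for `x ∈ Q`. Put
`k x = kQ x` for `x ∈ Q` (`Q = connectedComponentIn S x`), `k x = h x` off `S`. As `Q` is clopen in `S` (`slab_clp`),
`k = kQ` near every point of `Q`; off `S` (open) `k = h` nearby. -/
theorem annulus_fix {h : ℂ → ℝ} (lh : LocallyLipschitz h) {R lo hi a b : ℝ}
    (ht : Tame R lo hi h) (hlo : lo ≤ a) (hab : a < b) (hhi : b ≤ hi) (ha : Smr h a)
    (hb : Smr h b) (hn : ¬ Chg h a b) :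
    ∃ k : ℂ → ℝ, LocallyLipschitz k ∧ (∀ x, h x < a ∨ b < h x → k x = h x) ∧
      (∀ x, a ≤ h x → h x ≤ b → a ≤ k x ∧ k x ≤ b) ∧ TReg k a b := by
  classical
  have hc : Continuous h := lh.continuous
  have ra : TReg h a a := fun x h1 h2 => (ha x (le_antisymm h2 h1)).2
  have rb : TReg h b b := fun x h1 h2 => (hb x (le_antisymm h2 h1)).2
  set S : Set ℂ := {x | a ≤ h x ∧ h x ≤ b} with hS
  have clS : IsClosed S :=
    (isClosed_le continuous_const hc).inter (isClosed_le hc continuous_const)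
  have key : ∀ Q : Set ℂ, ∃ kQ : ℂ → ℝ, ∀ x0 ∈ S, Q = connectedComponentIn S x0 →
      LocallyLipschitz kQ ∧ (∀ x, x ∉ Q → kQ x = h x) ∧ (∀ x ∈ Q, a ≤ kQ x ∧ kQ x ≤ b) ∧
        ∀ x ∈ Q, ∃ v, Desc1 kQ x v := by
    intro Q
    by_cases hQ : ∃ x0 ∈ S, Q = connectedComponentIn S x0
    · obtain ⟨x0, hx0, rfl⟩ := hQ
      obtain ⟨Δ, L, H, hm⟩ := exists_ann hc ht hlo hab hhi ra rb hn hx0.1 hx0.2
      obtain ⟨k, g1, g2, g3, g4⟩ := ann_fix' lh hab H ha hb
      have clΔ : IsClosed Δ := H.elim (fun h => h.clD) fun h => h.clL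
      have clL : IsClosed L := H.elim (fun h => h.clL) fun h => h.clD
      refine ⟨k, fun _ _ _ => ⟨g1, ?_, ?_, ?_⟩⟩
      · intro x hx
        rw [hm x] at hx
        refine g2 x ?_
        by_contra h1
        exact hx (Or.inl (not_or.1 h1))
      · intro x hx
        have hxS : x ∈ S := connectedComponentIn_subset _ _ hx
        rcases (hm x).1 hx with ⟨h1, h2⟩ | h1 | h1
        · exact ⟨(g3 x h1 h2).1.le, (g3 x h1 h2).2.le⟩
        · rw [g2 x (Or.inl (clΔ.frontier_subset h1))]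
          exact hxS
        · rw [g2 x (Or.inr (clL.frontier_subset h1))]
          exact hxS
      · intro x hx
        exact g4 x ((hm x).1 hx)
    · push Not at hQ
      exact ⟨h, fun x0 h1 h2 => (hQ x0 h1 h2).elim⟩
  choose K hK using key
  set k : ℂ → ℝ := fun x => if x ∈ S then K (connectedComponentIn S x) x else h x with hk
  have kS : ∀ x ∈ S, k x = K (connectedComponentIn S x) x := fun x hx => if_pos hx
  have kn : ∀ x, x ∉ S → k x = h x := fun x hx => if_neg hx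
  have near : ∀ x ∈ S, ∀ᶠ y in 𝓝 x, K (connectedComponentIn S x) y = k y := by
    intro x hx
    have h1 := (slab_clp hc hab ra rb x).near (mem_connectedComponentIn hx)
    filter_upwards [h1] with y hy
    by_cases hyS : y ∈ S
    · rw [kS y hyS, connectedComponentIn_eq (hy hyS)]
    · rw [kn y hyS]
      exact (hK _ x hx rfl).2.1 y fun h2 => hyS (connectedComponentIn_subset _ _ h2)
  refine ⟨k, ?_, ?_, ?_, ?_⟩
  · intro x
    have hcongr : ∀ {g : ℂ → ℝ}, LocallyLipschitz g → (∀ᶠ y in 𝓝 x, g y = k y) →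
        ∃ C, ∃ T ∈ 𝓝 x, LipschitzOnWith C k T := by
      intro g hg he
      obtain ⟨C, T, hT, hC⟩ := hg x
      refine ⟨C, T ∩ {y | g y = k y}, inter_mem hT he, ?_⟩
      intro y hy z hz
      rw [← (show g y = k y from hy.2), ← (show g z = k z from hz.2)]
      exact hC hy.1 hz.1
    by_cases hx : x ∈ S
    · exact hcongr (hK _ x hx rfl).1 (near x hx)
    · refine hcongr lh ?_
      filter_upwards [clS.isOpen_compl.mem_nhds hx] with y hy
      exact (kn y hy).symm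
  · intro x hx
    refine kn x fun h1 => ?_
    rcases hx with hx | hx
    · linarith [h1.1]
    · linarith [h1.2]
  · intro x h1 h2
    rw [kS x ⟨h1, h2⟩]
    exact (hK _ x ⟨h1, h2⟩ rfl).2.2.1 x (mem_connectedComponentIn ⟨h1, h2⟩)
  · intro x h1 h2
    have hx : x ∈ S := by
      by_contra h3
      rw [kn x h3] at h1 h2
      exact h3 ⟨h1, h2⟩
    obtain ⟨v, hv⟩ := (hK _ x hx rfl).2.2.2 x (mem_connectedComponentIn hx)
    exact ⟨v, Desc1.congr hv (near x hx)⟩

end Pool.Schoen
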