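import Pool.Agent.H.MP_6c077c_gt.Ts.SumF
import Pool.Agent.H.MP_6c077c_gt.Ts.PlaneG
import Pool.Agent.H.MP_6c077c_gt.Ix.TopC

/-! Theorem TS: the product of two discs. -/

set_option autoImplicit false

namespace Pool.Schoen

open Filter Set Metric
open scoped Topology RealInnerProductSpace ContDiff

variable {V : Type*} [NormedAddCommGroup V] [InnerProductSpace ℝ V] [FiniteDimensional ℝ V]

omit [FiniteDimensional ℝ V] in
/-- Descent directions of a function of a linear image. -/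
theorem Base_pull {X : Type*} {l : Filter X} {A : X → ℂ → ℝ} (L : V →L[ℝ] ℂ) {x w : V} {v : ℂ}
    (hv : L w = v) (h : Desc A l (L x) v) : Desc (fun t y => A t (L y)) l x w := by
  subst hv
  obtain ⟨c, hc, he⟩ := h
  refine ⟨c, hc, ?_⟩
  have ht : Tendsto (fun q : X × (V × (V × ℝ)) => (q.1, (L q.2.1, (L q.2.2.1, q.2.2.2))))
      (l ×ˢ (𝓝 x ×ˢ (𝓝 w ×ˢ 𝓝[>] (0 : ℝ)))) (l ×ˢ (𝓝 (L x) ×ˢ (𝓝 (L w) ×ˢ 𝓝[>] (0 : ℝ)))) :=
    tendsto_fst.prodMk (((L.continuous.tendsto x).comp (tendsto_fst.comp tendsto_snd)).prodMk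
      (((L.continuous.tendsto w).comp (tendsto_fst.comp (tendsto_snd.comp tendsto_snd))).prodMk
        (tendsto_snd.comp (tendsto_snd.comp tendsto_snd))))
  filter_upwards [ht.eventually he] with q hq
  have e : L (q.2.1 + q.2.2.2 • q.2.2.1) = L q.2.1 + q.2.2.2 • L q.2.2.1 := by
    rw [map_add, map_smul]
  show A q.1 (L (q.2.1 + q.2.2.2 • q.2.2.1)) ≤ A q.1 (L q.2.1) - c * q.2.2.2
  rw [e]
  exact hq

/-- Constants do not matter. -/
theorem Base_sub {p : ℂ → ℝ} {x v : ℂ} (h : Desc1 p x v) (τ : ℝ) :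
    Desc1 (fun y => p y - τ) x v := by
  obtain ⟨c, hc, he⟩ := h
  refine ⟨c, hc, he.mono fun q hq => ?_⟩
  have hq' : p (q.2.1 + q.2.2.2 • q.2.2.1) ≤ p q.2.1 - c * q.2.2.2 := hq
  show p (q.2.1 + q.2.2.2 • q.2.2.1) - τ ≤ p q.2.1 - τ - c * q.2.2.2
  linarith

theorem Base_neg {q : ℂ → ℝ} {x v : ℂ} (h : Desc1 q x v) (τ : ℝ) :
    Desc1 (fun y => τ - q y) x (-v) := by
  have h1 : Desc1 (fun y => -q y) x (-v) := Desc.neg (H := fun _ : Unit => q) h
  have h2 := Base_sub h1 (-τ)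
  refine h2.congr (Eventually.of_forall fun y => ?_)
  ring

omit [FiniteDimensional ℝ V] in
/-- A set is bounded if its two components are bounded. -/
theorem Base_bdd (e : V ≃L[ℝ] ℂ × ℂ) {R1 R2 : ℝ} : ∃ R : ℝ, ∀ x : V, ‖(e x).1‖ ≤ R1 →
    ‖(e x).2‖ ≤ R2 → ‖x‖ ≤ R := by
  refine ⟨‖(e.symm : ℂ × ℂ →L[ℝ] V)‖ * max R1 R2, fun x h1 h2 => ?_⟩
  have h3 : ‖e x‖ ≤ max R1 R2 := by
    rw [Prod.norm_def]
    exact max_le (h1.trans (le_max_left _ _)) (h2.trans (le_max_right _ _))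
  calc ‖x‖ = ‖(e.symm : ℂ × ℂ →L[ℝ] V) (e x)‖ := by
        rw [ContinuousLinearEquiv.coe_coe, e.symm_apply_apply]
    _ ≤ ‖(e.symm : ℂ × ℂ →L[ℝ] V)‖ * ‖e x‖ := ContinuousLinearMap.le_opNorm _ _
    _ ≤ _ := mul_le_mul_of_nonneg_left h3 (norm_nonneg _)

/-- PROOF. The family `max a b + s * min a b`, `s ∈ [0, 1]`, `a = p - τ`, `b = τ - q`; for `s = 1` it is `p - q`. At
a zero with `a > b`: `a = -s b`, so `0 ≤ a`, `p ≥ τ`, the family is `a + s b` nearby, `desc_fst` direction (for the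
family: `a (x + w) ...` as in `desc_fst`, with `s ∈ [0, 1]`). `a < b`: the same with `b`. `a = b`: both are `0`, the sum of
both directions descends for `a`, for `b`, for `max` and `min` (`desc_max`, `desc_min`, `desc_add`). Bounded: if
`b ≤ 0 ≤ a` then `q y ≥ τ` (`y` in the bounded set `{τ ≤ q}`) and `p x ≤ τ + max q`; the same in the other case. -/
theorem base_max (e : V ≃L[ℝ] ℂ × ℂ) {p q : ℂ → ℝ} (lp : LocallyLipschitz p)
    (lq : LocallyLipschitz q) {τ : ℝ} (bp : ∀ s : ℝ, Bornology.IsBounded {x | p x ≤ s})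
    (bq : ∀ s : ℝ, Bornology.IsBounded {x | s ≤ q x}) (rp : ∀ x, τ ≤ p x → ∃ v, Desc1 p x v)
    (rq : ∀ x, q x ≤ τ → ∃ v, Desc1 q x v) :
    Hom (sumF e p q) (fun x => max (p (e x).1 - τ) (τ - q (e x).2)) := by
  have cp : Continuous p := lp.continuous
  have cq : Continuous q := lq.continuous
  -- bounds
  obtain ⟨Mq, hMq⟩ : ∃ M : ℝ, ∀ y, τ ≤ q y → q y ≤ M := by
    have hK : IsCompact {y | τ ≤ q y} :=
      Metric.isCompact_of_isClosed_isBounded (isClosed_le continuous_const cq) (bq τ)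
    obtain ⟨M, hM⟩ := (hK.image cq).bddAbove
    exact ⟨M, fun y hy => hM ⟨y, hy, rfl⟩⟩
  obtain ⟨mp, hmp⟩ : ∃ m : ℝ, ∀ x, p x ≤ τ → m ≤ p x := by
    have hK : IsCompact {x | p x ≤ τ} :=
      Metric.isCompact_of_isClosed_isBounded (isClosed_le cp continuous_const) (bp τ)
    obtain ⟨m, hm⟩ := (hK.image cp).bddBelow
    exact ⟨m, fun y hy => hm ⟨y, hy, rfl⟩⟩
  obtain ⟨R1, hR1⟩ := (bp (max Mq τ)).exists_norm_le
  obtain ⟨R2, hR2⟩ := (bq (min mp τ)).exists_norm_le
  obtain ⟨R, hR⟩ := Base_bdd e (R1 := R1) (R2 := R2)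
  obtain ⟨a, ha⟩ : ∃ a : V → ℝ, a = fun x => p (e x).1 - τ := ⟨_, rfl⟩
  obtain ⟨b, hb⟩ : ∃ b : V → ℝ, b = fun x => τ - q (e x).2 := ⟨_, rfl⟩
  have hax : ∀ x, a x = p (e x).1 - τ := fun x => by rw [ha]
  have hbx : ∀ x, b x = τ - q (e x).2 := fun x => by rw [hb]
  have ca : Continuous a := by
    rw [ha]
    exact (cp.comp (continuous_fst.comp e.continuous)).sub continuous_const
  have cb : Continuous b := by
    rw [hb]
    exact continuous_const.sub (cq.comp (continuous_snd.comp e.continuous))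
  have hsum : sumF e p q = fun x => a x + b x := by
    funext x
    rw [hax, hbx]
    unfold sumF
    ring
  have hsgn : ∀ t ∈ Icc (0 : ℝ) 1, ∀ x, max (a x) (b x) + (1 - t) * min (a x) (b x) = 0 →
      (b x ≤ 0 ∧ 0 ≤ a x ∧ a x ≤ -b x) ∨ (a x ≤ 0 ∧ 0 ≤ b x ∧ b x ≤ -a x) := by
    rintro t ⟨ht0, ht1⟩ x hx
    rcases le_total (a x) (b x) with h | h
    · rw [max_eq_right h, min_eq_left h] at hx
      refine Or.inr ?_
      have h1 : a x ≤ 0 := by
        by_contra hc
        have h2 : 0 < a x := not_le.1 hc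
        nlinarith
      refine ⟨h1, ?_, ?_⟩
      · nlinarith
      · nlinarith
    · rw [max_eq_left h, min_eq_right h] at hx
      refine Or.inl ?_
      have h1 : b x ≤ 0 := by
        by_contra hc
        have h2 : 0 < b x := not_le.1 hc
        nlinarith
      refine ⟨h1, ?_, ?_⟩
      · nlinarith
      · nlinarith
  refine ⟨fun t x => max (a x) (b x) + (1 - t) * min (a x) (b x), ?_, ?_, ?_, ⟨R, ?_⟩, ?_⟩
  · have h1 : Continuous fun z : ℝ × V => a z.2 := ca.comp continuous_snd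
    have h2 : Continuous fun z : ℝ × V => b z.2 := cb.comp continuous_snd
    exact (h1.max h2).add ((continuous_const.sub continuous_fst).mul (h1.min h2))
  · rw [hsum]
    funext x
    show max (a x) (b x) + (1 - 0) * min (a x) (b x) = a x + b x
    rw [sub_zero, one_mul, max_add_min]
  · funext x
    show max (a x) (b x) + (1 - 1) * min (a x) (b x) = max (p (e x).1 - τ) (τ - q (e x).2)
    rw [sub_self, zero_mul, add_zero, hax, hbx]
  · intro t ht x hx
    have hx' : max (a x) (b x) + (1 - t) * min (a x) (b x) = 0 := hx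
    have h1 := hsgn t ht x hx'
    rw [hax, hbx] at h1
    have h2 : p (e x).1 ≤ max Mq τ := by
      rcases h1 with ⟨h3, h4, h5⟩ | ⟨h3, h4, h5⟩
      · have := hMq (e x).2 (by linarith)
        have := le_max_left Mq τ
        linarith
      · have := le_max_right Mq τ
        linarith
    have h3 : min mp τ ≤ q (e x).2 := by
      rcases h1 with ⟨h3, h4, h5⟩ | ⟨h3, h4, h5⟩
      · have := min_le_right mp τ
        linarith
      · have := hmp (e x).1 (by linarith)
        have := min_le_left mp τ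
        linarith
    exact hR x (hR1 _ h2) (hR2 _ h3)
  · intro t ht x hx
    have hx' : max (a x) (b x) + (1 - t) * min (a x) (b x) = 0 := hx
    have h1 := hsgn t ht x hx'
    obtain ⟨ht0, ht1⟩ := ht
    -- descent directions of the parts
    have hda : ∀ v, Desc1 p (e x).1 v → ∀ w, (e w).1 = v → Desc1 a x w := by
      intro v hv w hw
      rw [ha]
      exact Base_pull (A := fun _ : Unit => fun z => p z - τ)
        ((ContinuousLinearMap.fst ℝ ℂ ℂ).comp (e : V →L[ℝ] ℂ × ℂ)) hw (Base_sub hv τ)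
    have hdb : ∀ v, Desc1 q (e x).2 v → ∀ w, (e w).2 = -v → Desc1 b x w := by
      intro v hv w hw
      rw [hb]
      exact Base_pull (A := fun _ : Unit => fun z => τ - q z)
        ((ContinuousLinearMap.snd ℝ ℂ ℂ).comp (e : V →L[ℝ] ℂ × ℂ)) hw (Base_neg hv τ)
    have hl : Tendsto (fun s : ℝ => s) (𝓝[Icc 0 1] t) (𝓝 t) := nhdsWithin_le_nhds
    have hl' : Tendsto (fun s : ℝ => 1 - s) (𝓝[Icc 0 1] t) (𝓝 (1 - t)) :=
      tendsto_const_nhds.sub hl
    have hI : ∀ᶠ s in 𝓝[Icc 0 1] t, s ∈ Icc (0 : ℝ) 1 := eventually_mem_nhdsWithin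
    rcases lt_trichotomy (a x) (b x) with h | h | h
    · -- `b` is bigger
      have hb0 : 0 ≤ b x := by
        rcases h1 with h1 | h1
        · linarith
        · exact h1.2.1
      obtain ⟨v, hv⟩ := rq (e x).2 (by
        rw [hbx] at hb0
        linarith)
      have d1 : Desc1 b x (e.symm (0, -v)) := hdb v hv _ (by rw [e.apply_symm_apply])
      have d2 : Desc1 (fun y => a y + b y) x (e.symm (0, -v)) := by
        rw [← hsum]
        exact desc_snd e lp hv
      refine ⟨e.symm (0, -v), ?_⟩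
      have d3 := desc_add (d1.const (𝓝[Icc 0 1] t)) (d2.const (𝓝[Icc 0 1] t)) hl hl'
        (hI.mono fun s hs => hs.1) (hI.mono fun s hs => by linarith [hs.2]) (by linarith)
      refine d3.congr ?_
      have hlt : ∀ᶠ z : ℝ × V in 𝓝[Icc 0 1] t ×ˢ 𝓝 x, a z.2 < b z.2 :=
        (tendsto_snd (f := 𝓝[Icc 0 1] t) (g := 𝓝 x)).eventually
          (ca.continuousAt.eventually_lt cb.continuousAt h)
      refine hlt.mono fun z hz => ?_
      rw [max_eq_right hz.le, min_eq_left hz.le]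
      ring
    · -- both are zero
      have h2 : a x = 0 ∧ b x = 0 := by
        rcases h1 with h1 | h1
        · exact ⟨by linarith [h1.1, h1.2.1], by linarith [h1.1, h1.2.1]⟩
        · exact ⟨by linarith [h1.1, h1.2.1], by linarith [h1.1, h1.2.1]⟩
      obtain ⟨v, hv⟩ := rp (e x).1 (by
        have := h2.1
        rw [hax] at this
        linarith)
      obtain ⟨u, hu⟩ := rq (e x).2 (by
        have := h2.2
        rw [hbx] at this
        linarith)
      have d1 : Desc1 a x (e.symm (v, -u)) := hda v hv _ (by rw [e.apply_symm_apply])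
      have d2 : Desc1 b x (e.symm (v, -u)) := hdb u hu _ (by rw [e.apply_symm_apply])
      refine ⟨e.symm (v, -u), ?_⟩
      have d3 := desc_max (d1.const (𝓝[Icc 0 1] t)) (d2.const (𝓝[Icc 0 1] t))
      have d4 := desc_min (d1.const (𝓝[Icc 0 1] t)) (d2.const (𝓝[Icc 0 1] t))
      have d5 := desc_add d3 d4 (tendsto_const_nhds (x := (1 : ℝ))) hl'
        (Eventually.of_forall fun _ => zero_le_one) (hI.mono fun s hs => by linarith [hs.2])
        (by linarith)
      refine d5.congr (Eventually.of_forall fun z => ?_)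
      rw [one_mul]
    · -- `a` is bigger
      have ha0 : 0 ≤ a x := by
        rcases h1 with h1 | h1
        · exact h1.2.1
        · linarith
      obtain ⟨v, hv⟩ := rp (e x).1 (by
        rw [hax] at ha0
        linarith)
      have d1 : Desc1 a x (e.symm (v, 0)) := hda v hv _ (by rw [e.apply_symm_apply])
      have d2 : Desc1 (fun y => a y + b y) x (e.symm (v, 0)) := by
        rw [← hsum]
        exact desc_fst e lq hv
      refine ⟨e.symm (v, 0), ?_⟩
      have d3 := desc_add (d1.const (𝓝[Icc 0 1] t)) (d2.const (𝓝[Icc 0 1] t)) hl hl'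
        (hI.mono fun s hs => hs.1) (hI.mono fun s hs => by linarith [hs.2]) (by linarith)
      refine d3.congr ?_
      have hlt : ∀ᶠ z : ℝ × V in 𝓝[Icc 0 1] t ×ˢ 𝓝 x, b z.2 < a z.2 :=
        (tendsto_snd (f := 𝓝[Icc 0 1] t) (g := 𝓝 x)).eventually
          (cb.continuousAt.eventually_lt ca.continuousAt h)
      refine hlt.mono fun z hz => ?_
      rw [max_eq_left hz.le, min_eq_right hz.le]
      ring

/-- PROOF. `max (A s (e x).1) (B s (e x).2)` for the two given families; bounded by `hom_bdd` (Ix/TopC.lean). -/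
theorem base_prod (e : V ≃L[ℝ] ℂ × ℂ) {a b a' b' : ℂ → ℝ} (ha : Hom a a') (hb : Hom b b')
    (ba : Bornology.IsBounded {x | a x ≤ 0}) (bb : Bornology.IsBounded {x | b x ≤ 0}) :
    Hom (fun x : V => max (a (e x).1) (b (e x).2)) (fun x => max (a' (e x).1) (b' (e x).2)) := by
  obtain ⟨A, cA, A0, A1, zA, dA⟩ := ha
  obtain ⟨B, cB, B0, B1, zB, dB⟩ := hb
  subst A0 A1 B0 B1
  obtain ⟨R1, hR1⟩ := hom_bdd A cA zA ba
  obtain ⟨R2, hR2⟩ := hom_bdd B cB zB bb
  obtain ⟨R, hR⟩ := Base_bdd e (R1 := R1) (R2 := R2)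
  have cA' : Continuous fun z : ℝ × V => A z.1 (e z.2).1 :=
    cA.comp (continuous_fst.prodMk (continuous_fst.comp (e.continuous.comp continuous_snd)))
  have cB' : Continuous fun z : ℝ × V => B z.1 (e z.2).2 :=
    cB.comp (continuous_fst.prodMk (continuous_snd.comp (e.continuous.comp continuous_snd)))
  refine ⟨fun t x => max (A t (e x).1) (B t (e x).2), cA'.max cB', rfl, rfl, ⟨R, ?_⟩, ?_⟩
  · intro t ht x hx
    have hx' : max (A t (e x).1) (B t (e x).2) = 0 := hx
    exact hR x (hR1 t ht _ ((le_max_left _ _).trans hx'.le))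
      (hR2 t ht _ ((le_max_right _ _).trans hx'.le))
  · intro t ht x hx
    have hx' : max (A t (e x).1) (B t (e x).2) = 0 := hx
    have hA : A t (e x).1 ≤ 0 := (le_max_left _ _).trans hx'.le
    have hB : B t (e x).2 ≤ 0 := (le_max_right _ _).trans hx'.le
    have pA : ∀ v, Desc A (𝓝[Icc 0 1] t) (e x).1 v → ∀ w, (e w).1 = v →
        Desc (fun s y => A s (e y).1) (𝓝[Icc 0 1] t) x w := fun v hv w hw =>
      Base_pull ((ContinuousLinearMap.fst ℝ ℂ ℂ).comp (e : V →L[ℝ] ℂ × ℂ)) hw hv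
    have pB : ∀ v, Desc B (𝓝[Icc 0 1] t) (e x).2 v → ∀ w, (e w).2 = v →
        Desc (fun s y => B s (e y).2) (𝓝[Icc 0 1] t) x w := fun v hv w hw =>
      Base_pull ((ContinuousLinearMap.snd ℝ ℂ ℂ).comp (e : V →L[ℝ] ℂ × ℂ)) hw hv
    have hle : 𝓝[Icc 0 1] t ×ˢ 𝓝 x ≤ 𝓝 (t, x) := by
      rw [nhds_prod_eq]
      exact Filter.prod_mono nhdsWithin_le_nhds le_rfl
    rcases lt_trichotomy (A t (e x).1) (B t (e x).2) with h | h | h
    · have h0 : B t (e x).2 = 0 := by
        rw [max_eq_right h.le] at hx'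
        exact hx'
      obtain ⟨v, hv⟩ := dB t ht _ h0
      refine ⟨e.symm (0, v), desc_max_right (pB v hv _ (by rw [e.apply_symm_apply])) ?_⟩
      exact ((cA'.continuousAt.eventually_lt cB'.continuousAt (x₀ := (t, x)) h).filter_mono
        hle).mono fun z hz => hz.le
    · have h0 : A t (e x).1 = 0 := by
        rw [max_eq_left h.ge] at hx'
        exact hx'
      obtain ⟨v, hv⟩ := dA t ht _ h0
      obtain ⟨u, hu⟩ := dB t ht _ (h ▸ h0)
      exact ⟨e.symm (v, u), desc_max (pA v hv _ (by rw [e.apply_symm_apply]))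
        (pB u hu _ (by rw [e.apply_symm_apply]))⟩
    · have h0 : A t (e x).1 = 0 := by
        rw [max_eq_left h.le] at hx'
        exact hx'
      obtain ⟨v, hv⟩ := dA t ht _ h0
      refine ⟨e.symm (v, 0), desc_max_left (pA v hv _ (by rw [e.apply_symm_apply])) ?_⟩
      exact ((cB'.continuousAt.eventually_lt cA'.continuousAt (x₀ := (t, x)) h).filter_mono
        hle).mono fun z hz => hz.le

/-- PROOF. `isBall_convex`. -/
theorem base_discs (e : V ≃L[ℝ] ℂ × ℂ) :
    IsBall (fun x : V => max (‖(e x).1‖ ^ 2 - 1) (‖(e x).2‖ ^ 2 - 1)) := by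
  obtain ⟨R, hR⟩ := Base_bdd e (R1 := 1) (R2 := 1)
  have key : ∀ L : V →L[ℝ] ℂ, ConvexOn ℝ univ fun x : V => ‖L x‖ ^ 2 - 1 := by
    intro L
    have h1 : ConvexOn ℝ univ fun y : ℂ => ‖y‖ ^ 2 :=
      (convexOn_norm convex_univ).pow (fun y _ => norm_nonneg y) 2
    have h2 : ConvexOn ℝ univ fun x : V => ‖L x‖ ^ 2 := by
      have := h1.comp_linearMap (L : V →ₗ[ℝ] ℂ)
      rw [preimage_univ] at this
      exact this
    exact h2.sub (concaveOn_const _ convex_univ)
  refine isBall_convex (o := 0) ?_ ?_ ?_ ?_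
  · exact (key ((ContinuousLinearMap.fst ℝ ℂ ℂ).comp (e : V →L[ℝ] ℂ × ℂ))).sup
      (key ((ContinuousLinearMap.snd ℝ ℂ ℂ).comp (e : V →L[ℝ] ℂ × ℂ)))
  · have h1 : Continuous fun x : V => (e x).1 := continuous_fst.comp e.continuous
    have h2 : Continuous fun x : V => (e x).2 := continuous_snd.comp e.continuous
    exact ((h1.norm.pow 2).sub continuous_const).max ((h2.norm.pow 2).sub continuous_const)
  · show max (‖(e 0).1‖ ^ 2 - 1) (‖(e 0).2‖ ^ 2 - 1) < 0
    rw [map_zero, Prod.fst_zero, Prod.snd_zero, norm_zero, max_self]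
    norm_num
  · refine (Metric.isBounded_closedBall (x := (0 : V)) (r := R)).subset fun x hx => ?_
    have hx' : max (‖(e x).1‖ ^ 2 - 1) (‖(e x).2‖ ^ 2 - 1) ≤ 0 := hx
    obtain ⟨h1, h2⟩ := max_le_iff.1 hx'
    rw [mem_closedBall_zero_iff]
    refine hR x ?_ ?_
    · have := norm_nonneg (e x).1
      nlinarith
    · have := norm_nonneg (e x).2
      nlinarith

/-- PROOF. `p - τ` and `τ - q` are good, `plane_good` (`Good.open_compl` for the complements), `base_max`,
`base_prod`, `base_discs`. -/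
theorem ts_base_ball (e : V ≃L[ℝ] ℂ × ℂ) {p q : ℂ → ℝ} (lp : LocallyLipschitz p)
    (lq : LocallyLipschitz q) {τ : ℝ} (bp : ∀ s : ℝ, Bornology.IsBounded {x | p x ≤ s})
    (bq : ∀ s : ℝ, Bornology.IsBounded {x | s ≤ q x}) (rp : ∀ x, τ ≤ p x → ∃ v, Desc1 p x v)
    (rq : ∀ x, q x ≤ τ → ∃ v, Desc1 q x v) (c1 : IsConnected {x | p x ≤ τ})
    (c2 : IsPreconnected {x | τ ≤ p x}) (c3 : IsConnected {x | τ ≤ q x})
    (c4 : IsPreconnected {x | q x ≤ τ}) : IsBall (sumF e p q) := by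
  have cp : Continuous p := lp.continuous
  have cq : Continuous q := lq.continuous
  have s1 : {x | p x - τ ≤ 0} = {x | p x ≤ τ} := by
    ext x
    show p x - τ ≤ 0 ↔ p x ≤ τ
    exact sub_nonpos
  have s2 : {x | 0 ≤ p x - τ} = {x | τ ≤ p x} := by
    ext x
    show 0 ≤ p x - τ ↔ τ ≤ p x
    exact sub_nonneg
  have s3 : {x | τ - q x ≤ 0} = {x | τ ≤ q x} := by
    ext x
    show τ - q x ≤ 0 ↔ τ ≤ q x
    exact sub_nonpos
  have s4 : {x | 0 ≤ τ - q x} = {x | q x ≤ τ} := by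
    ext x
    show 0 ≤ τ - q x ↔ q x ≤ τ
    exact sub_nonneg
  have b1 : Bornology.IsBounded {x | p x - τ ≤ 0} := by
    rw [s1]
    exact bp τ
  have b3 : Bornology.IsBounded {x | τ - q x ≤ 0} := by
    rw [s3]
    exact bq τ
  have g1 : Good fun x => p x - τ := by
    refine ⟨cp.sub continuous_const, b1.subset fun x hx => le_of_eq hx, fun x hx => ?_⟩
    have hx' : p x - τ = 0 := hx
    obtain ⟨v, hv⟩ := rp x (by linarith)
    exact ⟨v, Base_sub hv τ⟩
  have g2 : Good fun x => τ - q x := by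
    refine ⟨continuous_const.sub cq, b3.subset fun x hx => le_of_eq hx, fun x hx => ?_⟩
    have hx' : τ - q x = 0 := hx
    obtain ⟨v, hv⟩ := rq x (by linarith)
    exact ⟨-v, Base_neg hv τ⟩
  have k1 : IsBall fun x => p x - τ :=
    plane_good Complex.finrank_real_complex g1 b1 (by rw [s1]; exact c1)
      (g1.open_compl (by rw [s2]; exact c2))
  have k2 : IsBall fun x => τ - q x :=
    plane_good Complex.finrank_real_complex g2 b3 (by rw [s3]; exact c3)
      (g2.open_compl (by rw [s4]; exact c4))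
  exact ((base_max e lp lq bp bq rp rq).trans (base_prod e k1 k2 b1 b3)).trans (base_discs e)

end Pool.Schoen
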