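import Pool.Agent.H.MP_6c077c_gt.Al.LinkD
import Pool.Agent.H.MP_6c077c_gt.NoRetract
import Pool.Agent.H.MP_6c077c_gt.IxB.LiftBall

/-! Sums of two functions of two variables: Borsuk's lemmas in the plane and unicoherence. -/

set_option autoImplicit false

namespace Pool.Schoen

open Filter Set
open scoped Topology RealInnerProductSpace

variable {V : Type*} [NormedAddCommGroup V] [InnerProductSpace ℝ V]

/-- The direction quotient of `a` and `b`. -/
noncomputable def bdq (κ : V ≃ₗᵢ[ℝ] ℂ) (a b y : V) : ℂ := cdir ((κ y - κ a) / (κ y - κ b))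

theorem cdir_div {z w : ℂ} (hw : w ≠ 0) : cdir (z / w) = cdir z / cdir w := by
  have h1 : cdir (z / w) * cdir w = cdir z := by
    rw [← cdir_mul, div_mul_cancel₀ _ hw]
  have h2 : cdir w ≠ 0 := by
    intro h0
    have := norm_cdir hw
    rw [h0, norm_zero] at this
    exact zero_ne_one this
  rw [eq_div_iff h2, h1]

theorem bdq_sub_ne {κ : V ≃ₗᵢ[ℝ] ℂ} {a y : V} (h : y ≠ a) : κ y - κ a ≠ 0 :=
  sub_ne_zero.2 fun h' => h (κ.injective h')

theorem norm_bdq {κ : V ≃ₗᵢ[ℝ] ℂ} {a b y : V} (h : y ≠ a) (h' : y ≠ b) : ‖bdq κ a b y‖ = 1 :=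
  norm_cdir (div_ne_zero (bdq_sub_ne h) (bdq_sub_ne h'))

theorem bdq_continuousOn (κ : V ≃ₗᵢ[ℝ] ℂ) {A : Set V} {a b : V} (ha : a ∉ A) (hb : b ∉ A) :
    ContinuousOn (bdq κ a b) A := by
  have h1 : ContinuousOn (fun y => (κ y - κ a) / (κ y - κ b)) A := by
    refine ContinuousOn.div ?_ ?_ ?_
    · exact (κ.continuous.sub continuous_const).continuousOn
    · exact (κ.continuous.sub continuous_const).continuousOn
    · intro y hy
      exact bdq_sub_ne fun h => hb (h ▸ hy)
  exact continuousOn_cdir h1 fun y hy =>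
    div_ne_zero (bdq_sub_ne fun h => ha (h ▸ hy)) (bdq_sub_ne fun h => hb (h ▸ hy))

/-- Borsuk, first half: if `a` and `b` are in a connected set off the closed set `K`, the direction
quotient lifts over `K`. -/
theorem borsuk_lift (κ : V ≃ₗᵢ[ℝ] ℂ) {K U : Set V} (hK : IsClosed K) (hU : IsPreconnected U)
    (hd : Disjoint K U) {a b : V} (ha : a ∈ U) (hb : b ∈ U) : Lifts K (bdq κ a b) := by
  have hne : ∀ c ∈ U, ∀ y ∈ K, y ≠ c := by
    intro c hc y hy h
    subst h
    exact (Set.disjoint_left.1 hd) hy hc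
  have hcK : ∀ c ∈ U, c ∉ K := fun c hc hc' => (Set.disjoint_left.1 hd) hc' hc
  have hclose : ∀ c ∈ U, ∀ c' ∈ U, (∀ y ∈ K, ‖c' - c‖ < ‖y - c‖ / 2) → Lifts K (bdq κ c' c) := by
    intro c hc c' hc' h
    have h0 : Lifts K (fun _ : V => (1 : ℂ)) := ⟨fun _ => 0, continuousOn_const, fun x _ => by simp⟩
    refine h0.of_close (bdq_continuousOn κ (hcK c' hc') (hcK c hc)) continuousOn_const ?_ ?_
    · intro y hy
      exact norm_bdq (hne c' hc' y hy) (hne c hc y hy)
    · intro y hy
      have h1 : κ y - κ c ≠ 0 := bdq_sub_ne (hne c hc y hy)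
      have h2 : ‖cdir (κ y - κ c') - cdir (κ y - κ c)‖ < 2 := by
        refine cdir_close h1 ?_
        have e1 : κ y - κ c' - (κ y - κ c) = κ (c - c') := by
          rw [map_sub]
          ring
        have e2 : κ y - κ c = κ (y - c) := by rw [map_sub]
        rw [e1, e2, LinearIsometryEquiv.norm_map, LinearIsometryEquiv.norm_map, norm_sub_rev]
        exact h y hy
      have h3 : ‖cdir (κ y - κ c)‖ = 1 := norm_cdir h1
      have h4 : cdir (κ y - κ c) ≠ 0 := by
        intro h0
        rw [h0, norm_zero] at h3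
        exact zero_ne_one h3
      have e : bdq κ c' c y - 1 = (cdir (κ y - κ c') - cdir (κ y - κ c)) / cdir (κ y - κ c) := by
        unfold bdq
        rw [cdir_div h1, sub_div, div_self h4]
      rw [e, norm_div, h3, div_one]
      exact h2
  have hmain : Lifts K (bdq κ b a) := by
    refine hU.induction₂' (fun a b => Lifts K (bdq κ b a)) ?_ ?_ ha hb
    · intro c hc
      have h1 : ∀ᶠ c' in 𝓝[U] c, ∀ y ∈ K, ‖c' - c‖ < ‖y - c‖ / 2 ∧ ‖c - c'‖ < ‖y - c'‖ / 2 := by
        obtain ⟨d, hd0, hd1⟩ := Metric.isOpen_iff.1 hK.isOpen_compl c (hcK c hc)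
        have h2 : ∀ᶠ c' in 𝓝[U] c, c' ∈ Metric.ball c (d / 4) :=
          nhdsWithin_le_nhds (Metric.ball_mem_nhds c (by positivity))
        filter_upwards [h2] with c' hc' y hy
        rw [Metric.mem_ball, dist_eq_norm] at hc'
        have h3 : d ≤ ‖y - c‖ := by
          by_contra h4
          push Not at h4
          exact hd1 (show y ∈ Metric.ball c d by rwa [Metric.mem_ball, dist_eq_norm]) hy
        have h4 : ‖y - c‖ ≤ ‖y - c'‖ + ‖c' - c‖ := by
          have := norm_add_le (y - c') (c' - c)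
          rwa [sub_add_sub_cancel] at this
        rw [norm_sub_rev c c']
        constructor <;> linarith
      filter_upwards [h1, self_mem_nhdsWithin] with c' h3 hc'
      exact ⟨hclose c hc c' hc' fun y hy => (h3 y hy).1, hclose c' hc' c hc fun y hy => (h3 y hy).2⟩
    · intro x y z hx hy hz h1 h2
      obtain ⟨v1, hv1, e1⟩ := h1
      obtain ⟨v2, hv2, e2⟩ := h2
      refine ⟨fun t => v1 t + v2 t, hv1.add hv2, fun t ht => ?_⟩
      have h3 : bdq κ z x t = bdq κ y x t * bdq κ z y t := by
        unfold bdq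
        rw [← cdir_mul]
        congr 1
        have h4 := bdq_sub_ne (κ := κ) (hne y hy t ht)
        have h5 := bdq_sub_ne (κ := κ) (hne x hx t ht)
        field_simp
      have e1' : bdq κ y x t = Complex.exp (v1 t * Complex.I) := e1 t ht
      have e2' : bdq κ z y t = Complex.exp (v2 t * Complex.I) := e2 t ht
      change bdq κ z x t = Complex.exp (((v1 t + v2 t : ℝ) : ℂ) * Complex.I)
      rw [h3, e1', e2', ← Complex.exp_add]
      congr 1
      push_cast
      ring
  -- exchange `a` and `b`
  obtain ⟨v, hv, e⟩ := hmain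
  refine ⟨fun y => -v y, hv.neg, fun y hy => ?_⟩
  have h1 : bdq κ a b y * bdq κ b a y = 1 := by
    unfold bdq
    rw [← cdir_mul]
    have h4 := bdq_sub_ne (κ := κ) (hne a ha y hy)
    have h5 := bdq_sub_ne (κ := κ) (hne b hb y hy)
    have h6 : (κ y - κ a) / (κ y - κ b) * ((κ y - κ b) / (κ y - κ a)) = 1 := by field_simp
    rw [h6]
    simp [cdir]
  have h2 := e y hy
  rw [h2] at h1
  have h3 : bdq κ a b y = (Complex.exp (v y * Complex.I))⁻¹ := eq_inv_of_mul_eq_one_left h1
  rw [h3, ← Complex.exp_neg]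
  congr 1
  push_cast
  ring

/-- Borsuk, second half: if `a` is in the bounded open set `D` and `b` is not in its closure, the
direction quotient does not lift over the boundary of `D`. -/
theorem borsuk_no_lift [FiniteDimensional ℝ V] (κ : V ≃ₗᵢ[ℝ] ℂ) {D : Set V} (hD : IsOpen D)
    (hDb : Bornology.IsBounded D) {a b : V} (ha : a ∈ D) (hb : b ∉ closure D) :
    ¬ Lifts (frontier D) (bdq κ a b) := by
  classical
  rintro ⟨v, hv, e⟩
  -- Tietze
  obtain ⟨g, hg⟩ : ∃ g : V → ℝ, Continuous g ∧ ∀ x ∈ frontier D, g x = v x := by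
    obtain ⟨g, hg⟩ := ContinuousMap.exists_restrict_eq (Y := ℝ) isClosed_frontier
      ⟨fun x : frontier D => v x, continuousOn_iff_continuous_domRestrict.1 hv⟩
    refine ⟨g, g.continuous, fun x hx => ?_⟩
    exact congrArg (fun h => h ⟨x, hx⟩) hg
  obtain ⟨hgc, hgv⟩ := hg
  obtain ⟨r, hr, hDr⟩ : ∃ r : ℝ, 0 < r ∧ closure D ⊆ Metric.ball a r := by
    obtain ⟨r, hr⟩ := hDb.closure.subset_ball a
    refine ⟨max r 1, lt_of_lt_of_le one_pos (le_max_right _ _),
      hr.trans (Metric.ball_subset_ball (le_max_left _ _))⟩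
  have hacl : a ∈ closure D := subset_closure ha
  -- the unit field
  let ρ : V → ℂ := fun y => if y ∈ closure D then
    Complex.exp ((g y : ℂ) * Complex.I) * cdir (κ y - κ b) else cdir (κ y - κ a)
  have hρn : ∀ y, ‖ρ y‖ = 1 := by
    intro y
    by_cases hy : y ∈ closure D
    · have : ρ y = Complex.exp ((g y : ℂ) * Complex.I) * cdir (κ y - κ b) := if_pos hy
      have hyb : y ≠ b := fun h => hb (h ▸ hy)
      rw [this, norm_mul, Complex.norm_exp_ofReal_mul_I, norm_cdir (bdq_sub_ne hyb), one_mul]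
    · have : ρ y = cdir (κ y - κ a) := if_neg hy
      have hya : y ≠ a := fun h => hy (h ▸ hacl)
      rw [this, norm_cdir (bdq_sub_ne hya)]
  have hfront : ∀ y ∈ frontier D, ρ y = cdir (κ y - κ a) := by
    intro y hy
    have hyD : y ∉ D := by
      rw [frontier, hD.interior_eq] at hy
      exact hy.2
    have hya : y ≠ a := fun h => hyD (h ▸ ha)
    have hyb : y ≠ b := fun h => hb (h ▸ frontier_subset_closure hy)
    have h1 : ρ y = Complex.exp ((g y : ℂ) * Complex.I) * cdir (κ y - κ b) :=
      if_pos (frontier_subset_closure hy)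
    have h2 := e y hy
    rw [h1, hgv y hy, ← h2]
    unfold bdq
    rw [← cdir_mul]
    congr 1
    exact div_mul_cancel₀ _ (bdq_sub_ne hyb)
  have hρc : Continuous ρ := by
    have hc1 : ContinuousOn ρ (closure D) := by
      have h1 : ContinuousOn (fun y => Complex.exp ((g y : ℂ) * Complex.I) * cdir (κ y - κ b))
          (closure D) := by
        refine ContinuousOn.mul ?_ ?_
        · exact (Complex.continuous_exp.comp ((Complex.continuous_ofReal.comp hgc).mul
            continuous_const)).continuousOn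
        · exact continuousOn_cdir ((κ.continuous.sub continuous_const).continuousOn)
            fun y hy => bdq_sub_ne fun h => hb (h ▸ hy)
      exact h1.congr fun y hy => if_pos hy
    have hc2 : ContinuousOn ρ Dᶜ := by
      have h1 : ContinuousOn (fun y => cdir (κ y - κ a)) Dᶜ :=
        continuousOn_cdir ((κ.continuous.sub continuous_const).continuousOn)
            fun y hy => bdq_sub_ne fun h => hy (h ▸ ha)
      refine h1.congr fun y hy => ?_
      by_cases hy' : y ∈ closure D
      · exact hfront y (by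
          rw [frontier, hD.interior_eq]
          exact ⟨hy', hy⟩)
      · exact if_neg hy'
    have h3 := hc1.union_of_isClosed hc2 isClosed_closure hD.isClosed_compl
    have h4 : closure D ∪ Dᶜ = univ := by
      rw [Set.eq_univ_iff_forall]
      intro y
      by_cases hy : y ∈ D
      · exact Or.inl (subset_closure hy)
      · exact Or.inr hy
    rw [h4] at h3
    exact continuousOn_univ.1 h3
  -- the field without zeros
  obtain ⟨x, hx⟩ := exists_zero (fun y => max 1 ‖y‖ • κ.symm (ρ (a + r • y))) (by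
      exact (continuous_const.max continuous_norm).smul
        (κ.symm.continuous.comp (hρc.comp (by fun_prop)))) (by
      intro y hy
      have hy0 : 0 < ‖y‖ := lt_of_lt_of_le one_pos hy
      have h1 : a + r • y ∉ closure D := by
        intro h2
        have h3 := hDr h2
        rw [Metric.mem_ball, dist_eq_norm, add_sub_cancel_left, norm_smul,
          Real.norm_of_nonneg hr.le] at h3
        nlinarith
      have h2 : ρ (a + r • y) = cdir (κ (a + r • y) - κ a) := if_neg h1
      have h3 : κ (a + r • y) - κ a = ((r : ℝ) : ℂ) * κ y := by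
        rw [map_add, map_smul, add_sub_cancel_left]
        rfl
      have h4 : κ.symm (((‖y‖⁻¹ : ℝ) : ℂ) * κ y) = ‖y‖⁻¹ • y := by
        have : ((‖y‖⁻¹ : ℝ) : ℂ) * κ y = κ (‖y‖⁻¹ • y) := by
          rw [map_smul]
          rfl
        rw [this, LinearIsometryEquiv.symm_apply_apply]
      show max 1 ‖y‖ • κ.symm (ρ (a + r • y)) = y
      rw [h2, h3, cdir_smul hr, max_eq_right hy]
      have h5 : cdir (κ y) = ((‖y‖⁻¹ : ℝ) : ℂ) * κ y := by
        unfold cdir
        rw [LinearIsometryEquiv.norm_map]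
      rw [h5, h4, smul_smul, mul_inv_cancel₀ hy0.ne', one_smul])
  have hx' : max 1 ‖x‖ • κ.symm (ρ (a + r • x)) = 0 := hx
  rw [smul_eq_zero] at hx'
  rcases hx' with h | h
  · have : (1 : ℝ) ≤ max 1 ‖x‖ := le_max_left _ _
    linarith
  · have h1 : ‖κ.symm (ρ (a + r • x))‖ = 1 := by
      rw [LinearIsometryEquiv.norm_map, hρn]
    rw [h, norm_zero] at h1
    exact zero_ne_one h1

/-- A continuous function with values in `2 π ℤ` is constant on a preconnected set. -/
theorem borsuk_const {Y : Type*} [TopologicalSpace Y] {A : Set Y} (hA : IsPreconnected A)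
    {f : Y → ℝ} (hf : ContinuousOn f A)
    (h1 : ∀ x ∈ A, Complex.exp (f x * Complex.I) = 1) {x x' : Y} (hx : x ∈ A) (hx' : x' ∈ A) :
    f x = f x' := by
  have key : ∀ x ∈ A, ∃ n : ℤ, f x = n * (2 * Real.pi) := by
    intro x hx
    obtain ⟨n, hn⟩ := Complex.exp_eq_one_iff.1 (h1 x hx)
    refine ⟨n, ?_⟩
    have h2 : ((f x : ℂ)) * Complex.I = ((n * (2 * Real.pi) : ℝ) : ℂ) * Complex.I := by
      rw [hn]
      push_cast
      ring
    have h3 := mul_right_cancel₀ Complex.I_ne_zero h2
    exact_mod_cast h3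
  have main : ∀ x ∈ A, ∀ x' ∈ A, f x ≤ f x' := by
    intro x hx x' hx'
    by_contra hlt
    push Not at hlt
    obtain ⟨n, hn⟩ := key x hx
    obtain ⟨m, hm⟩ := key x' hx'
    have hpi := Real.pi_pos
    have hmn : m < n := by
      have : (m : ℝ) * (2 * Real.pi) < n * (2 * Real.pi) := by rw [← hn, ← hm]; exact hlt
      have := lt_of_mul_lt_mul_right this (by positivity)
      exact_mod_cast this
    have hle : (m : ℝ) + 1 ≤ n := by exact_mod_cast hmn
    have hmem : f x' + Real.pi ∈ f '' A := by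
      have hord := (hA.image f hf).ordConnected
      refine hord.out (mem_image_of_mem f hx') (mem_image_of_mem f hx) ⟨by linarith, ?_⟩
      rw [hn, hm]
      nlinarith
    obtain ⟨y, hy, hfy⟩ := hmem
    obtain ⟨k, hk⟩ := key y hy
    rw [hk, hm] at hfy
    have h4 : ((k - m : ℤ) : ℝ) * 2 = 1 := by
      push_cast
      have : ((k : ℝ) - m) * (2 * Real.pi) = Real.pi := by linarith
      field_simp at this
      linarith
    have h5 : (k - m) * 2 = 1 := by exact_mod_cast h4
    omega
  exact le_antisymm (main x hx x' hx') (main x' hx' x hx)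

/-- Unicoherence: if every map to the circle lifts, two closed connected sets which cover the space
have a connected intersection. -/
theorem unicoherent {Y : Type*} [TopologicalSpace Y] [NormalSpace Y] (hY : LiftS (univ : Set Y))
    {A B : Set Y} (hA : IsClosed A) (hB : IsClosed B) (hcA : IsPreconnected A)
    (hcB : IsPreconnected B) (hAB : A ∪ B = univ) : IsPreconnected (A ∩ B) := by
  classical
  rw [isPreconnected_iff_subset_of_disjoint_closed]
  intro X Z hX hZ hXZ hd
  by_contra hne
  push Not at hne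
  obtain ⟨h1, h2⟩ := hne
  obtain ⟨z, hz, hzX⟩ := Set.not_subset.1 h1
  obtain ⟨x, hx, hxZ⟩ := Set.not_subset.1 h2
  have hxX : x ∈ X := (hXZ hx).resolve_right hxZ
  have hzZ : z ∈ Z := (hXZ hz).resolve_left hzX
  have hdis : Disjoint (A ∩ B ∩ X) (A ∩ B ∩ Z) := by
    rw [Set.disjoint_left]
    rintro y ⟨hy, hyX⟩ ⟨_, hyZ⟩
    have : y ∈ A ∩ B ∩ (X ∩ Z) := ⟨hy, hyX, hyZ⟩
    rw [hd] at this
    exact this
  obtain ⟨φ, hφ0, hφ1, -⟩ := exists_continuous_zero_one_of_isClosed
    ((hA.inter hB).inter hX) ((hA.inter hB).inter hZ) hdis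
  let u : Y → ℂ := fun y => if y ∈ A then Complex.exp (((Real.pi * φ y : ℝ) : ℂ) * Complex.I)
    else Complex.exp (((-(Real.pi * φ y) : ℝ) : ℂ) * Complex.I)
  have huB : ∀ y ∈ B, u y = Complex.exp (((-(Real.pi * φ y) : ℝ) : ℂ) * Complex.I) := by
    intro y hy
    by_cases hyA : y ∈ A
    · have h3 : u y = Complex.exp (((Real.pi * φ y : ℝ) : ℂ) * Complex.I) := if_pos hyA
      rw [h3]
      rcases hXZ ⟨hyA, hy⟩ with h4 | h4
      · have h5 : φ y = 0 := hφ0 ⟨⟨hyA, hy⟩, h4⟩
        rw [h5]
        simp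
      · have h5 : φ y = 1 := hφ1 ⟨⟨hyA, hy⟩, h4⟩
        rw [h5, mul_one]
        push_cast
        rw [neg_mul, Complex.exp_neg, Complex.exp_pi_mul_I]
        norm_num
    · exact if_neg hyA
  have huA : ∀ y ∈ A, u y = Complex.exp (((Real.pi * φ y : ℝ) : ℂ) * Complex.I) :=
    fun y hy => if_pos hy
  have hφc : Continuous fun y => Real.pi * φ y := continuous_const.mul φ.continuous
  have huc : ContinuousOn u univ := by
    rw [← hAB]
    refine ContinuousOn.union_of_isClosed ?_ ?_ hA hB
    · refine ContinuousOn.congr ?_ huA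
      exact (Complex.continuous_exp.comp
        ((Complex.continuous_ofReal.comp hφc).mul continuous_const)).continuousOn
    · refine ContinuousOn.congr ?_ huB
      exact (Complex.continuous_exp.comp
        ((Complex.continuous_ofReal.comp hφc.neg).mul continuous_const)).continuousOn
  obtain ⟨v, hv, hv1⟩ := hY u huc (by
    intro y _
    by_cases hyA : y ∈ A
    · rw [huA y hyA]
      exact Complex.norm_exp_ofReal_mul_I _
    · have h3 : u y = Complex.exp (((-(Real.pi * φ y) : ℝ) : ℂ) * Complex.I) := if_neg hyA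
      rw [h3]
      exact Complex.norm_exp_ofReal_mul_I _)
  have hvc : Continuous v := continuousOn_univ.1 hv
  have e1 : v x - Real.pi * φ x = v z - Real.pi * φ z := by
    refine borsuk_const hcA (f := fun y => v y - Real.pi * φ y) (hvc.sub hφc).continuousOn ?_
      hx.1 hz.1
    intro y hy
    have h3 := hv1 y (mem_univ y)
    rw [huA y hy] at h3
    rw [Complex.ofReal_sub, sub_mul, Complex.exp_sub, ← h3, div_self (Complex.exp_ne_zero _)]
  have e2 : v x + Real.pi * φ x = v z + Real.pi * φ z := by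
    refine borsuk_const hcB (f := fun y => v y + Real.pi * φ y) (hvc.add hφc).continuousOn ?_
      hx.2 hz.2
    intro y hy
    have h3 := hv1 y (mem_univ y)
    rw [huB y hy] at h3
    rw [Complex.ofReal_add, add_mul, Complex.exp_add, ← h3, ← Complex.exp_add]
    push_cast
    rw [show -((Real.pi : ℂ) * (φ y : ℂ)) * Complex.I + (Real.pi : ℂ) * (φ y : ℂ) * Complex.I = 0 by
      ring, Complex.exp_zero]
  have h5 : φ x = 0 := hφ0 ⟨hx, hxX⟩
  have h6 : φ z = 1 := hφ1 ⟨hz, hzZ⟩
  rw [h5, h6] at e1 e2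
  have := Real.pi_pos
  linarith

end Pool.Schoen
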