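import Pool.Agent.H.MP_6c077c_gt.Ts.Defs
import Pool.Agent.H.MP_6c077c_gt.Ts.Borsuk
import Pool.Agent.H.MP_6c077c_gt.Ix.LiftA

/-! Theorem TS: circle maps in the plane `ℂ`, from `borsuk_lift` and `borsuk_no_lift`. -/

set_option autoImplicit false

namespace Pool.Schoen

open Filter Set Metric
open scoped Topology RealInnerProductSpace ContDiff

theorem Bk_cdir (z : ℂ) : cdir z = un z := by
  unfold cdir un
  rw [Complex.ofReal_inv, div_eq_mul_inv, mul_comm]

theorem norm_un {z : ℂ} (hz : z ≠ 0) : ‖un z‖ = 1 := by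
  rw [← Bk_cdir]
  exact norm_cdir hz

theorem un_continuousOn : ContinuousOn un {0}ᶜ := by
  have h : ContinuousOn (fun z : ℂ => cdir z) {0}ᶜ :=
    continuousOn_cdir continuousOn_id fun z hz => hz
  exact h.congr fun z _ => (Bk_cdir z).symm

theorem un_mul (z w : ℂ) : un (z * w) = un z * un w := by
  rw [← Bk_cdir, ← Bk_cdir, ← Bk_cdir, cdir_mul]

/-- The direction quotient in the plane `ℂ`. -/
theorem Bk_bq (m m' y : ℂ) :
    bdq (LinearIsometryEquiv.refl ℝ ℂ) m m' y = un ((y - m) / (y - m')) := Bk_cdir _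

/-- PROOF. `borsuk_lift` with `K = Uᶜ` (closed), then Tietze (`ContinuousMap.exists_restrict_eq`). -/
theorem borsuk1 {U : Set ℂ} (hU : IsOpen U) {m m' : ℂ} (h : Con U m m') :
    ∃ v : ℂ → ℝ, Continuous v ∧ ∀ y ∉ U, un ((y - m) / (y - m')) = Complex.exp (v y * Complex.I) := by
  obtain ⟨T, hTU, hT, hm, hm'⟩ := h
  have hd : Disjoint Uᶜ T := by
    rw [Set.disjoint_left]
    exact fun y hy hy' => hy (hTU hy')
  obtain ⟨v, hv, hv1⟩ := borsuk_lift (LinearIsometryEquiv.refl ℝ ℂ) hU.isClosed_compl hT hd hm hm'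
  obtain ⟨g, hg⟩ := ContinuousMap.exists_restrict_eq (Y := ℝ) hU.isClosed_compl
    ⟨fun x : ↥(Uᶜ) => v x, continuousOn_iff_continuous_domRestrict.1 hv⟩
  refine ⟨g, g.continuous, fun y hy => ?_⟩
  have h1 : g y = v y := congrArg (fun h => h ⟨y, hy⟩) hg
  rw [h1, ← Bk_bq]
  exact hv1 y hy

/-- PROOF. `borsuk_no_lift` for `D`: a point of `frontier D` is not in `U` (`D` and `U \ D` are open) and
it is in `closedBall 0 R`; `m' ∉ closure D` because `m' ∈ U \ D`, open. -/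
theorem borsuk2 {U D : Set ℂ} {R : ℝ} (hD : IsOpen D) (hDU : D ⊆ U)
    (hUD : IsOpen (U \ D)) (hDR : D ⊆ ball 0 R) {m m' : ℂ} (hm : m ∈ D) (hm' : m' ∈ U)
    (hm'D : m' ∉ D) : ¬ Lifts (Uᶜ ∩ closedBall 0 R) (fun y => un ((y - m) / (y - m'))) := by
  have hcl : ∀ y ∈ U, y ∉ D → y ∉ closure D := by
    intro y hy hyD hyc
    obtain ⟨z, hz, hzD⟩ := mem_closure_iff.1 hyc _ hUD ⟨hy, hyD⟩
    exact hz.2 hzD
  have hb : Bornology.IsBounded D := isBounded_ball.subset hDR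
  have hfr : frontier D ⊆ Uᶜ ∩ closedBall 0 R := by
    intro y hy
    rw [frontier, hD.interior_eq] at hy
    refine ⟨fun hyU => hcl y hyU hy.2 hy.1, ?_⟩
    exact closure_minimal (hDR.trans ball_subset_closedBall) isClosed_closedBall hy.1
  intro h
  refine borsuk_no_lift (LinearIsometryEquiv.refl ℝ ℂ) hD hb hm (hcl m' hm' hm'D) ?_
  obtain ⟨v, hv, hv1⟩ := h.mono hfr
  exact ⟨v, hv, fun y hy => by rw [Bk_bq]; exact hv1 y hy⟩

end Pool.Schoen
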