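import Pool.Agent.H.MP_6c077c_gt.Ts.Defs
import Pool.Agent.H.MP_6c077c_gt.Ix.DescC

/-! Theorem TS: components of sublevel sets at regular levels. -/

set_option autoImplicit false

namespace Pool.Schoen

open Filter Set Metric
open scoped Topology RealInnerProductSpace ContDiff

variable {X : Type*} [TopologicalSpace X]

theorem Con.mono {A B : Set X} {x y : X} (h : Con A x y) (hAB : A ⊆ B) : Con B x y := by
  obtain ⟨T, h1, h2, h3, h4⟩ := h
  exact ⟨T, h1.trans hAB, h2, h3, h4⟩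

theorem Con.symm {A : Set X} {x y : X} (h : Con A x y) : Con A y x := by
  obtain ⟨T, h1, h2, h3, h4⟩ := h
  exact ⟨T, h1, h2, h4, h3⟩

theorem Con.trans {A : Set X} {x y z : X} (h : Con A x y) (h' : Con A y z) : Con A x z := by
  obtain ⟨T, h1, h2, h3, h4⟩ := h
  obtain ⟨T', h1', h2', h3', h4'⟩ := h'
  exact ⟨T ∪ T', union_subset h1 h1', h2.union y h4 h3' h2', Or.inl h3, Or.inr h4'⟩

theorem Con.refl {A : Set X} {x : X} (h : x ∈ A) : Con A x x :=
  ⟨{x}, singleton_subset_iff.2 h, isPreconnected_singleton, rfl, rfl⟩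

theorem Comp_mem {A : Set X} {x y : X} (h : Con A x y) : y ∈ connectedComponentIn A x := by
  obtain ⟨T, h1, h2, h3, h4⟩ := h
  exact h2.subset_connectedComponentIn h3 h1 h4

theorem Comp_con {A : Set X} {x y : X} (h : y ∈ connectedComponentIn A x) : Con A x y := by
  have hx : x ∈ A := connectedComponentIn_nonempty_iff.1 ⟨y, h⟩
  exact ⟨connectedComponentIn A x, connectedComponentIn_subset A x,
    isPreconnected_connectedComponentIn, mem_connectedComponentIn hx, h⟩

/-- A clopen part is closed under `Con`. -/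
theorem Clp.con {D A : Set X} (h : Clp D A) {x y : X} (hx : x ∈ D) (hc : Con A x y) : y ∈ D := by
  obtain ⟨T, h1, h2, h3, h4⟩ := hc
  rcases (isPreconnected_iff_subset_of_disjoint_closed.1 h2) _ _ h.2.1 h.2.2 (fun z hz => by
    by_cases h : z ∈ D
    · exact Or.inl h
    · exact Or.inr ⟨h1 hz, h⟩) (by
    rw [Set.eq_empty_iff_forall_notMem]
    rintro z ⟨_, hz1, hz2⟩
    exact hz2.2 hz1) with h5 | h5
  · exact h5 h4
  · exact absurd hx (h5 h3).2

/-- The intersection with a smaller closed set. -/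
theorem Clp.inter {D A B : Set X} (h : Clp D A) (hB : IsClosed B) (hBA : B ⊆ A) :
    Clp (D ∩ B) B := by
  refine ⟨inter_subset_right, h.2.1.inter hB, ?_⟩
  have h1 : B \ (D ∩ B) = (A \ D) ∩ B := by
    ext z
    constructor
    · rintro ⟨h1, h2⟩
      exact ⟨⟨hBA h1, fun h3 => h2 ⟨h3, h1⟩⟩, h1⟩
    · rintro ⟨⟨h1, h2⟩, h3⟩
      exact ⟨h3, fun h4 => h2 h4.1⟩
  rw [h1]
  exact h.2.2.inter hB

theorem Clp.compl {D A : Set X} (h : Clp D A) : Clp (A \ D) A := by
  refine ⟨sdiff_subset, h.2.2, ?_⟩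
  have h1 : A \ (A \ D) = D := by
    rw [sdiff_sdiff_right_self]
    exact inter_eq_right.2 h.1
  rw [h1]
  exact h.2.1

theorem TReg.neg {h : ℂ → ℝ} {a b : ℝ} (hr : TReg h a b) : TReg (fun x => -h x) (-b) (-a) := by
  intro x h1 h2
  obtain ⟨v, hv⟩ := hr x (neg_le_neg_iff.1 h2) (neg_le_neg_iff.1 h1)
  exact ⟨-v, Desc.neg hv⟩

theorem TReg.mono {h : ℂ → ℝ} {a b a' b' : ℝ} (hr : TReg h a b) (h1 : a ≤ a') (h2 : b' ≤ b) :
    TReg h a' b' :=
  fun x h3 h4 => hr x (h1.trans h3) (h4.trans h2)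

theorem Tame.neg {h : ℂ → ℝ} {R lo hi : ℝ} (ht : Tame R lo hi h) :
    Tame R (-hi) (-lo) (fun x => -h x) := by
  rcases ht with ⟨c, hc⟩ | ⟨c, hc⟩
  · right
    refine ⟨-c, fun x hx => ?_⟩
    obtain ⟨h1, h2⟩ := hc x hx
    refine ⟨?_, neg_lt_neg h2⟩
    show -h x = -c - ‖x‖ ^ 2
    rw [h1]
    ring
  · left
    refine ⟨-c, fun x hx => ?_⟩
    obtain ⟨h1, h2⟩ := hc x hx
    refine ⟨?_, neg_lt_neg h2⟩
    show -h x = ‖x‖ ^ 2 + -c
    rw [h1]
    ring

/-- A locally connected closed set has clopen components. -/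
theorem Comp_clp {A : Set X} (hA : IsClosed A)
    (hloc : ∀ x ∈ A, ∃ U ∈ 𝓝 x, ∀ y ∈ U, y ∈ A → Con A x y) (x : X) :
    Clp (connectedComponentIn A x) A := by
  refine ⟨connectedComponentIn_subset A x, ?_, ?_⟩
  · refine isClosed_of_closure_subset fun z hz => ?_
    have hzA : z ∈ A := closure_minimal (connectedComponentIn_subset A x) hA hz
    obtain ⟨U, hU, hj⟩ := hloc z hzA
    obtain ⟨y, hyU, hy⟩ := mem_closure_iff_nhds.1 hz U hU
    exact Comp_mem ((Comp_con hy).trans (hj y hyU (connectedComponentIn_subset A x hy)).symm)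
  · refine isClosed_of_closure_subset fun z hz => ?_
    have hzA : z ∈ A := closure_minimal sdiff_subset hA hz
    refine ⟨hzA, fun hzD => ?_⟩
    obtain ⟨U, hU, hj⟩ := hloc z hzA
    obtain ⟨y, hyU, hy⟩ := mem_closure_iff_nhds.1 hz U hU
    exact hy.2 (Comp_mem ((Comp_con hzD).trans (hj y hyU hy.1)))

/-- Local connectedness of a sublevel set at a regular level, inside a given neighbourhood. -/
theorem Comp_local {h : ℂ → ℝ} (hc : Continuous h) {b : ℝ} (hr : TReg h b b) {x : ℂ}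
    (hx : h x ≤ b) {O : Set ℂ} (hO : O ∈ 𝓝 x) :
    ∃ U ∈ 𝓝 x, ∀ y ∈ U, h y ≤ b → Con ({z | h z ≤ b} ∩ O) x y := by
  obtain ⟨ρ, hρ, hρO⟩ := Metric.mem_nhds_iff.1 hO
  rcases hx.lt_or_eq with hx | hx
  · have h1 : ∀ᶠ y in 𝓝 x, h y < b := hc.continuousAt.eventually_lt_const hx
    obtain ⟨δ, hδ, hb⟩ := Metric.eventually_nhds_iff_ball.1 h1
    have hm : 0 < min δ ρ := lt_min hδ hρ
    refine ⟨ball x (min δ ρ), ball_mem_nhds x hm, fun y hy _ => ⟨ball x (min δ ρ), ?_,
      (convex_ball x _).isPreconnected, mem_ball_self hm, hy⟩⟩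
    intro z hz
    exact ⟨(hb z (ball_subset_ball (min_le_left _ _) hz)).le,
      hρO (ball_subset_ball (min_le_right _ _) hz)⟩
  · obtain ⟨v, hv⟩ := hr x hx.ge hx.le
    obtain ⟨c, hc0, d, hd, hu⟩ := hv.unif
    have hv1 : 0 < ‖v‖ + 1 := by positivity
    obtain ⟨s0, hs0⟩ : ∃ s0 : ℝ, s0 = min (d / 2) (ρ / 2 / (‖v‖ + 1)) := ⟨_, rfl⟩
    have hs00 : 0 < s0 := by
      rw [hs0]
      exact lt_min (by positivity) (by positivity)
    have hs0d : s0 < d := by
      rw [hs0]
      exact (min_le_left _ _).trans_lt (by linarith)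
    have hs0v : s0 * ‖v‖ < ρ / 2 := by
      have h1 : s0 * (‖v‖ + 1) ≤ ρ / 2 := by
        rw [← le_div_iff₀ hv1, hs0]
        exact min_le_right _ _
      nlinarith
    have hlow : h (x + s0 • v) < b := by
      have h1 := hu x (by simpa using hd) v (by simpa using hd) s0 hs00 hs0d
      have h2 := mul_pos hc0 hs00
      linarith
    have h1 : ∀ᶠ y in 𝓝 (x + s0 • v), h y < b := hc.continuousAt.eventually_lt_const hlow
    obtain ⟨δ, hδ, hb⟩ := Metric.eventually_nhds_iff_ball.1 h1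
    have hm : 0 < min (min δ d) (ρ / 2) := lt_min (lt_min hδ hd) (by positivity)
    -- the common ball
    have hB : ball (x + s0 • v) (min δ (ρ / 2)) ⊆ {z | h z ≤ b} ∩ O := by
      intro z hz
      refine ⟨(hb z (ball_subset_ball (min_le_left _ _) hz)).le, hρO ?_⟩
      rw [mem_ball, dist_eq_norm] at hz ⊢
      have h2 : z - x = (z - (x + s0 • v)) + s0 • v := by abel
      rw [h2]
      refine (norm_add_le _ _).trans_lt ?_
      rw [norm_smul, Real.norm_of_nonneg hs00.le]
      have h3 := hz.trans_le (min_le_right δ (ρ / 2))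
      linarith
    have key : ∀ y ∈ ball x (min (min δ d) (ρ / 2)), h y ≤ b →
        Con ({z | h z ≤ b} ∩ O) y (x + s0 • v) := by
      intro y hy hyb
      rw [mem_ball, dist_eq_norm] at hy
      have hyδ := hy.trans_le ((min_le_left _ _).trans (min_le_left _ _))
      have hyd := hy.trans_le ((min_le_left _ _).trans (min_le_right _ _))
      have hyρ := hy.trans_le (min_le_right _ _)
      have hcs : Continuous fun s : ℝ => y + s • v := by fun_prop
      have hseg : Con ({z | h z ≤ b} ∩ O) y (y + s0 • v) := by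
        refine ⟨(fun s : ℝ => y + s • v) '' Icc (0 : ℝ) s0, ?_,
          isPreconnected_Icc.image _ hcs.continuousOn, ⟨0, ⟨le_rfl, hs00.le⟩, by simp⟩,
          ⟨s0, ⟨hs00.le, le_rfl⟩, rfl⟩⟩
        rintro z ⟨s, hs, rfl⟩
        refine ⟨?_, hρO ?_⟩
        · show h (y + s • v) ≤ b
          rcases hs.1.eq_or_lt with h2 | h2
          · rw [← h2, zero_smul, add_zero]
            exact hyb
          · have h3 := hu y hyd v (by simpa using hd) s h2 (hs.2.trans_lt hs0d)
            have h4 := mul_pos hc0 h2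
            linarith
        · rw [mem_ball, dist_eq_norm]
          have h2 : y + s • v - x = (y - x) + s • v := by abel
          rw [h2]
          refine (norm_add_le _ _).trans_lt ?_
          rw [norm_smul, Real.norm_of_nonneg hs.1]
          have h3 : s * ‖v‖ ≤ s0 * ‖v‖ := mul_le_mul_of_nonneg_right hs.2 (norm_nonneg v)
          linarith
      have hbl : Con ({z | h z ≤ b} ∩ O) (y + s0 • v) (x + s0 • v) := by
        refine ⟨ball (x + s0 • v) (min δ (ρ / 2)), hB, (convex_ball _ _).isPreconnected, ?_,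
          mem_ball_self (lt_min hδ (by positivity))⟩
        rw [mem_ball, dist_eq_norm]
        have e1 : y + s0 • v - (x + s0 • v) = y - x := by abel
        rw [e1]
        exact lt_min hyδ hyρ
      exact hseg.trans hbl
    refine ⟨ball x (min (min δ d) (ρ / 2)), ball_mem_nhds x hm, fun y hy hyb => ?_⟩
    exact (key x (mem_ball_self hm) hx.le).trans (key y hy hyb).symm

/-- The component of `x` in `{h ≤ b}` is clopen. PROOF. It is closed (`{h ≤ b}` is closed,
`IsClosed.connectedComponentIn`?). It is relatively open: if `h y < b` a ball about `y` is in the body; if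
`h y = b` let `v` be a descent direction (`Desc1.unif`): for `z` near `y` in the body the segment
`z + σ v`, `0 ≤ σ ≤ s`, is in the body and ends in a small ball about `y + s v`, which is in the body. -/
theorem comp_clp {h : ℂ → ℝ} (hc : Continuous h) {b : ℝ} (hr : TReg h b b) (x : ℂ) :
    Clp (connectedComponentIn {y | h y ≤ b} x) {y | h y ≤ b} := by
  refine Comp_clp (isClosed_le hc continuous_const) (fun z hz => ?_) x
  obtain ⟨U, hU, hj⟩ := Comp_local hc hr (x := z) hz univ_mem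
  exact ⟨U, hU, fun y hy hyb => (hj y hy hyb).mono inter_subset_left⟩

/-- The same for the slab between two regular levels. -/
theorem slab_clp {h : ℂ → ℝ} (hc : Continuous h) {a b : ℝ} (hab : a < b) (ha : TReg h a a)
    (hb : TReg h b b) (x : ℂ) :
    Clp (connectedComponentIn {y | a ≤ h y ∧ h y ≤ b} x) {y | a ≤ h y ∧ h y ≤ b} := by
  refine Comp_clp ((isClosed_le continuous_const hc).inter (isClosed_le hc continuous_const))
    (fun z hz => ?_) x
  have hz1 : a ≤ h z := hz.1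
  have hz2 : h z ≤ b := hz.2
  rcases hz1.lt_or_eq with h1 | h1
  · have hO : {y | a < h y} ∈ 𝓝 z := (isOpen_lt continuous_const hc).mem_nhds h1
    obtain ⟨U, hU, hj⟩ := Comp_local hc hb (x := z) hz2 hO
    exact ⟨U, hU, fun y hy hyb => (hj y hy hyb.2).mono fun w hw =>
      ⟨(show a < h w from hw.2).le, hw.1⟩⟩
  · have hO : {y | h y < b} ∈ 𝓝 z :=
      (isOpen_lt hc continuous_const).mem_nhds (show h z < b by rw [← h1]; exact hab)
    obtain ⟨U, hU, hj⟩ := Comp_local hc.neg ha.neg (x := z) (neg_le_neg hz1) hO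
    exact ⟨U, hU, fun y hy hyb => (hj y hy (neg_le_neg hyb.1)).mono fun w hw =>
      ⟨(neg_le_neg_iff.1 (show -h w ≤ -a from hw.1) : a ≤ h w), (show h w < b from hw.2).le⟩⟩

/-- From `comp_clp`. -/
theorem sep_of_not_con {h : ℂ → ℝ} (hc : Continuous h) {b : ℝ} (hr : TReg h b b) {x y : ℂ}
    (hx : h x ≤ b) (hn : ¬ Con {z | h z ≤ b} x y) :
    ∃ D, Clp D {z | h z ≤ b} ∧ x ∈ D ∧ y ∉ D :=
  ⟨_, comp_clp hc hr x, mem_connectedComponentIn hx, fun h1 => hn (Comp_con h1)⟩

/-- The clopen part can be chosen in the component. -/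
theorem comp_part {h : ℂ → ℝ} (hc : Continuous h) {b : ℝ} (hr : TReg h b b) {x : ℂ}
    (hx : h x ≤ b) : ∃ D, Clp D {z | h z ≤ b} ∧ x ∈ D ∧ ∀ y ∈ D, Con {z | h z ≤ b} x y :=
  ⟨_, comp_clp hc hr x, mem_connectedComponentIn hx, fun _ h1 => Comp_con h1⟩

theorem Tame.slab_bdd {h : ℂ → ℝ} {R lo hi : ℝ} (ht : Tame R lo hi h) {x : ℂ} (h1 : lo ≤ h x)
    (h2 : h x ≤ hi) : ‖x‖ < R := by
  by_contra h3
  rcases ht with ⟨c, hc⟩ | ⟨c, hc⟩
  · exact absurd h2 (not_le.2 (hc x (not_lt.1 h3)).2)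
  · exact absurd h1 (not_le.2 (hc x (not_lt.1 h3)).2)

end Pool.Schoen
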