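import Pool.Agent.H.MP_6c077c_gt.Ts.Comp
import Pool.Agent.H.MP_6c077c_gt.Ix.LiftA
import Pool.Agent.H.MP_6c077c_gt.Ts.CoreA

/-! Theorem TS: the core, first two cases. `D`, `u`, `u'` is a feature of `p`. -/

set_option autoImplicit false

namespace Pool.Schoen

open Filter Set Metric
open scoped Topology RealInnerProductSpace ContDiff

/-- Case N'. PROOF. `Wd p q R ∩ (D ×ˢ E)` is closed. It is relatively open: at `(x, y)` in it
`p x ≤ q y < a2 ≤ c` and `a0 < p x ≤ q y`; near `x` the points of `{p ≤ c}` are in `D`, near `y` the points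
of `{a0 ≤ q}` are in `E`. It contains `(u, e)` but not `(u', e)`. -/
theorem core_N' {p q : ℂ → ℝ} (cp : Continuous p) (cq : Continuous q) {R a0 a1 a2 c : ℝ}
    {D E : Set ℂ} {u u' e : ℂ} (hD : Clp D {x | p x ≤ c}) (hDa : ∀ x ∈ D, a0 < p x)
    (huD : u ∈ D) (hu'D : u' ∉ D) (hu : p u ≤ a1) (hu' : p u' ≤ a1) (nu : ‖u‖ ≤ R)
    (nu' : ‖u'‖ ≤ R) (ne : ‖e‖ ≤ R) (hE : Clp E {y | a0 ≤ q y}) (heE : e ∈ E) (hqe : a1 ≤ q e)
    (hE2 : ∀ y ∈ E, q y < a2) (h2c : a2 ≤ c) (hW : IsPreconnected (Wd p q R)) : False := by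
  have h1 : IsClosed (D ×ˢ E) := hD.2.1.prod hE.2.1
  have h2 : IsClosed ((({x | p x ≤ c} \ D) ×ˢ (univ : Set ℂ)) ∪
      ((univ : Set ℂ) ×ˢ {y | a2 ≤ q y}) ∪ ((univ : Set ℂ) ×ˢ ({y | a0 ≤ q y} \ E))) :=
    ((hD.2.2.prod isClosed_univ).union
      (isClosed_univ.prod (isClosed_le continuous_const cq))).union
      (isClosed_univ.prod hE.2.2)
  have h3 := (isPreconnected_iff_subset_of_disjoint_closed.1 hW) _ _ h1 h2 ?_ ?_
  · rcases h3 with h3 | h3
    · exact hu'D (h3 (show (u', e) ∈ Wd p q R from ⟨nu', ne, hu'.trans hqe⟩)).1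
    · rcases h3 (show (u, e) ∈ Wd p q R from ⟨nu, ne, hu.trans hqe⟩) with (h4 | h4) | h4
      · exact h4.1.2 huD
      · exact absurd (hE2 e heE) (not_lt.2 h4.2)
      · exact h4.2.2 heE
  · rintro ⟨x, y⟩ hz
    have hz' : p x ≤ q y := hz.2.2
    by_cases hx : x ∈ D
    · by_cases hy : y ∈ E
      · exact Or.inl ⟨hx, hy⟩
      · exact Or.inr (Or.inr ⟨mem_univ _, (hDa x hx).le.trans hz', hy⟩)
    · rcases le_or_gt (p x) c with h | h
      · exact Or.inr (Or.inl (Or.inl ⟨⟨h, hx⟩, mem_univ _⟩))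
      · exact Or.inr (Or.inl (Or.inr ⟨mem_univ _, h2c.trans (h.le.trans hz')⟩))
  · rw [Set.eq_empty_iff_forall_notMem]
    rintro ⟨x, y⟩ ⟨_, ⟨hx, hy⟩, (h4 | h4) | h4⟩
    · exact h4.1.2 hx
    · exact absurd (hE2 y hy) (not_lt.2 h4.2)
    · exact h4.2.2 hy

/-- Case M'. PROOF. `ψ : ℂ → [0, 1]` continuous, `0` on `E ∩ {c ≤ q}`, `1` on `{c ≤ q} \ E` (disjoint
closed sets, `E` clopen in `{a2 ≤ q} ⊇ {c ≤ q}`; Urysohn, `exists_continuous_zero_one_of_isClosed`).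
`θ (x, y) = exp (2 π i ψ y)` for `x ∈ D`, `1` for `x ∉ D`: continuous on `Wd p q R`: at `x ∈ D` with
`p x < c` the set `D` is a neighbourhood; at `x ∈ D` with `p x = c` one has `c ≤ q y`, `ψ y ∈ {0, 1}`,
`θ = 1`; at `x ∉ D` clear (`D` closed). Let `θ = exp (i v)`. On `{u} × T`, `T ⊆ {a1 ≤ q, ‖y‖ ≤ R}`
preconnected containing `e1`, `e2`, the function `v - 2 π ψ` has values in `2 π ℤ`, so it is constant;
`v (u, e2) - v (u, e1) = 2 π`. On `{u'} × T` and on `S × {e1}`, `S × {e2}`, `S ⊆ {p ≤ d, ‖x‖ ≤ R}`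
preconnected containing `u`, `u'`, `θ = 1`, so `v` is constant. Contradiction. -/
theorem core_M' {p q : ℂ → ℝ} (cp : Continuous p) (cq : Continuous q) {R a1 a2 c d : ℝ}
    {D E : Set ℂ} {u u' e1 e2 : ℂ} (hD : Clp D {x | p x ≤ c}) (huD : u ∈ D) (hu'D : u' ∉ D)
    (hu : p u ≤ a1) (hu' : p u' ≤ a1) (hS : Con {x | p x ≤ d ∧ ‖x‖ ≤ R} u u')
    (hE : Clp E {y | a2 ≤ q y}) (h1 : e1 ∈ E) (h2 : e2 ∉ E) (q1 : d ≤ q e1) (q2 : d ≤ q e2)
    (hT : Con {y | a1 ≤ q y ∧ ‖y‖ ≤ R} e1 e2) (h2c : a2 ≤ c) (hcd : c ≤ d)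
    (hW : LiftS (Wd p q R)) : False := by
  obtain ⟨K, hKs, hK, huK, huK'⟩ := hS
  obtain ⟨K', hKs', hK', heK, heK'⟩ := hT
  have nu : ‖u‖ ≤ R := (hKs huK).2
  have nu' : ‖u'‖ ≤ R := (hKs huK').2
  have ne1 : ‖e1‖ ≤ R := (hKs' heK).2
  have ne2 : ‖e2‖ ≤ R := (hKs' heK').2
  have hDc : ClopLe p c D := ⟨fun x hx => hD.1 hx, hD.2.1, hD.2.2⟩
  -- the function `ψ`
  obtain ⟨ψ, hψ0, hψ1, -⟩ := exists_continuous_zero_one_of_isClosed
    (s := {y | y ∈ E ∧ c ≤ q y}) (t := {y | c ≤ q y ∧ (a2 ≤ q y ∧ y ∉ E)})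
    (hE.2.1.inter (isClosed_le continuous_const cq))
    ((isClosed_le continuous_const cq).inter hE.2.2) (by
      rw [Set.disjoint_left]
      rintro y ⟨h1, _⟩ ⟨_, _, h2⟩
      exact h2 h1)
  have hψe : ψ e1 = 0 := hψ0 ⟨h1, hcd.trans q1⟩
  have hψe' : ψ e2 = 1 := hψ1 ⟨hcd.trans q2, h2c.trans (hcd.trans q2), h2⟩
  have hone : ∀ y, c ≤ q y → Complex.exp ((2 * Real.pi * ψ y : ℝ) * Complex.I) = 1 := by
    intro y hy
    by_cases h : y ∈ E
    · have h1 : ψ y = 0 := hψ0 ⟨h, hy⟩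
      rw [h1]
      simp
    · have h1 : ψ y = 1 := hψ1 ⟨hy, h2c.trans hy, h⟩
      rw [h1, mul_one]
      push_cast
      exact Complex.exp_two_pi_mul_I
  obtain ⟨g, hg⟩ : ∃ g : ℂ × ℂ → ℂ,
      g = fun z => Complex.exp ((2 * Real.pi * ψ z.2 : ℝ) * Complex.I) := ⟨_, rfl⟩
  have hgc : Continuous g := by
    rw [hg]
    fun_prop
  have hcont0 := coreMap_cont cp cq hDc (g := g) hgc.continuousOn (fun z _ hz => by
    rw [hg]
    exact hone z.2 hz)
  have hsub : Wd p q R ⊆ {z : ℂ × ℂ | p z.1 ≤ q z.2} := fun z hz => hz.2.2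
  have hcont : ContinuousOn (coreMap D g) (Wd p q R) := hcont0.mono hsub
  have hnorm : ∀ z ∈ Wd p q R, ‖coreMap D g z‖ = 1 := by
    intro z _
    by_cases h : z.1 ∈ D
    · rw [coreMap_pos g h, hg]
      exact Complex.norm_exp_ofReal_mul_I _
    · rw [coreMap_neg g h, norm_one]
  obtain ⟨v, hv, hvl⟩ := hW _ hcont hnorm
  have hWd : ∀ x y, x ∈ K → ‖y‖ ≤ R → d ≤ q y → (x, y) ∈ Wd p q R :=
    fun x y h h' h'' => ⟨(hKs h).2, h', (hKs h).1.trans h''⟩
  have hWa : ∀ x y, ‖x‖ ≤ R → p x ≤ a1 → y ∈ K' → (x, y) ∈ Wd p q R :=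
    fun x y h h' h'' => ⟨h, (hKs' h'').2, h'.trans (hKs' h'').1⟩
  -- the horizontal sides
  have hor : ∀ y, ‖y‖ ≤ R → d ≤ q y → v (u, y) = v (u', y) := by
    intro y ny hy
    refine Core_const hK (v := fun x => v (x, y)) ?_ ?_ huK huK'
    · exact hv.comp (by fun_prop : Continuous fun x : ℂ => (x, y)).continuousOn
        fun x hx => hWd x y hx ny hy
    · intro x hx
      show Complex.exp (v (x, y) * Complex.I) = 1
      rw [← hvl (x, y) (hWd x y hx ny hy)]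
      by_cases h : x ∈ D
      · rw [coreMap_pos g (z := (x, y)) h, hg]
        exact hone y (hcd.trans hy)
      · exact coreMap_neg g (z := (x, y)) h
  -- the trivial vertical side
  have ver : v (u', e1) = v (u', e2) := by
    refine Core_const hK' (v := fun y => v (u', y)) ?_ ?_ heK heK'
    · exact hv.comp (by fun_prop : Continuous fun y : ℂ => (u', y)).continuousOn
        fun y hy => hWa u' y nu' hu' hy
    · intro y hy
      show Complex.exp (v (u', y) * Complex.I) = 1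
      rw [← hvl (u', y) (hWa u' y nu' hu' hy)]
      exact coreMap_neg g (z := (u', y)) hu'D
  -- the nontrivial vertical side
  have ver' : v (u, e1) - 2 * Real.pi * ψ e1 = v (u, e2) - 2 * Real.pi * ψ e2 := by
    refine Core_const hK' (v := fun y => v (u, y) - 2 * Real.pi * ψ y) ?_ ?_ heK heK'
    · have h1 : ContinuousOn (fun y => v (u, y)) K' :=
        hv.comp (by fun_prop : Continuous fun y : ℂ => (u, y)).continuousOn
          fun y hy => hWa u y nu hu hy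
      have h2 : Continuous fun y : ℂ => 2 * Real.pi * ψ y := by fun_prop
      exact h1.sub h2.continuousOn
    · intro y hy
      have h1 := hvl (u, y) (hWa u y nu hu hy)
      rw [coreMap_pos g (z := (u, y)) huD, hg] at h1
      have h2 : ((v (u, y) - 2 * Real.pi * ψ y : ℝ) : ℂ) * Complex.I =
          v (u, y) * Complex.I - ((2 * Real.pi * ψ y : ℝ) : ℂ) * Complex.I := by
        push_cast
        ring
      show Complex.exp (((v (u, y) - 2 * Real.pi * ψ y : ℝ) : ℂ) * Complex.I) = 1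
      rw [h2, Complex.exp_sub, ← h1, div_self (Complex.exp_ne_zero _)]
  have e1 := hor e1 ne1 q1
  have e2 := hor e2 ne2 q2
  rw [hψe, hψe'] at ver'
  have := Real.pi_pos
  linarith

end Pool.Schoen
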