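import Pool.Agent.H.MP_6c077c_gt.Ts.Comp
import Pool.Agent.H.MP_6c077c_gt.Ts.Bk
import Pool.Agent.H.MP_6c077c_gt.Ts.CoreA

/-! Theorem TS: the core, the other two cases. `D`, `u`, `u'` is a feature of `p`. -/

set_option autoImplicit false

namespace Pool.Schoen

open Filter Set Metric
open scoped Topology RealInnerProductSpace ContDiff

private theorem Core2_clop {p : ℂ → ℝ} {c : ℝ} {D : Set ℂ} (hD : Clp D {x | p x ≤ c}) :
    ClopLe p c D :=
  ⟨fun _ hx => hD.1 hx, hD.2.1, hD.2.2⟩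

/-- The clopen part is open below. -/
private theorem Core2_open {p : ℂ → ℝ} (cp : Continuous p) {c e : ℝ} {D : Set ℂ}
    (hD : Clp D {x | p x ≤ c}) (hec : e ≤ c) : IsOpen (D ∩ {x | p x < e}) := by
  have h1 : D ∩ {x | p x < e} = {x | p x < e} ∩ ({x | p x ≤ c} \ D)ᶜ := by
    ext x
    constructor
    · rintro ⟨h1, h2⟩
      exact ⟨h2, fun h => h.2 h1⟩
    · rintro ⟨h1, h2⟩
      refine ⟨?_, h1⟩
      by_contra h3
      exact h2 ⟨(show p x < e from h1).le.trans hec, h3⟩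
  rw [h1]
  exact (isOpen_lt cp continuous_const).inter hD.2.2.isOpen_compl

/-- The rest is open below. -/
private theorem Core2_open' {p : ℂ → ℝ} (cp : Continuous p) {c e : ℝ} {D : Set ℂ}
    (hD : Clp D {x | p x ≤ c}) : IsOpen ({x | p x < e} \ D) :=
  (isOpen_lt cp continuous_const).sdiff hD.2.1

/-- The direction quotient is continuous away from the two points. -/
private theorem Core2_cont {m m' : ℂ} {S : Set (ℂ × ℂ)} (h : ∀ z ∈ S, z.2 ≠ m ∧ z.2 ≠ m')
    {v : ℂ → ℝ} (hv : Continuous v) :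
    ContinuousOn (fun z : ℂ × ℂ => un ((z.2 - m) / (z.2 - m')) * Complex.exp (-(v z.2 * Complex.I)))
      S := by
  have h1 : ContinuousOn (fun z : ℂ × ℂ => (z.2 - m) / (z.2 - m')) S := by
    refine ContinuousOn.div ?_ ?_ fun z hz => sub_ne_zero.2 (h z hz).2
    · exact (continuous_snd.sub continuous_const).continuousOn
    · exact (continuous_snd.sub continuous_const).continuousOn
  have h2 : ContinuousOn (fun z : ℂ × ℂ => un ((z.2 - m) / (z.2 - m'))) S :=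
    un_continuousOn.comp h1 fun z hz =>
      div_ne_zero (sub_ne_zero.2 (h z hz).1) (sub_ne_zero.2 (h z hz).2)
  have h3 : Continuous fun z : ℂ × ℂ => Complex.exp (-(v z.2 * Complex.I)) := by fun_prop
  exact h2.mul h3.continuousOn

/-- The lifting argument: the direction quotient of `m` and `m'` lifts on the slice over `u`. -/
private theorem Core2_slice {p q : ℂ → ℝ} (cp : Continuous p) (cq : Continuous q) {R a c : ℝ}
    {D : Set ℂ} {u m m' : ℂ} (hD : Clp D {x | p x ≤ c}) (hDa : ∀ x ∈ D, a < p x) (hu : u ∈ D)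
    (nu : ‖u‖ ≤ R) (hm : q m ≤ a) (hm' : q m' ≤ a) (hT : Con {y | q y < c} m m')
    (hW : LiftS (Wd p q R)) :
    Lifts ({y | q y < p u}ᶜ ∩ closedBall 0 R) (fun y => un ((y - m) / (y - m'))) := by
  obtain ⟨v, hv, hv1⟩ := borsuk1 (U := {y | q y < c}) (isOpen_lt cq continuous_const) hT
  have hne : ∀ y, a < q y → y ≠ m ∧ y ≠ m' := by
    intro y hy
    constructor
    · rintro rfl
      exact absurd hy (not_lt.2 hm)
    · rintro rfl
      exact absurd hy (not_lt.2 hm')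
  obtain ⟨g, hg⟩ : ∃ g : ℂ × ℂ → ℂ, g = fun z => un ((z.2 - m) / (z.2 - m')) *
      Complex.exp (-(v z.2 * Complex.I)) := ⟨_, rfl⟩
  have hin : ∀ z : ℂ × ℂ, p z.1 ≤ q z.2 → z.1 ∈ D → a < q z.2 := fun z h1 h2 =>
    (hDa z.1 h2).trans_le h1
  have hgc : ContinuousOn g ({z : ℂ × ℂ | p z.1 ≤ q z.2} ∩ {z | z.1 ∈ D}) := by
    rw [hg]
    exact Core2_cont (fun z hz => hne z.2 (hin z hz.1 hz.2)) hv
  have hcont := coreMap_cont cp cq (Core2_clop hD) hgc (fun z _ hz => by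
    have h1 : z.2 ∉ {y | q y < c} := not_lt.2 hz
    rw [hg]
    show un ((z.2 - m) / (z.2 - m')) * Complex.exp (-(v z.2 * Complex.I)) = 1
    rw [hv1 z.2 h1, ← Complex.exp_add, add_neg_cancel, Complex.exp_zero])
  have hsub : Wd p q R ⊆ {z : ℂ × ℂ | p z.1 ≤ q z.2} := fun z hz => hz.2.2
  have hnorm : ∀ z ∈ Wd p q R, ‖coreMap D g z‖ = 1 := by
    intro z hz
    by_cases h : z.1 ∈ D
    · rw [coreMap_pos g h, hg]
      show ‖un ((z.2 - m) / (z.2 - m')) * Complex.exp (-(v z.2 * Complex.I))‖ = 1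
      have h1 : -((v z.2 : ℂ) * Complex.I) = ((-v z.2 : ℝ) : ℂ) * Complex.I := by
        push_cast
        ring
      have h2 := hne z.2 (hin z (hsub hz) h)
      rw [norm_mul, norm_un (div_ne_zero (sub_ne_zero.2 h2.1) (sub_ne_zero.2 h2.2)), h1,
        Complex.norm_exp_ofReal_mul_I, one_mul]
    · rw [coreMap_neg g h, norm_one]
  obtain ⟨L, hLc, hLl⟩ := hW _ (hcont.mono hsub) hnorm
  have hmem : ∀ y ∈ {y | q y < p u}ᶜ ∩ closedBall (0 : ℂ) R, (u, y) ∈ Wd p q R := by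
    rintro y ⟨h1, h2⟩
    exact ⟨nu, by simpa using h2, not_lt.1 h1⟩
  refine ⟨fun y => L (u, y) + v y, ?_, fun y hy => ?_⟩
  · have h1 : ContinuousOn (fun y => L (u, y)) ({y | q y < p u}ᶜ ∩ closedBall (0 : ℂ) R) :=
      hLc.comp (by fun_prop : Continuous fun y : ℂ => (u, y)).continuousOn fun y hy => hmem y hy
    exact h1.add hv.continuousOn
  · have h1 := hLl (u, y) (hmem y hy)
    rw [coreMap_pos g (z := (u, y)) hu, hg] at h1
    have h1' : un ((y - m) / (y - m')) * Complex.exp (-(v y * Complex.I)) =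
        Complex.exp (L (u, y) * Complex.I) := h1
    have h2 : ((L (u, y) + v y : ℝ) : ℂ) * Complex.I = L (u, y) * Complex.I + v y * Complex.I := by
      push_cast
      ring
    show un ((y - m) / (y - m')) = Complex.exp (((L (u, y) + v y : ℝ) : ℂ) * Complex.I)
    rw [h2, Complex.exp_add, ← h1', mul_assoc, ← Complex.exp_add, neg_add_cancel, Complex.exp_zero,
      mul_one]

/-- Case N, in `Wd q p R` (points `(y, x)`, `q y ≤ p x`). PROOF. `v` from `borsuk1` with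
`U = {p < d}`, `m = u`, `m' = u'`. `θ (y, x) = un ((x - u) / (x - u')) * exp (-i v x)` for `y ∈ G`, `1`
for `y ∉ G`. For `y ∈ G` in the body `p x ≥ q y > a1 ≥ p u, p u'`, so `x ≠ u, u'`. Continuity: at
`y ∈ G` with `q y < d` the set `G` is a neighbourhood; if `q y = d` then `p x ≥ d`, so `θ = 1`. If `θ` lifts,
then on the slice `y = m` (`x` with `‖x‖ ≤ R`, `q m ≤ p x`, i.e. `U'ᶜ ∩ closedBall 0 R`, `U' = {p < q m}`)
`un ((x - u) / (x - u'))` lifts. As `q m ≤ a2 ≤ c`, `D ∩ U'` and `U' \ D` are open, `u ∈ D ∩ U'`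
(`p u ≤ a1 < q m`), `u' ∈ U' \ D`: contradiction to `borsuk2`. -/
theorem core_N {p q : ℂ → ℝ} (cp : Continuous p) (cq : Continuous q) {R a1 a2 c d : ℝ}
    {D G : Set ℂ} {u u' m : ℂ} (hD : Clp D {x | p x ≤ c}) (hDR : D ⊆ ball 0 R) (huD : u ∈ D)
    (hu'D : u' ∉ D) (hu : p u ≤ a1) (hu' : p u' ≤ a1) (hS : Con {x | p x < d} u u')
    (hG : Clp G {y | q y ≤ d}) (hm : m ∈ G) (hm2 : q m ≤ a2) (hG1 : ∀ y ∈ G, a1 < q y)
    (nm : ‖m‖ ≤ R) (h2c : a2 ≤ c) (hV : LiftS (Wd q p R)) : False := by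
  have h1 := Core2_slice cq cp hG hG1 hm nm hu hu' hS hV
  have hqm := hG1 m hm
  have h2 : {x | p x < q m} \ (D ∩ {x | p x < q m}) = {x | p x < q m} \ D := by
    ext x
    constructor
    · rintro ⟨h1, h2⟩
      exact ⟨h1, fun h => h2 ⟨h, h1⟩⟩
    · rintro ⟨h1, h2⟩
      exact ⟨h1, fun h => h2 h.1⟩
  refine borsuk2 (U := {x | p x < q m}) (D := D ∩ {x | p x < q m}) (R := R) (m := u) (m' := u')
    (Core2_open cp hD (hm2.trans h2c)) inter_subset_right ?_ (inter_subset_left.trans hDR)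
    ⟨huD, hu.trans_lt hqm⟩ (hu'.trans_lt hqm) (fun h => hu'D h.1) h1
  rw [h2]
  exact Core2_open' cp hD

/-- Case M. PROOF. `v` from `borsuk1` with `U = {q < c}`, `m1`, `m2`. `θ (x, y) =
un ((y - m1) / (y - m2)) * exp (-i v y)` for `x ∈ D`, `1` for `x ∉ D`, on `Wd p q R`. For `x ∈ D`:
`q y ≥ p x > a0 ≥ q m1, q m2`. Continuity: at `x ∈ D`, `p x < c` clear; if `p x = c` then `q y ≥ c`, `θ = 1`.
The slice `x = u`: `{‖y‖ ≤ R, p u ≤ q y} = U'ᶜ ∩ closedBall 0 R`, `U' = {q < p u}`, `p u ≤ a1`, so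
`E ∩ U'` and `U' \ E` are open, `m1 ∈ E ∩ U'`, `m2 ∈ U' \ E`, one of them is in `ball 0 R`
(`hb`): `borsuk2` (if it is `U' \ E`, with `m2`, `m1` exchanged: `un` of the inverse, `-v`). -/
theorem core_M {p q : ℂ → ℝ} (cp : Continuous p) (cq : Continuous q) {R a0 a1 c : ℝ}
    {D E : Set ℂ} {u m1 m2 : ℂ} (hD : Clp D {x | p x ≤ c}) (hDa : ∀ x ∈ D, a0 < p x)
    (huD : u ∈ D) (hu : p u ≤ a1) (nu : ‖u‖ ≤ R) (hE : Clp E {y | q y ≤ a1}) (h1 : m1 ∈ E)
    (h2 : m2 ∉ E) (q1 : q m1 ≤ a0) (q2 : q m2 ≤ a0) (hT : Con {y | q y < c} m1 m2)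
    (hb : E ⊆ ball 0 R ∨ {y | q y ≤ a1} \ E ⊆ ball 0 R) (hW : LiftS (Wd p q R)) : False := by
  have hpu := hDa u huD
  rcases hb with hb | hb
  · have h3 := Core2_slice cp cq hD hDa huD nu q1 q2 hT hW
    have h4 : {x | q x < p u} \ (E ∩ {x | q x < p u}) = {x | q x < p u} \ E := by
      ext x
      constructor
      · rintro ⟨h1, h2⟩
        exact ⟨h1, fun h => h2 ⟨h, h1⟩⟩
      · rintro ⟨h1, h2⟩
        exact ⟨h1, fun h => h2 h.1⟩
    refine borsuk2 (U := {x | q x < p u}) (D := E ∩ {x | q x < p u}) (R := R) (m := m1) (m' := m2)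
      (Core2_open cq hE hu) inter_subset_right ?_ (inter_subset_left.trans hb)
      ⟨h1, q1.trans_lt hpu⟩ (q2.trans_lt hpu) (fun h => h2 h.1) h3
    rw [h4]
    exact Core2_open' cq hE
  · have h3 := Core2_slice cp cq hD hDa huD nu q2 q1 hT.symm hW
    have h4 : {x | q x < p u} \ ({x | q x < p u} \ E) = E ∩ {x | q x < p u} := by
      rw [sdiff_sdiff_right_self]
      exact inter_comm _ _
    refine borsuk2 (U := {x | q x < p u}) (D := {x | q x < p u} \ E) (R := R) (m := m2) (m' := m1)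
      (Core2_open' cq hE) sdiff_subset ?_ (fun x hx => hb ⟨?_, hx.2⟩)
      ⟨q2.trans_lt hpu, h2⟩ (q1.trans_lt hpu) (fun h => h.2 h1) h3
    · rw [h4]
      exact Core2_open cq hE hu
    · exact (show q x < p u from hx.1).le.trans hu

end Pool.Schoen
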