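import Pool.Agent.H.MP_6c077c_gt.Ts.Comp

/-! Theorem TS: extension lemmas for births and mergers, or a shorter feature. -/

set_option autoImplicit false

namespace Pool.Schoen

open Filter Set Metric
open scoped Topology RealInnerProductSpace ContDiff

private theorem ext_mono (s : ℕ → ℝ) {n : ℕ} (hs : ∀ i < n, s i < s (i + 1)) {i j : ℕ}
    (hij : i ≤ j) (hj : j ≤ n) : s i ≤ s j := by
  induction j, hij using Nat.le_induction with
  | base => exact le_rfl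
  | succ k _ ih => exact (ih (by omega)).trans (hs k (by omega)).le

private theorem ext_sub (h : ℂ → ℝ) {a b : ℝ} (hab : a ≤ b) :
    {x : ℂ | h x ≤ a} ⊆ {x | h x ≤ b} := fun _ hx => le_trans hx hab

/-- PROOF. If no point joined to `m` in `{h ≤ s n}` has `h ≤ s 0`: the clopen component (`comp_part`).
Otherwise let `j` be minimal such that some `y`, joined to `m` in `{h ≤ s j}`, has `h y ≤ s 0`; `j ≥ 2`;
`i = j - 1`: `D` the component of `m` in `{h ≤ s i}` (`comp_part`), `u = m`, `u' = y`. -/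
theorem ext_birth {h : ℂ → ℝ} (hc : Continuous h) (s : ℕ → ℝ) {n : ℕ} (hn : 1 ≤ n)
    (hs : ∀ i < n, s i < s (i + 1)) (hr : ∀ i ≤ n, TReg h (s i) (s i)) {m : ℂ}
    (hm1 : h m ≤ s 1) (hE : ∀ y, Con {x | h x ≤ s 1} m y → s 0 < h y) :
    (∃ E, Clp E {x | h x ≤ s n} ∧ m ∈ E ∧ ∀ y ∈ E, s 0 < h y) ∨
      ∃ i, 1 ≤ i ∧ i < n ∧ Feat h (s 0) (s 1) (s i) (s (i + 1)) := by
  classical
  by_cases hP : ∃ y, Con {x | h x ≤ s n} m y ∧ h y ≤ s 0
  · right
    have hex : ∃ j, ∃ y, Con {x | h x ≤ s j} m y ∧ h y ≤ s 0 := ⟨n, hP⟩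
    obtain ⟨y, hy, hy0⟩ := Nat.find_spec hex
    have hjn : Nat.find hex ≤ n := Nat.find_min' hex hP
    have hmin : ∀ k < Nat.find hex, ¬ ∃ y, Con {x | h x ≤ s k} m y ∧ h y ≤ s 0 :=
      fun k hk => Nat.find_min hex hk
    generalize Nat.find hex = j at hy hjn hmin
    have h01 : s 0 < s 1 := hs 0 (by omega)
    have hj2 : 2 ≤ j := by
      by_contra hlt
      have hj1 : j ≤ 1 := by omega
      have hy1 : Con {x | h x ≤ s 1} m y := hy.mono (ext_sub h (ext_mono s hs hj1 hn))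
      exact absurd (hE y hy1) (not_lt.mpr hy0)
    obtain ⟨i, rfl⟩ : ∃ i, j = i + 1 := ⟨j - 1, by omega⟩
    have hi1 : 1 ≤ i := by omega
    have hin : i ≤ n := by omega
    have hmi : h m ≤ s i := hm1.trans (ext_mono s hs hi1 hin)
    obtain ⟨D, hD, hmD, hDc⟩ := comp_part hc (hr i hin) hmi
    have hpos : ∀ z ∈ D, s 0 < h z := by
      intro z hz
      by_contra hcon
      exact hmin i (by omega) ⟨z, hDc z hz, not_lt.mp hcon⟩
    exact ⟨i, hi1, by omega, D, m, y, hD, hpos, hmD,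
      fun hyD => absurd (hpos y hyD) (not_lt.mpr hy0), hm1, hy0.trans h01.le, hy⟩
  · left
    obtain ⟨D, hD, hmD, hDc⟩ := comp_part hc (hr n le_rfl) (hm1.trans (ext_mono s hs hn le_rfl))
    refine ⟨D, hD, hmD, fun z hz => ?_⟩
    by_contra hcon
    exact hP ⟨z, hDc z hz, not_lt.mp hcon⟩

private theorem ext_feat {h : ℂ → ℝ} (hc : Continuous h) (s : ℕ → ℝ) {n : ℕ}
    (hr : TReg h (s n) (s n)) {x x' : ℂ}
    (hx : h x ≤ s n) (h1 : ¬ Con {y | h y ≤ s n} x x')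
    (hs : s n ≤ s (n + 1)) (h2 : Con {y | h y ≤ s (n + 1)} x x') {i : ℕ}
    (hmin : ∀ y, Con {z | h z ≤ s n} x y → s i < h y) {y y' : ℂ}
    (hy : Con {z | h z ≤ s n} x y) (hyi : h y ≤ s (i + 1))
    (hy' : Con {z | h z ≤ s n} x' y') (hyi' : h y' ≤ s (i + 1)) :
    Feat h (s i) (s (i + 1)) (s n) (s (n + 1)) := by
  obtain ⟨D, hD, hxD, hDc⟩ := comp_part hc hr hx
  refine ⟨D, y, y', hD, fun z hz => hmin z (hDc z hz), hD.con hxD hy,
    fun hy'D => h1 ((hDc y' hy'D).trans hy'.symm), hyi, hyi', ?_⟩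
  exact ((hy.symm.mono (ext_sub h hs)).trans h2).trans (hy'.mono (ext_sub h hs))

/-- PROOF. For `z ∈ {x, x'}` let `b z` be the least `i ≤ n` such that some `y` joined to `z` in
`{h ≤ s n}` has `h y ≤ s i`. If both are `0`: the first alternative. Else let `z` be the one with the
larger `b z = i + 1` (the younger), `z'` the other one, `y`, `y'` the points: `D` = the component of `z` in
`{h ≤ s n}` (all its points have `h > s i`), `u = y`, `u' = y'` (`h y' ≤ s (b z') ≤ s (i + 1)`). -/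
theorem ext_merge {h : ℂ → ℝ} (hc : Continuous h) (s : ℕ → ℝ) {n : ℕ}
    (hs : ∀ i < n + 1, s i < s (i + 1)) (hr : ∀ i ≤ n + 1, TReg h (s i) (s i)) {x x' : ℂ}
    (hx : h x ≤ s n) (hx' : h x' ≤ s n) (h1 : ¬ Con {y | h y ≤ s n} x x')
    (h2 : Con {y | h y ≤ s (n + 1)} x x') :
    (∃ y y', h y ≤ s 0 ∧ h y' ≤ s 0 ∧ ¬ Con {z | h z ≤ s n} y y' ∧
      Con {z | h z ≤ s (n + 1)} y y') ∨
      ∃ i, i < n ∧ Feat h (s i) (s (i + 1)) (s n) (s (n + 1)) := by
  classical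
  have hsn : s n ≤ s (n + 1) := (hs n (Nat.lt_succ_self n)).le
  have hm : ∀ i j, i ≤ j → j ≤ n + 1 → s i ≤ s j := fun i j hij hj => ext_mono s hs hij hj
  have key : ∀ z : ℂ, h z ≤ s n → ∃ b ≤ n, (∃ y, Con {w | h w ≤ s n} z y ∧ h y ≤ s b) ∧
      ∀ k < b, ∀ y, Con {w | h w ≤ s n} z y → s k < h y := by
    intro z hz
    have hex : ∃ b, ∃ y, Con {w | h w ≤ s n} z y ∧ h y ≤ s b := ⟨n, z, Con.refl hz, hz⟩
    refine ⟨Nat.find hex, Nat.find_min' hex ⟨z, Con.refl hz, hz⟩, Nat.find_spec hex, ?_⟩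
    intro k hk y hy
    by_contra hcon
    exact Nat.find_min hex hk ⟨y, hy, not_lt.mp hcon⟩
  obtain ⟨b, hb, ⟨y, hy, hyb⟩, hbm⟩ := key x hx
  obtain ⟨b', hb', ⟨y', hy', hyb'⟩, hbm'⟩ := key x' hx'
  have hR : TReg h (s n) (s n) := hr n (Nat.le_succ n)
  rcases Nat.eq_zero_or_pos (max b b') with h0 | h0
  · left
    have hb0 : b = 0 := by omega
    have hb0' : b' = 0 := by omega
    subst hb0 hb0'
    refine ⟨y, y', hyb, hyb', fun hcon => h1 ((hy.trans hcon).trans hy'.symm), ?_⟩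
    exact ((hy.symm.mono (ext_sub h hsn)).trans h2).trans (hy'.mono (ext_sub h hsn))
  · right
    rcases le_total b' b with hbb | hbb
    · obtain ⟨i, rfl⟩ : ∃ i, b = i + 1 := ⟨b - 1, by omega⟩
      exact ⟨i, by omega, ext_feat hc s hR hx h1 hsn h2 (hbm i (by omega)) hy hyb hy'
        (hyb'.trans (hm _ _ hbb (by omega)))⟩
    · obtain ⟨i, rfl⟩ : ∃ i, b' = i + 1 := ⟨b' - 1, by omega⟩
      exact ⟨i, by omega, ext_feat hc s hR hx' (fun hcon => h1 hcon.symm) hsn h2.symm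
        (hbm' i (by omega)) hy' hyb' hy (hyb.trans (hm _ _ hbb (by omega)))⟩

end Pool.Schoen
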