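import Pool.Agent.H.MP_6c077c_gt.Ts.SysB
import Pool.Agent.H.MP_6c077c_gt.Ts.Ext
import Pool.Agent.H.MP_6c077c_gt.Ts.Core1
import Pool.Agent.H.MP_6c077c_gt.Ts.Core2

/-! Theorem TS: the cases N' and M' of the core. `D`, `u`, `u'` is a feature of `p` in the intervals `k`, `l`. -/

set_option autoImplicit false

namespace Pool.Schoen

open Filter Set Metric
open scoped Topology RealInnerProductSpace ContDiff

private theorem coreL_set (q : ℂ → ℝ) (b : ℝ) : {y : ℂ | -q y ≤ -b} = {y | b ≤ q y} := by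
  ext y
  show -q y ≤ -b ↔ b ≤ q y
  exact neg_le_neg_iff

private theorem coreL_rt_notMem {D : Set ℂ} {R : ℝ} (hR : 0 < R) (hDb : D ⊆ ball 0 R) {u' : ℂ}
    (hu' : u' ∉ D) : rt R u' ∉ D := by
  intro h
  have h1 := hDb h
  rw [mem_ball_zero_iff] at h1
  rcases le_total ‖u'‖ R with h2 | h2
  · rw [rt_of_le h2] at h
    exact hu' h
  · rw [rt_norm_of_ge hR h2] at h1
    exact lt_irrefl _ h1

/-- PROOF. `e ∈ E`; `E'` the part of `{t k ≤ q}` for `e` (`comp_part` for `-q`). `q < t (k + 2)` on `E'`: if `y ∈ E'`,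
`t (k + 2) ≤ q y` then `e`, `y` are joined in `{t k ≤ q}`, so in `{t (k + 1) ≤ q}` (`con_push` for `-q` on the
interval `k`, on which `q` is regular), so `y ∈ E`, contradiction. `core_N'` with `a0 = t k`, `a1 = t (k + 1)`,
`a2 = t (k + 2)`, `c = t l`, `E'`, and with `rt R u'` in place of `u'` (`p (rt R u') ≤ t (k + 1)`; it is not in `D`:
`D ⊆ ball 0 R` by `part_ball_ts`). -/
theorem coreL_birth {p q : ℂ → ℝ} {t : ℕ → ℝ} {N : ℕ} {R : ℝ} (S : Sys p q t N R) (hR : 0 < R)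
    {k l : ℕ} (hkl : k + 2 ≤ l) (hl : l < N) {D : Set ℂ} {u u' : ℂ}
    (hD : Clp D {x | p x ≤ t l}) (hDa : ∀ x ∈ D, t k < p x) (hu : u ∈ D) (hu' : u' ∉ D)
    (pu : p u ≤ t (k + 1)) (pu' : p u' ≤ t (k + 1)) (hS : Con {x | p x ≤ t (l + 1)} u u')
    (hq : TReg q (t k) (t (k + 1))) {E : Set ℂ} (hn : E.Nonempty)
    (hE : Clp E {x | t (k + 1) ≤ q x}) (hEa : ∀ x ∈ E, q x < t (k + 2)) : False := by
  obtain ⟨e, he⟩ := hn
  have h0k : t 0 ≤ t k := lev_le S.mono (Nat.zero_le k) (by omega)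
  have hk1 : t k < t (k + 1) := S.mono k (by omega)
  have hk2 : t (k + 1) < t (k + 2) := S.mono (k + 1) (by omega)
  have hk1N : t (k + 1) ≤ t N := lev_le S.mono (by omega) le_rfl
  have hk2N : t (k + 2) ≤ t N := lev_le S.mono (by omega) le_rfl
  have hk2l : t (k + 2) ≤ t l := lev_le S.mono hkl (by omega)
  have hqe : t (k + 1) ≤ q e := hE.1 he
  have hqc : Continuous fun x => -q x := S.cq.neg
  -- the part of `{t k ≤ q}`
  obtain ⟨E', hE', heE', hEc⟩ := comp_part hqc (S.regq k (by omega)).neg (x := e)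
    (neg_le_neg (hk1.le.trans hqe))
  rw [coreL_set] at hE' hEc
  have hE2 : ∀ y ∈ E', q y < t (k + 2) := by
    intro y hy
    by_contra hcon
    push Not at hcon
    have h1 : Con {z | -q z ≤ -t k} e y := by
      rw [coreL_set]
      exact hEc y hy
    have h2 := con_push hqc S.tq.neg (neg_le_neg hk1.le) (neg_le_neg hk1N) (neg_le_neg h0k) hq.neg
      (neg_le_neg hqe) (neg_le_neg (hk2.le.trans hcon)) h1
    rw [coreL_set] at h2
    exact absurd (hEa y (hE.con he h2)) (not_lt.2 hcon)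
  have hDb : D ⊆ ball 0 R := part_ball_ts S.tp h0k (lev_le S.mono hl.le le_rfl) hD.1 hDa
  obtain ⟨T, hT, -, -, hrT⟩ := rt_join S.tp (h0k.trans hk1.le) hk1N hR pu'
  refine core_N' S.cp S.cq hD hDa hu (coreL_rt_notMem hR hDb hu') pu (hT hrT) ?_
    (norm_rt_le hR u') ?_ hE' heE' hqe hE2 hk2l S.conW
  · exact (mem_ball_zero_iff.1 (hDb hu)).le
  · exact (S.tq.slab_bdd (h0k.trans (hk1.le.trans hqe)) ((hEa e he).le.trans hk2N)).le

/-- PROOF. `ext_merge` for `-q`, `s i = -t (l + 1 - i)`, `n = l - k - 1`. Either a feature of `-q` in the intervals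
`k' = k + 1`, `l' = l - i`, `i < n`: excluded by `min`. Or `y`, `y'` with `t (l + 1) ≤ q y, q y'`, not joined in
`{t (k + 2) ≤ q}`, joined in `{t (k + 1) ≤ q}`: `core_M'` with `a1 = t (k + 1)`, `a2 = t (k + 2)`, `c = t l`,
`d = t (l + 1)`, `e1 = rt R y`, `e2 = rt R y'` (`rt_join`, `con_ball` for `-q`), `E` from `comp_part` (for `-q`) for
`e1`; `rt R u'` in place of `u'` (`con_ball`; `rt R u = u`). -/
theorem coreL_merge {p q : ℂ → ℝ} {t : ℕ → ℝ} {N : ℕ} {R : ℝ} (S : Sys p q t N R) (hR : 0 < R)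
    {k l : ℕ} (hkl : k + 2 ≤ l) (hl : l < N) {D : Set ℂ} {u u' : ℂ}
    (hD : Clp D {x | p x ≤ t l}) (hDa : ∀ x ∈ D, t k < p x) (hu : u ∈ D) (hu' : u' ∉ D)
    (pu : p u ≤ t (k + 1)) (pu' : p u' ≤ t (k + 1)) (hS : Con {x | p x ≤ t (l + 1)} u u')
    (hq : TReg q (t k) (t (k + 1)))
    (min : ∀ k' l', k' < l' → l' < N → l' - k' < l - k → ¬ AnyF p q t k' l')
    {e1 e2 : ℂ} (h1 : t (k + 2) ≤ q e1) (h2 : t (k + 2) ≤ q e2)
    (h3 : ¬ Con {y | t (k + 2) ≤ q y} e1 e2) (h4 : Con {y | t (k + 1) ≤ q y} e1 e2) : False := by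
  have h0k : t 0 ≤ t k := lev_le S.mono (Nat.zero_le k) (by omega)
  have hk1 : t k < t (k + 1) := S.mono k (by omega)
  have hk2 : t (k + 1) < t (k + 2) := S.mono (k + 1) (by omega)
  have hk1N : t (k + 1) ≤ t N := lev_le S.mono (by omega) le_rfl
  have hk2N : t (k + 2) ≤ t N := lev_le S.mono (by omega) le_rfl
  have hk2l : t (k + 2) ≤ t l := lev_le S.mono hkl (by omega)
  have hll : t l ≤ t (l + 1) := (S.mono l hl).le
  have hlN : t (l + 1) ≤ t N := lev_le S.mono hl le_rfl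
  have h0l : t 0 ≤ t (l + 1) := lev_le S.mono (Nat.zero_le _) hl
  have hqc : Continuous fun x => -q x := S.cq.neg
  have i1 : l + 1 - (l - k - 1) = k + 2 := by omega
  have i2 : l + 1 - (l - k - 1 + 1) = k + 1 := by omega
  have hex := ext_merge hqc (fun i => -t (l + 1 - i)) (n := l - k - 1)
    (fun i hi => by
      have e : l + 1 - i = l + 1 - (i + 1) + 1 := by omega
      show -t (l + 1 - i) < -t (l + 1 - (i + 1))
      rw [e]
      exact neg_lt_neg (S.mono _ (by omega)))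
    (fun i hi => (S.regq (l + 1 - i) (by omega)).neg) (x := e1) (x' := e2)
    (by
      show -q e1 ≤ -t (l + 1 - (l - k - 1))
      rw [i1]
      exact neg_le_neg h1)
    (by
      show -q e2 ≤ -t (l + 1 - (l - k - 1))
      rw [i1]
      exact neg_le_neg h2)
    (by
      show ¬ Con {y | -q y ≤ -t (l + 1 - (l - k - 1))} e1 e2
      rw [i1, coreL_set]
      exact h3)
    (by
      show Con {y | -q y ≤ -t (l + 1 - (l - k - 1 + 1))} e1 e2
      rw [i2, coreL_set]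
      exact h4)
  rcases hex with ⟨y, y', hy, hy', hn, hc⟩ | ⟨i, hi, hF⟩
  · have hy1 : -q y ≤ -t (l + 1) := hy
    have hy1' : -q y' ≤ -t (l + 1) := hy'
    have hn1 : ¬ Con {z | -q z ≤ -t (k + 2)} y y' := by
      rw [← i1]
      exact hn
    have hc1 : Con {z | -q z ≤ -t (k + 1)} y y' := by
      rw [← i2]
      exact hc
    have hj := rt_join S.tq.neg (neg_le_neg hlN) (neg_le_neg h0l) hR hy1
    have hj' := rt_join S.tq.neg (neg_le_neg hlN) (neg_le_neg h0l) hR hy1'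
    have hry : -q (rt R y) ≤ -t (l + 1) := by
      obtain ⟨T, hT, -, -, h⟩ := hj
      exact hT h
    have hry' : -q (rt R y') ≤ -t (l + 1) := by
      obtain ⟨T, hT, -, -, h⟩ := hj'
      exact hT h
    have hsub : {z : ℂ | -q z ≤ -t (l + 1)} ⊆ {z | -q z ≤ -t (k + 2)} :=
      fun z hz => le_trans hz (neg_le_neg (hk2l.trans hll))
    obtain ⟨E, hE, hrE, hEc⟩ := comp_part hqc (S.regq (k + 2) (by omega)).neg (x := rt R y)
      (hsub hry)
    have hrE' : rt R y' ∉ E := fun h => hn1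
      (((hj.mono hsub).trans (hEc _ h)).trans (hj'.mono hsub).symm)
    rw [coreL_set] at hE
    have hDb : D ⊆ ball 0 R := part_ball_ts S.tp h0k (lev_le S.mono hl.le le_rfl) hD.1 hDa
    have hub : ‖u‖ ≤ R := (mem_ball_zero_iff.1 (hDb hu)).le
    obtain ⟨T, hT, -, -, hrT⟩ := rt_join S.tp (h0k.trans hk1.le) hk1N hR pu'
    have hS1 : Con {x | p x ≤ t (l + 1) ∧ ‖x‖ ≤ R} u (rt R u') := by
      have h5 := con_ball S.tp h0l hlN hR hS
      rwa [rt_of_le hub] at h5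
    have hT1 : Con {z | t (k + 1) ≤ q z ∧ ‖z‖ ≤ R} (rt R y) (rt R y') := by
      have h5 := con_ball S.tq.neg (neg_le_neg hk1N) (neg_le_neg (h0k.trans hk1.le)) hR hc1
      refine h5.mono fun z hz => ⟨?_, hz.2⟩
      have h6 : -q z ≤ -t (k + 1) := hz.1
      exact neg_le_neg_iff.1 h6
    exact core_M' S.cp S.cq hD hu (coreL_rt_notMem hR hDb hu') pu (hT hrT) hS1 hE hrE hrE'
      (neg_le_neg_iff.1 hry) (neg_le_neg_iff.1 hry') hT1 hk2l hll S.lftW
  · refine min (k + 1) (l - i) (by omega) (by omega) (by omega) (Or.inr (Or.inr (Or.inr ?_)))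
    have j1 : l - i + 1 = l + 1 - i := by omega
    have j2 : l - i = l + 1 - (i + 1) := by omega
    have hF1 : Feat (fun x => -q x) (-t (l + 1 - i)) (-t (l + 1 - (i + 1)))
        (-t (l + 1 - (l - k - 1))) (-t (l + 1 - (l - k - 1 + 1))) := hF
    rw [i1, i2, ← j1, ← j2] at hF1
    exact hF1

end Pool.Schoen
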