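import Pool.Agent.H.MP_6c077c_gt.Ts.CoreU
import Pool.Agent.H.MP_6c077c_gt.Ts.CoreL

/-! Theorem TS: the core. -/

set_option autoImplicit false

namespace Pool.Schoen

open Filter Set Metric
open scoped Topology RealInnerProductSpace ContDiff

/-- A shortest feature cannot be one of `p`. PROOF. `p` is not regular on the interval `k`: `D ∩ {p ≤ t (k + 1)}` is
clopen in `{p ≤ t (k + 1)}` (`Clp.inter`), contains `u`, `t k < p` on it: `no_birth`. So `q` is regular on the
interval `k` (`kind`), so not on the interval `k + 1` (`altq`), so `Chg q (t (k + 1)) (t (k + 2))` and `p` is regular on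
it. `p` is not regular on the interval `l`: otherwise `u`, `u'` are joined in `{p ≤ t l}` (`con_push`) and
`u' ∈ D`. So `l ≠ k + 1`, `k + 2 ≤ l`. The four alternatives of `Chg`: `coreU_birth`, `coreU_merge`,
`coreL_birth`, `coreL_merge`. -/
theorem core {p q : ℂ → ℝ} {t : ℕ → ℝ} {N : ℕ} {R : ℝ} (S : Sys p q t N R) (hR : 0 < R)
    {k l : ℕ} (hkl : k < l) (hl : l < N) (hf : Feat p (t k) (t (k + 1)) (t l) (t (l + 1)))
    (min : ∀ k' l', k' < l' → l' < N → l' - k' < l - k → ¬ AnyF p q t k' l') : False := by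
  obtain ⟨D, u, u', hD, hDa, hu, hu', pu, pu', hS⟩ := hf
  have e0 : t 0 ≤ t k := lev_le S.mono (Nat.zero_le k) (by omega)
  have e1 : t (k + 1) ≤ t N := lev_le S.mono (by omega) le_rfl
  have e2 : t (k + 1) ≤ t l := lev_le S.mono (by omega) (by omega)
  have e3 : t 0 ≤ t l := lev_le S.mono (Nat.zero_le l) (by omega)
  have e4 : t (l + 1) ≤ t N := lev_le S.mono (by omega) le_rfl
  have e5 : t l ≤ t (l + 1) := (S.mono l hl).le
  -- `p` is not regular on the interval `k`
  have n1 : ¬ TReg p (t k) (t (k + 1)) := by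
    intro hr
    have h1 : Clp (D ∩ {x | p x ≤ t (k + 1)}) {x | p x ≤ t (k + 1)} :=
      hD.inter (isClosed_le S.cp continuous_const) fun x hx => le_trans hx e2
    have h2 := no_birth S.cp S.tp e0 e1 hr h1 fun x hx => hDa x hx.1
    have h3 : u ∈ D ∩ {x | p x ≤ t (k + 1)} := ⟨hu, pu⟩
    rw [h2] at h3
    exact h3
  have hq : TReg q (t k) (t (k + 1)) := by
    rcases S.kind k (by omega) with h | h
    · exact absurd h.1 n1
    · exact h.1
  obtain ⟨hp1, hch⟩ : TReg p (t (k + 1)) (t (k + 2)) ∧ Chg q (t (k + 1)) (t (k + 2)) := by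
    rcases S.kind (k + 1) (by omega) with h | h
    · exact h
    · exact absurd ⟨hq, h.1⟩ (S.altq k (by omega))
  -- `p` is not regular on the interval `l`
  have n2 : ¬ TReg p (t l) (t (l + 1)) := by
    intro hr
    have h1 := con_push S.cp S.tp e5 e3 e4 hr (pu.trans e2) (pu'.trans e2) hS
    exact hu' (hD.con hu h1)
  have hkl2 : k + 2 ≤ l := by
    by_contra hc
    have h1 : l = k + 1 := by omega
    subst h1
    exact n2 hp1
  rcases hch with ⟨E, hn, hE, hEa⟩ | ⟨x, x', h1, h2, h3, h4⟩ | ⟨E, hn, hE, hEa⟩ |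
    ⟨x, x', h1, h2, h3, h4⟩
  · exact coreU_birth S hR hkl2 hl hD hDa hu hu' pu pu' hS hq min hn hE hEa
  · exact coreU_merge S hR hkl2 hl hD hDa hu hu' pu pu' hS hq h1 h2 h3 h4
  · exact coreL_birth S hR hkl2 hl hD hDa hu hu' pu pu' hS hq hn hE hEa
  · exact coreL_merge S hR hkl2 hl hD hDa hu hu' pu pu' hS hq min h1 h2 h3 h4

end Pool.Schoen
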