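import Pool.Agent.H.MP_6c077c_gt.Ts.SysB
import Pool.Agent.H.MP_6c077c_gt.Ts.Ext
import Pool.Agent.H.MP_6c077c_gt.Ts.Core1
import Pool.Agent.H.MP_6c077c_gt.Ts.Core2

/-! Theorem TS: the cases N and M of the core. `D`, `u`, `u'` is a feature of `p` in the intervals `k`, `l`. -/

set_option autoImplicit false

namespace Pool.Schoen

open Filter Set Metric
open scoped Topology RealInnerProductSpace ContDiff

/-- PROOF. Let `m ∈ E`. `ext_birth` for `q`, `s i = t (k + 1 + i)`, `n = l - k` (`hE` by `Clp.con`). Either a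
feature of `q` in the intervals `k + 1` and `k + 1 + i`, `1 ≤ i < l - k`: excluded by `min`. Or `G` clopen in
`{q ≤ t (l + 1)}`, `m ∈ G`, `t (k + 1) < q` on `G`: `core_N` with `a1 = t (k + 1)`, `a2 = t (k + 2)`, `c = t l`,
`d = t (l + 1)`; `D ⊆ ball 0 R` by `part_ball_ts`; `Con {p < d} u u'` by `con_open`; `‖m‖ < R` by
`Tame.slab_bdd`. -/
theorem coreU_birth {p q : ℂ → ℝ} {t : ℕ → ℝ} {N : ℕ} {R : ℝ} (S : Sys p q t N R) (hR : 0 < R)
    {k l : ℕ} (hkl : k + 2 ≤ l) (hl : l < N) {D : Set ℂ} {u u' : ℂ}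
    (hD : Clp D {x | p x ≤ t l}) (hDa : ∀ x ∈ D, t k < p x) (hu : u ∈ D) (hu' : u' ∉ D)
    (pu : p u ≤ t (k + 1)) (pu' : p u' ≤ t (k + 1)) (hS : Con {x | p x ≤ t (l + 1)} u u')
    (hq : TReg q (t k) (t (k + 1)))
    (min : ∀ k' l', k' < l' → l' < N → l' - k' < l - k → ¬ AnyF p q t k' l')
    {E : Set ℂ} (hn : E.Nonempty) (hE : Clp E {x | q x ≤ t (k + 2)})
    (hEa : ∀ x ∈ E, t (k + 1) < q x) : False := by
  obtain ⟨m, hm⟩ := hn
  have h0 : t 0 ≤ t (k + 1) := lev_le S.mono (by omega) (by omega)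
  have hex := ext_birth S.cq (fun i => t (k + 1 + i)) (n := l - k) (by omega)
    (fun i hi => S.mono (k + 1 + i) (by omega)) (fun i hi => S.regq (k + 1 + i) (by omega))
    (m := m) (hE.1 hm) (fun y hy => hEa y (hE.con hm hy))
  rcases hex with ⟨G, hG, hmG, hGa⟩ | ⟨i, hi1, hi2, hF⟩
  · have hl1 : k + 1 + (l - k) = l + 1 := by omega
    have hG' : Clp G {y | q y ≤ t (l + 1)} := by
      rw [← hl1]
      exact hG
    have h2N : q m ≤ t N := (hE.1 hm : q m ≤ t (k + 2)).trans (lev_le S.mono (by omega) le_rfl)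
    refine core_N S.cp S.cq hD ?_ hu hu' pu pu' ?_ hG' hmG (hE.1 hm) hGa ?_ ?_ S.lftV
    · exact part_ball_ts S.tp (lev_le S.mono (Nat.zero_le k) (by omega))
        (lev_le S.mono hl.le le_rfl) hD.1 hDa
    · have h3 : t (k + 1) < t (l + 1) := lev_lt S.mono (by omega) (by omega)
      exact con_open S.cp S.tp (h0.trans_lt h3) (lev_le S.mono (by omega) le_rfl)
        (S.regp (l + 1) (by omega)) (pu.trans_lt h3) (pu'.trans_lt h3) hS
    · exact (S.tq.slab_bdd (h0.trans (hEa m hm).le) h2N).le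
    · exact lev_le S.mono hkl (by omega)
  · exact min (k + 1) (k + 1 + i) (by omega) (by omega) (by omega) (Or.inr (Or.inl hF))

/-- PROOF. The part of `{q ≤ t (k + 1)}` of `comp_part` for `m1` contains a point `m1'` with `q m1' ≤ t k`
(`no_birth` on the interval `k`, on which `q` is regular); the same for `m2`, `m2'`. `core_M` with `a0 = t k`,
`a1 = t (k + 1)`, `c = t l`, `E` the part of `m1'`; `Con {q < t l} m1' m2'` by `con_open` (`k + 2 ≤ l`); `hb` is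
`clp_ball`; `‖u‖ < R` by `Tame.slab_bdd`. -/
theorem coreU_merge {p q : ℂ → ℝ} {t : ℕ → ℝ} {N : ℕ} {R : ℝ} (S : Sys p q t N R) (hR : 0 < R)
    {k l : ℕ} (hkl : k + 2 ≤ l) (hl : l < N) {D : Set ℂ} {u u' : ℂ}
    (hD : Clp D {x | p x ≤ t l}) (hDa : ∀ x ∈ D, t k < p x) (hu : u ∈ D) (hu' : u' ∉ D)
    (pu : p u ≤ t (k + 1)) (pu' : p u' ≤ t (k + 1)) (hS : Con {x | p x ≤ t (l + 1)} u u')
    (hq : TReg q (t k) (t (k + 1))) {m1 m2 : ℂ} (h1 : q m1 ≤ t (k + 1)) (h2 : q m2 ≤ t (k + 1))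
    (h3 : ¬ Con {y | q y ≤ t (k + 1)} m1 m2) (h4 : Con {y | q y ≤ t (k + 2)} m1 m2) : False := by
  have h0k : t 0 ≤ t k := lev_le S.mono (Nat.zero_le k) (by omega)
  have hk1 : t k < t (k + 1) := S.mono k (by omega)
  have hk1N : t (k + 1) ≤ t N := lev_le S.mono (by omega) le_rfl
  have hk2l : t (k + 2) ≤ t l := lev_le S.mono hkl (by omega)
  have hk1l : t (k + 1) < t l := lev_lt S.mono (by omega) (by omega)
  have hlow : ∀ m, q m ≤ t (k + 1) → ∃ E, Clp E {y | q y ≤ t (k + 1)} ∧ m ∈ E ∧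
      (∀ y ∈ E, Con {y | q y ≤ t (k + 1)} m y) ∧ ∃ m' ∈ E, q m' ≤ t k := by
    intro m hm
    obtain ⟨E, hE, hmE, hEc⟩ := comp_part S.cq (S.regq (k + 1) (by omega)) hm
    refine ⟨E, hE, hmE, hEc, ?_⟩
    by_contra hcon
    push Not at hcon
    have h5 := no_birth S.cq S.tq h0k hk1N hq hE hcon
    rw [h5] at hmE
    exact hmE
  obtain ⟨E, hE, hm1, hEc, m1', hm1', q1⟩ := hlow m1 h1
  obtain ⟨E2, -, -, hEc2, m2', hm2', q2⟩ := hlow m2 h2
  have hm2E : m2' ∉ E := fun h => h3 ((hEc m2' h).trans (hEc2 m2' hm2').symm)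
  have hcon : Con {y | q y ≤ t l} m1' m2' := by
    have s1 : {y : ℂ | q y ≤ t (k + 1)} ⊆ {y | q y ≤ t l} := fun y hy => le_trans hy hk1l.le
    have s2 : {y : ℂ | q y ≤ t (k + 2)} ⊆ {y | q y ≤ t l} := fun y hy => le_trans hy hk2l
    exact (((hEc m1' hm1').symm.mono s1).trans (h4.mono s2)).trans ((hEc2 m2' hm2').mono s1)
  refine core_M S.cp S.cq hD hDa hu pu ?_ hE hm1' hm2E q1 q2 ?_ ?_ S.lftW
  · exact (S.tp.slab_bdd (h0k.trans (hDa u hu).le) (pu.trans hk1N)).le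
  · exact con_open S.cq S.tq (h0k.trans_lt (hk1.trans hk1l)) (lev_le S.mono hl.le le_rfl)
      (S.regq l hl.le) (q1.trans_lt (hk1.trans hk1l)) (q2.trans_lt (hk1.trans hk1l)) hcon
  · exact clp_ball S.tq (h0k.trans hk1.le) hk1N hR hE

end Pool.Schoen
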