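import Pool.Agent.H.MP_6c077c_gt.Ix.Class
import Pool.Agent.H.MP_6c077c_gt.Ix.HomB
import Pool.Agent.H.MP_6c077c_gt.IxB.Lift

/-! Theorem TS (sums of two functions of two variables): definitions. `p = f`, `q = -g`; the body is
`{p x ≤ q y}`. Proof: /team-store/h57_6c077c_TS.md. -/

set_option autoImplicit false

namespace Pool.Schoen

open Filter Set
open scoped Topology RealInnerProductSpace ContDiff

/-- All values in `[a, b]` are regular: there are descent directions. -/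
def TReg (h : ℂ → ℝ) (a b : ℝ) : Prop := ∀ x, a ≤ h x → h x ≤ b → ∃ v, Desc1 h x v

/-- Outside of the ball of radius `R` the function `h` is `‖x‖ ^ 2 + c`, above `hi`, or
`c - ‖x‖ ^ 2`, below `lo`. -/
def Tame (R lo hi : ℝ) (h : ℂ → ℝ) : Prop :=
  (∃ c, ∀ x, R ≤ ‖x‖ → h x = ‖x‖ ^ 2 + c ∧ hi < h x) ∨
    ∃ c, ∀ x, R ≤ ‖x‖ → h x = c - ‖x‖ ^ 2 ∧ h x < lo

/-- `D` is a closed and open part of `A`. -/
def Clp {X : Type*} [TopologicalSpace X] (D A : Set X) : Prop :=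
  D ⊆ A ∧ IsClosed D ∧ IsClosed (A \ D)

/-- `x` and `y` are joined in `A`. -/
def Con {X : Type*} [TopologicalSpace X] (A : Set X) (x y : X) : Prop :=
  ∃ T ⊆ A, IsPreconnected T ∧ x ∈ T ∧ y ∈ T

/-- The topology changes between `{h ≤ a}` and `{h ≤ b}`. -/
def Chg (h : ℂ → ℝ) (a b : ℝ) : Prop :=
  (∃ E : Set ℂ, E.Nonempty ∧ Clp E {x | h x ≤ b} ∧ ∀ x ∈ E, a < h x) ∨
  (∃ x x', h x ≤ a ∧ h x' ≤ a ∧ ¬ Con {y | h y ≤ a} x x' ∧ Con {y | h y ≤ b} x x') ∨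
  (∃ E : Set ℂ, E.Nonempty ∧ Clp E {x | a ≤ h x} ∧ ∀ x ∈ E, h x < b) ∨
  ∃ x x', b ≤ h x ∧ b ≤ h x' ∧ ¬ Con {y | b ≤ h y} x x' ∧ Con {y | a ≤ h y} x x'

/-- A feature: a part of `{h ≤ c}` born between `a` and `b` which merges with an older one between
`c` and `d` (`a < b ≤ c < d`). -/
def Feat (h : ℂ → ℝ) (a b c d : ℝ) : Prop :=
  ∃ (D : Set ℂ) (u u' : ℂ), Clp D {x | h x ≤ c} ∧ (∀ x ∈ D, a < h x) ∧ u ∈ D ∧ u' ∉ D ∧
    h u ≤ b ∧ h u' ≤ b ∧ Con {x | h x ≤ d} u u'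

/-- The truncated body `{p x ≤ q y}` in `ℂ × ℂ`. -/
def Wd (p q : ℂ → ℝ) (R : ℝ) : Set (ℂ × ℂ) := {z | ‖z.1‖ ≤ R ∧ ‖z.2‖ ≤ R ∧ p z.1 ≤ q z.2}

/-- The radial retraction of the plane to the closed ball of radius `R`. -/
noncomputable def rt (R : ℝ) (x : ℂ) : ℂ := if ‖x‖ ≤ R then x else (R / ‖x‖) • x

/-- The normalised complex number. -/
noncomputable def un (z : ℂ) : ℂ := z / (‖z‖ : ℂ)

/-- The situation for a minimal number of levels `t 0 < ... < t N`. Symmetric under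
`(p, q) ↦ (q, p)` and under `(p, q) ↦ (-p, -q)` with the levels `-t (N - i)`. -/
structure Sys (p q : ℂ → ℝ) (t : ℕ → ℝ) (N : ℕ) (R : ℝ) : Prop where
  cp : Continuous p
  cq : Continuous q
  tp : Tame R (t 0) (t N) p
  tq : Tame R (t 0) (t N) q
  mono : ∀ i < N, t i < t (i + 1)
  regp : ∀ i ≤ N, TReg p (t i) (t i)
  regq : ∀ i ≤ N, TReg q (t i) (t i)
  kind : ∀ i < N, (TReg p (t i) (t (i + 1)) ∧ Chg q (t i) (t (i + 1))) ∨
    (TReg q (t i) (t (i + 1)) ∧ Chg p (t i) (t (i + 1)))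
  altp : ∀ i, i + 1 < N → ¬ (TReg p (t i) (t (i + 1)) ∧ TReg p (t (i + 1)) (t (i + 2)))
  altq : ∀ i, i + 1 < N → ¬ (TReg q (t i) (t (i + 1)) ∧ TReg q (t (i + 1)) (t (i + 2)))
  conW : IsPreconnected (Wd p q R)
  conV : IsPreconnected (Wd q p R)
  lftW : LiftS (Wd p q R)
  lftV : LiftS (Wd q p R)

end Pool.Schoen
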