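import Pool.Agent.H.MP_6c077c_gt.Ts.SysB
import Pool.Agent.H.MP_6c077c_gt.Ts.Ext

/-! Theorem TS: without features all sublevel sets are connected. -/

set_option autoImplicit false

namespace Pool.Schoen

open Filter Set Metric
open scoped Topology RealInnerProductSpace ContDiff

theorem EndA_con_of_pre {X : Type*} [TopologicalSpace X] {A : Set X} (h : IsPreconnected A) {x y : X}
    (hx : x ∈ A) (hy : y ∈ A) : Con A x y := ⟨A, Subset.rfl, h, hx, hy⟩

theorem EndA_pre_of_con {X : Type*} [TopologicalSpace X] {A : Set X}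
    (h : ∀ x ∈ A, ∀ y ∈ A, Con A x y) : IsPreconnected A := by
  refine isPreconnected_of_forall_pair fun x hx y hy => ?_
  obtain ⟨T, h1, h2, h3, h4⟩ := h x hx y hy
  exact ⟨T, h1, h3, h4, h2⟩

/-- PROOF. Let `x`, `x'` be in `{h ≤ t i}`, not joined there. They are joined in `{h ≤ t N}`, so there is `n`,
`i ≤ n < N`, such that they are not joined in `{h ≤ t n}` but joined in `{h ≤ t (n + 1)}`. `ext_merge` with
`s = t`: either `y`, `y'` in `{h ≤ t 0}` not joined in `{h ≤ t n}`, contradiction to `c0`, or a feature.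
`isPreconnected_of_forall_pair`. -/
theorem sub_conn {h : ℂ → ℝ} (hc : Continuous h) {t : ℕ → ℝ} {N : ℕ}
    (hm : ∀ i < N, t i < t (i + 1)) (hr : ∀ i ≤ N, TReg h (t i) (t i))
    (nf : ∀ k l, k < l → l < N → ¬ Feat h (t k) (t (k + 1)) (t l) (t (l + 1)))
    (c0 : IsPreconnected {x | h x ≤ t 0}) (cN : IsPreconnected {x | h x ≤ t N}) :
    ∀ i ≤ N, IsPreconnected {x | h x ≤ t i} := by
  classical
  intro i hi
  have hmono : ∀ j, j ≤ N → ∀ i, i ≤ j → t i ≤ t j := by
    intro j
    induction j with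
    | zero =>
      intro _ i hi
      rw [Nat.le_zero.1 hi]
    | succ j ih =>
      intro hj i hi
      rcases Nat.lt_or_ge i (j + 1) with h1 | h1
      · exact (ih (by omega) i (by omega)).trans (hm j (by omega)).le
      · rw [le_antisymm hi h1]
  refine EndA_pre_of_con fun x hx x' hx' => ?_
  by_contra hn
  have hex : ∃ j, i ≤ j ∧ j ≤ N ∧ Con {y | h y ≤ t j} x x' := by
    refine ⟨N, hi, le_rfl, EndA_con_of_pre cN ?_ ?_⟩
    · exact (show h x ≤ t i from hx).trans (hmono N le_rfl i hi)
    · exact (show h x' ≤ t i from hx').trans (hmono N le_rfl i hi)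
  obtain ⟨h1, h2, h3⟩ := Nat.find_spec hex
  set m := Nat.find hex with hmdef
  have hne : m ≠ i := by
    intro h4
    rw [h4] at h3
    exact hn h3
  obtain ⟨n, hnm⟩ : ∃ n, m = n + 1 := ⟨m - 1, by omega⟩
  have hin : i ≤ n := by omega
  have hnN : n < N := by omega
  have hnc : ¬ Con {y | h y ≤ t n} x x' := by
    intro h4
    exact Nat.find_min hex (m := n) (by omega) ⟨hin, hnN.le, h4⟩
  rw [hnm] at h3
  have hle : t i ≤ t n := hmono n hnN.le i hin
  rcases ext_merge hc t (n := n) (fun j hj => hm j (by omega)) (fun j hj => hr j (by omega))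
    ((show h x ≤ t i from hx).trans hle) ((show h x' ≤ t i from hx').trans hle) hnc h3 with h4 | h4
  · obtain ⟨y, y', e1, e2, e3, -⟩ := h4
    apply e3
    refine (EndA_con_of_pre c0 (show h y ≤ t 0 from e1) (show h y' ≤ t 0 from e2)).mono ?_
    intro z hz
    exact (show h z ≤ t 0 from hz).trans (hmono n hnN.le 0 (Nat.zero_le _))
  · obtain ⟨k, hk, e1⟩ := h4
    exact nf k n hk hnN e1

/-- PROOF. Let `s` be larger than `hi` and than `h` on `closedBall 0 R`; then `{h ≤ s}` is a closed ball of radius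
`ρ ≥ R` and `{s ≤ h} = {ρ ≤ ‖x‖}`. Two points of `{h ≤ hi}` are joined in `{h ≤ s}`, so in `{h ≤ hi}` (`con_push`,
`Tame R' lo s h` with a larger `R'`). A point of `{hi ≤ h}` is joined in it to a point of `{s ≤ h}`
(`comp_part`, `no_birth` for `-h`), which is connected (`preconnected_outer`). -/
theorem ts_outer_conn {h : ℂ → ℝ} (hc : Continuous h) {R c hi : ℝ} (hR : 0 < R)
    (up : ∀ x, R ≤ ‖x‖ → h x = ‖x‖ ^ 2 + c ∧ hi < h x)
    (hr : ∀ x, hi ≤ h x → ∃ v, Desc1 h x v) :
    IsConnected {x | h x ≤ hi} ∧ IsPreconnected {x | hi ≤ h x} := by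
  -- a large value
  obtain ⟨x1, -, hx1⟩ := (isCompact_closedBall (0 : ℂ) R).exists_isMaxOn
    ⟨0, mem_closedBall_self hR.le⟩ hc.continuousOn
  set s : ℝ := max (max hi (h x1)) (R ^ 2 + c) + 1 with hs
  have hs1 : hi < s := by
    have := (le_max_left hi (h x1)).trans (le_max_left _ (R ^ 2 + c))
    linarith
  have hs2 : ∀ x, ‖x‖ ≤ R → h x < s := by
    intro x hx
    have h1 : h x ≤ h x1 := hx1 (by rwa [mem_closedBall, dist_zero_right])
    have h2 := (le_max_right hi (h x1)).trans (le_max_left _ (R ^ 2 + c))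
    linarith
  have hs3 : R ^ 2 + c < s := by
    have := le_max_right (max hi (h x1)) (R ^ 2 + c)
    linarith
  set ρ : ℝ := Real.sqrt (s - c) with hρ
  have hρ2 : ρ ^ 2 = s - c := Real.sq_sqrt (by nlinarith [sq_nonneg R])
  have hρ0 : 0 ≤ ρ := Real.sqrt_nonneg _
  have hρR : R < ρ := by
    apply lt_of_pow_lt_pow_left₀ 2 hρ0
    rw [hρ2]
    linarith
  have hle : ∀ x, h x ≤ s ↔ ‖x‖ ≤ ρ := by
    intro x
    rcases le_total ‖x‖ R with h1 | h1
    · exact ⟨fun _ => h1.trans hρR.le, fun _ => (hs2 x h1).le⟩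
    · rw [(up x h1).1]
      constructor
      · intro h2
        refine (pow_le_pow_iff_left₀ (norm_nonneg _) hρ0 two_ne_zero).1 ?_
        rw [hρ2]
        linarith
      · intro h2
        have h3 := pow_le_pow_left₀ (norm_nonneg x) h2 2
        rw [hρ2] at h3
        linarith
  have hge : ∀ x, s ≤ h x ↔ ρ ≤ ‖x‖ := by
    intro x
    rcases le_total ‖x‖ R with h1 | h1
    · constructor
      · intro h2
        exact absurd (hs2 x h1) (not_lt.2 h2)
      · intro h2
        linarith
    · rw [(up x h1).1]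
      constructor
      · intro h2
        refine (pow_le_pow_iff_left₀ hρ0 (norm_nonneg _) two_ne_zero).1 ?_
        rw [hρ2]
        linarith
      · intro h2
        have h3 := pow_le_pow_left₀ hρ0 h2 2
        rw [hρ2] at h3
        linarith
  have htame : Tame (ρ + 1) hi s h := by
    refine Or.inl ⟨c, fun x hx => ?_⟩
    have h1 := (up x (by linarith)).1
    refine ⟨h1, ?_⟩
    rw [h1]
    have h3 := pow_le_pow_left₀ (by linarith : (0 : ℝ) ≤ ρ + 1) hx 2
    nlinarith
  have htame' : Tame (ρ + 1) (-s) (-hi) fun x => -h x := htame.neg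
  have hreg : TReg h hi s := fun x h1 _ => hr x h1
  -- nonempty
  have hne : {x | h x ≤ hi}.Nonempty := by
    obtain ⟨x2, hx2m, hx2⟩ := (isCompact_closedBall (0 : ℂ) ρ).exists_isMinOn
      ⟨0, mem_closedBall_self hρ0⟩ hc.continuousOn
    refine ⟨x2, ?_⟩
    by_contra h1
    have h1' : hi < h x2 := not_le.1 h1
    obtain ⟨v, hv⟩ := hr x2 h1'.le
    have hmin : ∀ x, h x2 ≤ h x := by
      intro x
      rcases le_total ‖x‖ ρ with h2 | h2
      · exact hx2 (by rwa [mem_closedBall, dist_zero_right])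
      · have h3 := (hle x2).2 (by rwa [mem_closedBall, dist_zero_right] at hx2m)
        exact h3.trans ((hge x).2 h2)
    obtain ⟨y, hy⟩ := (hv.frequently).2.exists
    linarith [hmin y]
  refine ⟨⟨hne, EndA_pre_of_con fun x hx x' hx' => ?_⟩, EndA_pre_of_con fun x hx x' hx' => ?_⟩
  · have h1 : Con {y | h y ≤ s} x x' := by
      have h2 : {y | h y ≤ s} = closedBall (0 : ℂ) ρ := by
        ext y
        rw [mem_closedBall, dist_zero_right]
        exact hle y
      rw [h2]
      refine EndA_con_of_pre (convex_closedBall _ _).isPreconnected ?_ ?_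
      · rw [← h2]
        exact (show h x ≤ hi from hx).trans hs1.le
      · rw [← h2]
        exact (show h x' ≤ hi from hx').trans hs1.le
    exact con_push hc htame hs1.le le_rfl le_rfl hreg hx hx' h1
  · have hregn : TReg (fun x => -h x) (-s) (-hi) := hreg.neg
    have hset : {y | hi ≤ h y} = {y | -h y ≤ -hi} := by
      ext y
      constructor <;> intro h1 <;> simp only [mem_setOf_eq] at * <;> linarith
    have key : ∀ y, hi ≤ h y → ∃ z, ρ ≤ ‖z‖ ∧ Con {y | hi ≤ h y} y z := by
      intro y hy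
      obtain ⟨D, hD, hyD, hDc⟩ := comp_part (h := fun x => -h x) hc.neg (b := -hi)
        (hregn.mono (by linarith) le_rfl) (x := y) (neg_le_neg hy)
      have h1 : ∃ z ∈ D, -h z ≤ -s := by
        by_contra h2
        push Not at h2
        have h3 := no_birth (h := fun x => -h x) hc.neg htame' le_rfl le_rfl hregn hD
          (fun z hz => h2 z hz)
        rw [h3] at hyD
        exact hyD
      obtain ⟨z, hz, hz'⟩ := h1
      refine ⟨z, (hge z).1 (by linarith), ?_⟩
      rw [hset]
      exact hDc z hz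
    obtain ⟨z, hz, hcz⟩ := key x hx
    obtain ⟨z', hz', hcz'⟩ := key x' hx'
    have hρp : 0 < ρ := hR.trans hρR
    have h1 : Con {y | hi ≤ h y} z z' := by
      refine (EndA_con_of_pre (preconnected_outer ρ hρp) hz hz').mono fun y hy => ?_
      exact hs1.le.trans ((hge y).2 hy)
    exact (hcz.trans h1).trans hcz'.symm

end Pool.Schoen
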