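import Pool.Agent.H.MP_6c077c_gt.Ts.RepSys

/-! Theorem TS: the first representation. -/

set_option autoImplicit false

namespace Pool.Schoen

open Filter Set Metric
open scoped Topology RealInnerProductSpace ContDiff

/-- PROOF. The distance of `A` and `B` is at least some `δ > 0` (`Disjoint.exists_thickenings` or
`IsCompact`/`infDist`); `t i = lo + i (hi - lo) / N` with `(hi - lo) / N < δ`, `N ≥ 1`. -/
theorem level_partition {A B : Set ℝ} (hA : IsCompact A) (hB : IsCompact B) (hd : Disjoint A B)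
    {lo hi : ℝ} (h : lo < hi) : ∃ (N : ℕ) (t : ℕ → ℝ), t 0 = lo ∧ t N = hi ∧
      (∀ i < N, t i < t (i + 1)) ∧ ∀ i < N, (∀ c ∈ A, ¬ (t i ≤ c ∧ c ≤ t (i + 1))) ∨
        ∀ c ∈ B, ¬ (t i ≤ c ∧ c ≤ t (i + 1)) := by
  obtain ⟨δ, hδ, hdis⟩ := hd.exists_thickenings hA hB.isClosed
  have hsep : ∀ a ∈ A, ∀ b ∈ B, δ ≤ |a - b| := by
    intro a ha b hb
    by_contra hc
    refine (Set.disjoint_left.1 hdis) (self_subset_thickening hδ A ha) ?_
    rw [mem_thickening_iff]
    refine ⟨b, hb, ?_⟩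
    rw [Real.dist_eq]
    exact not_le.1 hc
  obtain ⟨n, hn⟩ := exists_nat_gt ((hi - lo) / δ)
  have hn0 : (0 : ℝ) < n := lt_trans (div_pos (by linarith) hδ) hn
  have hs0 : 0 < (hi - lo) / n := div_pos (by linarith) hn0
  have hs : (hi - lo) / n < δ := by
    rw [div_lt_iff₀ hn0]
    rw [div_lt_iff₀ hδ] at hn
    linarith
  refine ⟨n, fun i => lo + i * ((hi - lo) / n), ?_, ?_, ?_, ?_⟩
  · simp
  · show lo + n * ((hi - lo) / n) = hi
    field_simp
    ring
  · intro i _
    show lo + i * ((hi - lo) / n) < lo + ((i + 1 : ℕ) : ℝ) * ((hi - lo) / n)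
    push_cast
    linarith
  · intro i _
    by_cases hcase : ∀ c ∈ A, ¬ (lo + i * ((hi - lo) / n) ≤ c ∧
        c ≤ lo + ((i + 1 : ℕ) : ℝ) * ((hi - lo) / n))
    · exact Or.inl hcase
    · right
      push Not at hcase
      obtain ⟨c, hc, h1, h2⟩ := hcase
      rintro b hb ⟨h3, h4⟩
      have h3' : lo + i * ((hi - lo) / n) ≤ b := h3
      have h4' : b ≤ lo + ((i + 1 : ℕ) : ℝ) * ((hi - lo) / n) := h4
      push_cast at h2 h4'
      have h5 : |c - b| ≤ (hi - lo) / n := abs_le.2 ⟨by linarith, by linarith⟩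
      linarith [hsep c hc b hb]

/-- The critical values of a smooth function which is `‖x‖ ^ 2 + c` outside of a ball. PROOF. There are no
critical points with `R < ‖x‖`. -/
theorem crit_compact {p : ℂ → ℝ} (sp : ContDiff ℝ ∞ p) {R : ℝ} (hR : 0 < R)
    (up : ∃ c : ℝ, ∀ x, R ≤ ‖x‖ → p x = ‖x‖ ^ 2 + c) :
    IsCompact (p '' {x | fderiv ℝ p x = 0}) := by
  obtain ⟨c, hc⟩ := up
  have hcl : IsClosed {x | fderiv ℝ p x = 0} :=
    isClosed_eq (sp.continuous_fderiv (by simp)) continuous_const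
  have hb : {x | fderiv ℝ p x = 0} ⊆ closedBall 0 R := by
    intro x hx
    rw [mem_closedBall_zero_iff]
    by_contra hcon
    have h1 : R < ‖x‖ := not_le.1 hcon
    have h2 : p =ᶠ[𝓝 x] fun y => ‖y‖ ^ 2 + c := by
      filter_upwards [continuous_norm.continuousAt.eventually_const_lt h1] with y hy
      exact hc y hy.le
    have h3 : HasFDerivAt (fun y : ℂ => ‖y‖ ^ 2 + c) (2 • innerSL ℝ x) x :=
      ((hasStrictFDerivAt_norm_sq x).hasFDerivAt).add_const c
    have h4 : fderiv ℝ p x = 2 • innerSL ℝ x := by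
      rw [h2.fderiv_eq, h3.fderiv]
    have h5 : fderiv ℝ p x = 0 := hx
    rw [h5] at h4
    have h6 := DFunLike.congr_fun h4 x
    have h7 : (0 : ℝ) = 2 • ⟪x, x⟫ := h6
    rw [real_inner_self_eq_norm_sq] at h7
    have h8 : 0 < ‖x‖ := hR.trans h1
    simp only [nsmul_eq_mul] at h7
    norm_num at h7
    rw [h7, norm_zero] at h8
    exact lt_irrefl _ h8
  exact (Metric.isCompact_of_isClosed_isBounded hcl (isBounded_closedBall.subset hb)).image
    sp.continuous

/-- At a point which is not critical there is a descent direction. -/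
theorem Init_desc {p : ℂ → ℝ} (sp : ContDiff ℝ ∞ p) {x : ℂ} (h : fderiv ℝ p x ≠ 0) :
    ∃ v, Desc1 p x v := by
  have h1 : ∃ v, fderiv ℝ p x v ≠ 0 := by
    by_contra hc
    push Not at hc
    exact h (ContinuousLinearMap.ext hc)
  obtain ⟨v, hv⟩ := h1
  have hs : ContDiffAt ℝ 1 p x := sp.contDiffAt.of_le (by simp)
  rcases lt_or_gt_of_ne hv with h2 | h2
  · exact ⟨v, desc1_smooth hs h2⟩
  · refine ⟨-v, desc1_smooth hs ?_⟩
    rw [map_neg]
    linarith

variable {V : Type*} [NormedAddCommGroup V] [InnerProductSpace ℝ V]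

/-- PROOF. `A`, `B` = critical values of `p` and `q` (`crit_compact` for `p` and `-q`), disjoint: otherwise
`sumF e p q` has a zero with derivative zero, contradiction to `Good` (`fderiv_neg_of_desc1`). Choose
`lo < hi` with `A ∪ B` strictly between, `level_partition`, `R'` large. A point with a regular value has a descent direction
(`desc1_smooth`). `ContDiff.locallyLipschitz`. `Good.refl`. -/
theorem rep_init (e : V ≃L[ℝ] ℂ × ℂ) {p q : ℂ → ℝ} (sp : ContDiff ℝ ∞ p) (sq : ContDiff ℝ ∞ q)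
    {R : ℝ} (hR : 0 < R) (up : ∃ c : ℝ, ∀ x, R ≤ ‖x‖ → p x = ‖x‖ ^ 2 + c)
    (dn : ∃ c : ℝ, ∀ x, R ≤ ‖x‖ → q x = c - ‖x‖ ^ 2) (hg : Good (sumF e p q)) :
    ∃ N, HasRep (sumF e p q) N := by
  have hA := crit_compact sp hR up
  have hB : IsCompact (q '' {x | fderiv ℝ q x = 0}) := by
    have h1 := crit_compact (p := fun x => -q x) sq.neg hR (by
      obtain ⟨c, hc⟩ := dn
      refine ⟨-c, fun x hx => ?_⟩
      rw [hc x hx]
      ring)
    have h2 : q '' {x | fderiv ℝ q x = 0} =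
        (fun s : ℝ => -s) '' ((fun x => -q x) '' {x | fderiv ℝ (fun y => -q y) x = 0}) := by
      rw [image_image]
      ext s
      constructor
      · rintro ⟨x, hx, rfl⟩
        refine ⟨x, ?_, neg_neg _⟩
        have hx' : fderiv ℝ q x = 0 := hx
        show fderiv ℝ (fun y => -q y) x = 0
        rw [fderiv_fun_neg, hx', neg_zero]
      · rintro ⟨x, hx, rfl⟩
        refine ⟨x, ?_, (neg_neg _).symm⟩
        have hx' : fderiv ℝ (fun y => -q y) x = 0 := hx
        rw [fderiv_fun_neg, neg_eq_zero] at hx'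
        exact hx'
    rw [h2]
    exact h1.image continuous_neg
  have hd : Disjoint (p '' {x | fderiv ℝ p x = 0}) (q '' {x | fderiv ℝ q x = 0}) := by
    rw [Set.disjoint_left]
    rintro s ⟨x, hx, rfl⟩ ⟨y, hy, hxy⟩
    have hx' : fderiv ℝ p x = 0 := hx
    have hy' : fderiv ℝ q y = 0 := hy
    obtain ⟨z, hz⟩ : ∃ z, z = e.symm (x, y) := ⟨_, rfl⟩
    have hz1 : e z = (x, y) := by rw [hz, e.apply_symm_apply]
    obtain ⟨w, hw⟩ := hg.desc z (by
      unfold sumF
      rw [hz1, hxy, sub_self])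
    have d1 : HasFDerivAt p (0 : ℂ →L[ℝ] ℝ) (e z).1 := by
      rw [hz1, ← hx']
      exact ((sp.differentiable (by simp)) x).hasFDerivAt
    have d2 : HasFDerivAt q (0 : ℂ →L[ℝ] ℝ) (e z).2 := by
      rw [hz1, ← hy']
      exact ((sq.differentiable (by simp)) y).hasFDerivAt
    have d3 : HasFDerivAt (fun x : V => p (e x).1)
        ((0 : ℂ →L[ℝ] ℝ).comp ((ContinuousLinearMap.fst ℝ ℂ ℂ).comp (e : V →L[ℝ] ℂ × ℂ))) z :=
      HasFDerivAt.comp z d1
        ((ContinuousLinearMap.fst ℝ ℂ ℂ).comp (e : V →L[ℝ] ℂ × ℂ)).hasFDerivAt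
    have d4 : HasFDerivAt (fun x : V => q (e x).2)
        ((0 : ℂ →L[ℝ] ℝ).comp ((ContinuousLinearMap.snd ℝ ℂ ℂ).comp (e : V →L[ℝ] ℂ × ℂ))) z :=
      HasFDerivAt.comp z d2
        ((ContinuousLinearMap.snd ℝ ℂ ℂ).comp (e : V →L[ℝ] ℂ × ℂ)).hasFDerivAt
    have d5 := d3.sub d4
    have h1 := fderiv_neg_of_desc1 (f := sumF e p q) d5.differentiableAt hw
    have h2 : fderiv ℝ (sumF e p q) z = _ := d5.fderiv
    rw [h2] at h1
    simp at h1
  obtain ⟨M, hM0, hM⟩ := (hA.union hB).isBounded.exists_pos_norm_lt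
  obtain ⟨N, t, t0, tN, tm, tk⟩ := level_partition hA hB hd (show -M < M by linarith)
  have regp : ∀ x, (∀ c ∈ p '' {x | fderiv ℝ p x = 0}, c ≠ p x) → ∃ v, Desc1 p x v :=
    fun x hx => Init_desc sp fun h => hx _ ⟨x, h, rfl⟩ rfl
  have regq : ∀ x, (∀ c ∈ q '' {x | fderiv ℝ q x = 0}, c ≠ q x) → ∃ v, Desc1 q x v :=
    fun x hx => Init_desc sq fun h => hx _ ⟨x, h, rfl⟩ rfl
  have bA : ∀ c ∈ p '' {x | fderiv ℝ p x = 0}, -M < c ∧ c < M := fun c hc =>
    abs_lt.1 (hM c (Or.inl hc))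
  have bB : ∀ c ∈ q '' {x | fderiv ℝ q x = 0}, -M < c ∧ c < M := fun c hc =>
    abs_lt.1 (hM c (Or.inr hc))
  obtain ⟨c1, hc1⟩ := up
  obtain ⟨c2, hc2⟩ := dn
  obtain ⟨R', hR'⟩ : ∃ R' : ℝ, R' = max R (|c1| + |c2| + M + 1) := ⟨_, rfl⟩
  have r1 : R ≤ R' := hR' ▸ le_max_left _ _
  have r2 : |c1| + |c2| + M + 1 ≤ R' := hR' ▸ le_max_right _ _
  have a1 := abs_nonneg c1
  have a2 := abs_nonneg c2
  have a3 := neg_abs_le c1
  have a4 := le_abs_self c2
  have key : ∀ x : ℂ, R' ≤ ‖x‖ → |c1| + |c2| + M + 1 ≤ ‖x‖ ^ 2 := by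
    intro x hx
    have h1 : 1 ≤ ‖x‖ := by linarith
    nlinarith
  refine ⟨N, e, p, q, t, R', ?_⟩
  exact
    { hom := hg.refl
      lp := (sp.of_le (by simp)).locallyLipschitz
      lq := (sq.of_le (by simp)).locallyLipschitz
      hR := by linarith
      up := ⟨c1, fun x hx => by
        have h1 := hc1 x (r1.trans hx)
        refine ⟨h1, ?_⟩
        rw [h1, tN]
        linarith [key x hx]⟩
      dn := ⟨c2, fun x hx => by
        have h1 := hc2 x (r1.trans hx)
        refine ⟨h1, ?_⟩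
        rw [h1, t0]
        linarith [key x hx]⟩
      mono := tm
      lop := fun x hx => regp x fun c hc h => by
        rw [t0] at hx
        linarith [(bA c hc).1]
      hip := fun x hx => regp x fun c hc h => by
        rw [tN] at hx
        linarith [(bA c hc).2]
      loq := fun x hx => regq x fun c hc h => by
        rw [t0] at hx
        linarith [(bB c hc).1]
      hiq := fun x hx => regq x fun c hc h => by
        rw [tN] at hx
        linarith [(bB c hc).2]
      kind := fun i hi => by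
        rcases tk i hi with h | h
        · exact Or.inl fun x h1 h2 => regp x fun c hc h3 => h c hc (h3 ▸ ⟨h1, h2⟩)
        · exact Or.inr fun x h1 h2 => regq x fun c hc h3 => h c hc (h3 ▸ ⟨h1, h2⟩)
      smp := fun i _ x _ => Eventually.of_forall fun y => sp.contDiffAt
      smq := fun i _ x _ => Eventually.of_forall fun y => sq.contDiffAt }

end Pool.Schoen
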