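import Pool.Agent.H.MP_6c077c_gt.Ts.SumF
import Pool.Agent.H.MP_6c077c_gt.Al.Compl

/-! Theorem TS: normal form at infinity. -/

set_option autoImplicit false

namespace Pool.Schoen

open Filter Set Metric
open scoped Topology RealInnerProductSpace ContDiff

/-- PROOF. `χ` smooth, `0 ≤ χ ≤ 1`, `χ = 0` on `closedBall 0 ρ`, `χ = 1` off `ball 0 (ρ + 1)`; `k = (1 - χ) f +
χ (‖x‖ ^ 2 + c)` with `c > κ` and `c` so large that ... (`‖x‖ ^ 2 + c > κ` everywhere). -/
theorem norm_one {f : ℂ → ℝ} (sf : ContDiff ℝ ∞ f) {ρ κ : ℝ} (hρ : 0 < ρ)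
    (h : ∀ x, ρ ≤ ‖x‖ → κ < f x) : ∃ (k : ℂ → ℝ) (R : ℝ), ContDiff ℝ ∞ k ∧ 0 < R ∧
      (∃ c : ℝ, ∀ x, R ≤ ‖x‖ → k x = ‖x‖ ^ 2 + c) ∧ (∀ x, ‖x‖ ≤ ρ → k x = f x) ∧
      ∀ x, ρ ≤ ‖x‖ → κ < k x := by
  let b : ContDiffBump (0 : ℂ) := ⟨ρ, ρ + 1, hρ, by linarith⟩
  have hb1 : ∀ x : ℂ, ‖x‖ ≤ ρ → b x = 1 := by
    intro x hx
    exact b.one_of_mem_closedBall (by rw [mem_closedBall, dist_zero_right]; exact hx)
  have hb0 : ∀ x : ℂ, ρ + 1 ≤ ‖x‖ → b x = 0 := by
    intro x hx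
    exact b.zero_of_le_dist (by rw [dist_zero_right]; exact hx)
  refine ⟨fun x => b x * f x + (1 - b x) * (‖x‖ ^ 2 + (|κ| + 1)), ρ + 1, ?_, by linarith,
    ⟨|κ| + 1, ?_⟩, ?_, ?_⟩
  · exact (b.contDiff.mul sf).add ((contDiff_const.sub b.contDiff).mul
      ((contDiff_norm_sq ℝ).add contDiff_const))
  · intro x hx
    change b x * f x + (1 - b x) * (‖x‖ ^ 2 + (|κ| + 1)) = _
    rw [hb0 x hx]
    ring
  · intro x hx
    change b x * f x + (1 - b x) * (‖x‖ ^ 2 + (|κ| + 1)) = _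
    rw [hb1 x hx]
    ring
  · intro x hx
    change κ < b x * f x + (1 - b x) * (‖x‖ ^ 2 + (|κ| + 1))
    have h1 := h x hx
    have h2 : κ < ‖x‖ ^ 2 + (|κ| + 1) := by
      have := le_abs_self κ
      have := sq_nonneg ‖x‖
      linarith
    have h3 : 0 ≤ b x := b.nonneg
    have h4 : b x ≤ 1 := b.le_one
    rcases h3.eq_or_lt with h5 | h5
    · rw [← h5]
      linarith
    · have h6 : b x * κ < b x * f x := mul_lt_mul_of_pos_left h1 h5
      have h7 : (1 - b x) * κ ≤ (1 - b x) * (‖x‖ ^ 2 + (|κ| + 1)) :=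
        mul_le_mul_of_nonneg_left h2.le (by linarith)
      linarith

theorem Norm_neg_dir {L : ℂ →L[ℝ] ℝ} (h : L ≠ 0) : ∃ v, L v < 0 := by
  by_contra hc
  push Not at hc
  apply h
  ext v
  have h1 := hc v
  have h2 := hc (-v)
  rw [map_neg] at h2
  have h3 : L v = 0 := le_antisymm (by linarith) h1
  simpa using h3

/-- The outside of a ball of a normed space is connected. -/
theorem Norm_out {E : Type*} [NormedAddCommGroup E] [NormedSpace ℝ E] (hr : 1 < Module.rank ℝ E)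
    {ρ : ℝ} (hρ : 0 < ρ) : IsPreconnected {x : E | ρ ≤ ‖x‖} := by
  have h1 : IsPreconnected (({0} : Set E)ᶜ) :=
    (isConnected_compl_singleton_of_one_lt_rank hr 0).isPreconnected
  have h2 : {x : E | ρ ≤ ‖x‖} = (fun x : E => (max ρ ‖x‖ / ‖x‖) • x) '' ({0} : Set E)ᶜ := by
    ext x
    constructor
    · intro (hx : ρ ≤ ‖x‖)
      have hx0 : ‖x‖ ≠ 0 := by
        intro h
        rw [h] at hx
        linarith
      refine ⟨x, ?_, ?_⟩
      · intro h
        exact hx0 (by rw [mem_singleton_iff.1 h, norm_zero])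
      · change (max ρ ‖x‖ / ‖x‖) • x = x
        rw [max_eq_right hx, div_self hx0, one_smul]
    · rintro ⟨y, hy, rfl⟩
      have hy0 : ‖y‖ ≠ 0 := by
        intro h
        exact hy (norm_eq_zero.1 h)
      change ρ ≤ ‖(max ρ ‖y‖ / ‖y‖) • y‖
      rw [norm_smul, norm_div, norm_norm, div_mul_cancel₀ _ hy0, Real.norm_eq_abs]
      exact (le_max_left _ _).trans (le_abs_self _)
  rw [h2]
  refine h1.image _ ?_
  intro x hx
  have hx0 : ‖x‖ ≠ 0 := by
    intro h
    exact hx (norm_eq_zero.1 h)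
  refine ContinuousAt.continuousWithinAt ?_
  refine ContinuousAt.smul (ContinuousAt.div ?_ continuous_norm.continuousAt hx0) continuousAt_id
  exact (continuous_const.max continuous_norm).continuousAt

variable {V : Type*} [NormedAddCommGroup V] [InnerProductSpace ℝ V] [FiniteDimensional ℝ V]

/-- The case of a positive sign at infinity. PROOF. `G x = f (e x).1 + g (e x).2`. It is negative somewhere (at a zero
the derivative is not zero). It attains its minimum at a point `x0` (compactness of the ball, positive outside);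
so `f` attains its minimum at `a = (e x0).1`, `g` at `b = (e x0).2`, `f a + g b < 0`. `f x > -g b` for
`ρ ≤ ‖x‖`, `g y > -f a` for `ρ ≤ ‖y‖`: `norm_one` for both (`κ = -g b`, `κ' = -f a`), `p = f'`, `q = -g'`. If
`ρ ≤ ‖x‖` then `f' x > -g b`, and `g' ≥ g b` everywhere (`-f a > g b`), so `f' x + g' y > 0`; the same if
`ρ ≤ ‖y‖`; otherwise nothing has changed. Good: `desc1_smooth` for `f` or `g` at a zero, `desc_fst`, `desc_snd`
(at points with `‖x‖ < ρ`, `‖y‖ < ρ` the functions agree nearby). -/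
theorem norm_pos (e : V ≃L[ℝ] ℂ × ℂ) {f g : ℂ → ℝ} (sf : ContDiff ℝ ∞ f)
    (sg : ContDiff ℝ ∞ g) {ρ : ℝ} (hρ : 0 < ρ)
    (hpos : ∀ x : V, (ρ ≤ ‖(e x).1‖ ∨ ρ ≤ ‖(e x).2‖) → 0 < f (e x).1 + g (e x).2)
    (hn : {x : V | f (e x).1 + g (e x).2 = 0}.Nonempty)
    (hr : ∀ x : V, f (e x).1 + g (e x).2 = 0 →
      fderiv ℝ f (e x).1 ≠ 0 ∨ fderiv ℝ g (e x).2 ≠ 0) :
    ∃ (p q : ℂ → ℝ) (R : ℝ), ContDiff ℝ ∞ p ∧ ContDiff ℝ ∞ q ∧ 0 < R ∧
      (∃ c : ℝ, ∀ x, R ≤ ‖x‖ → p x = ‖x‖ ^ 2 + c) ∧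
      (∃ c : ℝ, ∀ x, R ≤ ‖x‖ → q x = c - ‖x‖ ^ 2) ∧ Good (sumF e p q) ∧
      ∀ x : V, sumF e p q x = 0 ↔ f (e x).1 + g (e x).2 = 0 := by
  have cf := sf.continuous
  have cg := sg.continuous
  obtain ⟨x0, hx0⟩ := hn
  have hx0' : f (e x0).1 + g (e x0).2 = 0 := hx0
  have n1 : ‖(e x0).1‖ < ρ := by
    by_contra hc
    have := hpos x0 (Or.inl (not_lt.1 hc))
    linarith
  have n2 : ‖(e x0).2‖ < ρ := by
    by_contra hc
    have := hpos x0 (Or.inr (not_lt.1 hc))
    linarith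
  have pos1 : ∀ x y : ℂ, (ρ ≤ ‖x‖ ∨ ρ ≤ ‖y‖) → 0 < f x + g y := by
    intro x y hxy
    have := hpos (e.symm (x, y)) (by rw [e.apply_symm_apply]; exact hxy)
    rwa [e.apply_symm_apply] at this
  obtain ⟨z, hz, hmin⟩ := ((isCompact_closedBall (0 : ℂ) ρ).prod
    (isCompact_closedBall (0 : ℂ) ρ)).exists_isMinOn (f := fun z : ℂ × ℂ => f z.1 + g z.2)
    ⟨((e x0).1, (e x0).2), by
      refine ⟨?_, ?_⟩
      · change (e x0).1 ∈ closedBall (0 : ℂ) ρ
        rw [mem_closedBall, dist_zero_right]; exact n1.le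
      · change (e x0).2 ∈ closedBall (0 : ℂ) ρ
        rw [mem_closedBall, dist_zero_right]; exact n2.le⟩
    ((cf.comp continuous_fst).add (cg.comp continuous_snd)).continuousOn
  obtain ⟨a, b⟩ := z
  have hm : ∀ x y : ℂ, ‖x‖ ≤ ρ → ‖y‖ ≤ ρ → f a + g b ≤ f x + g y := by
    intro x y hx hy
    exact hmin (show (x, y) ∈ closedBall (0 : ℂ) ρ ×ˢ closedBall (0 : ℂ) ρ from
      ⟨by change x ∈ closedBall (0 : ℂ) ρ; rw [mem_closedBall, dist_zero_right]; exact hx,
       by change y ∈ closedBall (0 : ℂ) ρ; rw [mem_closedBall, dist_zero_right]; exact hy⟩)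
  have hm0 : f a + g b ≤ 0 := by
    have := hm _ _ n1.le n2.le
    linarith
  have hm1 : ∀ x y : ℂ, f a + g b ≤ f x + g y := by
    intro x y
    by_cases hx : ‖x‖ ≤ ρ
    · by_cases hy : ‖y‖ ≤ ρ
      · exact hm x y hx hy
      · have := pos1 x y (Or.inr (not_le.1 hy).le)
        linarith
    · have := pos1 x y (Or.inl (not_le.1 hx).le)
      linarith
  have ha : ∀ x, f a ≤ f x := by
    intro x
    have := hm1 x b
    linarith
  have hb : ∀ y, g b ≤ g y := by
    intro y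
    have := hm1 a y
    linarith
  have hab : f a + g b < 0 := by
    refine lt_of_le_of_ne hm0 ?_
    intro h0
    have h1 := hr (e.symm (a, b)) (by rw [e.apply_symm_apply]; exact h0)
    rw [e.apply_symm_apply] at h1
    rcases h1 with h1 | h1
    · exact h1 (IsLocalMin.fderiv_eq_zero (Eventually.of_forall ha))
    · exact h1 (IsLocalMin.fderiv_eq_zero (Eventually.of_forall hb))
  obtain ⟨k, R1, sk, hR1, ⟨c1, hc1⟩, hk1, hk2⟩ := norm_one sf hρ (κ := -g b) (by
    intro x hx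
    have := pos1 x b (Or.inl hx)
    linarith)
  obtain ⟨l, R2, sl, hR2, ⟨c2, hc2⟩, hl1, hl2⟩ := norm_one sg hρ (κ := -f a) (by
    intro x hx
    have := pos1 a x (Or.inr hx)
    linarith)
  have ka : ∀ x, f a ≤ k x := by
    intro x
    by_cases hx : ‖x‖ ≤ ρ
    · rw [hk1 x hx]; exact ha x
    · have := hk2 x (not_le.1 hx).le
      linarith
  have lb : ∀ x, g b ≤ l x := by
    intro x
    by_cases hx : ‖x‖ ≤ ρ
    · rw [hl1 x hx]; exact hb x
    · have := hl2 x (not_le.1 hx).le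
      linarith
  have hs : ∀ x : V, sumF e k (fun y => -l y) x = k (e x).1 + l (e x).2 := by
    intro x
    change k (e x).1 - -l (e x).2 = _
    ring
  have hpos2 : ∀ x : V, (ρ ≤ ‖(e x).1‖ ∨ ρ ≤ ‖(e x).2‖) → 0 < k (e x).1 + l (e x).2 := by
    intro x hx
    rcases hx with hx | hx
    · have h1 := hk2 _ hx
      have h2 := lb (e x).2
      linarith
    · have h1 := hl2 _ hx
      have h2 := ka (e x).1
      linarith
  have hiff : ∀ x : V, sumF e k (fun y => -l y) x = 0 ↔ f (e x).1 + g (e x).2 = 0 := by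
    intro x
    rw [hs]
    by_cases hx : ρ ≤ ‖(e x).1‖ ∨ ρ ≤ ‖(e x).2‖
    · have h1 := hpos2 x hx
      have h2 := hpos x hx
      constructor
      · intro h; linarith
      · intro h; linarith
    · rw [not_or, not_le, not_le] at hx
      rw [hk1 _ hx.1.le, hl1 _ hx.2.le]
  refine ⟨k, fun y => -l y, max R1 R2, sk, sl.neg, lt_max_of_lt_left hR1, ⟨c1, ?_⟩, ⟨-c2, ?_⟩, ?_,
    hiff⟩
  · intro x hx
    exact hc1 x ((le_max_left _ _).trans hx)
  · intro x hx
    change -l x = _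
    rw [hc2 x ((le_max_right _ _).trans hx)]
    ring
  · have hin : ∀ x : V, sumF e k (fun y => -l y) x = 0 → ‖(e x).1‖ < ρ ∧ ‖(e x).2‖ < ρ := by
      intro x hx
      rw [hs] at hx
      constructor
      · by_contra hc
        have := hpos2 x (Or.inl (not_lt.1 hc))
        linarith
      · by_contra hc
        have := hpos2 x (Or.inr (not_lt.1 hc))
        linarith
    refine ⟨sumF_continuous e sk.continuous sl.neg.continuous, ?_, ?_⟩
    · have hc : IsCompact (e.symm '' (closedBall (0 : ℂ) ρ ×ˢ closedBall (0 : ℂ) ρ)) :=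
        ((isCompact_closedBall (0 : ℂ) ρ).prod (isCompact_closedBall (0 : ℂ) ρ)).image
          e.symm.continuous
      refine hc.isBounded.subset ?_
      intro x hx
      have h1 := hin x hx
      refine ⟨e x, ⟨?_, ?_⟩, e.symm_apply_apply x⟩
      · rw [mem_closedBall, dist_zero_right]; exact h1.1.le
      · rw [mem_closedBall, dist_zero_right]; exact h1.2.le
    · intro x hx
      have h1 := hin x hx
      have h0 := (hiff x).1 hx
      have nk : ∀ᶠ y in 𝓝 (e x).1, f y = k y := by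
        have : ∀ᶠ y in 𝓝 (e x).1, ‖y‖ < ρ :=
          continuous_norm.continuousAt.eventually_lt continuousAt_const h1.1
        filter_upwards [this] with y hy
        exact (hk1 y hy.le).symm
      have nl : ∀ᶠ y in 𝓝 (e x).2, g y = l y := by
        have : ∀ᶠ y in 𝓝 (e x).2, ‖y‖ < ρ :=
          continuous_norm.continuousAt.eventually_lt continuousAt_const h1.2
        filter_upwards [this] with y hy
        exact (hl1 y hy.le).symm
      rcases hr x h0 with h2 | h2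
      · obtain ⟨v, hv⟩ := Norm_neg_dir h2
        have d1 : Desc1 f (e x).1 v :=
          desc1_smooth ((sf.contDiffAt).of_le (by exact_mod_cast le_top)) hv
        have d2 : Desc1 k (e x).1 v := Desc1.congr d1 nk
        exact ⟨_, desc_fst e ((sl.neg.of_le (by exact_mod_cast le_top)).locallyLipschitz (𝕂 := ℝ)) d2⟩
      · obtain ⟨v, hv⟩ := Norm_neg_dir h2
        have d1 : Desc1 g (e x).2 v :=
          desc1_smooth ((sg.contDiffAt).of_le (by exact_mod_cast le_top)) hv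
        have d2 : Desc1 l (e x).2 v := Desc1.congr d1 nl
        have d3 : Desc1 (fun y => -l y) (e x).2 (-v) := Desc.neg d2
        exact ⟨_, desc_snd e ((sk.of_le (by exact_mod_cast le_top)).locallyLipschitz (𝕂 := ℝ)) d3⟩

/-- PROOF. The set `{x | ρ ≤ ‖(e x).1‖ ∨ ρ ≤ ‖(e x).2‖}` is connected for `ρ > 0` (the complement of a convex
bounded open set; or: it contains `{ρ' ≤ ‖x‖}`, connected by `outside_preconn`, and each of its points is joined to it
by the ray `t • x`, `1 ≤ t`), contains no zero for large `ρ`, so the sign is constant: `norm_pos` for `(f, g)` or for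
`(-f, -g)`. -/
theorem ts_norm (hdim : Module.finrank ℝ V = 4) (e : V ≃L[ℝ] ℂ × ℂ) {f g : ℂ → ℝ}
    (sf : ContDiff ℝ ∞ f) (sg : ContDiff ℝ ∞ g)
    (hb : Bornology.IsBounded {x : V | f (e x).1 + g (e x).2 = 0})
    (hn : {x : V | f (e x).1 + g (e x).2 = 0}.Nonempty)
    (hr : ∀ x : V, f (e x).1 + g (e x).2 = 0 →
      fderiv ℝ f (e x).1 ≠ 0 ∨ fderiv ℝ g (e x).2 ≠ 0) :
    ∃ (p q : ℂ → ℝ) (R : ℝ), ContDiff ℝ ∞ p ∧ ContDiff ℝ ∞ q ∧ 0 < R ∧
      (∃ c : ℝ, ∀ x, R ≤ ‖x‖ → p x = ‖x‖ ^ 2 + c) ∧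
      (∃ c : ℝ, ∀ x, R ≤ ‖x‖ → q x = c - ‖x‖ ^ 2) ∧ Good (sumF e p q) ∧
      ∀ x : V, sumF e p q x = 0 ↔ f (e x).1 + g (e x).2 = 0 := by
  obtain ⟨R, hR⟩ := hb.exists_norm_le
  have hρ : 0 < ‖(e : V →L[ℝ] ℂ × ℂ)‖ * |R| + 1 := by positivity
  set ρ : ℝ := ‖(e : V →L[ℝ] ℂ × ℂ)‖ * |R| + 1 with hρd
  have hz : ∀ x : V, f (e x).1 + g (e x).2 = 0 → ‖e x‖ < ρ := by
    intro x hx
    have h1 : ‖x‖ ≤ R := hR x hx
    have h2 : ‖e x‖ ≤ ‖(e : V →L[ℝ] ℂ × ℂ)‖ * ‖x‖ := (e : V →L[ℝ] ℂ × ℂ).le_opNorm x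
    have h3 : ‖(e : V →L[ℝ] ℂ × ℂ)‖ * ‖x‖ ≤ ‖(e : V →L[ℝ] ℂ × ℂ)‖ * |R| :=
      mul_le_mul_of_nonneg_left (h1.trans (le_abs_self R)) (norm_nonneg _)
    linarith
  have hS : IsPreconnected {x : V | ρ ≤ ‖e x‖} := by
    have h4 : Module.finrank ℝ (ℂ × ℂ) = 4 := by
      rw [Module.finrank_prod, Complex.finrank_real_complex]
    have hr1 : 1 < Module.rank ℝ (ℂ × ℂ) := by
      rw [← Module.finrank_eq_rank, h4]
      exact_mod_cast (by norm_num : (1 : ℕ) < 4)
    have h5 := (Norm_out hr1 hρ).image e.symm e.symm.continuous.continuousOn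
    have h6 : e.symm '' {z : ℂ × ℂ | ρ ≤ ‖z‖} = {x : V | ρ ≤ ‖e x‖} := by
      ext x
      constructor
      · rintro ⟨z, hz1, rfl⟩
        change ρ ≤ ‖e (e.symm z)‖
        rw [e.apply_symm_apply]
        exact hz1
      · intro hx
        exact ⟨e x, hx, e.symm_apply_apply x⟩
    rwa [h6] at h5
  have hmem : ∀ x : V, (ρ ≤ ‖(e x).1‖ ∨ ρ ≤ ‖(e x).2‖) → ρ ≤ ‖e x‖ := by
    intro x hx
    rcases hx with hx | hx
    · exact hx.trans (norm_fst_le (e x))
    · exact hx.trans (norm_snd_le (e x))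
  have cG : Continuous fun x : V => f (e x).1 + g (e x).2 :=
    (sf.continuous.comp (continuous_fst.comp e.continuous)).add
      (sg.continuous.comp (continuous_snd.comp e.continuous))
  by_cases hp : ∀ x : V, ρ ≤ ‖e x‖ → 0 < f (e x).1 + g (e x).2
  · exact norm_pos e sf sg hρ (fun x hx => hp x (hmem x hx)) hn hr
  · push Not at hp
    obtain ⟨x1, hx1, hx1'⟩ := hp
    have hneg : ∀ x : V, ρ ≤ ‖e x‖ → f (e x).1 + g (e x).2 < 0 := by
      intro x hx
      by_contra hc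
      obtain ⟨y, hy, hy0⟩ := hS.intermediate_value (a := x1) (b := x) hx1 hx
        (f := fun x : V => f (e x).1 + g (e x).2) cG.continuousOn
        (show (0 : ℝ) ∈ Icc (f (e x1).1 + g (e x1).2) (f (e x).1 + g (e x).2) from
          ⟨hx1', not_lt.1 hc⟩)
      have h1 := hz y hy0
      have h2 : ρ ≤ ‖e y‖ := hy
      linarith
    obtain ⟨p, q, R', sp, sq, hR', hp1, hq1, hg, hi⟩ := norm_pos e (f := fun x => -f x)
      (g := fun x => -g x) sf.neg sg.neg hρ
      (fun x hx => by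
        have := hneg x (hmem x hx)
        linarith)
      (by
        obtain ⟨x, hx⟩ := hn
        refine ⟨x, ?_⟩
        have hx' : f (e x).1 + g (e x).2 = 0 := hx
        change -f (e x).1 + -g (e x).2 = 0
        linarith)
      (fun x hx => by
        have h0 : f (e x).1 + g (e x).2 = 0 := by linarith
        rcases hr x h0 with h1 | h1
        · left
          rw [fderiv_fun_neg]
          exact neg_ne_zero.2 h1
        · right
          rw [fderiv_fun_neg]
          exact neg_ne_zero.2 h1)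
    refine ⟨p, q, R', sp, sq, hR', hp1, hq1, hg, ?_⟩
    intro x
    rw [hi x]
    constructor
    · intro h; linarith
    · intro h; linarith

end Pool.Schoen
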