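import Pool.Agent.H.MP_6c077c_gt.Ts.RepEnd
import Pool.Agent.H.MP_6c077c_gt.Ts.Init
import Pool.Agent.H.MP_6c077c_gt.Ts.Norm
import Pool.Agent.H.MP_6c077c_gt.IxB.Final

/-! Theorem TS: the final statement. -/

set_option autoImplicit false

namespace Pool.Schoen

open Filter Set Metric
open scoped Topology RealInnerProductSpace ContDiff

variable {V : Type*} [NormedAddCommGroup V] [InnerProductSpace ℝ V] [FiniteDimensional ℝ V]

/-- PROOF. `ts_norm`, `nice_of_level`, `rep_init`, `rep_ball`, `Hom.carries`. -/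
theorem ts_carries (hdim : Module.finrank ℝ V = 4) (e : V ≃L[ℝ] ℂ × ℂ) (f g : ℂ → ℝ)
    (sf : ContDiff ℝ ∞ f) (sg : ContDiff ℝ ∞ g)
    (hb : Bornology.IsBounded {x : V | f (e x).1 + g (e x).2 = 0})
    (hr : ∀ x : V, f (e x).1 + g (e x).2 = 0 →
      fderiv ℝ f (e x).1 ≠ 0 ∨ fderiv ℝ g (e x).2 ≠ 0)
    (hc : IsConnected {x : V | f (e x).1 + g (e x).2 = 0})
    (hl : LiftS {x : V | f (e x).1 + g (e x).2 = 0}) :
    Carries {x : V | f (e x).1 + g (e x).2 = 0} (sphere (0 : V) 1) := by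
  obtain ⟨p, q, R, sp, sq, hR, up, dn, hg, hz⟩ := ts_norm hdim e sf sg hb hc.nonempty hr
  have hset : {x : V | f (e x).1 + g (e x).2 = 0} = {x : V | sumF e p q x = 0} := by
    ext x
    exact (hz x).symm
  rw [hset] at hc hl ⊢
  have hN : Nice (sumF e p q) := nice_of_level hg.cont hc hl
  have hB : IsBall (sumF e p q) := rep_ball (by omega) hN (rep_init e sp sq hR up dn hg)
  have hs : ContDiff ℝ ∞ (sumF e p q) := by
    unfold sumF
    exact (sp.comp (contDiff_fst.comp e.contDiff)).sub (sq.comp (contDiff_snd.comp e.contDiff))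
  exact carries_of_isBall _ hs hB

end Pool.Schoen
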