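import Pool.Agent.H.MP_6c077c_gt.Ts.SumF
import Pool.Agent.H.MP_6c077c_gt.Ts.Push
import Pool.Agent.H.MP_6c077c_gt.Al.HomTop

/-! Theorem TS: connectedness and the lifting property of the two sides. -/

set_option autoImplicit false

namespace Pool.Schoen

open Filter Set Metric
open scoped Topology RealInnerProductSpace ContDiff

variable {V : Type*} [NormedAddCommGroup V] [InnerProductSpace ℝ V] [FiniteDimensional ℝ V]

/-- Both sides are connected with the lifting property. -/
structure Nice (F : V → ℝ) : Prop where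
  conn : IsConnected {x | F x ≤ 0}
  lift : LiftS {x | F x ≤ 0}
  conn' : IsConnected {x | 0 ≤ F x}
  lift' : LiftS {x | 0 ≤ F x}

/-- `Hom.nonneg_conn` etc. from Al/HomTop.lean. -/
theorem Hom.nice (hdim : 3 ≤ Module.finrank ℝ V) {F G : V → ℝ} (h : Hom F G) (hn : Nice F) :
    Nice G :=
  ⟨h.nonpos_conn (by omega) hn.conn, h.nonpos_lift hdim hn.lift,
    h.nonneg_conn (by omega) hn.conn', h.nonneg_lift hdim hn.lift'⟩

omit [FiniteDimensional ℝ V] in
theorem Nice.neg {F : V → ℝ} (h : Nice F) : Nice fun x => -F x := by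
  have h1 : {x : V | -F x ≤ 0} = {x | 0 ≤ F x} := by
    ext x
    change -F x ≤ 0 ↔ 0 ≤ F x
    exact neg_nonpos
  have h2 : {x : V | 0 ≤ -F x} = {x | F x ≤ 0} := by
    ext x
    change 0 ≤ -F x ↔ F x ≤ 0
    exact neg_nonneg
  refine ⟨?_, ?_, ?_, ?_⟩
  · rw [h1]
    exact h.conn'
  · rw [h1]
    exact h.lift'
  · rw [h2]
    exact h.conn
  · rw [h2]
    exact h.lift

/-- If two closed sets have a connected union and a connected intersection, the first one is
connected. -/
private theorem nice_conn_of_union {Y : Type*} [TopologicalSpace Y] {A B : Set Y}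
    (hA : IsClosed A) (hB : IsClosed B) (h1 : IsPreconnected (A ∪ B))
    (h2 : IsConnected (A ∩ B)) : IsConnected A := by
  refine ⟨h2.nonempty.mono inter_subset_left, ?_⟩
  rw [isPreconnected_iff_subset_of_disjoint_closed]
  intro u v hu hv hAuv huv
  have key : ∀ u v : Set Y, IsClosed u → IsClosed v → A ⊆ u ∪ v → A ∩ (u ∩ v) = ∅ →
      A ∩ B ⊆ u → A ⊆ u := by
    intro u v hu hv hAuv huv hI
    have h3 : IsClosed (u ∩ A ∪ B) := (hu.inter hA).union hB
    have h4 : IsClosed (v ∩ A) := hv.inter hA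
    have h5 : A ∪ B ⊆ (u ∩ A ∪ B) ∪ (v ∩ A) := by
      rintro x (hx | hx)
      · rcases hAuv hx with h | h
        · exact Or.inl (Or.inl ⟨h, hx⟩)
        · exact Or.inr ⟨h, hx⟩
      · exact Or.inl (Or.inr hx)
    have h6 : (A ∪ B) ∩ ((u ∩ A ∪ B) ∩ (v ∩ A)) = ∅ := by
      rw [Set.eq_empty_iff_forall_notMem]
      rintro x ⟨-, (⟨hxu, hxA⟩ | hxB), hxv, hxA'⟩
      · exact (Set.eq_empty_iff_forall_notMem.1 huv) x ⟨hxA, hxu, hxv⟩
      · exact (Set.eq_empty_iff_forall_notMem.1 huv) x ⟨hxA', hI ⟨hxA', hxB⟩, hxv⟩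
    rcases (isPreconnected_iff_subset_of_disjoint_closed.1 h1) _ _ h3 h4 h5 h6 with h | h
    · intro x hx
      rcases hAuv hx with h7 | h7
      · exact h7
      · rcases h (Or.inl hx) with h8 | h8
        · exact h8.1
        · exact hI ⟨hx, h8⟩
    · exfalso
      obtain ⟨x, hx⟩ := h2.nonempty
      have h7 := h (Or.inl hx.1)
      exact (Set.eq_empty_iff_forall_notMem.1 huv) x ⟨hx.1, hI hx, h7.1⟩
  have h3 := (isPreconnected_iff_subset_of_disjoint_closed.1 h2.isPreconnected) u v hu hv
    (inter_subset_left.trans hAuv) (by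
      rw [Set.eq_empty_iff_forall_notMem]
      rintro x ⟨⟨hx, -⟩, hx'⟩
      exact (Set.eq_empty_iff_forall_notMem.1 huv) x ⟨hx, hx'⟩)
  rcases h3 with h3 | h3
  · exact Or.inl (key u v hu hv hAuv huv h3)
  · exact Or.inr (key v u hv hu (by rwa [union_comm]) (by rwa [inter_comm v u]) h3)

/-- From the level set. -/
theorem nice_of_level {F : V → ℝ} (hF : Continuous F) (hc : IsConnected {x | F x = 0})
    (hl : LiftS {x | F x = 0}) : Nice F := by
  have hA : IsClosed {x : V | F x ≤ 0} := isClosed_le hF continuous_const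
  have hB : IsClosed {x : V | 0 ≤ F x} := isClosed_le continuous_const hF
  have hun : {x : V | F x ≤ 0} ∪ {x | 0 ≤ F x} = univ :=
    eq_univ_of_forall fun x => le_total (F x) 0
  have hin : {x : V | F x ≤ 0} ∩ {x | 0 ≤ F x} = {x | F x = 0} := by
    ext x
    exact ⟨fun h => le_antisymm h.1 h.2, fun h => ⟨h.le, h.ge⟩⟩
  have hun' : {x : V | 0 ≤ F x} ∪ {x | F x ≤ 0} = univ := by rw [union_comm, hun]
  have hin' : {x : V | 0 ≤ F x} ∩ {x | F x ≤ 0} = {x | F x = 0} := by rw [inter_comm, hin]
  refine ⟨?_, ?_, ?_, ?_⟩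
  · exact nice_conn_of_union hA hB (by rw [hun]; exact isPreconnected_univ) (by rwa [hin])
  · exact LiftS.of_union hA hB (by rw [hun]; exact liftS_univ V) (by rwa [hin])
  · exact nice_conn_of_union hB hA (by rw [hun']; exact isPreconnected_univ) (by rwa [hin'])
  · exact LiftS.of_union hB hA (by rw [hun']; exact liftS_univ V) (by rwa [hin'])

/-- A continuous image with a continuous section. -/
private theorem nice_section {Y Z : Type*} [TopologicalSpace Y] [TopologicalSpace Z]
    {A : Set Y} {B : Set Z} {f : Y → Z} {s : Z → Y} (hf : Continuous f) (hs : Continuous s)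
    (hAB : MapsTo f A B) (hBA : MapsTo s B A) (hid : ∀ z ∈ B, f (s z) = z) :
    (IsPreconnected A → IsPreconnected B) ∧ (LiftS A → LiftS B) := by
  constructor
  · intro h
    have h1 : B = f '' A := by
      ext z
      constructor
      · intro hz
        exact ⟨s z, hBA hz, hid z hz⟩
      · rintro ⟨y, hy, rfl⟩
        exact hAB hy
    rw [h1]
    exact h.image f hf.continuousOn
  · intro h u hu hn
    obtain ⟨v, cv, ev⟩ := h (u ∘ f) (hu.comp hf.continuousOn hAB) fun y hy => hn _ (hAB hy)
    refine ⟨v ∘ s, cv.comp hs.continuousOn hBA, fun z hz => ?_⟩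
    have h1 := ev (s z) (hBA hz)
    rwa [Function.comp_apply, hid z hz] at h1

omit [FiniteDimensional ℝ V] in
/-- The truncated sides. -/
theorem nice_wd (e : V ≃L[ℝ] ℂ × ℂ) {p q : ℂ → ℝ} (cp : Continuous p) (cq : Continuous q)
    {R lo hi : ℝ} (hR : 0 < R) (up : ∀ x, R ≤ ‖x‖ → hi < p x) (dn : ∀ y, R ≤ ‖y‖ → q y < lo)
    (pl : ∀ x, lo < p x) (qh : ∀ y, q y < hi) (hn : Nice (sumF e p q)) :
    IsPreconnected (Wd p q R) ∧ LiftS (Wd p q R) ∧ IsPreconnected (Wd q p R) ∧
      LiftS (Wd q p R) := by
  have _ := cp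
  have _ := cq
  have h1 := nice_section (A := {x | sumF e p q x ≤ 0}) (B := Wd p q R) (f := fun x => e x)
    (s := fun z => e.symm z) e.continuous e.symm.continuous
    (by
      intro x hx
      have hx' : p (e x).1 - q (e x).2 ≤ 0 := hx
      refine ⟨?_, ?_, by linarith⟩
      · by_contra h
        have := up _ (not_le.1 h).le
        have := qh (e x).2
        linarith
      · by_contra h
        have := dn _ (not_le.1 h).le
        have := pl (e x).1
        linarith)
    (by
      intro z hz
      change p (e (e.symm z)).1 - q (e (e.symm z)).2 ≤ 0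
      rw [e.apply_symm_apply]
      have := hz.2.2
      linarith)
    (fun z _ => e.apply_symm_apply z)
  have h2 := nice_section (A := {x | 0 ≤ sumF e p q x}) (B := Wd q p R)
    (f := fun x => (rt R (e x).2, rt R (e x).1)) (s := fun z : ℂ × ℂ => e.symm (z.2, z.1))
    (((continuous_rt hR).comp (continuous_snd.comp e.continuous)).prodMk
      ((continuous_rt hR).comp (continuous_fst.comp e.continuous)))
    (e.symm.continuous.comp (continuous_snd.prodMk continuous_fst))
    (by
      intro x hx
      have hx' : 0 ≤ p (e x).1 - q (e x).2 := hx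
      refine ⟨norm_rt_le hR _, norm_rt_le hR _, ?_⟩
      change q (rt R (e x).2) ≤ p (rt R (e x).1)
      rcases le_total R ‖(e x).1‖ with h | h
      · have h3 := up _ (rt_norm_of_ge hR h).ge
        have h4 := qh (rt R (e x).2)
        linarith
      · rcases le_total R ‖(e x).2‖ with h' | h'
        · have h3 := dn _ (rt_norm_of_ge hR h').ge
          have h4 := pl (rt R (e x).1)
          linarith
        · rw [rt_of_le h, rt_of_le h']
          linarith)
    (by
      intro z hz
      change 0 ≤ p (e (e.symm (z.2, z.1))).1 - q (e (e.symm (z.2, z.1))).2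
      rw [e.apply_symm_apply]
      have := hz.2.2
      linarith)
    (by
      intro z hz
      change (rt R (e (e.symm (z.2, z.1))).2, rt R (e (e.symm (z.2, z.1))).1) = z
      rw [e.apply_symm_apply]
      change (rt R z.1, rt R z.2) = z
      rw [rt_of_le hz.1, rt_of_le hz.2.1])
  exact ⟨h1.1 hn.conn.isPreconnected, h1.2 hn.lift, h2.1 hn.conn'.isPreconnected,
    h2.2 hn.lift'⟩

end Pool.Schoen
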