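import Pool.Agent.H.MP_6c077c_gt.Ts.Comp
import Pool.Agent.H.MP_6c077c_gt.Ts.Sep

/-! Theorem TS: a component of the slab `{a ≤ h ≤ b}` if nothing changes between `a` and `b`. -/

set_option autoImplicit false

namespace Pool.Schoen

open Filter Set Metric
open scoped Topology RealInnerProductSpace ContDiff

/-- `Q` is a component of `{a ≤ h ≤ b}`, `K` and `L` are the components of `{h ≤ a}` and `{b ≤ h}` which
meet it. -/
structure Qd (h : ℂ → ℝ) (a b : ℝ) (Q K L : Set ℂ) : Prop where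
  hc : Continuous h
  hab : a < b
  ra : TReg h a a
  rb : TReg h b b
  clQ : Clp Q {x | a ≤ h x ∧ h x ≤ b}
  conQ : IsPreconnected Q
  clK : Clp K {x | h x ≤ a}
  conK : IsPreconnected K
  clL : Clp L {x | b ≤ h x}
  conL : IsPreconnected L
  QK : ∀ x ∈ Q, h x ≤ a → x ∈ K
  QL : ∀ x ∈ Q, b ≤ h x → x ∈ L
  neK : (Q ∩ K).Nonempty
  neL : (Q ∩ L).Nonempty
  noN : ∀ E, Clp E {x | h x ≤ b} → (∀ x ∈ E, a < h x) → E = ∅
  noN' : ∀ E, Clp E {x | a ≤ h x} → (∀ x ∈ E, h x < b) → E = ∅

theorem Qd_le (h : ℂ → ℝ) (c : ℝ) : {x : ℂ | -h x ≤ -c} = {x | c ≤ h x} :=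
  Set.ext fun x => (neg_le_neg_iff : -h x ≤ -c ↔ c ≤ h x)

theorem Qd_ge (h : ℂ → ℝ) (c : ℝ) : {x : ℂ | -c ≤ -h x} = {x | h x ≤ c} :=
  Set.ext fun x => (neg_le_neg_iff : -c ≤ -h x ↔ h x ≤ c)

theorem Qd_lt (h : ℂ → ℝ) (c : ℝ) : {x : ℂ | -h x < -c} = {x | c < h x} :=
  Set.ext fun x => (neg_lt_neg_iff : -h x < -c ↔ c < h x)

theorem Qd.neg {h : ℂ → ℝ} {a b : ℝ} {Q K L : Set ℂ} (H : Qd h a b Q K L) :
    Qd (fun x => -h x) (-b) (-a) Q L K := by
  have e1 : {x : ℂ | -b ≤ -h x ∧ -h x ≤ -a} = {x | a ≤ h x ∧ h x ≤ b} := by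
    ext x
    show (-b ≤ -h x ∧ -h x ≤ -a) ↔ (a ≤ h x ∧ h x ≤ b)
    rw [neg_le_neg_iff, neg_le_neg_iff]
    exact and_comm
  have e2 := Qd_le h b
  have e3 := Qd_ge h a
  have e4 := Qd_le h a
  have e5 := Qd_ge h b
  exact
    { hc := H.hc.neg
      hab := neg_lt_neg H.hab
      ra := H.rb.neg
      rb := H.ra.neg
      clQ := by
        rw [e1]
        exact H.clQ
      conQ := H.conQ
      clK := by
        rw [e2]
        exact H.clL
      conK := H.conL
      clL := by
        rw [e3]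
        exact H.clK
      conL := H.conK
      QK := fun x hx h1 => H.QL x hx (neg_le_neg_iff.1 h1)
      QL := fun x hx h1 => H.QK x hx (neg_le_neg_iff.1 h1)
      neK := H.neL
      neL := H.neK
      noN := by
        intro E hE hE'
        rw [e4] at hE
        exact H.noN' E hE fun x hx => neg_lt_neg_iff.1 (hE' x hx)
      noN' := by
        intro E hE hE'
        rw [e5] at hE
        exact H.noN E hE fun x hx => neg_lt_neg_iff.1 (hE' x hx) }

/-- PROOF. `Q` is clopen in the slab (`slab_clp`). `Q` meets `{h ≤ a}`: otherwise `Q` is clopen in `{h ≤ b}`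
(`{h ≤ b} \ Q = {h ≤ a} ∪ (slab \ Q)`) and `Chg` holds (first alternative). `Q` meets `{b ≤ h}`: same, third
alternative. Let `k`, `l` be such points, `K`, `L` their components in `{h ≤ a}`, `{b ≤ h}` (`comp_clp`, for
`-h` and `-b` in the second case). If `x ∈ Q`, `h x ≤ a` then `x`, `k` are joined in `{h ≤ b}` by `Q`, so (no
second alternative) joined in `{h ≤ a}`, so `x ∈ K`. Same for `L`. -/
theorem qd_exists {h : ℂ → ℝ} (hc : Continuous h) {a b : ℝ} (hab : a < b) (ra : TReg h a a)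
    (rb : TReg h b b) (hn : ¬ Chg h a b) {x0 : ℂ} (h1 : a ≤ h x0) (h2 : h x0 ≤ b) :
    ∃ K L, Qd h a b (connectedComponentIn {x | a ≤ h x ∧ h x ≤ b} x0) K L := by
  obtain ⟨Q, hQ⟩ : ∃ Q, Q = connectedComponentIn {x | a ≤ h x ∧ h x ≤ b} x0 := ⟨_, rfl⟩
  have hx0 : x0 ∈ Q := by
    rw [hQ]
    exact mem_connectedComponentIn ⟨h1, h2⟩
  have clQ : Clp Q {x | a ≤ h x ∧ h x ≤ b} := by
    rw [hQ]
    exact slab_clp hc hab ra rb x0
  have conQ : IsPreconnected Q := by
    rw [hQ]
    exact isPreconnected_connectedComponentIn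
  rw [← hQ]
  have noN : ∀ E, Clp E {x | h x ≤ b} → (∀ x ∈ E, a < h x) → E = ∅ := by
    intro E hE hE'
    by_contra hne
    exact hn (Or.inl ⟨E, nonempty_iff_ne_empty.2 hne, hE, hE'⟩)
  have noN' : ∀ E, Clp E {x | a ≤ h x} → (∀ x ∈ E, h x < b) → E = ∅ := by
    intro E hE hE'
    by_contra hne
    exact hn (Or.inr (Or.inr (Or.inl ⟨E, nonempty_iff_ne_empty.2 hne, hE, hE'⟩)))
  have hk : ∃ k ∈ Q, h k ≤ a := by
    by_contra hno
    push Not at hno
    have h3 : Clp Q {x | h x ≤ b} := by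
      refine ⟨fun x hx => (clQ.1 hx).2, clQ.2.1, ?_⟩
      have e : {x | h x ≤ b} \ Q = {x | h x ≤ a} ∪ ({x | a ≤ h x ∧ h x ≤ b} \ Q) := by
        ext x
        constructor
        · rintro ⟨hx, hxQ⟩
          rcases le_total (h x) a with h4 | h4
          · exact Or.inl h4
          · exact Or.inr ⟨⟨h4, hx⟩, hxQ⟩
        · rintro (hx | hx)
          · exact ⟨le_trans (show h x ≤ a from hx) hab.le,
              fun hxQ => absurd (hno x hxQ) (not_lt.2 hx)⟩
          · exact ⟨hx.1.2, hx.2⟩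
      rw [e]
      exact (isClosed_le hc continuous_const).union clQ.2.2
    have h4 := noN Q h3 hno
    rw [h4] at hx0
    exact hx0
  have hl : ∃ l ∈ Q, b ≤ h l := by
    by_contra hno
    push Not at hno
    have h3 : Clp Q {x | a ≤ h x} := by
      refine ⟨fun x hx => (clQ.1 hx).1, clQ.2.1, ?_⟩
      have e : {x | a ≤ h x} \ Q = {x | b ≤ h x} ∪ ({x | a ≤ h x ∧ h x ≤ b} \ Q) := by
        ext x
        constructor
        · rintro ⟨hx, hxQ⟩
          rcases le_total b (h x) with h4 | h4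
          · exact Or.inl h4
          · exact Or.inr ⟨⟨hx, h4⟩, hxQ⟩
        · rintro (hx | hx)
          · exact ⟨hab.le.trans (show b ≤ h x from hx),
              fun hxQ => absurd (hno x hxQ) (not_lt.2 hx)⟩
          · exact ⟨hx.1.1, hx.2⟩
      rw [e]
      exact (isClosed_le continuous_const hc).union clQ.2.2
    have h4 := noN' Q h3 hno
    rw [h4] at hx0
    exact hx0
  obtain ⟨k, hkQ, hka⟩ := hk
  obtain ⟨l, hlQ, hlb⟩ := hl
  refine ⟨connectedComponentIn {x | h x ≤ a} k, connectedComponentIn {x | b ≤ h x} l, ?_⟩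
  exact
    { hc := hc
      hab := hab
      ra := ra
      rb := rb
      clQ := clQ
      conQ := conQ
      clK := comp_clp hc ra k
      conK := isPreconnected_connectedComponentIn
      clL := by
        have h3 := comp_clp (h := fun x => -h x) hc.neg rb.neg l
        rw [Qd_le] at h3
        exact h3
      conL := isPreconnected_connectedComponentIn
      QK := by
        intro x hx hxa
        by_contra hno
        exact hn (Or.inr (Or.inl ⟨k, x, hka, hxa, fun hcon => hno (Comp_mem hcon),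
          ⟨Q, fun y hy => (clQ.1 hy).2, conQ, hkQ, hx⟩⟩))
      QL := by
        intro x hx hxb
        by_contra hno
        exact hn (Or.inr (Or.inr (Or.inr ⟨l, x, hlb, hxb, fun hcon => hno (Comp_mem hcon),
          ⟨Q, fun y hy => (clQ.1 hy).1, conQ, hlQ, hx⟩⟩)))
      neK := ⟨k, hkQ, mem_connectedComponentIn (show k ∈ {x | h x ≤ a} from hka)⟩
      neL := ⟨l, hlQ, mem_connectedComponentIn (show l ∈ {x | b ≤ h x} from hlb)⟩
      noN := noN
      noN' := noN' }

/-- The structure of `{a < h}` near a regular point. PROOF. See `sep_local_lt` in Ts/Sep.lean (for `-h`). -/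
theorem up_local {h : ℂ → ℝ} (hc : Continuous h) {a : ℝ} (ra : TReg h a a) {x : ℂ} (hx : h x = a) :
    ∃ U ∈ 𝓝 x, (∀ y ∈ U, ∀ y' ∈ U, a < h y → a < h y' → Con {z | a < h z} y y') ∧
      ∀ y ∈ U, a ≤ h y → y ∈ closure (U ∩ {z | a < h z}) := by
  have hr : Reg (fun x => -h x) (-a) := fun y hy => ra.neg y hy.ge hy.le
  obtain ⟨U, hU, hj⟩ := sep_local_lt (h := fun x => -h x) hc.neg hr (x := x)
    (show -h x ≤ -a by rw [hx])
  have e := Qd_lt h a
  refine ⟨interior U, interior_mem_nhds.2 hU, ?_, ?_⟩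
  · intro y hy y' hy' h1 h2
    have h3 := hj y (interior_subset hy) y' (interior_subset hy') (neg_lt_neg h1) (neg_lt_neg h2)
    rw [e] at h3
    exact h3
  · intro y hy h1
    have h2 : y ∈ closure {z | a < h z} := by
      rcases h1.lt_or_eq with h1 | h1
      · exact subset_closure h1
      · have h3 := reg_closure hr (x := y) (show -h y = -a by rw [h1])
        rw [e] at h3
        exact h3
    exact isOpen_interior.inter_closure ⟨hy, h2⟩

/-- A boundary point of a component of the complement of `K` is in `K`. -/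
theorem Qd_frontier {K : Set ℂ} (hK : IsClosed K) {y z : ℂ}
    (h : y ∈ closure (connectedComponentIn Kᶜ z)) (h' : y ∉ connectedComponentIn Kᶜ z) : y ∈ K := by
  by_contra hy
  have h1 : y ∈ connectedComponentIn Kᶜ y := mem_connectedComponentIn hy
  have h2 : IsOpen (connectedComponentIn Kᶜ y) := hK.isOpen_compl.connectedComponentIn
  obtain ⟨w, hw1, hw2⟩ := mem_closure_iff_nhds.1 h _ (h2.mem_nhds h1)
  apply h'
  rw [connectedComponentIn_eq hw2, ← connectedComponentIn_eq hw1]
  exact h1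

/-- `Q` leaves `K` only into the component of `Kᶜ` which contains `L`. PROOF. Let `z ∈ Q`, `z ∉ K`, and let
`C` be the component of `z` in `Kᶜ`; suppose `z` is not in the component of `l`, so `C` is disjoint from it
and from `L`. `E = Q ∩ closure C` is closed, contains `z`. Claim: `E` is relatively open in `{a ≤ h}` and
`h < b` on `E`; then `noN'` gives a contradiction. Let `x ∈ E`. If `x ∉ K` then `x ∈ C` (`compK_frontier`),
`a < h x` (`QK`), `h x < b` (`QL`), so near `x` all points are in the slab, so in `Q` (`clQ`), and in `C`.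
If `x ∈ K` then `h x = a < b`. Near `x` the points of `{a ≤ h}` are in the slab, so in `Q`; near `x` the points
of `{h ≤ a}` are in `K` (`clK`); as `x ∈ closure C` there are points of `C` near `x`, they have `a < h`; by
`up_local` all points of `{a < h}` near `x` are in `C` (`{a < h} ⊆ Kᶜ`) and the points of `{a ≤ h}` near `x`
are in `closure C`. -/
theorem Qd.side {h : ℂ → ℝ} {a b : ℝ} {Q K L : Set ℂ} (H : Qd h a b Q K L) {l : ℂ} (hl : l ∈ L)
    {z : ℂ} (hz : z ∈ Q) (hzK : z ∉ K) : z ∈ connectedComponentIn Kᶜ l := by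
  by_contra hno
  obtain ⟨C, hC⟩ : ∃ C, C = connectedComponentIn Kᶜ z := ⟨_, rfl⟩
  have hzC : z ∈ C := by
    rw [hC]
    exact mem_connectedComponentIn hzK
  have hCo : IsOpen C := by
    rw [hC]
    exact H.clK.2.1.isOpen_compl.connectedComponentIn
  have hCK : C ⊆ Kᶜ := by
    rw [hC]
    exact connectedComponentIn_subset _ _
  have hLK : L ⊆ Kᶜ := by
    intro y hy hyK
    have h1 : b ≤ h y := H.clL.1 hy
    have h2 : h y ≤ a := H.clK.1 hyK
    exact absurd (h1.trans h2) (not_le.2 H.hab)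
  have hCL : ∀ y ∈ C, y ∉ L := by
    intro y hy hyL
    apply hno
    rw [hC] at hy
    have h1 : l ∈ connectedComponentIn Kᶜ y := H.conL.subset_connectedComponentIn hyL hLK hl
    rw [← connectedComponentIn_eq hy] at h1
    rw [← connectedComponentIn_eq h1]
    exact mem_connectedComponentIn hzK
  have hCcl : ∀ y ∈ closure C, y ∉ K → y ∈ C := by
    intro y hy hyK
    by_contra h1
    rw [hC] at hy h1
    exact hyK (Qd_frontier H.clK.2.1 hy h1)
  -- near a point of `Q` the points of the slab are in `Q`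
  have nearQ : ∀ x ∈ Q, ∀ᶠ y in 𝓝 x, (a ≤ h y ∧ h y ≤ b) → y ∈ Q := by
    intro x hx
    filter_upwards [H.clQ.2.2.isOpen_compl.mem_nhds fun h1 => h1.2 hx] with y hy h1
    by_contra h2
    exact hy ⟨h1, h2⟩
  have nearK : ∀ x ∈ K, ∀ᶠ y in 𝓝 x, h y ≤ a → y ∈ K := by
    intro x hx
    filter_upwards [H.clK.2.2.isOpen_compl.mem_nhds fun h1 => h1.2 hx] with y hy h1
    by_contra h2
    exact hy ⟨h1, h2⟩
  have hEb : ∀ x ∈ Q ∩ closure C, h x < b := by
    rintro x ⟨hxQ, hxC⟩
    by_contra h1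
    by_cases hxK : x ∈ K
    · have h2 : h x ≤ a := H.clK.1 hxK
      exact h1 (h2.trans_lt H.hab)
    · exact hCL x (hCcl x hxC hxK) (H.QL x hxQ (not_lt.1 h1))
  have key : ∀ x ∈ Q ∩ closure C, ∀ᶠ y in 𝓝 x, a ≤ h y → y ∈ Q ∩ closure C := by
    rintro x ⟨hxQ, hxC⟩
    have hxb : h x < b := hEb x ⟨hxQ, hxC⟩
    have hnb : ∀ᶠ y in 𝓝 x, h y < b := H.hc.continuousAt.eventually_lt_const hxb
    by_cases hxK : x ∈ K
    · have hxa : h x = a := le_antisymm (H.clK.1 hxK) (H.clQ.1 hxQ).1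
      obtain ⟨U, hU, hj, hcl⟩ := up_local H.hc H.ra hxa
      obtain ⟨c, ⟨hcU, hcK⟩, hcC⟩ := mem_closure_iff_nhds.1 hxC _
        (inter_mem hU (nearK x hxK))
      have hca : a < h c := by
        by_contra h1
        exact hCK hcC (hcK (not_lt.1 h1))
      have hUC : U ∩ {z | a < h z} ⊆ C := by
        rintro y ⟨hyU, hya⟩
        have h1 : Con {z | a < h z} c y := hj c hcU y hyU hca hya
        have h2 : Con Kᶜ c y := h1.mono fun w hw hwK =>
          absurd (show h w ≤ a from H.clK.1 hwK) (not_le.2 hw)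
        have h3 := Comp_mem h2
        rw [hC] at hcC ⊢
        rw [connectedComponentIn_eq hcC]
        exact h3
      filter_upwards [hU, nearQ x hxQ, hnb] with y hyU hyQ hyb hya
      exact ⟨hyQ ⟨hya, hyb.le⟩, closure_mono hUC (hcl y hyU hya)⟩
    · filter_upwards [hCo.mem_nhds (hCcl x hxC hxK), nearQ x hxQ, hnb] with y hyC hyQ hyb hya
      exact ⟨hyQ ⟨hya, hyb.le⟩, subset_closure hyC⟩
  have hclp : Clp (Q ∩ closure C) {x | a ≤ h x} := by
    refine ⟨fun x hx => (H.clQ.1 hx.1).1, H.clQ.2.1.inter isClosed_closure, ?_⟩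
    refine isClosed_of_closure_subset fun x hx => ?_
    have hxa : a ≤ h x :=
      closure_minimal sdiff_subset (isClosed_le continuous_const H.hc) hx
    refine ⟨hxa, fun hxE => ?_⟩
    obtain ⟨y, hy1, hy2⟩ := mem_closure_iff_nhds.1 hx _ (key x hxE)
    exact hy2.2 (hy1 hy2.1)
  have h1 := H.noN' _ hclp hEb
  have h2 : z ∈ Q ∩ closure C := ⟨hz, subset_closure hzC⟩
  rw [h1] at h2
  exact h2

end Pool.Schoen
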