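import Mathlib

/-! Theorem TS: an equation which can be solved for the first variable along a compact set. -/

set_option autoImplicit false

namespace Pool.Schoen

open Filter Set
open scoped Topology ContDiff

/-- The derivative of `z ↦ (Ψ z, z.2)` is invertible if the first partial derivative of `Ψ` is not zero. -/
theorem RelP_equiv (L : ℝ × ℂ →L[ℝ] ℝ) (hL : L (1, 0) ≠ 0) :
    ∃ e : (ℝ × ℂ) ≃L[ℝ] (ℝ × ℂ),
      (e : ℝ × ℂ →L[ℝ] ℝ × ℂ) = L.prod (ContinuousLinearMap.snd ℝ ℝ ℂ) := by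
  have hsplit : ∀ (a : ℝ) (b : ℂ), L (a, b) = a * L (1, 0) + L (0, b) := by
    intro a b
    have h1 : ((a, b) : ℝ × ℂ) = a • ((1, 0) : ℝ × ℂ) + (0, b) := by
      ext
      · simp
      · simp
    rw [h1, map_add, map_smul, smul_eq_mul]
  refine ⟨ContinuousLinearEquiv.equivOfInverse (L.prod (ContinuousLinearMap.snd ℝ ℝ ℂ))
    (((L (1, 0))⁻¹ • (ContinuousLinearMap.fst ℝ ℝ ℂ -
      L.comp ((ContinuousLinearMap.inr ℝ ℝ ℂ).comp (ContinuousLinearMap.snd ℝ ℝ ℂ)))).prod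
        (ContinuousLinearMap.snd ℝ ℝ ℂ)) ?_ ?_, ?_⟩
  · rintro ⟨a, b⟩
    refine Prod.ext ?_ rfl
    change (L (1, 0))⁻¹ * (L (a, b) - L (0, b)) = a
    rw [hsplit a b]
    field_simp
    ring
  · rintro ⟨a, b⟩
    refine Prod.ext ?_ rfl
    change L ((L (1, 0))⁻¹ * (a - L (0, b)), b) = a
    rw [hsplit]
    field_simp
    ring
  · rfl

/-- PROOF. `G z = (Ψ z, z.2)` is smooth, its derivative at a point of `C` is invertible, so it is a local
diffeomorphism there (`ContDiffAt.toOpenPartialHomeomorph`, `ContDiffAt.to_localInverse`), and `G` is injective on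
`C`, so on an open neighbourhood `t` of `C` (`Set.InjOn.exists_mem_nhdsSet`), which can be chosen such that the derivative is
invertible on `t`. `O = {y | (0, y) ∈ G '' t}`, `α y` = the first component of the point `z ∈ t` with `G z = (0, y)`;
near every point of `O` it is given by a local inverse of `G`, so it is smooth. -/
theorem psi_graph {Ψ : ℝ × ℂ → ℝ} (sΨ : ContDiff ℝ ∞ Ψ) {C : Set (ℝ × ℂ)} (hC : IsCompact C)
    (h0 : ∀ z ∈ C, Ψ z = 0) (hu : ∀ z ∈ C, 0 < fderiv ℝ Ψ z (1, 0))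
    (hinj : ∀ z ∈ C, ∀ z' ∈ C, z.2 = z'.2 → z = z') :
    ∃ (O : Set ℂ) (α : ℂ → ℝ), IsOpen O ∧ (∀ z ∈ C, z.2 ∈ O ∧ α z.2 = z.1) ∧
      ContDiffOn ℝ ∞ α O ∧ ∀ y ∈ O, Ψ (α y, y) = 0 := by
  classical
  have hn0 : (∞ : WithTop ℕ∞) ≠ 0 := by simp
  obtain ⟨G, hG⟩ : ∃ G : ℝ × ℂ → ℝ × ℂ, G = fun z => (Ψ z, z.2) := ⟨_, rfl⟩
  have sG : ContDiff ℝ ∞ G := by
    rw [hG]
    exact sΨ.prodMk contDiff_snd
  have cG : Continuous G := sG.continuous
  have dG : ∀ z, 0 < fderiv ℝ Ψ z (1, 0) → ∃ e : (ℝ × ℂ) ≃L[ℝ] (ℝ × ℂ),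
      HasFDerivAt G (e : ℝ × ℂ →L[ℝ] ℝ × ℂ) z := by
    intro z hz
    obtain ⟨e, he⟩ := RelP_equiv (fderiv ℝ Ψ z) hz.ne'
    refine ⟨e, ?_⟩
    rw [he, hG]
    have h1 : HasFDerivAt Ψ (fderiv ℝ Ψ z) z :=
      (sΨ.contDiffAt.differentiableAt hn0).hasFDerivAt
    exact h1.prodMk hasFDerivAt_snd
  have hloc : ∀ z ∈ C, ∃ u ∈ 𝓝 z, InjOn G u := by
    intro z hz
    obtain ⟨e, he⟩ := dG z (hu z hz)
    have hs : HasStrictFDerivAt G (e : ℝ × ℂ →L[ℝ] ℝ × ℂ) z :=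
      sG.contDiffAt.hasStrictFDerivAt' he hn0
    refine ⟨(hs.toOpenPartialHomeomorph G).source,
      (hs.toOpenPartialHomeomorph G).open_source.mem_nhds hs.mem_toOpenPartialHomeomorph_source, ?_⟩
    exact (hs.toOpenPartialHomeomorph G).injOn
  have hCinj : InjOn G C := by
    intro z hz z' hz' h
    refine hinj z hz z' hz' ?_
    rw [hG] at h
    exact (Prod.ext_iff.1 h).2
  obtain ⟨t, ht, htinj⟩ := hCinj.exists_mem_nhdsSet hC (fun z _ => cG.continuousAt) hloc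
  have cu : Continuous fun z => fderiv ℝ Ψ z (1, 0) :=
    (sΨ.continuous_fderiv hn0).clm_apply continuous_const
  obtain ⟨T, hT⟩ : ∃ T : Set (ℝ × ℂ), T = interior t ∩ {z | 0 < fderiv ℝ Ψ z (1, 0)} := ⟨_, rfl⟩
  have oT : IsOpen T := by
    rw [hT]
    exact isOpen_interior.inter (isOpen_lt continuous_const cu)
  have CT : C ⊆ T := by
    intro z hz
    rw [hT]
    refine ⟨?_, hu z hz⟩
    exact subset_interior_iff_mem_nhdsSet.2 ht hz
  have Tinj : InjOn G T := htinj.mono fun z hz => by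
    rw [hT] at hz
    exact interior_subset hz.1
  have Tu : ∀ z ∈ T, 0 < fderiv ℝ Ψ z (1, 0) := fun z hz => by
    rw [hT] at hz
    exact hz.2
  -- the solution
  have key : ∀ y : ℂ, ∃ a : ℝ, ∀ b : ℝ, (b, y) ∈ T → Ψ (b, y) = 0 → b = a := by
    intro y
    by_cases h : ∃ b : ℝ, (b, y) ∈ T ∧ Ψ (b, y) = 0
    · obtain ⟨b, hb, hb0⟩ := h
      refine ⟨b, fun b' hb' hb0' => ?_⟩
      have h1 : G (b', y) = G (b, y) := by
        rw [hG]
        change (Ψ (b', y), y) = (Ψ (b, y), y)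
        rw [hb0, hb0']
      exact (Prod.ext_iff.1 (Tinj hb' hb h1)).1
    · exact ⟨0, fun b hb hb0 => (h ⟨b, hb, hb0⟩).elim⟩
  choose α hα using key
  obtain ⟨O, hO⟩ : ∃ O : Set ℂ, O = {y | ∃ b : ℝ, (b, y) ∈ T ∧ Ψ (b, y) = 0} := ⟨_, rfl⟩
  have hOα : ∀ y ∈ O, (α y, y) ∈ T ∧ Ψ (α y, y) = 0 := by
    intro y hy
    rw [hO] at hy
    obtain ⟨b, hb, hb0⟩ := hy
    rw [← hα y b hb hb0]
    exact ⟨hb, hb0⟩
  have hnear : ∀ y ∈ O, ∃ g : ℂ → ℝ, ContDiffAt ℝ ∞ g y ∧ ∀ᶠ y' in 𝓝 y, y' ∈ O ∧ α y' = g y' := by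
    intro y hy
    obtain ⟨hyT, hy0⟩ := hOα y hy
    obtain ⟨e, he⟩ := dG _ (Tu _ hyT)
    have hs : HasStrictFDerivAt G (e : ℝ × ℂ →L[ℝ] ℝ × ℂ) (α y, y) :=
      sG.contDiffAt.hasStrictFDerivAt' he hn0
    have hGy : G (α y, y) = (0, y) := by
      rw [hG]
      change (Ψ (α y, y), y) = (0, y)
      rw [hy0]
    have s1 : ContDiffAt ℝ ∞ (hs.localInverse G e (α y, y)) (0, y) := by
      have := (sG.contDiffAt (x := (α y, y))).to_localInverse he hn0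
      rw [hGy] at this
      exact this
    have c1 : Tendsto (fun y' : ℂ => ((0, y') : ℝ × ℂ)) (𝓝 y) (𝓝 (0, y)) :=
      (continuous_const.prodMk continuous_id).tendsto y
    have r1 := hs.eventually_right_inverse
    rw [hGy] at r1
    have r2 := hs.localInverse_tendsto
    rw [hGy] at r2
    refine ⟨fun y' => (hs.localInverse G e (α y, y) (0, y')).1, ?_, ?_⟩
    · have h2 : ContDiffAt ℝ ∞ (fun y' : ℂ => ((0, y') : ℝ × ℂ)) y :=
        contDiffAt_const.prodMk contDiffAt_id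
      exact contDiffAt_fst.comp y (s1.comp y h2)
    · filter_upwards [c1.eventually r1, c1.eventually (r2.eventually (oT.mem_nhds hyT))] with y' h3 h4
      obtain ⟨w, hw⟩ : ∃ w, w = hs.localInverse G e (α y, y) (0, y') := ⟨_, rfl⟩
      rw [← hw] at h3 h4 ⊢
      have h5 : Ψ w = 0 ∧ w.2 = y' := by
        rw [hG] at h3
        exact Prod.ext_iff.1 h3
      have h6 : w = (w.1, y') := Prod.ext rfl h5.2
      have h7 : (w.1, y') ∈ T := by
        rw [← h6]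
        exact h4
      have h8 : Ψ (w.1, y') = 0 := by
        rw [← h6]
        exact h5.1
      refine ⟨?_, (hα y' w.1 h7 h8).symm⟩
      rw [hO]
      exact ⟨w.1, h7, h8⟩
  refine ⟨O, α, ?_, ?_, ?_, fun y hy => (hOα y hy).2⟩
  · rw [isOpen_iff_mem_nhds]
    intro y hy
    obtain ⟨g, -, hg⟩ := hnear y hy
    filter_upwards [hg] with y' hy'
    exact hy'.1
  · intro z hz
    have h1 : (z.1, z.2) ∈ T := CT hz
    have h2 : Ψ (z.1, z.2) = 0 := h0 z hz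
    refine ⟨?_, (hα z.2 z.1 h1 h2).symm⟩
    rw [hO]
    exact ⟨z.1, h1, h2⟩
  · intro y hy
    obtain ⟨g, sg, hg⟩ := hnear y hy
    exact (sg.congr_of_eventuallyEq (hg.mono fun y' hy' => hy'.2)).contDiffWithinAt

/-- PROOF. Otherwise let `u1 < u2` be zeros of `φ u = Ψ (u, y)` in `I`; `[u1, u2] ⊆ I`. `φ' u1 > 0`, so
`φ > 0` on `(u1, u1 + ε)`; let `w` be the least zero of `φ` in `[u1 + ε / 2, u2]`; `φ > 0` on `(u1, w)`, so
`φ' w ≤ 0`, contradiction. -/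
theorem psi_unique {Ψ : ℝ × ℂ → ℝ} (sΨ : ContDiff ℝ ∞ Ψ) {I : Set ℝ} (hI : OrdConnected I)
    {y : ℂ} (h : ∀ u ∈ I, Ψ (u, y) = 0 → 0 < fderiv ℝ Ψ (u, y) (1, 0)) {u u' : ℝ} (hu : u ∈ I)
    (hu' : u' ∈ I) (h1 : Ψ (u, y) = 0) (h2 : Ψ (u', y) = 0) : u = u' := by
  have hn0 : (∞ : WithTop ℕ∞) ≠ 0 := by simp
  obtain ⟨φ, hφ⟩ : ∃ φ : ℝ → ℝ, ∀ v, φ v = Ψ (v, y) := ⟨fun v => Ψ (v, y), fun _ => rfl⟩
  have hd : ∀ v, HasDerivAt φ (fderiv ℝ Ψ (v, y) (1, 0)) v := by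
    intro v
    have h3 : HasFDerivAt Ψ (fderiv ℝ Ψ (v, y)) (v, y) :=
      (sΨ.contDiffAt.differentiableAt hn0).hasFDerivAt
    have h4 : HasDerivAt (fun v : ℝ => ((v, y) : ℝ × ℂ)) (1, 0) v :=
      (hasDerivAt_id v).prodMk (hasDerivAt_const v y)
    have h5 := h3.comp_hasDerivAt v h4
    refine h5.congr_of_eventuallyEq (Eventually.of_forall fun v' => ?_)
    exact hφ v'
  have hcont : Continuous φ := continuous_iff_continuousAt.2 fun v => (hd v).continuousAt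
  have slope_pos : ∀ v ∈ I, φ v = 0 → ∀ᶠ x in 𝓝[≠] v, 0 < slope φ v x := by
    intro v hv hv0
    have h3 : 0 < fderiv ℝ Ψ (v, y) (1, 0) := h v hv (by rw [← hφ]; exact hv0)
    exact (hasDerivAt_iff_tendsto_slope.1 (hd v)).eventually (lt_mem_nhds h3)
  have key : ∀ v1 ∈ I, ∀ v2 ∈ I, φ v1 = 0 → φ v2 = 0 → ¬ v1 < v2 := by
    intro v1 hv1 v2 hv2 e1 e2 hlt
    -- a point with a positive value
    obtain ⟨a, ha1, ha2, ha3⟩ : ∃ a, v1 < a ∧ a < v2 ∧ 0 < φ a := by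
      have h3 : ∀ᶠ x in 𝓝[>] v1, 0 < slope φ v1 x :=
        (slope_pos v1 hv1 e1).filter_mono (nhdsWithin_mono _ fun x hx => ne_of_gt hx)
      have h4 : ∀ᶠ x in 𝓝[>] v1, x < v2 := mem_nhdsWithin_of_mem_nhds (Iio_mem_nhds hlt)
      obtain ⟨a, g1, g2, g3⟩ := (h3.and (h4.and self_mem_nhdsWithin)).exists
      refine ⟨a, g3, g2, ?_⟩
      rw [slope_def_field, e1, sub_zero] at g1
      have g4 : 0 < a - v1 := sub_pos.2 g3
      have g5 := mul_pos g1 g4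
      rwa [div_mul_cancel₀ _ g4.ne'] at g5
    have hS : IsCompact (Icc a v2 ∩ {x | φ x = 0}) :=
      isCompact_Icc.inter_right (isClosed_eq hcont continuous_const)
    obtain ⟨w, ⟨hw1, hw2⟩, hwm⟩ := hS.exists_isLeast ⟨v2, ⟨ha2.le, le_rfl⟩, e2⟩
    have hw2' : φ w = 0 := hw2
    have haw : a < w := by
      refine lt_of_le_of_ne hw1.1 fun h3 => ?_
      rw [← h3] at hw2'
      exact ha3.ne' hw2'
    have hwI : w ∈ I := hI.out hv1 hv2 ⟨(ha1.trans haw).le, hw1.2⟩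
    have h3 : ∀ᶠ x in 𝓝[<] w, 0 < slope φ w x :=
      (slope_pos w hwI hw2').filter_mono (nhdsWithin_mono _ fun x hx => ne_of_lt hx)
    have h4 : ∀ᶠ x in 𝓝[<] w, a < x := mem_nhdsWithin_of_mem_nhds (Ioi_mem_nhds haw)
    obtain ⟨x, g1, g2, g3⟩ := (h3.and (h4.and self_mem_nhdsWithin)).exists
    have g3' : x < w := g3
    have hx : φ x < 0 := by
      rw [slope_def_field, hw2', sub_zero] at g1
      have g4 : x - w < 0 := sub_neg.2 g3'
      have g5 := mul_neg_of_pos_of_neg g1 g4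
      rwa [div_mul_cancel₀ _ g4.ne] at g5
    obtain ⟨z, hz, hz0⟩ := intermediate_value_Icc' g2.le (hcont.continuousOn (s := Icc a x))
      (show (0 : ℝ) ∈ Icc (φ x) (φ a) from ⟨hx.le, ha3.le⟩)
    have h5 : w ≤ z := hwm ⟨⟨hz.1, (hz.2.trans g3'.le).trans hw1.2⟩, hz0⟩
    exact absurd (h5.trans hz.2) (not_le.2 g3')
  have e1 : φ u = 0 := (hφ u).trans h1
  have e2 : φ u' = 0 := (hφ u').trans h2
  rcases lt_trichotomy u u' with h3 | h3 | h3
  · exact (key u hu u' hu' e1 e2 h3).elim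
  · exact h3
  · exact (key u' hu' u hu e2 e1 h3).elim

end Pool.Schoen
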