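import Pool.Agent.H.MP_6c077c_gt.Ts.RelP
import Pool.Agent.H.MP_6c077c_gt.Ts.Push

/-! Theorem TS: an equation in which the first two variables enter only by one function. -/

set_option autoImplicit false

namespace Pool.Schoen

open Filter Set Metric
open scoped Topology ContDiff

/-- The case that `f` is large outside of a ball. PROOF. `I = range f` (`OrdConnected`),
`C = {z : ℝ × ℂ | z.1 ∈ I ∧ Ψ z = 0}` is the image of the compact set `{Ψ (f z.1, z.2) = 0}` (closed and bounded) by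
`(x, y) ↦ (f x, y)`. `psi_unique`, `psi_graph`: `O`, `α`. `Y = Prod.snd '' C` is compact, `O` is a neighbourhood. Make
`O` smaller: `α < b` on `O` (`hb1`: `α < b` on `Y`). If `y ∈ O`, `y ∉ Y` then `α y ∉ I` (otherwise
`(α y, y) ∈ C`), and as `α y < b ∈ I`, `α y` is below all of `I`. `Y` is compact and `ℂ` is connected and not
compact, so there is `y1 ∈ O`, `y1 ∉ Y`; `K = α y1`. `χ` smooth, `0 ≤ χ ≤ 1`, `χ = 1` near `Y`, support in `O`;
`A = χ α + (1 - χ) K`. Off `Y` it is below `I`, near `Y` it is `α`. `fderiv`: differentiate `Ψ (α y, y) = 0`. -/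
theorem psi_up {f : ℂ → ℝ} (cf : Continuous f) {Ψ : ℝ × ℂ → ℝ} (sΨ : ContDiff ℝ ∞ Ψ)
    (hb : Bornology.IsBounded {z : ℂ × ℂ | Ψ (f z.1, z.2) = 0})
    (hn : {z : ℂ × ℂ | Ψ (f z.1, z.2) = 0}.Nonempty)
    (hu : ∀ x y, Ψ (f x, y) = 0 → 0 < fderiv ℝ Ψ (f x, y) (1, 0)) {b : ℝ} (hbI : b ∈ range f)
    (hb1 : ∀ x y, Ψ (f x, y) = 0 → f x < b) :
    ∃ A : ℂ → ℝ, ContDiff ℝ ∞ A ∧ (∀ x y, Ψ (f x, y) = 0 ↔ f x = A y) ∧
      ∀ x y, Ψ (f x, y) = 0 → fderiv ℝ A y = 0 → ∀ w, fderiv ℝ Ψ (f x, y) (0, w) = 0 := by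
  classical
  obtain ⟨I, hIdef⟩ : ∃ I, I = range f := ⟨_, rfl⟩
  have hI : OrdConnected I := by
    rw [hIdef]
    exact (isPreconnected_range cf).ordConnected
  obtain ⟨Z, hZdef⟩ : ∃ Z, Z = {z : ℂ × ℂ | Ψ (f z.1, z.2) = 0} := ⟨_, rfl⟩
  have cp : Continuous fun z : ℂ × ℂ => (f z.1, z.2) :=
    (cf.comp continuous_fst).prodMk continuous_snd
  have hZc : IsCompact Z := by
    rw [hZdef]
    exact Metric.isCompact_of_isClosed_isBounded
      (isClosed_eq (sΨ.continuous.comp cp) continuous_const) hb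
  obtain ⟨C, hCdef⟩ : ∃ C, C = (fun z : ℂ × ℂ => (f z.1, z.2)) '' Z := ⟨_, rfl⟩
  have hCc : IsCompact C := by
    rw [hCdef]
    exact hZc.image cp
  have hmem : ∀ x y, Ψ (f x, y) = 0 → (f x, y) ∈ C := by
    intro x y h
    rw [hCdef, hZdef]
    exact ⟨(x, y), h, rfl⟩
  have hC : ∀ z ∈ C, ∃ x, z.1 = f x ∧ Ψ (f x, z.2) = 0 := by
    intro z hz
    rw [hCdef, hZdef] at hz
    obtain ⟨w, hw, rfl⟩ := hz
    exact ⟨w.1, rfl, hw⟩
  have hinj : ∀ z ∈ C, ∀ z' ∈ C, z.2 = z'.2 → z = z' := by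
    intro z hz z' hz' h
    obtain ⟨x, h1, h2⟩ := hC z hz
    obtain ⟨x', h1', h2'⟩ := hC z' hz'
    have h3 : z.1 = z'.1 := by
      refine psi_unique sΨ hI (y := z.2) (fun u hu0 h0 => ?_) ?_ ?_ ?_ ?_
      · rw [hIdef] at hu0
        obtain ⟨x0, rfl⟩ := hu0
        exact hu x0 z.2 h0
      · rw [hIdef, h1]
        exact mem_range_self x
      · rw [hIdef, h1']
        exact mem_range_self x'
      · rw [h1]
        exact h2
      · rw [h1', h]
        exact h2'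
    exact Prod.ext h3 h
  have hC0 : ∀ z ∈ C, Ψ z = 0 := by
    intro z hz
    obtain ⟨x, h1, h2⟩ := hC z hz
    rw [← h1] at h2
    exact h2
  have hCu : ∀ z ∈ C, 0 < fderiv ℝ Ψ z (1, 0) := by
    intro z hz
    obtain ⟨x, h1, h2⟩ := hC z hz
    have h3 := hu x z.2 h2
    rw [← h1] at h3
    exact h3
  obtain ⟨O, α, oO, hO, sα, hα⟩ := psi_graph sΨ hCc hC0 hCu hinj
  obtain ⟨Y, hYdef⟩ : ∃ Y, Y = Prod.snd '' C := ⟨_, rfl⟩
  have hYc : IsCompact Y := by
    rw [hYdef]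
    exact hCc.image continuous_snd
  have hYmem : ∀ x y, Ψ (f x, y) = 0 → y ∈ Y := by
    intro x y h
    rw [hYdef]
    exact ⟨(f x, y), hmem x y h, rfl⟩
  have hY : ∀ y ∈ Y, ∃ x, Ψ (f x, y) = 0 ∧ y ∈ O ∧ α y = f x := by
    intro y hy
    rw [hYdef] at hy
    obtain ⟨z, hz, rfl⟩ := hy
    obtain ⟨x, h1, h2⟩ := hC z hz
    exact ⟨x, h2, (hO z hz).1, (hO z hz).2.trans h1⟩
  have hYn : Y.Nonempty := by
    obtain ⟨z, hz⟩ := hn
    exact ⟨z.2, hYmem z.1 z.2 hz⟩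
  -- the smaller neighbourhood
  obtain ⟨O', hO'def⟩ : ∃ O', O' = O ∩ α ⁻¹' Iio b := ⟨_, rfl⟩
  have oO' : IsOpen O' := by
    rw [hO'def]
    exact sα.continuousOn.isOpen_inter_preimage oO isOpen_Iio
  have hYO' : Y ⊆ O' := by
    intro y hy
    obtain ⟨x, h1, h2, h3⟩ := hY y hy
    rw [hO'def]
    refine ⟨h2, ?_⟩
    show α y < b
    rw [h3]
    exact hb1 x y h1
  have hlow : ∀ y ∈ O', y ∉ Y → ∀ x, α y < f x := by
    intro y hy hyY x
    rw [hO'def] at hy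
    by_contra h
    have h1 : f x ≤ α y := not_lt.1 h
    have h2 : α y < b := hy.2
    have h3 : α y ∈ I := by
      refine hI.out (x := f x) ?_ (y := b) ?_ ⟨h1, h2.le⟩
      · rw [hIdef]
        exact mem_range_self x
      · rw [hIdef]
        exact hbI
    rw [hIdef] at h3
    obtain ⟨x0, hx0⟩ := h3
    refine hyY (hYmem x0 y ?_)
    rw [hx0]
    exact hα y hy.1
  obtain ⟨y1, hy1, hy1Y⟩ : ∃ y1 ∈ O', y1 ∉ Y := by
    by_contra h
    push Not at h
    have h1 : Y = O' := Subset.antisymm hYO' h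
    have h2 : IsClopen Y := ⟨hYc.isClosed, by rw [h1]; exact oO'⟩
    rcases isClopen_iff.1 h2 with h3 | h3
    · rw [h3] at hYn
      exact not_nonempty_empty hYn
    · rw [h3] at hYc
      exact noncompact_univ ℂ hYc
  obtain ⟨K, hKdef⟩ : ∃ K, K = α y1 := ⟨_, rfl⟩
  have hK : ∀ x, K < f x := by
    intro x
    rw [hKdef]
    exact hlow y1 hy1 hy1Y x
  obtain ⟨L, hLc, hYL, hLO⟩ := exists_compact_between hYc oO' hYO'
  obtain ⟨χ, h1, h2, h3⟩ :=
    exists_contMDiffMap_one_nhds_of_subset_interior (modelWithCornersSelf ℝ ℂ) (n := (⊤ : ℕ∞))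
      hYc.isClosed hYL
  have hχ : ContDiff ℝ ∞ χ := χ.contMDiff.contDiff
  have hnear : ∀ y ∈ Y, ∀ᶠ y' in 𝓝 y, χ y' = 1 := fun y hy =>
    h1.filter_mono (nhds_le_nhdsSet hy)
  obtain ⟨A, hAdef⟩ : ∃ A : ℂ → ℝ, A = fun y => χ y * α y + (1 - χ y) * K := ⟨_, rfl⟩
  have hAY : ∀ y ∈ Y, A =ᶠ[𝓝 y] α := by
    intro y hy
    filter_upwards [hnear y hy] with y' hy'
    rw [hAdef]
    show χ y' * α y' + (1 - χ y') * K = α y'
    rw [hy']
    ring
  refine ⟨A, ?_, ?_, ?_⟩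
  · rw [contDiff_iff_contDiffAt]
    intro y
    by_cases hy : y ∈ O'
    · have h4 : ContDiffAt ℝ ∞ α y := by
        rw [hO'def] at hy
        exact (sα y hy.1).contDiffAt (oO.mem_nhds hy.1)
      rw [hAdef]
      exact (hχ.contDiffAt.mul h4).add ((contDiffAt_const.sub hχ.contDiffAt).mul contDiffAt_const)
    · have h4 : A =ᶠ[𝓝 y] fun _ => K := by
        have h5 : y ∈ Lᶜ := fun h => hy (hLO h)
        filter_upwards [hLc.isClosed.isOpen_compl.mem_nhds h5] with y' hy'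
        rw [hAdef]
        show χ y' * α y' + (1 - χ y') * K = K
        rw [h2 y' hy']
        ring
      exact contDiffAt_const.congr_of_eventuallyEq h4
  · intro x y
    constructor
    · intro h
      obtain ⟨x', h4, h5, h6⟩ := hY y (hYmem x y h)
      rw [(hAY y (hYmem x y h)).self_of_nhds]
      exact ((hO _ (hmem x y h)).2).symm
    · intro h
      by_cases hy : y ∈ Y
      · obtain ⟨x', h4, h5, h6⟩ := hY y hy
        rw [h, (hAY y hy).self_of_nhds, h6]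
        exact h4
      · exfalso
        have hA : A y = χ y * α y + (1 - χ y) * K := by rw [hAdef]
        have h4 := (h3 y).1
        have h5 := (h3 y).2
        by_cases hyO : y ∈ O'
        · have h6 := hlow y hyO hy x
          have h7 := hK x
          rw [h, hA] at h6
          rw [h, hA] at h7
          rcases le_total (α y) K with h8 | h8
          · have h9 := mul_nonneg h4 (sub_nonneg.2 h8)
            nlinarith
          · have h9 := mul_nonneg (sub_nonneg.2 h5) (sub_nonneg.2 h8)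
            nlinarith
        · have h6 : χ y = 0 := h2 y (fun h => hyO (hLO h))
          have h7 := hK x
          rw [h, hA, h6] at h7
          linarith
  · intro x y h hA w
    have hy := hYmem x y h
    obtain ⟨x', h4, h5, h6⟩ := hY y hy
    have h7 : α y = f x := (hO _ (hmem x y h)).2
    have h8 : fderiv ℝ α y = 0 := by
      rw [← (hAY y hy).fderiv_eq]
      exact hA
    have h9 : HasFDerivAt α (fderiv ℝ α y) y :=
      (((sα y h5).contDiffAt (oO.mem_nhds h5)).differentiableAt (by simp)).hasFDerivAt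
    have h10 : HasFDerivAt (fun y' => (α y', y'))
        ((fderiv ℝ α y).prod (ContinuousLinearMap.id ℝ ℂ)) y := h9.prodMk (hasFDerivAt_id y)
    have h11 : HasFDerivAt Ψ (fderiv ℝ Ψ (α y, y)) (α y, y) :=
      (sΨ.differentiable (by simp) _).hasFDerivAt
    have h12 := HasFDerivAt.comp (g := Ψ) (f := fun y' : ℂ => (α y', y')) y h11 h10
    have h13 : (Ψ ∘ fun y' => (α y', y')) =ᶠ[𝓝 y] fun _ => (0 : ℝ) := by
      filter_upwards [oO.mem_nhds h5] with y' hy'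
      exact hα y' hy'
    have h14 : HasFDerivAt (fun _ : ℂ => (0 : ℝ)) ((fderiv ℝ Ψ (α y, y)).comp
        ((fderiv ℝ α y).prod (ContinuousLinearMap.id ℝ ℂ))) y :=
      h12.congr_of_eventuallyEq h13.symm
    have h15 := h14.unique (hasFDerivAt_const (0 : ℝ) y)
    have h16 := DFunLike.congr_fun h15 w
    rw [h8, h7] at h16
    simpa using h16

/-- PROOF. Let `ρ > 0` be such that `Ψ (f x, y) ≠ 0` for `ρ ≤ ‖x‖`. `{ρ ≤ ‖x‖}` is connected (`preconnected_outer`), and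
`f x ∉ [c0, c1]` there, where `[c0, c1]` is the set of the values of `f` at the zeros (connected, compact). So
`f > c1` there: `psi_up` with `b = f x` for such an `x`; or `f < c0` there: `psi_up` for `-f` and
`-Ψ (-u, y)`, and `-A`. -/
theorem psi_pos {f : ℂ → ℝ} (cf : Continuous f) {Ψ : ℝ × ℂ → ℝ} (sΨ : ContDiff ℝ ∞ Ψ)
    (hb : Bornology.IsBounded {z : ℂ × ℂ | Ψ (f z.1, z.2) = 0})
    (hc : IsConnected {z : ℂ × ℂ | Ψ (f z.1, z.2) = 0})
    (hu : ∀ x y, Ψ (f x, y) = 0 → 0 < fderiv ℝ Ψ (f x, y) (1, 0)) :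
    ∃ A : ℂ → ℝ, ContDiff ℝ ∞ A ∧ (∀ x y, Ψ (f x, y) = 0 ↔ f x = A y) ∧
      ∀ x y, Ψ (f x, y) = 0 → fderiv ℝ A y = 0 → ∀ w, fderiv ℝ Ψ (f x, y) (0, w) = 0 := by
  have cp : Continuous fun z : ℂ × ℂ => (f z.1, z.2) :=
    (cf.comp continuous_fst).prodMk continuous_snd
  have hZc : IsCompact {z : ℂ × ℂ | Ψ (f z.1, z.2) = 0} :=
    Metric.isCompact_of_isClosed_isBounded
      (isClosed_eq (sΨ.continuous.comp cp) continuous_const) hb
  obtain ⟨J, hJdef⟩ : ∃ J, J = (fun z : ℂ × ℂ => f z.1) '' {z : ℂ × ℂ | Ψ (f z.1, z.2) = 0} :=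
    ⟨_, rfl⟩
  have c1 : Continuous fun z : ℂ × ℂ => f z.1 := cf.comp continuous_fst
  have hJc : IsCompact J := by
    rw [hJdef]
    exact hZc.image c1
  have hJo : OrdConnected J := by
    rw [hJdef]
    exact (hc.isPreconnected.image _ c1.continuousOn).ordConnected
  have hJn : J.Nonempty := by
    rw [hJdef]
    exact hc.nonempty.image _
  have hJmem : ∀ x y, Ψ (f x, y) = 0 → f x ∈ J := by
    intro x y h
    rw [hJdef]
    exact ⟨(x, y), h, rfl⟩
  obtain ⟨c0, hc0, hmin⟩ := hJc.exists_isLeast hJn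
  obtain ⟨c2, hc2, hmax⟩ := hJc.exists_isGreatest hJn
  obtain ⟨r, hr⟩ := hb.exists_norm_le
  obtain ⟨ρ, hρdef⟩ : ∃ ρ, ρ = |r| + 1 := ⟨_, rfl⟩
  have hρ : 0 < ρ := by
    rw [hρdef]
    positivity
  have hout : ∀ x, ρ ≤ ‖x‖ → f x ∉ J := by
    intro x hx h
    rw [hJdef] at h
    obtain ⟨z, hz, hzx⟩ := h
    have hzx' : f z.1 = f x := hzx
    have h1 : Ψ (f x, z.2) = 0 := by
      rw [← hzx']
      exact hz
    have h2 := hr (x, z.2) h1
    have h3 : ‖x‖ ≤ ‖(x, z.2)‖ := norm_fst_le (x, z.2)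
    have h4 := le_abs_self r
    rw [hρdef] at hx
    linarith
  obtain ⟨x1, hx1⟩ : ∃ x1 : ℂ, ρ ≤ ‖x1‖ := ⟨(ρ : ℂ), by
    rw [Complex.norm_real, Real.norm_of_nonneg hρ.le]⟩
  have himg : IsPreconnected (f '' {x : ℂ | ρ ≤ ‖x‖}) :=
    (preconnected_outer ρ hρ).image f cf.continuousOn
  have hoc := himg.ordConnected
  have hside : (∀ x, ρ ≤ ‖x‖ → c2 < f x) ∨ (∀ x, ρ ≤ ‖x‖ → f x < c0) := by
    by_cases h : c2 < f x1
    · left
      intro x hx
      by_contra h1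
      have h2 : c2 ∈ f '' {x : ℂ | ρ ≤ ‖x‖} :=
        hoc.out ⟨x, hx, rfl⟩ ⟨x1, hx1, rfl⟩ ⟨not_lt.1 h1, h.le⟩
      obtain ⟨x2, hx2, h3⟩ := h2
      refine hout x2 hx2 ?_
      rw [h3]
      exact hc2
    · right
      intro x hx
      by_contra h1
      have h4 : f x1 < c0 := by
        by_contra h5
        exact hout x1 hx1 (hJo.out hc0 hc2 ⟨not_lt.1 h5, not_lt.1 h⟩)
      have h2 : c0 ∈ f '' {x : ℂ | ρ ≤ ‖x‖} :=
        hoc.out ⟨x1, hx1, rfl⟩ ⟨x, hx, rfl⟩ ⟨h4.le, not_lt.1 h1⟩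
      obtain ⟨x2, hx2, h3⟩ := h2
      refine hout x2 hx2 ?_
      rw [h3]
      exact hc0
  rcases hside with h | h
  · exact psi_up cf sΨ hb hc.nonempty hu (b := f x1) (mem_range_self x1) fun x y h1 =>
      (hmax (hJmem x y h1)).trans_lt (h x1 hx1)
  · obtain ⟨Φ, hΦdef⟩ : ∃ Φ : ℝ × ℂ → ℝ, Φ = fun z => -Ψ (-z.1, z.2) := ⟨_, rfl⟩
    have sN : ContDiff ℝ ∞ fun z : ℝ × ℂ => (-z.1, z.2) := contDiff_fst.neg.prodMk contDiff_snd
    have sΦ : ContDiff ℝ ∞ Φ := by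
      rw [hΦdef]
      exact (sΨ.comp sN).neg
    have hΦ : ∀ x y, Φ (-f x, y) = -Ψ (f x, y) := by
      intro x y
      rw [hΦdef]
      show -Ψ (- -f x, y) = -Ψ (f x, y)
      rw [neg_neg]
    have hΦ0 : ∀ x y, Φ (-f x, y) = 0 ↔ Ψ (f x, y) = 0 := by
      intro x y
      rw [hΦ, neg_eq_zero]
    have hset : {z : ℂ × ℂ | Φ ((fun x => -f x) z.1, z.2) = 0} =
        {z : ℂ × ℂ | Ψ (f z.1, z.2) = 0} := by
      ext z
      exact hΦ0 z.1 z.2
    have hdΦ : ∀ x y (v : ℝ) (w : ℂ), fderiv ℝ Φ (-f x, y) (v, w) =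
        -fderiv ℝ Ψ (f x, y) (-v, w) := by
      intro x y v w
      have e1 : HasFDerivAt (fun z : ℝ × ℂ => (-z.1, z.2))
          ((-(ContinuousLinearMap.fst ℝ ℝ ℂ)).prod (ContinuousLinearMap.snd ℝ ℝ ℂ)) (-f x, y) :=
        (hasFDerivAt_fst.neg).prodMk hasFDerivAt_snd
      have e2 : HasFDerivAt Ψ (fderiv ℝ Ψ (f x, y)) (-(-f x), y) := by
        rw [neg_neg]
        exact (sΨ.differentiable (by simp) _).hasFDerivAt
      have e3 := (HasFDerivAt.comp (g := Ψ) (-f x, y) e2 e1).neg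
      have e4 : HasFDerivAt Φ (-((fderiv ℝ Ψ (f x, y)).comp
          ((-(ContinuousLinearMap.fst ℝ ℝ ℂ)).prod (ContinuousLinearMap.snd ℝ ℝ ℂ))))
          (-f x, y) := by
        rw [hΦdef]
        exact e3
      rw [e4.fderiv]
      rfl
    obtain ⟨A, sA, hA, hA'⟩ := psi_up (f := fun x => -f x) cf.neg sΦ (by rw [hset]; exact hb)
      (by rw [hset]; exact hc.nonempty) (fun x y h0 => by
        have h1 : fderiv ℝ Φ (-f x, y) (1, 0) = -fderiv ℝ Ψ (f x, y) (-1, 0) := hdΦ x y 1 0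
        have h2 : ((-1 : ℝ), (0 : ℂ)) = -((1 : ℝ), (0 : ℂ)) := by
          rw [Prod.neg_mk, neg_zero]
        show 0 < fderiv ℝ Φ (-f x, y) (1, 0)
        rw [h1, h2, map_neg, neg_neg]
        exact hu x y ((hΦ0 x y).1 h0)) (b := -f x1) (mem_range_self x1) (fun x y h0 => by
        have h1 : c0 ≤ f x := hmin (hJmem x y ((hΦ0 x y).1 h0))
        have h2 := h x1 hx1
        show -f x < -f x1
        linarith)
    refine ⟨fun y => -A y, sA.neg, fun x y => ?_, fun x y h0 h1 w => ?_⟩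
    · rw [← hΦ0 x y]
      refine (hA x y).trans ?_
      constructor
      · intro h2
        show f x = -A y
        have h3 : -f x = A y := h2
        linarith
      · intro h2
        show -f x = A y
        have h3 : f x = -A y := h2
        linarith
    · have h2 : fderiv ℝ A y = 0 := by
        rw [fderiv_fun_neg, neg_eq_zero] at h1
        exact h1
      have h3 := hA' x y ((hΦ0 x y).2 h0) h2 w
      have h4 : fderiv ℝ Φ (-f x, y) (0, w) = -fderiv ℝ Ψ (f x, y) (-0, w) := hdΦ x y 0 w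
      rw [neg_zero] at h4
      have h5 : fderiv ℝ Φ (-f x, y) (0, w) = 0 := h3
      linarith

/-- PROOF. The derivative has a constant sign on the connected set of the zeros; `psi_pos` for `Ψ` or `-Ψ`. -/
theorem psi_main {f : ℂ → ℝ} (cf : Continuous f) {Ψ : ℝ × ℂ → ℝ} (sΨ : ContDiff ℝ ∞ Ψ)
    (hb : Bornology.IsBounded {z : ℂ × ℂ | Ψ (f z.1, z.2) = 0})
    (hc : IsConnected {z : ℂ × ℂ | Ψ (f z.1, z.2) = 0})
    (hu : ∀ x y, Ψ (f x, y) = 0 → fderiv ℝ Ψ (f x, y) (1, 0) ≠ 0) :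
    ∃ A : ℂ → ℝ, ContDiff ℝ ∞ A ∧ (∀ x y, Ψ (f x, y) = 0 ↔ f x = A y) ∧
      ∀ x y, Ψ (f x, y) = 0 → fderiv ℝ A y = 0 → ∀ w, fderiv ℝ Ψ (f x, y) (0, w) = 0 := by
  have cp : Continuous fun z : ℂ × ℂ => (f z.1, z.2) :=
    (cf.comp continuous_fst).prodMk continuous_snd
  have cd : Continuous fun z : ℂ × ℂ => fderiv ℝ Ψ (f z.1, z.2) (1, 0) := by
    have h1 : Continuous (fderiv ℝ Ψ) := sΨ.continuous_fderiv (by simp)
    exact (h1.comp cp).clm_apply continuous_const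
  have hsgn : (∀ x y, Ψ (f x, y) = 0 → 0 < fderiv ℝ Ψ (f x, y) (1, 0)) ∨
      (∀ x y, Ψ (f x, y) = 0 → fderiv ℝ Ψ (f x, y) (1, 0) < 0) := by
    obtain ⟨z0, hz0⟩ := hc.nonempty
    have himg := (hc.isPreconnected.image _ cd.continuousOn).ordConnected
    have hne : ∀ z ∈ {z : ℂ × ℂ | Ψ (f z.1, z.2) = 0},
        fderiv ℝ Ψ (f z.1, z.2) (1, 0) ≠ 0 := fun z hz => hu z.1 z.2 hz
    rcases lt_or_gt_of_ne (hne z0 hz0) with h | h
    · right
      intro x y hxy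
      by_contra h1
      obtain ⟨z, hz, hz1⟩ := himg.out ⟨z0, hz0, rfl⟩ ⟨(x, y), hxy, rfl⟩ ⟨h.le, not_lt.1 h1⟩
      exact hne z hz hz1
    · left
      intro x y hxy
      by_contra h1
      obtain ⟨z, hz, hz1⟩ := himg.out ⟨(x, y), hxy, rfl⟩ ⟨z0, hz0, rfl⟩ ⟨not_lt.1 h1, h.le⟩
      exact hne z hz hz1
  rcases hsgn with h | h
  · exact psi_pos cf sΨ hb hc h
  · have hset : {z : ℂ × ℂ | (fun z => -Ψ z) (f z.1, z.2) = 0} =
        {z : ℂ × ℂ | Ψ (f z.1, z.2) = 0} := by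
      ext z
      exact neg_eq_zero (a := Ψ (f z.1, z.2))
    have hd : ∀ z v, fderiv ℝ (fun z => -Ψ z) z v = -fderiv ℝ Ψ z v := by
      intro z v
      rw [fderiv_fun_neg]
      rfl
    obtain ⟨A, sA, hA, hA'⟩ := psi_pos (Ψ := fun z => -Ψ z) cf sΨ.neg (by rw [hset]; exact hb)
      (by rw [hset]; exact hc) (fun x y h0 => by
        rw [hd]
        have h1 := h x y (neg_eq_zero.1 h0)
        linarith)
    refine ⟨A, sA, fun x y => ?_, fun x y h0 h1 w => ?_⟩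
    · rw [← hA x y]
      exact (neg_eq_zero (a := Ψ (f x, y))).symm
    · have h2 := hA' x y (neg_eq_zero.2 h0) h1 w
      rw [hd] at h2
      exact neg_eq_zero.1 h2

end Pool.Schoen
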