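import Pool.Agent.H.MP_6c077c_gt.Ts.RelQ
import Pool.Agent.H.MP_6c077c_gt.Ts.Final

/-! Theorem TS: hypersurfaces in whose equation two variables enter only by one function. -/

set_option autoImplicit false

namespace Pool.Schoen

open Filter Set Metric
open scoped Topology RealInnerProductSpace ContDiff

variable {V : Type*} [NormedAddCommGroup V] [InnerProductSpace ℝ V] [FiniteDimensional ℝ V]

/-- PROOF. `psi_main` (`e` maps `M` to `{z | Ψ (f z.1, z.2) = 0}`) gives `A`; `ts_carries` for `f` and `-A`. If both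
`fderiv f` and `fderiv A` vanish at a point of `M` then the derivative of `Ψ (f x, y)` vanishes (chain rule:
`fderiv Ψ (s, w) = s * fderiv Ψ (1, 0) + fderiv Ψ (0, w)`), contradiction to `hreg`. -/
theorem ts_psi (hdim : Module.finrank ℝ V = 4) (e : V ≃L[ℝ] ℂ × ℂ) (f : ℂ → ℝ)
    (Ψ : ℝ × ℂ → ℝ) (sf : ContDiff ℝ ∞ f) (sΨ : ContDiff ℝ ∞ Ψ)
    (hb : Bornology.IsBounded {x : V | Ψ (f (e x).1, (e x).2) = 0})
    (hreg : ∀ x : V, Ψ (f (e x).1, (e x).2) = 0 →
      fderiv ℝ (fun y : V => Ψ (f (e y).1, (e y).2)) x ≠ 0)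
    (hu : ∀ x : V, Ψ (f (e x).1, (e x).2) = 0 → fderiv ℝ Ψ (f (e x).1, (e x).2) (1, 0) ≠ 0)
    (hc : IsConnected {x : V | Ψ (f (e x).1, (e x).2) = 0})
    (hl : LiftS {x : V | Ψ (f (e x).1, (e x).2) = 0}) :
    Carries {x : V | Ψ (f (e x).1, (e x).2) = 0} (sphere (0 : V) 1) := by
  have cP : Continuous fun x : V => (f (e x).1, (e x).2) :=
    (sf.continuous.comp (continuous_fst.comp e.continuous)).prodMk
      (continuous_snd.comp e.continuous)
  have hMc : IsCompact {x : V | Ψ (f (e x).1, (e x).2) = 0} :=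
    Metric.isCompact_of_isClosed_isBounded
      (isClosed_eq (sΨ.continuous.comp cP) continuous_const) hb
  have hT : {z : ℂ × ℂ | Ψ (f z.1, z.2) = 0} = e '' {x : V | Ψ (f (e x).1, (e x).2) = 0} := by
    ext z
    constructor
    · intro hz
      refine ⟨e.symm z, ?_, by simp⟩
      change Ψ (f (e (e.symm z)).1, (e (e.symm z)).2) = 0
      rw [e.apply_symm_apply]
      exact hz
    · rintro ⟨x, hx, rfl⟩
      exact hx
  have hTb : Bornology.IsBounded {z : ℂ × ℂ | Ψ (f z.1, z.2) = 0} := by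
    rw [hT]
    exact (hMc.image e.continuous).isBounded
  have hTc : IsConnected {z : ℂ × ℂ | Ψ (f z.1, z.2) = 0} := by
    rw [hT]
    exact hc.image e e.continuous.continuousOn
  have hM0 : ∀ x y, Ψ (f x, y) = 0 → Ψ (f (e (e.symm (x, y))).1, (e (e.symm (x, y))).2) = 0 := by
    intro x y h
    rw [e.apply_symm_apply]
    exact h
  obtain ⟨A, sA, hA, hA'⟩ := psi_main sf.continuous sΨ hTb hTc (fun x y h => by
    have h1 := hu (e.symm (x, y)) (hM0 x y h)
    rw [e.apply_symm_apply] at h1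
    exact h1)
  have hM : {x : V | Ψ (f (e x).1, (e x).2) = 0} =
      {x : V | f (e x).1 + (fun y => -A y) (e x).2 = 0} := by
    ext x
    change Ψ (f (e x).1, (e x).2) = 0 ↔ f (e x).1 + -A (e x).2 = 0
    rw [hA, ← sub_eq_add_neg, sub_eq_zero]
  have hr : ∀ x : V, f (e x).1 + (fun y => -A y) (e x).2 = 0 →
      fderiv ℝ f (e x).1 ≠ 0 ∨ fderiv ℝ (fun y => -A y) (e x).2 ≠ 0 := by
    intro x hx
    have hx0 : Ψ (f (e x).1, (e x).2) = 0 := by
      have h1 : x ∈ {x : V | f (e x).1 + (fun y => -A y) (e x).2 = 0} := hx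
      rw [← hM] at h1
      exact h1
    by_contra hcon
    push Not at hcon
    obtain ⟨h1, h2⟩ := hcon
    have h3 : fderiv ℝ A (e x).2 = 0 := by
      rw [fderiv_fun_neg] at h2
      exact neg_eq_zero.mp h2
    apply hreg x hx0
    have hf : HasFDerivAt f (fderiv ℝ f (e x).1) (e x).1 :=
      ((sf.differentiable (by simp)) _).hasFDerivAt
    have hΨ : HasFDerivAt Ψ (fderiv ℝ Ψ (f (e x).1, (e x).2)) (f (e x).1, (e x).2) :=
      ((sΨ.differentiable (by simp)) _).hasFDerivAt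
    have he : HasFDerivAt (fun y : V => e y) (e : V →L[ℝ] ℂ × ℂ) x := e.hasFDerivAt
    have he1 : HasFDerivAt (fun y : V => (e y).1)
        ((ContinuousLinearMap.fst ℝ ℂ ℂ).comp (e : V →L[ℝ] ℂ × ℂ)) x :=
      (ContinuousLinearMap.fst ℝ ℂ ℂ).hasFDerivAt.comp x he
    have he2 : HasFDerivAt (fun y : V => (e y).2)
        ((ContinuousLinearMap.snd ℝ ℂ ℂ).comp (e : V →L[ℝ] ℂ × ℂ)) x :=
      (ContinuousLinearMap.snd ℝ ℂ ℂ).hasFDerivAt.comp x he
    have hP := (hf.comp x he1).prodMk he2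
    have hcomp := hΨ.comp x hP
    have hd : HasFDerivAt (fun y : V => Ψ (f (e y).1, (e y).2)) (0 : V →L[ℝ] ℝ) x := by
      refine hcomp.congr_fderiv ?_
      ext v
      change fderiv ℝ Ψ (f (e x).1, (e x).2) (fderiv ℝ f (e x).1 (e v).1, (e v).2) = 0
      rw [h1]
      exact hA' (e x).1 (e x).2 hx0 h3 (e v).2
    exact hd.fderiv
  have hfin := ts_carries hdim e f (fun y => -A y) sf sA.neg (by rw [← hM]; exact hb) hr
    (by rw [← hM]; exact hc) (by rw [← hM]; exact hl)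
  rw [hM]
  exact hfin

end Pool.Schoen
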