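import Pool.Agent.H.MP_6c077c_gt.Ts.Push

/-! Theorem TS: features of all four functions, small facts on `Sys`. -/

set_option autoImplicit false

namespace Pool.Schoen

open Filter Set Metric
open scoped Topology RealInnerProductSpace ContDiff

/-- A feature of `p`, `q`, `-p` or `-q` in the intervals `k` and `l`. -/
def AnyF (p q : ℂ → ℝ) (t : ℕ → ℝ) (k l : ℕ) : Prop :=
  Feat p (t k) (t (k + 1)) (t l) (t (l + 1)) ∨ Feat q (t k) (t (k + 1)) (t l) (t (l + 1)) ∨
    Feat (fun x => -p x) (-t (l + 1)) (-t l) (-t (k + 1)) (-t k) ∨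
    Feat (fun x => -q x) (-t (l + 1)) (-t l) (-t (k + 1)) (-t k)

theorem lev_lt {t : ℕ → ℝ} {N : ℕ} (hm : ∀ i < N, t i < t (i + 1)) {i j : ℕ} (hij : i < j)
    (hj : j ≤ N) : t i < t j := by
  induction j with
  | zero => omega
  | succ j ih =>
    rcases Nat.lt_succ_iff_lt_or_eq.1 hij with h | h
    · exact (ih h (by omega)).trans (hm j (by omega))
    · rw [h]
      exact hm j (by omega)

theorem lev_le {t : ℕ → ℝ} {N : ℕ} (hm : ∀ i < N, t i < t (i + 1)) {i j : ℕ} (hij : i ≤ j)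
    (hj : j ≤ N) : t i ≤ t j := by
  rcases Nat.lt_or_eq_of_le hij with h | h
  · exact (lev_lt hm h hj).le
  · rw [h]

/-- A part of `{h ≤ c}` above `a` is in the ball. -/
theorem part_ball_ts {h : ℂ → ℝ} {R lo hi a c : ℝ} (ht : Tame R lo hi h) (h1 : lo ≤ a)
    (h2 : c ≤ hi) {D : Set ℂ} (hD : D ⊆ {x | h x ≤ c}) (hDa : ∀ x ∈ D, a < h x) :
    D ⊆ ball 0 R := by
  intro x hx
  rw [mem_ball_zero_iff]
  by_contra h3
  have hxc : h x ≤ c := hD hx
  have hxa := hDa x hx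
  rcases ht with ⟨k, hk⟩ | ⟨k, hk⟩
  · have := (hk x (not_lt.1 h3)).2
    linarith
  · have := (hk x (not_lt.1 h3)).2
    linarith

/-- PROOF. If `‖x‖ ≤ R` trivial. Otherwise (`Tame`) the set `{R ≤ ‖y‖}` is in `{h ≤ b}` and connected
(`preconnected_outer`). -/
theorem rt_join {h : ℂ → ℝ} {R lo hi b : ℝ} (ht : Tame R lo hi h) (h1 : lo ≤ b) (h2 : b ≤ hi)
    (hR : 0 < R) {x : ℂ} (hx : h x ≤ b) : Con {y | h y ≤ b} x (rt R x) := by
  rcases le_or_gt ‖x‖ R with h3 | h3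
  · rw [rt_of_le h3]
    exact ⟨{x}, singleton_subset_iff.2 hx, isPreconnected_singleton, rfl, rfl⟩
  · rcases ht with ⟨k, hk⟩ | ⟨k, hk⟩
    · exfalso
      have := (hk x h3.le).2
      linarith
    · refine ⟨{y | R ≤ ‖y‖}, fun y hy => ?_, preconnected_outer R hR, h3.le,
        (rt_norm_of_ge hR h3.le).ge⟩
      have := (hk y hy).2
      show h y ≤ b
      linarith

theorem chg_neg {h : ℂ → ℝ} {a b : ℝ} : Chg (fun x => -h x) (-b) (-a) ↔ Chg h a b := by
  simp only [Chg, neg_le_neg_iff, neg_lt_neg_iff]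
  constructor
  · rintro (h1 | h1 | h1 | h1)
    · exact Or.inr (Or.inr (Or.inl h1))
    · exact Or.inr (Or.inr (Or.inr h1))
    · exact Or.inl h1
    · exact Or.inr (Or.inl h1)
  · rintro (h1 | h1 | h1 | h1)
    · exact Or.inr (Or.inr (Or.inl h1))
    · exact Or.inr (Or.inr (Or.inr h1))
    · exact Or.inl h1
    · exact Or.inr (Or.inl h1)

end Pool.Schoen
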