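import Pool.Agent.H.MP_6c077c_gt.Ts.SumF
import Pool.Agent.H.MP_6c077c_gt.Ts.SysB

/-! Theorem TS: representations of a function as a sum, with levels. -/

set_option autoImplicit false

namespace Pool.Schoen

open Filter Set Metric
open scoped Topology RealInnerProductSpace ContDiff

variable {V : Type*} [NormedAddCommGroup V] [InnerProductSpace ℝ V]

/-- `F` is homotopic to `p - q`; `p` tends to `∞`, `q` to `-∞`; on every interval one of them is regular. -/
structure Rep (e : V ≃L[ℝ] ℂ × ℂ) (F : V → ℝ) (p q : ℂ → ℝ) (t : ℕ → ℝ) (N : ℕ) (R : ℝ) :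
    Prop where
  hom : Hom F (sumF e p q)
  lp : LocallyLipschitz p
  lq : LocallyLipschitz q
  hR : 0 < R
  up : ∃ c : ℝ, ∀ x, R ≤ ‖x‖ → p x = ‖x‖ ^ 2 + c ∧ t N < p x
  dn : ∃ c : ℝ, ∀ x, R ≤ ‖x‖ → q x = c - ‖x‖ ^ 2 ∧ q x < t 0
  mono : ∀ i < N, t i < t (i + 1)
  lop : ∀ x, p x ≤ t 0 → ∃ v, Desc1 p x v
  hip : ∀ x, t N ≤ p x → ∃ v, Desc1 p x v
  loq : ∀ x, q x ≤ t 0 → ∃ v, Desc1 q x v
  hiq : ∀ x, t N ≤ q x → ∃ v, Desc1 q x v
  kind : ∀ i < N, TReg p (t i) (t (i + 1)) ∨ TReg q (t i) (t (i + 1))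
  smp : ∀ i ≤ N, ∀ x, p x = t i → ∀ᶠ y in 𝓝 x, ContDiffAt ℝ ∞ p y
  smq : ∀ i ≤ N, ∀ x, q x = t i → ∀ᶠ y in 𝓝 x, ContDiffAt ℝ ∞ q y

variable {e : V ≃L[ℝ] ℂ × ℂ} {F : V → ℝ} {p q : ℂ → ℝ} {t : ℕ → ℝ} {N : ℕ} {R : ℝ}

theorem Rep_treg_neg {h : ℂ → ℝ} {a b : ℝ} (H : TReg h a b) : TReg (fun x => -h x) (-b) (-a) := by
  intro x h1 h2
  obtain ⟨v, hv⟩ := H x (neg_le_neg_iff.1 h2) (neg_le_neg_iff.1 h1)
  exact ⟨-v, Desc.neg hv⟩

theorem Rep.symm (H : Rep e F p q t N R) :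
    Rep (swE e) F (fun y => -q y) (fun x => -p x) (fun i => -t (N - i)) N R where
  hom := by
    rw [sumF_swap]
    exact H.hom
  lp := SumF_neg H.lq
  lq := SumF_neg H.lp
  hR := H.hR
  up := by
    obtain ⟨c, hc⟩ := H.dn
    refine ⟨-c, fun x hx => ?_⟩
    obtain ⟨h1, h2⟩ := hc x hx
    refine ⟨by rw [h1]; ring, ?_⟩
    rw [Nat.sub_self]
    exact neg_lt_neg h2
  dn := by
    obtain ⟨c, hc⟩ := H.up
    refine ⟨-c, fun x hx => ?_⟩
    obtain ⟨h1, h2⟩ := hc x hx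
    refine ⟨by rw [h1]; ring, ?_⟩
    rw [Nat.sub_zero]
    exact neg_lt_neg h2
  mono := by
    intro i hi
    have h1 := H.mono (N - (i + 1)) (by omega)
    have e1 : N - (i + 1) + 1 = N - i := by omega
    rw [e1] at h1
    exact neg_lt_neg h1
  lop := by
    intro x hx
    rw [Nat.sub_zero] at hx
    obtain ⟨v, hv⟩ := H.hiq x (neg_le_neg_iff.1 hx)
    exact ⟨-v, Desc.neg hv⟩
  hip := by
    intro x hx
    rw [Nat.sub_self] at hx
    obtain ⟨v, hv⟩ := H.loq x (neg_le_neg_iff.1 hx)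
    exact ⟨-v, Desc.neg hv⟩
  loq := by
    intro x hx
    rw [Nat.sub_zero] at hx
    obtain ⟨v, hv⟩ := H.hip x (neg_le_neg_iff.1 hx)
    exact ⟨-v, Desc.neg hv⟩
  hiq := by
    intro x hx
    rw [Nat.sub_self] at hx
    obtain ⟨v, hv⟩ := H.lop x (neg_le_neg_iff.1 hx)
    exact ⟨-v, Desc.neg hv⟩
  kind := by
    intro i hi
    have h1 := H.kind (N - (i + 1)) (by omega)
    have e1 : N - (i + 1) + 1 = N - i := by omega
    rw [e1] at h1
    rcases h1 with h1 | h1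
    · exact Or.inr (Rep_treg_neg h1)
    · exact Or.inl (Rep_treg_neg h1)
  smp := by
    intro i hi x hx
    filter_upwards [H.smq (N - i) (by omega) x (neg_inj.1 hx)] with y hy
    exact hy.neg
  smq := by
    intro i hi x hx
    filter_upwards [H.smp (N - i) (by omega) x (neg_inj.1 hx)] with y hy
    exact hy.neg

theorem Rep.tp (H : Rep e F p q t N R) : Tame R (t 0) (t N) p := Or.inl H.up

theorem Rep.tq (H : Rep e F p q t N R) : Tame R (t 0) (t N) q := Or.inr H.dn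

/-- The function `p` has a minimum. -/
theorem Rep_min (H : Rep e F p q t N R) : ∃ m, ∀ y, p m ≤ p y := by
  have hc : Continuous p := H.lp.continuous
  obtain ⟨c, hc'⟩ := H.up
  obtain ⟨m, hm, hmin⟩ := (isCompact_closedBall (0 : ℂ) R).exists_isMinOn
    ⟨0, mem_closedBall_self H.hR.le⟩ hc.continuousOn
  have hn : ‖(R : ℂ)‖ = R := by
    rw [Complex.norm_real, Real.norm_eq_abs, abs_of_pos H.hR]
  refine ⟨m, fun y => ?_⟩
  rcases le_or_gt ‖y‖ R with h1 | h1
  · exact hmin (mem_closedBall_zero_iff.2 h1)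
  · have h2 : p m ≤ p (R : ℂ) := hmin (mem_closedBall_zero_iff.2 hn.le)
    rw [(hc' (R : ℂ) hn.ge).1, hn] at h2
    rw [(hc' y h1.le).1]
    have h3 : R ^ 2 ≤ ‖y‖ ^ 2 := pow_le_pow_left₀ H.hR.le h1.le 2
    linarith

theorem Rep_min_no {h : ℂ → ℝ} {m v : ℂ} (hm : ∀ y, h m ≤ h y) (hv : Desc1 h m v) : False := by
  obtain ⟨y, hy⟩ := hv.frequently.2.exists
  exact absurd (hm y) (not_le.2 hy)

/-- PROOF. `p` is continuous and tends to `∞`, so it has a minimum; there is no descent direction there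
(`Desc1.frequently`), so the minimum is larger than `t 0` (`lop`). -/
theorem Rep.low (H : Rep e F p q t N R) (x : ℂ) : t 0 < p x := by
  obtain ⟨m, hm⟩ := Rep_min H
  refine lt_of_lt_of_le ?_ (hm x)
  by_contra h1
  obtain ⟨v, hv⟩ := H.lop m (not_lt.1 h1)
  exact Rep_min_no hm hv

theorem Rep.high (H : Rep e F p q t N R) (y : ℂ) : q y < t N := by
  have h1 := H.symm.low y
  rw [Nat.sub_zero] at h1
  exact neg_lt_neg_iff.1 h1

/-- The minimum of `p` is strictly between the extreme levels. -/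
theorem Rep_min_lev (H : Rep e F p q t N R) : ∃ m, (∀ y, p m ≤ p y) ∧ t 0 < p m ∧ p m < t N := by
  obtain ⟨m, hm⟩ := Rep_min H
  refine ⟨m, hm, H.low m, ?_⟩
  by_contra h1
  obtain ⟨v, hv⟩ := H.hip m (not_lt.1 h1)
  exact Rep_min_no hm hv

theorem Rep_one (H : Rep e F p q t N R) (hN : N = 1) : ¬ TReg p (t 0) (t 1) := by
  intro h1
  obtain ⟨m, hm, h2, h3⟩ := Rep_min_lev H
  rw [hN] at h3
  obtain ⟨v, hv⟩ := h1 m h2.le h3.le
  exact Rep_min_no hm hv

/-- PROOF. `N = 0`: `lop`, `hip` contradict the existence of a minimum of `p`. `N = 1`: one of `p`, `q` would be regular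
everywhere; the minimum of `p`, the maximum of `q`. -/
theorem Rep.two (H : Rep e F p q t N R) : 2 ≤ N := by
  by_contra h0
  have h1 : N = 0 ∨ N = 1 := by omega
  rcases h1 with h1 | h1
  · obtain ⟨m, hm, h2, h3⟩ := Rep_min_lev H
    rw [h1] at h3
    exact lt_asymm h2 h3
  · rcases H.kind 0 (by omega) with h2 | h2
    · exact Rep_one H h1 h2
    · have h3 := Rep_treg_neg h2
      have h4 := Rep_one H.symm h1
      rw [h1] at h4
      exact h4 h3

theorem Rep_treg_join {h : ℂ → ℝ} {a b c : ℝ} (h1 : TReg h a b) (h2 : TReg h b c) :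
    TReg h a c := by
  intro x hx hx'
  rcases le_total (h x) b with h3 | h3
  · exact h1 x hx h3
  · exact h2 x h3 hx'

/-- Drop the level `i + 1`: `t' j = t j` for `j ≤ i`, `t' j = t (j + 1)` for `j > i`. -/
theorem Rep.merge (H : Rep e F p q t N R) {i : ℕ} (hi : i + 1 < N)
    (hk : (TReg p (t i) (t (i + 1)) ∧ TReg p (t (i + 1)) (t (i + 2))) ∨
      (TReg q (t i) (t (i + 1)) ∧ TReg q (t (i + 1)) (t (i + 2)))) :
    ∃ t' : ℕ → ℝ, Rep e F p q t' (N - 1) R := by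
  obtain ⟨t', ht'⟩ : ∃ t' : ℕ → ℝ, ∀ j, t' j = if j ≤ i then t j else t (j + 1) :=
    ⟨_, fun _ => rfl⟩
  have h1 : ∀ j, j ≤ i → t' j = t j := fun j hj => by rw [ht', if_pos hj]
  have h2 : ∀ j, i < j → t' j = t (j + 1) := fun j hj => by rw [ht', if_neg (by omega)]
  have hN : t' (N - 1) = t N := by
    rw [h2 _ (by omega)]
    congr 1
    omega
  have h0 : t' 0 = t 0 := h1 0 (Nat.zero_le i)
  refine ⟨t', ⟨H.hom, H.lp, H.lq, H.hR, ?_, ?_, ?_, ?_, ?_, ?_, ?_, ?_, ?_, ?_⟩⟩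
  · rw [hN]
    exact H.up
  · rw [h0]
    exact H.dn
  · intro j hj
    rcases lt_trichotomy j i with h3 | h3 | h3
    · rw [h1 j h3.le, h1 (j + 1) h3]
      exact H.mono j (by omega)
    · rw [h1 j h3.le, h2 (j + 1) (by omega)]
      exact (H.mono j (by omega)).trans (H.mono (j + 1) (by omega))
    · rw [h2 j h3, h2 (j + 1) (by omega)]
      exact H.mono (j + 1) (by omega)
  · rw [h0]
    exact H.lop
  · rw [hN]
    exact H.hip
  · rw [h0]
    exact H.loq
  · rw [hN]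
    exact H.hiq
  · intro j hj
    rcases lt_trichotomy j i with h3 | h3 | h3
    · rw [h1 j h3.le, h1 (j + 1) h3]
      exact H.kind j (by omega)
    · rw [h1 j h3.le, h2 (j + 1) (by omega), h3]
      rcases hk with ⟨k1, k2⟩ | ⟨k1, k2⟩
      · exact Or.inl (Rep_treg_join k1 k2)
      · exact Or.inr (Rep_treg_join k1 k2)
    · rw [h2 j h3, h2 (j + 1) (by omega)]
      exact H.kind (j + 1) (by omega)
  · intro j hj x hx
    rcases le_or_gt j i with h3 | h3
    · rw [h1 j h3] at hx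
      exact H.smp j (by omega) x hx
    · rw [h2 j h3] at hx
      exact H.smp (j + 1) (by omega) x hx
  · intro j hj x hx
    rcases le_or_gt j i with h3 | h3
    · rw [h1 j h3] at hx
      exact H.smq j (by omega) x hx
    · rw [h2 j h3] at hx
      exact H.smq (j + 1) (by omega) x hx

end Pool.Schoen
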