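import Pool.Agent.H.MP_6c077c_gt.Ts.Core

/-! Theorem TS: the symmetries; there are no features. -/

set_option autoImplicit false

namespace Pool.Schoen

open Filter Set Metric
open scoped Topology RealInnerProductSpace ContDiff

theorem Sys.swap {p q : ℂ → ℝ} {t : ℕ → ℝ} {N : ℕ} {R : ℝ} (S : Sys p q t N R) :
    Sys q p t N R where
  cp := S.cq
  cq := S.cp
  tp := S.tq
  tq := S.tp
  mono := S.mono
  regp := S.regq
  regq := S.regp
  kind := fun i hi => (S.kind i hi).symm
  altp := S.altq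
  altq := S.altp
  conW := S.conV
  conV := S.conW
  lftW := S.lftV
  lftV := S.lftW

private theorem Sym_wd (p q : ℂ → ℝ) (R : ℝ) :
    Wd (fun x => -p x) (fun x => -q x) R = Prod.swap '' Wd q p R := by
  ext z
  constructor
  · rintro ⟨h1, h2, h3⟩
    exact ⟨(z.2, z.1), ⟨h2, h1, neg_le_neg_iff.1 h3⟩, rfl⟩
  · rintro ⟨w, ⟨h1, h2, h3⟩, rfl⟩
    exact ⟨h2, h1, neg_le_neg h3⟩

private theorem Sym_con {p q : ℂ → ℝ} {R : ℝ} (h : IsPreconnected (Wd q p R)) :
    IsPreconnected (Wd (fun x => -p x) (fun x => -q x) R) := by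
  rw [Sym_wd]
  exact h.image _ continuous_swap.continuousOn

private theorem Sym_lift {p q : ℂ → ℝ} {R : ℝ} (h : LiftS (Wd q p R)) :
    LiftS (Wd (fun x => -p x) (fun x => -q x) R) := by
  rw [Sym_wd]
  exact LiftS.homeo ((Homeomorph.prodComm ℂ ℂ).image (Wd q p R)) h

private theorem Sym_idx {N i : ℕ} (hi : i < N) :
    N - (i + 1) < N ∧ N - (i + 1) + 1 = N - i := by
  omega

/-- `Wd (-p) (-q) R` is `Wd q p R` with the components exchanged (`Homeomorph.prodComm`). -/
theorem Sys.neg {p q : ℂ → ℝ} {t : ℕ → ℝ} {N : ℕ} {R : ℝ} (S : Sys p q t N R) :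
    Sys (fun x => -p x) (fun x => -q x) (fun i => -t (N - i)) N R where
  cp := S.cp.neg
  cq := S.cq.neg
  tp := by
    have h := S.tp.neg
    simpa using h
  tq := by
    have h := S.tq.neg
    simpa using h
  mono := by
    intro i hi
    obtain ⟨h1, h2⟩ := Sym_idx hi
    have h := S.mono _ h1
    rw [h2] at h
    exact neg_lt_neg h
  regp := fun i _ => (S.regp _ (Nat.sub_le N i)).neg
  regq := fun i _ => (S.regq _ (Nat.sub_le N i)).neg
  kind := by
    intro i hi
    obtain ⟨h1, h2⟩ := Sym_idx hi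
    have h := S.kind _ h1
    rw [h2] at h
    rcases h with ⟨h3, h4⟩ | ⟨h3, h4⟩
    · exact Or.inl ⟨h3.neg, chg_neg.2 h4⟩
    · exact Or.inr ⟨h3.neg, chg_neg.2 h4⟩
  altp := by
    rintro i hi ⟨h1, h2⟩
    have e1 : N - (i + 2) + 1 = N - (i + 1) := by omega
    have e2 : N - (i + 2) + 2 = N - i := by omega
    have h := S.altp (N - (i + 2)) (by omega)
    rw [e1, e2] at h
    have h3 := h1.neg
    have h4 := h2.neg
    simp only [neg_neg] at h3 h4
    exact h ⟨h4, h3⟩
  altq := by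
    rintro i hi ⟨h1, h2⟩
    have e1 : N - (i + 2) + 1 = N - (i + 1) := by omega
    have e2 : N - (i + 2) + 2 = N - i := by omega
    have h := S.altq (N - (i + 2)) (by omega)
    rw [e1, e2] at h
    have h3 := h1.neg
    have h4 := h2.neg
    simp only [neg_neg] at h3 h4
    exact h ⟨h4, h3⟩
  conW := Sym_con S.conV
  conV := Sym_con S.conW
  lftW := Sym_lift S.lftV
  lftV := Sym_lift S.lftW

private theorem Sym_core {N : ℕ} {R : ℝ} (hR : 0 < R) (n : ℕ) : ∀ (p q : ℂ → ℝ) (t : ℕ → ℝ),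
    Sys p q t N R → ∀ k l : ℕ, k < l → l < N → l - k = n → ¬ AnyF p q t k l := by
  induction n using Nat.strong_induction_on with
  | _ n ih =>
  have key : ∀ (p q : ℂ → ℝ) (t : ℕ → ℝ), Sys p q t N R → ∀ k l : ℕ, k < l → l < N →
      l - k = n → ¬ Feat p (t k) (t (k + 1)) (t l) (t (l + 1)) := by
    intro p q t S k l hkl hl hn hf
    exact core S hR hkl hl hf fun k' l' h1 h2 h3 => ih (l' - k') (hn ▸ h3) p q t S k' l' h1 h2 rfl
  intro p q t S k l hkl hl hn h
  have hk' : N - 1 - l < N - 1 - k := by omega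
  have hl' : N - 1 - k < N := by omega
  have hn' : N - 1 - k - (N - 1 - l) = n := by omega
  have e1 : N - (N - 1 - l) = l + 1 := by omega
  have e2 : N - (N - 1 - l + 1) = l := by omega
  have e3 : N - (N - 1 - k) = k + 1 := by omega
  have e4 : N - (N - 1 - k + 1) = k := by omega
  rcases h with h | h | h | h
  · exact key p q t S k l hkl hl hn h
  · exact key q p t S.swap k l hkl hl hn h
  · have h1 := key _ _ _ S.neg _ _ hk' hl' hn'
    simp only [e1, e2, e3, e4] at h1
    exact h1 h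
  · have h1 := key _ _ _ S.neg.swap _ _ hk' hl' hn'
    simp only [e1, e2, e3, e4] at h1
    exact h1 h

/-- PROOF. Strong induction on `l - k`: `core` for `S`, `S.swap`, `S.neg` (intervals `N - 1 - l`, `N - 1 - k`) and
`S.neg.swap`. -/
theorem no_feat {p q : ℂ → ℝ} {t : ℕ → ℝ} {N : ℕ} {R : ℝ} (S : Sys p q t N R) (hR : 0 < R)
    {k l : ℕ} (hkl : k < l) (hl : l < N) : ¬ AnyF p q t k l :=
  Sym_core hR (l - k) p q t S k l hkl hl rfl

end Pool.Schoen
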