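import Pool.Agent.H.MP_6c077c_gt.Ts.RepSys
import Pool.Agent.H.MP_6c077c_gt.Ts.Sym
import Pool.Agent.H.MP_6c077c_gt.Ts.EndA
import Pool.Agent.H.MP_6c077c_gt.Ts.Base

/-! Theorem TS: the end. -/

set_option autoImplicit false

namespace Pool.Schoen

open Filter Set Metric
open scoped Topology RealInnerProductSpace ContDiff

variable {V : Type*} [NormedAddCommGroup V] [InnerProductSpace ℝ V] [FiniteDimensional ℝ V]
variable {e : V ≃L[ℝ] ℂ × ℂ} {F : V → ℝ} {p q : ℂ → ℝ} {t : ℕ → ℝ} {N : ℕ} {R : ℝ}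

private theorem repEnd_negset (h : ℂ → ℝ) (c : ℝ) : {x | -h x ≤ -c} = {x | c ≤ h x} := by
  ext x
  show -h x ≤ -c ↔ c ≤ h x
  exact neg_le_neg_iff

private theorem repEnd_negset' (h : ℂ → ℝ) (c : ℝ) : {x | -c ≤ -h x} = {x | h x ≤ c} := by
  ext x
  show -c ≤ -h x ↔ h x ≤ c
  exact neg_le_neg_iff

/-- `sub_conn` for `h` and `-h`. -/
private theorem repEnd_both {h : ℂ → ℝ} (hc : Continuous h) {t : ℕ → ℝ} {N : ℕ}
    (hm : ∀ i < N, t i < t (i + 1)) (hr : ∀ i ≤ N, TReg h (t i) (t i))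
    (nf : ∀ k l, k < l → l < N → ¬ Feat h (t k) (t (k + 1)) (t l) (t (l + 1)))
    (nf' : ∀ k l, k < l → l < N →
      ¬ Feat (fun x => -h x) (-t (l + 1)) (-t l) (-t (k + 1)) (-t k))
    (c0 : IsPreconnected {x | h x ≤ t 0}) (cN : IsPreconnected {x | h x ≤ t N})
    (d0 : IsPreconnected {x | t 0 ≤ h x}) (dN : IsPreconnected {x | t N ≤ h x})
    {i : ℕ} (hi : i ≤ N) :
    IsPreconnected {x | h x ≤ t i} ∧ IsPreconnected {x | t i ≤ h x} := by
  refine ⟨sub_conn hc hm hr nf c0 cN i hi, ?_⟩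
  have h1 := sub_conn (h := fun x => -h x) hc.neg (t := fun i => -t (N - i)) (N := N)
    (fun j hj => by
      have h2 := hm (N - (j + 1)) (by omega)
      have h3 : N - (j + 1) + 1 = N - j := by omega
      rw [h3] at h2
      exact neg_lt_neg h2)
    (fun j _ => (hr (N - j) (by omega)).neg)
    (fun k l hkl hl => by
      have h2 := nf' (N - 1 - l) (N - 1 - k) (by omega) (by omega)
      have e1 : N - 1 - k + 1 = N - k := by omega
      have e2 : N - 1 - k = N - (k + 1) := by omega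
      have e3 : N - 1 - l + 1 = N - l := by omega
      have e4 : N - 1 - l = N - (l + 1) := by omega
      rw [e1, e2, e3, e4] at h2
      exact h2)
    (by
      show IsPreconnected {x | -h x ≤ -t (N - 0)}
      rw [repEnd_negset, Nat.sub_zero]
      exact dN)
    (by
      show IsPreconnected {x | -h x ≤ -t (N - N)}
      rw [repEnd_negset, Nat.sub_self]
      exact d0)
    (N - i) (by omega)
  have h2 : IsPreconnected {x | -h x ≤ -t (N - (N - i))} := h1
  rw [repEnd_negset, Nat.sub_sub_self hi] at h2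
  exact h2

omit [FiniteDimensional ℝ V] in
/-- All sublevel and superlevel sets of `p` are connected. PROOF. `sub_conn` for `p` (`{p ≤ t 0} = ∅` by `Rep.low`,
`{p ≤ t N}` by `ts_outer_conn`) and for `-p` with the levels `-t (N - i)` (`{t N ≤ p}` by `ts_outer_conn`,
`{t 0 ≤ p}` is everything); `no_feat`. -/
theorem Rep.conp (H : Rep e F p q t N R) (S : Sys p q t N R) {i : ℕ} (hi : i ≤ N) :
    IsPreconnected {x | p x ≤ t i} ∧ IsPreconnected {x | t i ≤ p x} := by
  obtain ⟨c, hup⟩ := H.up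
  have ho := ts_outer_conn S.cp H.hR hup H.hip
  refine repEnd_both S.cp H.mono S.regp
    (fun k l hkl hl hf => no_feat S H.hR hkl hl (Or.inl hf))
    (fun k l hkl hl hf => no_feat S H.hR hkl hl (Or.inr (Or.inr (Or.inl hf)))) ?_
    ho.1.isPreconnected ?_ ho.2 hi
  · have h1 : {x | p x ≤ t 0} = ∅ := by
      ext x
      simp only [mem_ofPred_eq, mem_empty_iff_false, iff_false, not_le]
      exact H.low x
    rw [h1]
    exact isPreconnected_empty
  · have h1 : {x | t 0 ≤ p x} = univ := eq_univ_of_forall fun x => (H.low x).le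
    rw [h1]
    exact isPreconnected_univ

omit [FiniteDimensional ℝ V] in
/-- The same for `q`: `ts_outer_conn` for `-q`. -/
theorem Rep.conq (H : Rep e F p q t N R) (S : Sys p q t N R) {i : ℕ} (hi : i ≤ N) :
    IsPreconnected {x | q x ≤ t i} ∧ IsPreconnected {x | t i ≤ q x} := by
  obtain ⟨c, hdn⟩ := H.dn
  have ho := ts_outer_conn (h := fun x => -q x) S.cq.neg (c := -c) (hi := -t 0) H.hR
    (fun x hx => by
      obtain ⟨h1, h2⟩ := hdn x hx
      refine ⟨?_, neg_lt_neg h2⟩
      show -q x = ‖x‖ ^ 2 + -c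
      rw [h1]
      ring)
    (fun x hx => by
      obtain ⟨v, hv⟩ := H.loq x (neg_le_neg_iff.1 hx)
      exact ⟨-v, Desc.neg (H := fun _ : Unit => q) hv⟩)
  have ho1 : IsPreconnected {x | -q x ≤ -t 0} := ho.1.isPreconnected
  have ho2 : IsPreconnected {x | -t 0 ≤ -q x} := ho.2
  rw [repEnd_negset] at ho1
  rw [repEnd_negset'] at ho2
  refine repEnd_both S.cq H.mono S.regq
    (fun k l hkl hl hf => no_feat S H.hR hkl hl (Or.inr (Or.inl hf)))
    (fun k l hkl hl hf => no_feat S H.hR hkl hl (Or.inr (Or.inr (Or.inr hf)))) ho2 ?_ ho1 ?_ hi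
  · have h1 : {x | q x ≤ t N} = univ := eq_univ_of_forall fun x => (H.high x).le
    rw [h1]
    exact isPreconnected_univ
  · have h1 : {x | t N ≤ q x} = ∅ := by
      ext x
      simp only [mem_ofPred_eq, mem_empty_iff_false, iff_false, not_le]
      exact H.high x
    rw [h1]
    exact isPreconnected_empty

/-- A nonempty clopen part of a connected set is the whole set. -/
private theorem repEnd_clp {E A : Set ℂ} (hE : E.Nonempty) (h : Clp E A)
    (hA : IsPreconnected A) {x : ℂ} (hx : x ∈ A) : x ∈ E := by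
  obtain ⟨y, hy⟩ := hE
  exact h.con hy ⟨A, Subset.rfl, hA, h.1 hy, hx⟩

omit [FiniteDimensional ℝ V] in
/-- `p` changes only where its body is born. PROOF. In `Chg` the second and the fourth alternative contradict
`Rep.conp`. First: `E` is clopen in the connected set `{p ≤ t (i + 1)}`, so it is the whole set, so
`{p ≤ t i} = ∅`. Third: `E = {t i ≤ p}`, so `{t (i + 1) ≤ p} = ∅`, impossible (`up`). -/
theorem Rep.onlyp (H : Rep e F p q t N R) (S : Sys p q t N R) {i : ℕ} (hi : i < N)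
    (hc : Chg p (t i) (t (i + 1))) : (∀ x, t i < p x) ∧ ∃ x, p x ≤ t (i + 1) := by
  have hti : t i < t (i + 1) := H.mono i hi
  rcases hc with ⟨E, hE, hcl, hEp⟩ | ⟨x, x', hx, hx', hn, -⟩ | ⟨E, hE, hcl, hEp⟩ |
    ⟨x, x', hx, hx', hn, -⟩
  · refine ⟨fun x => ?_, ?_⟩
    · rcases le_or_gt (p x) (t (i + 1)) with h | h
      · exact hEp x (repEnd_clp hE hcl (H.conp S (by omega)).1 h)
      · exact hti.trans h
    · obtain ⟨x, hx⟩ := hE
      exact ⟨x, hcl.1 hx⟩
  · exact absurd ⟨_, Subset.rfl, (H.conp S hi.le).1, hx, hx'⟩ hn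
  · exfalso
    obtain ⟨c, hup⟩ := H.up
    have h1 := (hup (R : ℂ) (by
      rw [Complex.norm_real, Real.norm_of_nonneg H.hR.le])).2
    have h2 : t i ≤ t N := lev_le H.mono hi.le le_rfl
    have h3 : t (i + 1) ≤ t N := lev_le H.mono hi le_rfl
    have h4 := hEp _ (repEnd_clp hE hcl (H.conp S hi.le).2 (x := (R : ℂ)) (h2.trans h1.le))
    linarith
  · exact absurd ⟨_, Subset.rfl, (H.conp S hi).2, hx, hx'⟩ hn

omit [FiniteDimensional ℝ V] in
theorem Rep.onlyq (H : Rep e F p q t N R) (S : Sys p q t N R) {i : ℕ} (hi : i < N)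
    (hc : Chg q (t i) (t (i + 1))) : (∃ y, t i ≤ q y) ∧ ∀ y, q y < t (i + 1) := by
  have hti : t i < t (i + 1) := H.mono i hi
  rcases hc with ⟨E, hE, hcl, hEp⟩ | ⟨x, x', hx, hx', hn, -⟩ | ⟨E, hE, hcl, hEp⟩ |
    ⟨x, x', hx, hx', hn, -⟩
  · exfalso
    obtain ⟨c, hdn⟩ := H.dn
    have h1 := (hdn (R : ℂ) (by
      rw [Complex.norm_real, Real.norm_of_nonneg H.hR.le])).2
    have h2 : t 0 ≤ t i := lev_le H.mono (Nat.zero_le i) hi.le
    have h4 := hEp _ (repEnd_clp hE hcl (H.conq S hi).1 (x := (R : ℂ))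
      (h1.le.trans (h2.trans hti.le)))
    linarith
  · exact absurd ⟨_, Subset.rfl, (H.conq S hi.le).1, hx, hx'⟩ hn
  · refine ⟨?_, fun x => ?_⟩
    · obtain ⟨x, hx⟩ := hE
      exact ⟨x, hcl.1 hx⟩
    · rcases le_or_gt (t i) (q x) with h | h
      · exact hEp x (repEnd_clp hE hcl (H.conq S hi.le).2 h)
      · exact h.trans hti
  · exact absurd ⟨_, Subset.rfl, (H.conq S hi).2, hx, hx'⟩ hn

/-- Quadratic growth gives bounded sets. -/
private theorem repEnd_bdd {h : ℂ → ℝ} {R c : ℝ} (hh : ∀ x, R ≤ ‖x‖ → h x = ‖x‖ ^ 2 + c)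
    (s : ℝ) : Bornology.IsBounded {x | h x ≤ s} := by
  refine (Metric.isBounded_closedBall (x := (0 : ℂ)) (r := max R (1 + |s - c|))).subset
    fun x hx => ?_
  rw [mem_closedBall_zero_iff]
  by_contra hcon
  rw [not_le, max_lt_iff] at hcon
  obtain ⟨h1, h2⟩ := hcon
  have hx' : h x ≤ s := hx
  rw [hh x h1.le] at hx'
  have h3 := le_abs_self (s - c)
  have h4 := abs_nonneg (s - c)
  nlinarith

/-- PROOF. By `Sys.kind` every interval has a change of `p` or of `q`, and each changes on at most one interval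
(`onlyp`, `onlyq`), and `2 ≤ N`: `N = 2`. If `p` changes on the interval `1` then `p > t 1`; then `q` changes on the
interval `0` and `q < t 1`, so `{sumF ≤ 0} = ∅`: contradiction (`{F ≤ 0}` is nonempty and `Hom.nice`). So
`p` changes on the interval `0` (and `q` is regular on it) and `q` on the interval `1` (and `p` is regular on it).
`ts_base_ball` with `τ = t 1` (`{p ≤ t 1}`, `{t 1 ≤ q}` nonempty by `onlyp`, `onlyq`), `Hom.trans`. -/
theorem Rep.isBall (hdim : 3 ≤ Module.finrank ℝ V) (H : Rep e F p q t N R) (hF : Nice F)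
    (S : Sys p q t N R) : IsBall F := by
  have h2 : 2 ≤ N := H.two
  -- each changes on at most one interval
  have up1 : ∀ i j, i < j → j < N → Chg p (t i) (t (i + 1)) → ¬ Chg p (t j) (t (j + 1)) := by
    intro i j hij hj hi hj'
    obtain ⟨-, x, hx⟩ := H.onlyp S (hij.trans hj) hi
    have h3 := (H.onlyp S hj hj').1 x
    have h4 : t (i + 1) ≤ t j := lev_le H.mono hij hj.le
    linarith
  have uq1 : ∀ i j, i < j → j < N → Chg q (t i) (t (i + 1)) → ¬ Chg q (t j) (t (j + 1)) := by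
    intro i j hij hj hi hj'
    obtain ⟨⟨y, hy⟩, -⟩ := H.onlyq S hj hj'
    have h3 := (H.onlyq S (hij.trans hj) hi).2 y
    have h4 : t (i + 1) ≤ t j := lev_le H.mono hij hj.le
    linarith
  have k0 := S.kind 0 (by omega)
  have k1 := S.kind 1 (by omega)
  have hN : N = 2 := by
    by_contra hne
    have k2 := S.kind 2 (by omega)
    rcases k0 with ⟨-, a0⟩ | ⟨-, a0⟩
    · rcases k1 with ⟨-, a1⟩ | ⟨-, a1⟩
      · exact uq1 0 1 (by omega) (by omega) a0 a1
      · rcases k2 with ⟨-, a2⟩ | ⟨-, a2⟩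
        · exact uq1 0 2 (by omega) (by omega) a0 a2
        · exact up1 1 2 (by omega) (by omega) a1 a2
    · rcases k1 with ⟨-, a1⟩ | ⟨-, a1⟩
      · rcases k2 with ⟨-, a2⟩ | ⟨-, a2⟩
        · exact uq1 1 2 (by omega) (by omega) a1 a2
        · exact up1 0 2 (by omega) (by omega) a0 a2
      · exact up1 0 1 (by omega) (by omega) a0 a1
  subst hN
  rcases k0 with ⟨-, a0⟩ | ⟨rq0, a0⟩
  · rcases k1 with ⟨-, a1⟩ | ⟨-, a1⟩
    · exact absurd a1 (uq1 0 1 (by omega) (by omega) a0)
    · exfalso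
      obtain ⟨x, hx⟩ := (H.hom.nice hdim hF).conn.nonempty
      have hx' : p (e x).1 - q (e x).2 ≤ 0 := hx
      have h3 := (H.onlyp S (by omega) a1).1 (e x).1
      have h4 := (H.onlyq S (by omega) a0).2 (e x).2
      have h5 : q (e x).2 < t 1 := h4
      linarith
  · rcases k1 with ⟨rp1, a1⟩ | ⟨-, a1⟩
    swap
    · exact absurd a1 (up1 0 1 (by omega) (by omega) a0)
    obtain ⟨c, hup⟩ := H.up
    obtain ⟨c', hdn⟩ := H.dn
    have hb : IsBall (sumF e p q) := by
      refine ts_base_ball e H.lp H.lq (τ := t 1) (repEnd_bdd fun x hx => (hup x hx).1)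
        (fun s => ?_) (fun x hx => ?_) (fun x hx => ?_) ⟨?_, (H.conp S (by omega)).1⟩
        (H.conp S (by omega)).2 ⟨?_, (H.conq S (by omega)).2⟩ (H.conq S (by omega)).1
      · have h3 := repEnd_bdd (h := fun x => -q x) (R := R) (c := -c')
          (fun x hx => by
            show -q x = ‖x‖ ^ 2 + -c'
            rw [(hdn x hx).1]
            ring) (-s)
        have h4 : {x | -q x ≤ -s} = {x | s ≤ q x} := repEnd_negset q s
        rw [h4] at h3
        exact h3
      · rcases le_or_gt (p x) (t 2) with h | h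
        · exact rp1 x hx h
        · exact H.hip x h.le
      · rcases le_or_gt (t 0) (q x) with h | h
        · exact rq0 x h hx
        · exact H.loq x h.le
      · exact (H.onlyp S (by omega) a0).2
      · exact (H.onlyq S (by omega) a1).1
    exact H.hom.trans hb

/-- PROOF. Take the least `N` with `HasRep F N` (`Nat.find`; `2 ≤ N` so `N - 1 < N`), `Rep.sys`, `Rep.isBall`. -/
theorem rep_ball (hdim : 3 ≤ Module.finrank ℝ V) (hF : Nice F) (h : ∃ N, HasRep F N) :
    IsBall F := by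
  classical
  obtain ⟨e, p, q, t, R, H⟩ := Nat.find_spec h
  have h2 := H.two
  have hmin : ¬ HasRep F (Nat.find h - 1) := Nat.find_min h (by omega)
  exact H.isBall hdim hF (H.sys hdim hF hmin)

end Pool.Schoen
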