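import Pool.Agent.H.MP_6c077c_gt.Ts.Push

/-! Theorem TS: the changes are inside of the irregular part of an interval. -/

set_option autoImplicit false

namespace Pool.Schoen

open Filter Set Metric
open scoped Topology RealInnerProductSpace ContDiff

private theorem shrink_birth {h : ℂ → ℝ} (hc : Continuous h) {R lo hi t a b t' : ℝ}
    (ht : Tame R lo hi h) (h1 : lo ≤ t) (h2 : t ≤ a) (h3 : a ≤ b) (h4 : b ≤ t') (h5 : t' ≤ hi)
    (r2 : TReg h b t')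
    (hE : ∃ E : Set ℂ, E.Nonempty ∧ Clp E {x | h x ≤ b} ∧ ∀ x ∈ E, a < h x) :
    ∃ E : Set ℂ, E.Nonempty ∧ Clp E {x | h x ≤ t'} ∧ ∀ x ∈ E, t < h x := by
  obtain ⟨E, ⟨x, hx⟩, hE1, hE2⟩ := hE
  have hxb : h x ≤ b := hE1.1 hx
  obtain ⟨D, hD, hxD, hDc⟩ := comp_part hc (r2.mono h4 le_rfl) (hxb.trans h4)
  refine ⟨D, ⟨x, hxD⟩, hD, fun y hy => ?_⟩
  by_contra hcon
  have hyt : h y ≤ t := not_lt.1 hcon
  have h6 : Con {z | h z ≤ b} x y :=
    con_push hc ht h4 (h1.trans (h2.trans h3)) h5 r2 hxb (hyt.trans (h2.trans h3)) (hDc y hy)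
  exact absurd (hE2 y (hE1.con hx h6)) (not_lt.2 (hyt.trans h2))

private theorem shrink_merge {h : ℂ → ℝ} (hc : Continuous h) {R lo hi t a b t' : ℝ}
    (ht : Tame R lo hi h) (h1 : lo ≤ t) (h2 : t ≤ a) (h3 : a ≤ b) (h4 : b ≤ t') (h5 : t' ≤ hi)
    (r1 : TReg h t a)
    (hE : ∃ x x', h x ≤ a ∧ h x' ≤ a ∧ ¬ Con {y | h y ≤ a} x x' ∧ Con {y | h y ≤ b} x x') :
    ∃ x x', h x ≤ t ∧ h x' ≤ t ∧ ¬ Con {y | h y ≤ t} x x' ∧ Con {y | h y ≤ t'} x x' := by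
  have key : ∀ x, h x ≤ a → ∃ z, h z ≤ t ∧ Con {y | h y ≤ a} x z := by
    intro x hx
    obtain ⟨D, hD, hxD, hDc⟩ := comp_part hc (r1.mono h2 le_rfl) hx
    by_contra hcon
    push Not at hcon
    have h6 : D = ∅ := no_birth hc ht h1 (h3.trans (h4.trans h5)) r1 hD fun y hy => by
      by_contra h7
      exact hcon y (not_lt.1 h7) (hDc y hy)
    rw [h6] at hxD
    exact hxD
  obtain ⟨x, x', hx, hx', hn, hm⟩ := hE
  obtain ⟨z, hz, hxz⟩ := key x hx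
  obtain ⟨z', hz', hxz'⟩ := key x' hx'
  have e1 : {y | h y ≤ t} ⊆ {y | h y ≤ a} := fun y (hy : h y ≤ t) => hy.trans h2
  have e2 : {y | h y ≤ a} ⊆ {y | h y ≤ t'} := fun y (hy : h y ≤ a) => hy.trans (h3.trans h4)
  have e3 : {y | h y ≤ b} ⊆ {y | h y ≤ t'} := fun y (hy : h y ≤ b) => hy.trans h4
  refine ⟨z, z', hz, hz', fun h6 => hn ?_, ?_⟩
  · exact (hxz.trans (h6.mono e1)).trans hxz'.symm
  · exact ((hxz.symm.mono e2).trans (hm.mono e3)).trans (hxz'.mono e2)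

/-- PROOF. Four alternatives of `Chg h a b`, each gives the same alternative of `Chg h t t'`. First: `E` clopen in
`{h ≤ b}`, `a < h` on `E`, `x ∈ E`. Let `D` be the part of `{h ≤ t'}` of `comp_part` for `x`. If some `y ∈ D` has
`h y ≤ t` then `x`, `y` are joined in `{h ≤ t'}`, so in `{h ≤ b}` (`con_push`, `TReg h b t'`), so `y ∈ E`, contradiction.
Second: `x`, `x'` in `{h ≤ a}`, not joined there, joined in `{h ≤ b}`. The part of `{h ≤ a}` of `comp_part` for `x`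
contains a `z` with `h z ≤ t` (`no_birth`, `TReg h t a`); the same for `x'` and `z'`. `z`, `z'` are not joined in
`{h ≤ t}`, but in `{h ≤ t'}`. Third and fourth: by `-h` (`TReg.neg`, `Tame.neg`). -/
theorem chg_shrink {h : ℂ → ℝ} (hc : Continuous h) {R lo hi t a b t' : ℝ} (ht : Tame R lo hi h)
    (h1 : lo ≤ t) (h2 : t ≤ a) (h3 : a ≤ b) (h4 : b ≤ t') (h5 : t' ≤ hi) (r1 : TReg h t a)
    (r2 : TReg h b t') (hn : ¬ Chg h t t') : ¬ Chg h a b := by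
  intro hC
  apply hn
  have hs : ∀ c : ℝ, {x | c ≤ h x} = {x | -h x ≤ -c} := by
    intro c
    ext x
    change c ≤ h x ↔ -h x ≤ -c
    exact neg_le_neg_iff.symm
  have g1 : -hi ≤ -t' := neg_le_neg h5
  have g2 : -t' ≤ -b := neg_le_neg h4
  have g3 : -b ≤ -a := neg_le_neg h3
  have g4 : -a ≤ -t := neg_le_neg h2
  have g5 : -t ≤ -lo := neg_le_neg h1
  rcases hC with hC | hC | hC | hC
  · exact Or.inl (shrink_birth hc ht h1 h2 h3 h4 h5 r2 hC)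
  · exact Or.inr (Or.inl (shrink_merge hc ht h1 h2 h3 h4 h5 r1 hC))
  · right; right; left
    obtain ⟨E, hE0, hE1, hE2⟩ := hC
    rw [hs] at hE1
    obtain ⟨D, hD0, hD1, hD2⟩ := shrink_birth hc.neg ht.neg g1 g2 g3 g4 g5 r1.neg
      ⟨E, hE0, hE1, fun x hx => neg_lt_neg (hE2 x hx)⟩
    refine ⟨D, hD0, ?_, fun x hx => neg_lt_neg_iff.1 (hD2 x hx)⟩
    rw [hs]
    exact hD1
  · right; right; right
    obtain ⟨x, x', hx, hx', hE1, hE2⟩ := hC
    rw [hs] at hE1 hE2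
    obtain ⟨z, z', hz, hz', hD1, hD2⟩ := shrink_merge hc.neg ht.neg g1 g2 g3 g4 g5 r2.neg
      ⟨x, x', neg_le_neg hx, neg_le_neg hx', hE1, hE2⟩
    refine ⟨z, z', neg_le_neg_iff.1 hz, neg_le_neg_iff.1 hz', ?_, ?_⟩
    · rw [hs]
      exact hD1
    · rw [hs]
      exact hD2

end Pool.Schoen
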