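import Pool.Agent.H.MP_6c077c_gt.Ts.Rep
import Pool.Agent.H.MP_6c077c_gt.Ts.AnnFix
import Pool.Agent.H.MP_6c077c_gt.Ts.Shrink

/-! Theorem TS: a trivial interval can be made regular. -/

set_option autoImplicit false

namespace Pool.Schoen

open Filter Set Metric
open scoped Topology RealInnerProductSpace ContDiff

/-- A tame function has bounded slabs. -/
theorem RepFix_bdd {h : ℂ → ℝ} {R lo hi : ℝ} (ht : Tame R lo hi h) (c ε : ℝ) :
    Bornology.IsBounded {x | |h x - c| ≤ ε} := by
  rw [isBounded_iff_forall_norm_le]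
  rcases ht with ⟨k, hk⟩ | ⟨k, hk⟩
  · refine ⟨max R (1 + (c + ε - k)), fun x hx => ?_⟩
    by_contra hcon
    obtain ⟨h1, h2⟩ := max_lt_iff.1 (not_le.1 hcon)
    have h3 := (hk x h1.le).1
    have h4 := (abs_le.1 (show |h x - c| ≤ ε from hx)).2
    have h5 : 0 ≤ ‖x‖ := norm_nonneg x
    have h6 : ‖x‖ ^ 2 ≤ c + ε - k := by linarith
    nlinarith
  · refine ⟨max R (1 + (k - c + ε)), fun x hx => ?_⟩
    by_contra hcon
    obtain ⟨h1, h2⟩ := max_lt_iff.1 (not_le.1 hcon)
    have h3 := (hk x h1.le).1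
    have h4 := (abs_le.1 (show |h x - c| ≤ ε from hx)).1
    have h5 : 0 ≤ ‖x‖ := norm_nonneg x
    have h6 : ‖x‖ ^ 2 ≤ k - c + ε := by linarith
    nlinarith

/-- PROOF. The level set is compact (`Tame.slab_bdd`); at each of its points both properties hold nearby
(`Desc.near`). -/
theorem smr_nbhd {h : ℂ → ℝ} (hc : Continuous h) {R lo hi c : ℝ} (ht : Tame R lo hi h)
    (h1 : lo ≤ c) (h2 : c ≤ hi) (hs : Smr h c) : ∃ ε : ℝ, 0 < ε ∧ ∀ x, |h x - c| ≤ ε →
      (∀ᶠ y in 𝓝 x, ContDiffAt ℝ ∞ h y) ∧ ∃ v, Desc1 h x v := by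
  have _ := h1
  have _ := h2
  obtain ⟨U, hU⟩ : ∃ U : Set ℂ, U = {x | (∀ᶠ y in 𝓝 x, ContDiffAt ℝ ∞ h y) ∧ ∃ v, Desc1 h x v} :=
    ⟨_, rfl⟩
  have hUo : IsOpen U := by
    rw [isOpen_iff_mem_nhds]
    intro x hx
    rw [hU] at hx ⊢
    obtain ⟨g1, v, hv⟩ := hx
    filter_upwards [g1.eventually_nhds, Desc.near hv] with y hy hy'
    exact ⟨hy, v, hy'⟩
  have hK : IsCompact ({x | |h x - c| ≤ 1} ∩ Uᶜ) := by
    refine Metric.isCompact_of_isClosed_isBounded ?_ ((RepFix_bdd ht c 1).subset inter_subset_left)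
    exact (isClosed_le (hc.sub continuous_const).abs continuous_const).inter hUo.isClosed_compl
  rcases ({x | |h x - c| ≤ 1} ∩ Uᶜ).eq_empty_or_nonempty with he | hne
  · refine ⟨1, one_pos, fun x hx => ?_⟩
    by_contra hcon
    have : x ∈ ({x | |h x - c| ≤ 1} ∩ Uᶜ) := ⟨hx, fun h3 => hcon (by rw [hU] at h3; exact h3)⟩
    rw [he] at this
    exact this
  · obtain ⟨z, hz, hmin⟩ := hK.exists_isMinOn hne
      ((hc.sub continuous_const).abs.continuousOn (s := {x | |h x - c| ≤ 1} ∩ Uᶜ))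
    have hz0 : 0 < |h z - c| := by
      refine abs_pos.2 fun h3 => hz.2 ?_
      rw [hU]
      exact hs z (sub_eq_zero.1 h3)
    refine ⟨min 1 (|h z - c| / 2), lt_min one_pos (half_pos hz0), fun x hx => ?_⟩
    by_contra hcon
    have hxK : x ∈ ({x | |h x - c| ≤ 1} ∩ Uᶜ) :=
      ⟨hx.trans (min_le_left _ _), fun h3 => hcon (by rw [hU] at h3; exact h3)⟩
    have h4 : |h z - c| ≤ |h x - c| := hmin hxK
    have h5 := hx.trans (min_le_right _ _)
    linarith

variable {V : Type*} [NormedAddCommGroup V] [InnerProductSpace ℝ V]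
variable {e : V ≃L[ℝ] ℂ × ℂ} {F : V → ℝ} {p q : ℂ → ℝ} {t : ℕ → ℝ} {N : ℕ} {R : ℝ}

/-- The levels are increasing. -/
theorem RepFix_mono (H : Rep e F p q t N R) {i j : ℕ} (hij : i ≤ j) (hj : j ≤ N) : t i ≤ t j := by
  induction j, hij using Nat.le_induction with
  | base => exact le_refl _
  | succ k hk ih => exact (ih (by omega)).trans (H.mono k (by omega)).le

/-- PROOF. Let `ε` be small (`smr_nbhd` for `t i` and `t (i + 1)`; `2 ε < t (i + 1) - t i`), `a = t i + ε`,
`b = t (i + 1) - ε`. `¬ Chg q a b` by `chg_shrink`. `annulus_fix` for `q`, `a`, `b` gives `q'`: it is `q` near every point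
with `q x < a` or `b < q x`, and `{a ≤ q' ≤ b} ⊆ {a ≤ q ≤ b}` up to that. `Hom` by `hom_free` (`TReg p a b`) and
`Hom.trans`. All other fields: for a value outside of `[a, b]` the points and the germs of `q` and `q'` are the
same. -/
theorem Rep.fix (H : Rep e F p q t N R) {i : ℕ} (hi : i < N) (hp : TReg p (t i) (t (i + 1)))
    (r1 : TReg q (t i) (t i)) (r2 : TReg q (t (i + 1)) (t (i + 1)))
    (hn : ¬ Chg q (t i) (t (i + 1))) :
    ∃ q' : ℂ → ℝ, Rep e F p q' t N R ∧ TReg q' (t i) (t (i + 1)) := by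
  have cp : Continuous p := H.lp.continuous
  have cq : Continuous q := H.lq.continuous
  have m0 : t 0 ≤ t i := RepFix_mono H (Nat.zero_le _) hi.le
  have m1 : t i < t (i + 1) := H.mono i hi
  have m2 : t (i + 1) ≤ t N := RepFix_mono H hi le_rfl
  have s1 : Smr q (t i) := fun x hx => ⟨H.smq i hi.le x hx, r1 x hx.ge hx.le⟩
  have s2 : Smr q (t (i + 1)) := fun x hx => ⟨H.smq (i + 1) hi x hx, r2 x hx.ge hx.le⟩
  obtain ⟨ε1, he1, k1⟩ := smr_nbhd cq H.tq m0 (m1.le.trans m2) s1
  obtain ⟨ε2, he2, k2⟩ := smr_nbhd cq H.tq (m0.trans m1.le) m2 s2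
  obtain ⟨ε, hε, g1, g2, g3⟩ : ∃ ε : ℝ, 0 < ε ∧ ε ≤ ε1 ∧ ε ≤ ε2 ∧ 2 * ε < t (i + 1) - t i := by
    refine ⟨min (min ε1 ε2) ((t (i + 1) - t i) / 3), lt_min (lt_min he1 he2) (by linarith),
      (min_le_left _ _).trans (min_le_left _ _), (min_le_left _ _).trans (min_le_right _ _), ?_⟩
    have := min_le_right (min ε1 ε2) ((t (i + 1) - t i) / 3)
    linarith
  obtain ⟨a, ha⟩ : ∃ a : ℝ, a = t i + ε := ⟨_, rfl⟩
  obtain ⟨b, hb⟩ : ∃ b : ℝ, b = t (i + 1) - ε := ⟨_, rfl⟩
  have hab : a < b := by linarith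
  have hta : t i < a := by linarith
  have hbt : b < t (i + 1) := by linarith
  have u1 : ∀ x, t i ≤ q x → q x ≤ a → (∀ᶠ y in 𝓝 x, ContDiffAt ℝ ∞ q y) ∧ ∃ v, Desc1 q x v := by
    intro x hx hx'
    refine k1 x (abs_le.2 ⟨?_, ?_⟩)
    · linarith
    · linarith
  have u2 : ∀ x, b ≤ q x → q x ≤ t (i + 1) →
      (∀ᶠ y in 𝓝 x, ContDiffAt ℝ ∞ q y) ∧ ∃ v, Desc1 q x v := by
    intro x hx hx'
    refine k2 x (abs_le.2 ⟨?_, ?_⟩)
    · linarith
    · linarith
  have rta : TReg q (t i) a := fun x hx hx' => (u1 x hx hx').2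
  have rbt : TReg q b (t (i + 1)) := fun x hx hx' => (u2 x hx hx').2
  have hn' : ¬ Chg q a b := chg_shrink cq H.tq m0 hta.le hab.le hbt.le m2 rta rbt hn
  have sa : Smr q a := fun x hx => u1 x (by linarith) hx.le
  have sb : Smr q b := fun x hx => u2 x hx.ge (by linarith)
  obtain ⟨k, lk, f1, f2, f3⟩ := annulus_fix H.lq H.tq (m0.trans hta.le) hab (hbt.le.trans m2) sa sb
    hn'
  -- germs
  have near : ∀ x, (k x < a ∨ b < k x) → q x = k x ∧ ∀ᶠ y in 𝓝 x, q y = k y := by
    intro x hx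
    have h0 : q x < a ∨ b < q x := by
      by_contra hcon
      rw [not_or, not_lt, not_lt] at hcon
      obtain ⟨h1, h2⟩ := f2 x hcon.1 hcon.2
      rcases hx with hx | hx
      · exact absurd h1 (not_le.2 hx)
      · exact absurd h2 (not_le.2 hx)
    have h1 : ∀ᶠ y in 𝓝 x, q y < a ∨ b < q y := by
      rcases h0 with h0 | h0
      · filter_upwards [cq.continuousAt.eventually_lt continuousAt_const h0] with y hy
        exact Or.inl hy
      · filter_upwards [continuousAt_const.eventually_lt cq.continuousAt h0] with y hy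
        exact Or.inr hy
    refine ⟨(f1 x h0).symm, ?_⟩
    filter_upwards [h1] with y hy
    exact (f1 y hy).symm
  have trans : ∀ x, (k x < a ∨ b < k x) → (∃ v, Desc1 q x v) → ∃ v, Desc1 k x v := by
    rintro x hx ⟨v, hv⟩
    exact ⟨v, hv.congr (near x hx).2⟩
  -- the values t j
  have htj : ∀ j ≤ N, t j < a ∨ b < t j := by
    intro j hj
    rcases Nat.lt_or_ge i j with h | h
    · right
      have := RepFix_mono H (show i + 1 ≤ j from h) hj
      linarith
    · left
      have := RepFix_mono H h hi.le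
      linarith
  have rk : TReg k (t i) (t (i + 1)) := by
    intro x hx hx'
    by_cases h : k x < a ∨ b < k x
    · refine trans x h ?_
      obtain ⟨h1, -⟩ := near x h
      rcases h with h | h
      · exact (u1 x (by linarith) (by linarith)).2
      · exact (u2 x (by linarith) (by linarith)).2
    · rw [not_or, not_lt, not_lt] at h
      exact f3 x h.1 h.2
  refine ⟨k, ?_, rk⟩
  refine
    { hom := ?_
      lp := H.lp
      lq := lk
      hR := H.hR
      up := H.up
      dn := ?_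
      mono := H.mono
      lop := H.lop
      hip := H.hip
      loq := ?_
      hiq := ?_
      kind := ?_
      smp := H.smp
      smq := ?_ }
  · refine H.hom.trans (hom_free e cp H.lq lk H.hom.good_right (hp.mono hta.le hbt.le)
      ⟨R, fun x h1 h2 => ?_⟩ ⟨R, fun x h1 h2 => ?_⟩ f1 f2)
    · exact (H.tp.slab_bdd (x := x) (by linarith) (by linarith)).le
    · exact (H.tq.slab_bdd (x := x) (by linarith) (by linarith)).le
  · obtain ⟨c, hc⟩ := H.dn
    refine ⟨c, fun x hx => ?_⟩
    obtain ⟨h1, h2⟩ := hc x hx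
    have h3 : k x = q x := f1 x (Or.inl (by linarith))
    rw [h3]
    exact ⟨h1, h2⟩
  · intro x hx
    have h : k x < a ∨ b < k x := Or.inl (by linarith)
    exact trans x h (H.loq x (by rw [(near x h).1]; exact hx))
  · intro x hx
    have h : k x < a ∨ b < k x := Or.inr (by linarith)
    exact trans x h (H.hiq x (by rw [(near x h).1]; exact hx))
  · intro j hj
    rcases H.kind j hj with h | h
    · exact Or.inl h
    · refine Or.inr ?_
      rcases eq_or_ne j i with rfl | hji
      · exact rk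
      · intro x hx hx'
        have h0 : k x < a ∨ b < k x := by
          rcases Nat.lt_or_ge i j with h1 | h1
          · right
            have := RepFix_mono H (show i + 1 ≤ j from h1) hj.le
            linarith
          · left
            have h2 : j + 1 ≤ i := by omega
            have := RepFix_mono H h2 hi.le
            linarith
        refine trans x h0 (h x ?_ ?_)
        · rw [(near x h0).1]
          exact hx
        · rw [(near x h0).1]
          exact hx'
  · intro j hj x hx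
    have h0 : k x < a ∨ b < k x := by
      rw [hx]
      exact htj j hj
    obtain ⟨h1, h2⟩ := near x h0
    have h3 := H.smq j hj x (h1.trans hx)
    filter_upwards [h3, h2.eventually_nhds] with y hy hy'
    exact hy.congr_of_eventuallyEq (hy'.mono fun z hz => hz.symm)

end Pool.Schoen
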