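import Pool.Agent.H.MP_6c077c_gt.Ts.RepFix
import Pool.Agent.H.MP_6c077c_gt.Ts.Nice

/-! Theorem TS: minimal representations. -/

set_option autoImplicit false

namespace Pool.Schoen

open Filter Set Metric
open scoped Topology RealInnerProductSpace ContDiff

variable {V : Type*} [NormedAddCommGroup V] [InnerProductSpace ℝ V] [FiniteDimensional ℝ V]

/-- There is a representation with `N` intervals. -/
def HasRep (F : V → ℝ) (N : ℕ) : Prop :=
  ∃ (e : V ≃L[ℝ] ℂ × ℂ) (p q : ℂ → ℝ) (t : ℕ → ℝ) (R : ℝ), Rep e F p q t N R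

variable {e : V ≃L[ℝ] ℂ × ℂ} {F : V → ℝ} {p q : ℂ → ℝ} {t : ℕ → ℝ} {N : ℕ} {R : ℝ}

omit [FiniteDimensional ℝ V] in
/-- Levels are regular for `p`. PROOF. `i = 0`, `i = N`: `lop`, `hip`. Otherwise if `p` is not regular at `t i` then
`q` is regular on the intervals `i - 1` and `i` (`kind`), `Rep.merge`. -/
theorem Rep.regp (H : Rep e F p q t N R) (hmin : ¬ HasRep F (N - 1)) {i : ℕ} (hi : i ≤ N) :
    TReg p (t i) (t i) := by
  by_contra hn
  rcases Nat.eq_zero_or_pos i with h0 | h0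
  · subst h0
    exact hn fun x _ h2 => H.lop x h2
  rcases hi.eq_or_lt with h1 | h1
  · subst h1
    exact hn fun x h2 _ => H.hip x h2
  obtain ⟨j, rfl⟩ : ∃ j, i = j + 1 := ⟨i - 1, by omega⟩
  have hj : t j ≤ t (j + 1) := (H.mono j (by omega)).le
  have hj' : t (j + 1) ≤ t (j + 1 + 1) := (H.mono (j + 1) h1).le
  have k1 : TReg q (t j) (t (j + 1)) := by
    rcases H.kind j (by omega) with h | h
    · exact absurd (h.mono hj le_rfl) hn
    · exact h
  have k2 : TReg q (t (j + 1)) (t (j + 1 + 1)) := by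
    rcases H.kind (j + 1) h1 with h | h
    · exact absurd (h.mono le_rfl hj') hn
    · exact h
  obtain ⟨t', ht'⟩ := H.merge h1 (Or.inr ⟨k1, k2⟩)
  exact hmin ⟨e, p, q, t', R, ht'⟩

omit [FiniteDimensional ℝ V] in
theorem Rep.regq (H : Rep e F p q t N R) (hmin : ¬ HasRep F (N - 1)) {i : ℕ} (hi : i ≤ N) :
    TReg q (t i) (t i) := by
  by_contra hn
  rcases Nat.eq_zero_or_pos i with h0 | h0
  · subst h0
    exact hn fun x _ h2 => H.loq x h2
  rcases hi.eq_or_lt with h1 | h1
  · subst h1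
    exact hn fun x h2 _ => H.hiq x h2
  obtain ⟨j, rfl⟩ : ∃ j, i = j + 1 := ⟨i - 1, by omega⟩
  have hj : t j ≤ t (j + 1) := (H.mono j (by omega)).le
  have hj' : t (j + 1) ≤ t (j + 1 + 1) := (H.mono (j + 1) h1).le
  have k1 : TReg p (t j) (t (j + 1)) := by
    rcases H.kind j (by omega) with h | h
    · exact h
    · exact absurd (h.mono hj le_rfl) hn
  have k2 : TReg p (t (j + 1)) (t (j + 1 + 1)) := by
    rcases H.kind (j + 1) h1 with h | h
    · exact h
    · exact absurd (h.mono le_rfl hj') hn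
  obtain ⟨t', ht'⟩ := H.merge h1 (Or.inl ⟨k1, k2⟩)
  exact hmin ⟨e, p, q, t', R, ht'⟩

omit [FiniteDimensional ℝ V] in
/-- PROOF. Otherwise `Rep.fix` (levels regular by `Rep.regq`) gives `q'` regular on the interval `i`; `2 ≤ N`
(`Rep.two`), so there is a neighbour interval; by `kind` one of `p`, `q'` is regular on it, and both are on `i`:
`Rep.merge`. -/
theorem Rep.chgq (H : Rep e F p q t N R) (hmin : ¬ HasRep F (N - 1)) {i : ℕ} (hi : i < N)
    (hp : TReg p (t i) (t (i + 1))) : Chg q (t i) (t (i + 1)) := by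
  by_contra hn
  obtain ⟨q', H', hq'⟩ := H.fix hi hp (H.regq hmin hi.le) (H.regq hmin hi) hn
  have h2 := H.two
  by_cases h1 : i + 1 < N
  · obtain ⟨t', ht'⟩ := H'.merge h1 (by
      rcases H'.kind (i + 1) h1 with h | h
      · exact Or.inl ⟨hp, h⟩
      · exact Or.inr ⟨hq', h⟩)
    exact hmin ⟨e, p, q', t', R, ht'⟩
  · obtain ⟨j, rfl⟩ : ∃ j, i = j + 1 := ⟨i - 1, by omega⟩
    obtain ⟨t', ht'⟩ := H'.merge (i := j) hi (by
      rcases H'.kind j (by omega) with h | h
      · exact Or.inl ⟨h, hp⟩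
      · exact Or.inr ⟨h, hq'⟩)
    exact hmin ⟨e, p, q', t', R, ht'⟩

omit [FiniteDimensional ℝ V] in
/-- By `Rep.symm` (interval `N - 1 - i`), `chg_neg`. -/
theorem Rep.chgp (H : Rep e F p q t N R) (hmin : ¬ HasRep F (N - 1)) {i : ℕ} (hi : i < N)
    (hq : TReg q (t i) (t (i + 1))) : Chg p (t i) (t (i + 1)) := by
  have e1 : N - (N - 1 - i) = i + 1 := by omega
  have e2 : N - (N - 1 - i + 1) = i := by omega
  have h1 := Rep.chgq H.symm hmin (i := N - 1 - i) (by omega) (by
    show TReg (fun y => -q y) (-t (N - (N - 1 - i))) (-t (N - (N - 1 - i + 1)))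
    rw [e1, e2]
    exact hq.neg)
  have h2 : Chg (fun x => -p x) (-t (N - (N - 1 - i))) (-t (N - (N - 1 - i + 1))) := h1
  rw [e1, e2] at h2
  exact chg_neg.1 h2

/-- PROOF. `alt` by `Rep.merge`; the four last fields by `nice_wd` (`Rep.low`, `Rep.high`) and `Hom.nice`. -/
theorem Rep.sys (hdim : 3 ≤ Module.finrank ℝ V) (H : Rep e F p q t N R) (hF : Nice F)
    (hmin : ¬ HasRep F (N - 1)) : Sys p q t N R := by
  obtain ⟨c1, hc1⟩ := H.up
  obtain ⟨c2, hc2⟩ := H.dn
  obtain ⟨w1, w2, w3, w4⟩ := nice_wd e H.lp.continuous H.lq.continuous H.hR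
    (fun x hx => (hc1 x hx).2) (fun x hx => (hc2 x hx).2) H.low H.high (H.hom.nice hdim hF)
  exact
    { cp := H.lp.continuous
      cq := H.lq.continuous
      tp := H.tp
      tq := H.tq
      mono := H.mono
      regp := fun i hi => H.regp hmin hi
      regq := fun i hi => H.regq hmin hi
      kind := fun i hi => by
        rcases H.kind i hi with h | h
        · exact Or.inl ⟨h, H.chgq hmin hi h⟩
        · exact Or.inr ⟨h, H.chgp hmin hi h⟩
      altp := fun i hi h => by
        obtain ⟨t', ht'⟩ := H.merge hi (Or.inl h)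
        exact hmin ⟨e, p, q, t', R, ht'⟩
      altq := fun i hi h => by
        obtain ⟨t', ht'⟩ := H.merge hi (Or.inr h)
        exact hmin ⟨e, p, q, t', R, ht'⟩
      conW := w1
      conV := w3
      lftW := w2
      lftV := w4 }

end Pool.Schoen
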