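import Pool.Agent.H.MP_6c077c_gt.Ts.Defs
import Pool.Agent.H.MP_6c077c_gt.Ix.HomB
import Pool.Agent.H.MP_6c077c_gt.Ix.DescC

/-! Theorem TS: the sum of two functions of two variables, and the key freedom. -/

set_option autoImplicit false

namespace Pool.Schoen

open Filter Set Metric
open scoped Topology RealInnerProductSpace ContDiff

variable {V : Type*} [NormedAddCommGroup V] [InnerProductSpace ℝ V]

/-- `p` of the first component minus `q` of the second. -/
noncomputable def sumF (e : V ≃L[ℝ] ℂ × ℂ) (p q : ℂ → ℝ) (x : V) : ℝ := p (e x).1 - q (e x).2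

/-- The exchange of the components. -/
noncomputable def swE (e : V ≃L[ℝ] ℂ × ℂ) : V ≃L[ℝ] ℂ × ℂ :=
  e.trans (ContinuousLinearEquiv.prodComm ℝ ℂ ℂ)

theorem sumF_swap (e : V ≃L[ℝ] ℂ × ℂ) (p q : ℂ → ℝ) :
    sumF (swE e) (fun y => -q y) (fun x => -p x) = sumF e p q := by
  funext x
  change -q (e x).2 - -p (e x).1 = p (e x).1 - q (e x).2
  ring

theorem sumF_continuous (e : V ≃L[ℝ] ℂ × ℂ) {p q : ℂ → ℝ} (cp : Continuous p)
    (cq : Continuous q) : Continuous (sumF e p q) :=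
  (cp.comp (continuous_fst.comp e.continuous)).sub (cq.comp (continuous_snd.comp e.continuous))

/-- PROOF. `q` is Lipschitz with constant `C` near `(e x).2`; for `w` near `e.symm (v, 0)` the second component
of `e w` is so small that it contributes at most half of the descent. -/
theorem desc_fst (e : V ≃L[ℝ] ℂ × ℂ) {p q : ℂ → ℝ} (hq : LocallyLipschitz q) {x : V} {v : ℂ}
    (h : Desc1 p (e x).1 v) : Desc1 (sumF e p q) x (e.symm (v, 0)) := by
  obtain ⟨c, hc, d, hd, H⟩ := h.unif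
  obtain ⟨C, t, ht, hC⟩ := hq (e x).2
  have hc2 : 0 < c / 2 := by linarith
  refine ⟨c / 2, hc2, ?_⟩
  have ta := tendsto_arg (⊤ : Filter Unit) x (e.symm (v, 0))
  have ta' := tendsto_arg' (⊤ : Filter Unit) x (e.symm (v, 0))
  have k1 : ∀ᶠ y in 𝓝 x, ‖(e y).1 - (e x).1‖ < d := by
    have hcont : Continuous fun y : V => ‖(e y).1 - (e x).1‖ :=
      ((continuous_fst.comp e.continuous).sub continuous_const).norm
    have h0 : ‖(e x).1 - (e x).1‖ < d := by rwa [sub_self, norm_zero]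
    exact hcont.continuousAt.eventually_lt continuousAt_const h0
  have k2 : ∀ᶠ y in 𝓝 x, (e y).2 ∈ t :=
    (continuous_snd.comp e.continuous).continuousAt ht
  have k3 : ∀ᶠ w in 𝓝 (e.symm (v, 0)), ‖(e w).1 - v‖ < d := by
    have hcont : Continuous fun w : V => ‖(e w).1 - v‖ :=
      ((continuous_fst.comp e.continuous).sub continuous_const).norm
    have h0 : ‖(e (e.symm (v, 0))).1 - v‖ < d := by
      rw [e.apply_symm_apply, sub_self, norm_zero]
      exact hd
    exact hcont.continuousAt.eventually_lt continuousAt_const h0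
  have k4 : ∀ᶠ w in 𝓝 (e.symm (v, 0)), (C : ℝ) * ‖(e w).2‖ < c / 2 := by
    have hcont : Continuous fun w : V => (C : ℝ) * ‖(e w).2‖ :=
      continuous_const.mul (continuous_snd.comp e.continuous).norm
    have h0 : (C : ℝ) * ‖(e (e.symm (v, 0))).2‖ < c / 2 := by
      rw [e.apply_symm_apply, norm_zero, mul_zero]
      exact hc2
    exact hcont.continuousAt.eventually_lt continuousAt_const h0
  have k5 : ∀ᶠ s in 𝓝[>] (0 : ℝ), s < d :=
    mem_nhdsWithin_of_mem_nhds (Iio_mem_nhds hd)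
  filter_upwards [(tendsto_snd.comp ta').eventually k1, (tendsto_snd.comp ta').eventually k2,
    (tendsto_snd.comp ta).eventually k2,
    (DescC_dir (⊤ : Filter Unit) x (e.symm (v, 0))).eventually k3,
    (DescC_dir (⊤ : Filter Unit) x (e.symm (v, 0))).eventually k4,
    (DescC_time (⊤ : Filter Unit) x (e.symm (v, 0))).eventually k5,
    DescC_pos (⊤ : Filter Unit) x (e.symm (v, 0))] with z z1 z2 z3 z4 z5 z6 z7
  obtain ⟨u, y, w, s⟩ := z
  simp only [Function.comp] at z1 z2 z3 z4 z5 z6 z7 ⊢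
  have e1 : (e (y + s • w)).1 = (e y).1 + s • (e w).1 := by
    rw [map_add, map_smul]
    rfl
  have e2 : (e (y + s • w)).2 = (e y).2 + s • (e w).2 := by
    rw [map_add, map_smul]
    rfl
  have g1 : p ((e y).1 + s • (e w).1) ≤ p (e y).1 - c * s := H _ z1 _ z4 s z7 z6
  have g2 := hC.dist_le_mul _ z2 _ z3
  rw [e2, Real.dist_eq, dist_eq_norm, sub_add_cancel_left, norm_neg, norm_smul, Real.norm_eq_abs,
    abs_of_pos z7] at g2
  have g3 := (abs_le.1 g2).2
  have g4 : (C : ℝ) * (s * ‖(e w).2‖) ≤ c / 2 * s := by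
    have h9 := mul_le_mul_of_nonneg_left z5.le z7.le
    calc (C : ℝ) * (s * ‖(e w).2‖) = s * ((C : ℝ) * ‖(e w).2‖) := by ring
      _ ≤ s * (c / 2) := h9
      _ = c / 2 * s := by ring
  change p (e (y + s • w)).1 - q (e (y + s • w)).2 ≤ p (e y).1 - q (e y).2 - c / 2 * s
  rw [e1, e2]
  linarith

theorem SumF_neg {p : ℂ → ℝ} (hp : LocallyLipschitz p) : LocallyLipschitz fun y => -p y := by
  intro x
  obtain ⟨C, t, ht, h⟩ := hp x
  refine ⟨C, t, ht, ?_⟩
  intro y hy z hz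
  rw [edist_neg_neg]
  exact h hy hz

/-- From `desc_fst` by `sumF_swap`, `Desc.neg`. -/
theorem desc_snd (e : V ≃L[ℝ] ℂ × ℂ) {p q : ℂ → ℝ} (hp : LocallyLipschitz p) {x : V} {v : ℂ}
    (h : Desc1 q (e x).2 v) : Desc1 (sumF e p q) x (e.symm (0, -v)) := by
  have hn : Desc1 (fun y => -q y) (e x).2 (-v) := Desc.neg h
  have h1 := desc_fst (swE e) (p := fun y => -q y) (q := fun y => -p y) (x := x) (v := -v)
    (SumF_neg hp) hn
  rw [sumF_swap] at h1
  exact h1

/-- The key freedom: on an interval on which `p` is regular `q` may be changed. PROOF. `Hom.lerp`. At a zero `x` of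
`(1 - s) (p - q) + s (p - q')` with `y = (e x).2`: if `q y` is not in `[a, b]` then `q' = q` near `y` and `x` is
a zero of `sumF e p q` (descent direction from `Good`, `Desc1.congr`). Otherwise
`p (e x).1 = (1 - s) q y + s q' y ∈ [a, b]`: `desc_fst` for `q` and for `q'`. Bounded: the zero set of
`sumF e p q`, and `bp`, `bq` (norms: `e.symm` is bounded). -/
theorem hom_free (e : V ≃L[ℝ] ℂ × ℂ) {p q q' : ℂ → ℝ} (cp : Continuous p)
    (lq : LocallyLipschitz q) (lq' : LocallyLipschitz q') {a b : ℝ} (hg : Good (sumF e p q))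
    (hr : TReg p a b) (bp : ∃ R : ℝ, ∀ x, a ≤ p x → p x ≤ b → ‖x‖ ≤ R)
    (bq : ∃ R : ℝ, ∀ y, a ≤ q y → q y ≤ b → ‖y‖ ≤ R)
    (h1 : ∀ y, (q y < a ∨ b < q y) → q' y = q y)
    (h2 : ∀ y, a ≤ q y → q y ≤ b → a ≤ q' y ∧ q' y ≤ b) :
    Hom (sumF e p q) (sumF e p q') := by
  have cq := lq.continuous
  have cq' := lq'.continuous
  have key : ∀ s ∈ Icc (0 : ℝ) 1, ∀ x, (1 - s) * sumF e p q x + s * sumF e p q' x = 0 →
      ((q (e x).2 < a ∨ b < q (e x).2) ∧ sumF e p q x = 0) ∨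
        (a ≤ q (e x).2 ∧ q (e x).2 ≤ b ∧ a ≤ p (e x).1 ∧ p (e x).1 ≤ b) := by
    intro s hs x hx
    have hx' : (1 - s) * (p (e x).1 - q (e x).2) + s * (p (e x).1 - q' (e x).2) = 0 := hx
    by_cases hy : q (e x).2 < a ∨ b < q (e x).2
    · refine Or.inl ⟨hy, ?_⟩
      rw [h1 _ hy] at hx'
      change p (e x).1 - q (e x).2 = 0
      linarith
    · rw [not_or, not_lt, not_lt] at hy
      obtain ⟨g1, g2⟩ := h2 _ hy.1 hy.2
      have hs0 : 0 ≤ 1 - s := by linarith [hs.2]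
      have m1 := mul_le_mul_of_nonneg_left hy.1 hs0
      have m2 := mul_le_mul_of_nonneg_left hy.2 hs0
      have m3 := mul_le_mul_of_nonneg_left g1 hs.1
      have m4 := mul_le_mul_of_nonneg_left g2 hs.1
      refine Or.inr ⟨hy.1, hy.2, ?_, ?_⟩
      · linarith
      · linarith
  apply Hom.lerp (sumF_continuous e cp cq) (sumF_continuous e cp cq')
  · obtain ⟨R, hR⟩ := hg.bdd.exists_norm_le
    obtain ⟨R1, hR1⟩ := bp
    obtain ⟨R2, hR2⟩ := bq
    refine ⟨max R (‖(e.symm : ℂ × ℂ →L[ℝ] V)‖ * max R1 R2), ?_⟩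
    intro s hs x hx
    rcases key s hs x hx with ⟨_, h4⟩ | ⟨h4, h5, h6, h7⟩
    · exact (hR x h4).trans (le_max_left _ _)
    · refine le_trans ?_ (le_max_right _ _)
      have h8 : ‖e x‖ ≤ max R1 R2 := by
        rw [Prod.norm_def]
        exact max_le_max (hR1 _ h6 h7) (hR2 _ h4 h5)
      have h9 := (e.symm : ℂ × ℂ →L[ℝ] V).le_opNorm (e x)
      rw [ContinuousLinearEquiv.coe_coe, e.symm_apply_apply] at h9
      exact h9.trans (mul_le_mul_of_nonneg_left h8 (norm_nonneg _))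
  · intro s hs x hx
    rcases key s hs x hx with ⟨h3, h4⟩ | ⟨h4, h5, h6, h7⟩
    · obtain ⟨v, hv⟩ := hg.desc x h4
      refine ⟨v, hv, hv.congr ?_⟩
      have h8 : ∀ᶠ y in 𝓝 (e x).2, q y < a ∨ b < q y := by
        rcases h3 with h3 | h3
        · filter_upwards [cq.continuousAt.eventually_lt continuousAt_const h3] with y hy
          exact Or.inl hy
        · filter_upwards [continuousAt_const.eventually_lt cq.continuousAt h3] with y hy
          exact Or.inr hy
      have h9 : Tendsto (fun z : V => (e z).2) (𝓝 x) (𝓝 (e x).2) :=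
        (continuous_snd.comp e.continuous).tendsto x
      filter_upwards [h9.eventually h8] with z hz
      change p (e z).1 - q (e z).2 = p (e z).1 - q' (e z).2
      rw [h1 _ hz]
    · obtain ⟨v, hv⟩ := hr _ h6 h7
      exact ⟨e.symm (v, 0), desc_fst e lq hv, desc_fst e lq' hv⟩

/-- The other side, from `hom_free` by `sumF_swap`. -/
theorem hom_free' (e : V ≃L[ℝ] ℂ × ℂ) {p q p' : ℂ → ℝ} (cq : Continuous q)
    (lp : LocallyLipschitz p) (lp' : LocallyLipschitz p') {a b : ℝ} (hg : Good (sumF e p q))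
    (hr : TReg q a b) (bq : ∃ R : ℝ, ∀ x, a ≤ q x → q x ≤ b → ‖x‖ ≤ R)
    (bp : ∃ R : ℝ, ∀ y, a ≤ p y → p y ≤ b → ‖y‖ ≤ R)
    (h1 : ∀ y, (p y < a ∨ b < p y) → p' y = p y)
    (h2 : ∀ y, a ≤ p y → p y ≤ b → a ≤ p' y ∧ p' y ≤ b) :
    Hom (sumF e p q) (sumF e p' q) := by
  have h := hom_free (swE e) (p := fun y => -q y) (q := fun x => -p x) (q' := fun x => -p' x)
    (a := -b) (b := -a) cq.neg (SumF_neg lp) (SumF_neg lp') (by rwa [sumF_swap]) ?_ ?_ ?_ ?_ ?_
  · rwa [sumF_swap, sumF_swap] at h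
  · intro x hx1 hx2
    obtain ⟨v, hv⟩ := hr x (neg_le_neg_iff.1 hx2) (neg_le_neg_iff.1 hx1)
    exact ⟨-v, Desc.neg hv⟩
  · obtain ⟨R, hR⟩ := bq
    exact ⟨R, fun x hx1 hx2 => hR x (neg_le_neg_iff.1 hx2) (neg_le_neg_iff.1 hx1)⟩
  · obtain ⟨R, hR⟩ := bp
    exact ⟨R, fun x hx1 hx2 => hR x (neg_le_neg_iff.1 hx2) (neg_le_neg_iff.1 hx1)⟩
  · intro y hy
    rw [h1 y ?_]
    rcases hy with hy | hy
    · exact Or.inr (neg_lt_neg_iff.1 hy)
    · exact Or.inl (neg_lt_neg_iff.1 hy)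
  · intro y hy1 hy2
    obtain ⟨g1, g2⟩ := h2 y (neg_le_neg_iff.1 hy2) (neg_le_neg_iff.1 hy1)
    exact ⟨neg_le_neg g2, neg_le_neg g1⟩

end Pool.Schoen
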